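import Pool.Agent.MBS.Targets
import Pool.Agent.H25.Plancherel

set_option autoImplicit false

/-! MBS-J1: Plancherel for `T`, continuity and `R`-derivatives of multiplier families. -/

namespace Pool.Agent.MBS

open MeasureTheory FourierTransform Set Filter Topology
open scoped ENNReal NNReal

theorem ex_norm {n : ℕ} (x ξ : E n) : ‖ex x ξ‖ = 1 := by
  unfold ex
  rw [show (2 * Real.pi * Complex.I * ((inner ℝ x ξ : ℝ) : ℂ) : ℂ)
    = ((2 * Real.pi * (inner ℝ x ξ : ℝ) : ℝ) : ℂ) * Complex.I from by push_cast; ring]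
  exact Complex.norm_exp_ofReal_mul_I _

theorem ex_continuous {n : ℕ} : Continuous (fun p : E n × E n => ex p.1 p.2) := by
  unfold ex
  have : Continuous (fun p : E n × E n => ((inner ℝ p.1 p.2 : ℝ) : ℂ)) :=
    Complex.continuous_ofReal.comp (continuous_fst.inner continuous_snd)
  exact Complex.continuous_exp.comp (continuous_const.mul this)

/-- `T a h x` is the Fourier transform of `a h` at `-x` -/
theorem T_eq_fourier {n : ℕ} (a : E n → ℝ) (h : E n → ℂ) (x : E n) :
    T a h x = 𝓕 (fun ξ => (a ξ : ℂ) * h ξ) (-x) := by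
  rw [Real.fourier_eq' , T]
  refine integral_congr_ae (Filter.Eventually.of_forall fun ξ => ?_)
  simp only [ex, smul_eq_mul]
  rw [inner_neg_right, real_inner_comm]
  have : (2 * Real.pi * Complex.I * ((inner ℝ ξ x : ℝ) : ℂ) : ℂ)
    = ((-2 * Real.pi * -(inner ℝ ξ x : ℝ) : ℝ) : ℂ) * Complex.I := by push_cast; ring
  rw [this]
  ring

theorem pPlanch : tPlanch := by
  intro n a h ha hsupp hh
  set g : E n → ℂ := fun ξ => (a ξ : ℂ) * h ξ with hg
  have hgc : Continuous g := (Complex.continuous_ofReal.comp ha).mul hh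
  have hgs : HasCompactSupport g := by
    have h1 : HasCompactSupport (fun ξ => (a ξ : ℂ)) :=
      hsupp.comp_left (g := fun t : ℝ => (t : ℂ)) (by simp)
    exact h1.mul_right
  have h1 : Integrable g := hgc.integrable_of_hasCompactSupport hgs
  have h2 : MemLp g 2 := hgc.memLp_of_hasCompactSupport hgs
  have key := Pool.Agent.H25.Plancherel.eLpNorm_fourier_eq h1 h2
  rw [eLpNorm_eq_lintegral_rpow_enorm_toReal (by norm_num) (by norm_num),
    eLpNorm_eq_lintegral_rpow_enorm_toReal (by norm_num) (by norm_num)] at key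
  have key2 := ENNReal.rpow_left_injective (x := 1 / (2 : ℝ≥0∞).toReal) (by norm_num) key
  simp only [ENNReal.toReal_ofNat, ENNReal.rpow_ofNat] at key2
  calc ∫⁻ x, ‖T a h x‖ₑ ^ 2 = ∫⁻ x, ‖𝓕 g (-x)‖ₑ ^ 2 := by
        refine lintegral_congr fun x => ?_
        rw [T_eq_fourier]
    _ = ∫⁻ x, ‖𝓕 g x‖ₑ ^ 2 := by
        rw [lintegral_neg_eq_self (fun x => ‖𝓕 g x‖ₑ ^ 2)]
    _ = ∫⁻ ξ, ‖g ξ‖ₑ ^ 2 := key2
    _ = _ := by
        refine lintegral_congr fun ξ => ?_
        rw [hg]
        simp only [enorm_mul]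
        rw [mul_pow]
        congr 2
        rw [← ofReal_norm, ← ofReal_norm, Complex.norm_real]

/-- the integrand of `T` for a family is bounded near a radius -/
theorem Fam.bound {n : ℕ} {a : ℝ → E n → ℝ} (ha : Fam a) {h : E n → ℂ} (hh : Continuous h)
    {R₀ : ℝ} (hR : 0 < R₀) :
    ∃ M : ℝ, 0 ≤ M ∧ ∀ R ∈ Icc (R₀ / 2) (2 * R₀), ∀ x ξ : E n,
      ‖(a R ξ : ℂ) * (h ξ * ex x ξ)‖ ≤ (Metric.closedBall (0 : E n) (2 * R₀)).indicator
        (fun _ => M) ξ := by
  have hK : IsCompact (Icc (R₀ / 2) (2 * R₀) ×ˢ Metric.closedBall (0 : E n) (2 * R₀)) :=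
    isCompact_Icc.prod (isCompact_closedBall _ _)
  have hc : ContinuousOn (fun p : ℝ × E n => |a p.1 p.2| * ‖h p.2‖)
      (Icc (R₀ / 2) (2 * R₀) ×ˢ Metric.closedBall (0 : E n) (2 * R₀)) := by
    refine ContinuousOn.mul ?_ ?_
    · refine (ha.cont.mono ?_).abs
      rintro ⟨r, ξ⟩ ⟨hr, -⟩
      exact ⟨lt_of_lt_of_le (by positivity) hr.1, mem_univ _⟩
    · exact (hh.comp continuous_snd).norm.continuousOn
  obtain ⟨M, hM⟩ := hK.exists_bound_of_continuousOn hc
  refine ⟨max M 0, le_max_right _ _, fun R hR' x ξ => ?_⟩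
  by_cases hξ : ξ ∈ Metric.closedBall (0 : E n) (2 * R₀)
  · rw [indicator_of_mem hξ]
    have := hM (R, ξ) ⟨hR', hξ⟩
    simp only [Real.norm_eq_abs, abs_mul, abs_abs, abs_norm] at this
    rw [norm_mul, norm_mul, ex_norm, mul_one, Complex.norm_real, Real.norm_eq_abs]
    exact this.trans (le_max_left _ _)
  · rw [indicator_of_notMem hξ]
    have h0 : a R ξ = 0 := by
      refine ha.supp R (lt_of_lt_of_le (by positivity) hR'.1) ξ ?_
      simp only [Metric.mem_closedBall, dist_zero_right, not_le] at hξ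
      exact lt_of_le_of_lt hR'.2 hξ
    rw [h0]; simp

theorem Fam.continuous {n : ℕ} {a : ℝ → E n → ℝ} (ha : Fam a) {R : ℝ} (hR : 0 < R) :
    Continuous (a R) := by
  have h1 : Continuous (fun ξ : E n => ((R, ξ) : ℝ × E n)) := by fun_prop
  exact ha.cont.comp_continuous h1 (fun ξ => ⟨hR, mem_univ _⟩)

theorem Fam.hasCompactSupport {n : ℕ} {a : ℝ → E n → ℝ} (ha : Fam a) {R : ℝ} (hR : 0 < R) :
    HasCompactSupport (a R) := by
  refine HasCompactSupport.intro (isCompact_closedBall (0 : E n) R) fun ξ hξ => ?_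
  refine ha.supp R hR ξ ?_
  simpa using hξ

theorem Fam.integrand_continuous {n : ℕ} {a : ℝ → E n → ℝ} (ha : Fam a) {h : E n → ℂ}
    (hh : Continuous h) {R : ℝ} (hR : 0 < R) (x : E n) :
    Continuous (fun ξ => (a R ξ : ℂ) * (h ξ * ex x ξ)) := by
  have h1 : Continuous (fun ξ => ex x ξ) :=
    ex_continuous.comp (by fun_prop : Continuous (fun ξ : E n => (x, ξ)))
  exact (Complex.continuous_ofReal.comp (ha.continuous hR)).mul (hh.mul h1)

theorem indicator_integrable {n : ℕ} (R M : ℝ) :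
    Integrable ((Metric.closedBall (0 : E n) R).indicator (fun _ => M)) := by
  rw [integrable_indicator_iff Metric.isClosed_closedBall.measurableSet]
  exact integrableOn_const (isCompact_closedBall (0 : E n) R).measure_lt_top.ne

theorem pTcont : tTcont := by
  intro n a h ha hh
  have hop : IsOpen ((Ioi (0 : ℝ)) ×ˢ (univ : Set (E n))) := isOpen_Ioi.prod isOpen_univ
  rintro ⟨R₀, x₀⟩ ⟨hR₀, -⟩
  have hR₀ : (0 : ℝ) < R₀ := hR₀
  refine ContinuousAt.continuousWithinAt ?_
  obtain ⟨M, hM0, hM⟩ := ha.bound hh hR₀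
  have hnhds : ∀ᶠ p : ℝ × E n in 𝓝 (R₀, x₀), p.1 ∈ Icc (R₀ / 2) (2 * R₀) := by
    refine continuous_fst.continuousAt.eventually ?_
    exact Icc_mem_nhds (by linarith) (by linarith)
  refine continuousAt_of_dominated
    (bound := (Metric.closedBall (0 : E n) (2 * R₀)).indicator (fun _ => M)) ?_ ?_ ?_ ?_
  · filter_upwards [hnhds] with p hp
    exact (ha.integrand_continuous hh (lt_of_lt_of_le (by positivity) hp.1) p.2).aestronglyMeasurable
  · filter_upwards [hnhds] with p hp
    exact Filter.Eventually.of_forall fun ξ => hM p.1 hp p.2 ξ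
  · exact indicator_integrable _ _
  · refine Filter.Eventually.of_forall fun ξ => ?_
    have h1 : ContinuousAt (fun p : ℝ × E n => a p.1 ξ) (R₀, x₀) := by
      have h2 : ContinuousAt (fun p : ℝ × E n => a p.1 p.2) (R₀, ξ) :=
        ha.cont.continuousAt (hop.mem_nhds ⟨hR₀, mem_univ _⟩)
      have h3 : ContinuousAt (fun p : ℝ × E n => (p.1, ξ)) (R₀, x₀) := by fun_prop
      exact ContinuousAt.comp (g := fun p : ℝ × E n => a p.1 p.2)
        (f := fun p : ℝ × E n => (p.1, ξ)) h2 h3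
    have h4 : ContinuousAt (fun p : ℝ × E n => ex p.2 ξ) (R₀, x₀) := by
      have : Continuous (fun p : ℝ × E n => ex p.2 ξ) :=
        ex_continuous.comp (by fun_prop : Continuous (fun p : ℝ × E n => (p.2, ξ)))
      exact this.continuousAt
    exact (Complex.continuous_ofReal.continuousAt.comp h1).mul (continuousAt_const.mul h4)

theorem pTderiv : tTderiv := by
  intro n a a' h ha ha' hh hder R₀ hR₀ x
  obtain ⟨M, hM0, hM⟩ := ha'.bound hh hR₀
  have hs : Ioo (R₀ / 2) (2 * R₀) ∈ 𝓝 R₀ := Ioo_mem_nhds (by linarith) (by linarith)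
  refine (hasDerivAt_integral_of_dominated_loc_of_deriv_le
    (F := fun r ξ => (a r ξ : ℂ) * (h ξ * ex x ξ))
    (F' := fun r ξ => (a' r ξ : ℂ) * (h ξ * ex x ξ))
    (bound := (Metric.closedBall (0 : E n) (2 * R₀)).indicator (fun _ => M))
    hs ?_ ?_ ?_ ?_ ?_ ?_).2
  · filter_upwards [hs] with r hr
    exact (ha.integrand_continuous hh (lt_trans (by positivity) hr.1) x).aestronglyMeasurable
  · refine (ha.integrand_continuous hh hR₀ x).integrable_of_hasCompactSupport ?_
    have h1 : HasCompactSupport (fun ξ => (a R₀ ξ : ℂ)) :=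
      (ha.hasCompactSupport hR₀).comp_left (g := fun t : ℝ => (t : ℂ)) (by simp)
    exact h1.mul_right
  · exact (ha'.integrand_continuous hh hR₀ x).aestronglyMeasurable
  · refine Filter.Eventually.of_forall fun ξ r hr => ?_
    exact hM r ⟨hr.1.le, hr.2.le⟩ x ξ
  · exact indicator_integrable _ _
  · refine Filter.Eventually.of_forall fun ξ r hr => ?_
    exact ((hder r (lt_trans (by positivity) hr.1) ξ).ofReal_comp).mul_const _

end Pool.Agent.MBS
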