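import Pool.Agent.MBS.Targets
import Pool.Agent.H25.Plancherel

set_option autoImplicit false

/-! Maximal ball partial sums (MP_ee701d_an): job J8, scaling. -/

namespace Pool.Agent.MBS

open MeasureTheory FourierTransform Set
open scoped ENNReal NNReal

namespace J8

theorem lint_smul {n : ℕ} {c : ℝ} (hc : 0 < c) (g : E n → ℝ≥0∞) :
    ∫⁻ x, g (c • x) = ENNReal.ofReal ((c ^ n)⁻¹) * ∫⁻ x, g x := by
  have h1 := Measure.map_addHaar_smul (volume : Measure (E n)) hc.ne'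
  have h2 := lintegral_map_equiv (μ := (volume : Measure (E n))) g
    (Homeomorph.smul (isUnit_iff_ne_zero.2 hc.ne').unit).toMeasurableEquiv
  have h3 : Measure.map (⇑(Homeomorph.smul (isUnit_iff_ne_zero.2 hc.ne').unit
      : E n ≃ₜ E n).toMeasurableEquiv) (volume : Measure (E n)) =
      ENNReal.ofReal ((c ^ n)⁻¹) • (volume : Measure (E n)) := by
    rw [finrank_euclideanSpace_fin, abs_of_pos (by positivity)] at h1
    exact h1
  rw [h3, lintegral_smul_measure] at h2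
  exact h2.symm

theorem lint_inv_smul {n : ℕ} {c : ℝ} (hc : 0 < c) (g : E n → ℝ≥0∞) :
    ∫⁻ x, g (c⁻¹ • x) = ENNReal.ofReal (c ^ n) * ∫⁻ x, g x := by
  rw [lint_smul (inv_pos.2 hc), inv_pow, inv_inv]

theorem setLint_smul {n : ℕ} {c : ℝ} (hc : 0 < c) (g : E n → ℝ≥0∞) (A B : Set (E n))
    (hA : MeasurableSet A) (hB : MeasurableSet B) (hAB : ∀ x, x ∈ A ↔ c • x ∈ B) :
    ∫⁻ x in A, g (c • x) = ENNReal.ofReal ((c ^ n)⁻¹) * ∫⁻ x in B, g x := by
  rw [← lintegral_indicator hA, ← lintegral_indicator hB, ← lint_smul hc]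
  refine lintegral_congr fun x => ?_
  by_cases h : x ∈ A
  · rw [indicator_of_mem h, indicator_of_mem ((hAB x).1 h)]
  · rw [indicator_of_notMem h, indicator_of_notMem (fun h' => h ((hAB x).2 h'))]

theorem fourier_dil {n : ℕ} {c : ℝ} (hc : 0 < c) (f : E n → ℂ) (ξ : E n) :
    𝓕 (dil c f) ξ = (c ^ n : ℝ) • 𝓕 f (c • ξ) := by
  rw [Real.fourier_eq, Real.fourier_eq]
  have h := Measure.integral_comp_inv_smul_of_nonneg (volume : Measure (E n))
    (fun v => Real.fourierChar (-inner ℝ v (c • ξ)) • f v) hc.le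
  rw [finrank_euclideanSpace_fin] at h
  rw [← h]
  refine integral_congr_ae (Filter.Eventually.of_forall fun v => ?_)
  simp only [dil]
  rw [inner_smul_left, inner_smul_right]
  simp only [conj_trivial]
  rw [inv_mul_cancel_left₀ hc.ne']

theorem mul_dil {n : ℕ} (i : ℕ) {c : ℝ} (hc : 0 < c) (R : ℝ) (ξ : E n) :
    mul i R (c⁻¹ • ξ) = mul i (c * R) ξ := by
  unfold mul
  congr 3
  rw [norm_smul, Real.norm_of_nonneg (inv_pos.2 hc).le]
  rw [mul_pow, mul_pow, inv_pow, ← div_eq_inv_mul, div_div]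

theorem ex_dil {n : ℕ} {c : ℝ} (x ξ : E n) : ex x (c⁻¹ • ξ) = ex (c⁻¹ • x) ξ := by
  unfold ex
  rw [inner_smul_left, inner_smul_right]
  simp

theorem T_dil {n : ℕ} (i : ℕ) {c : ℝ} (hc : 0 < c) (R : ℝ) (f : E n → ℂ) (x : E n) :
    T (mul i R) (𝓕 (dil c f)) x = T (mul i (c * R)) (𝓕 f) (c⁻¹ • x) := by
  unfold T
  have h := Measure.integral_comp_smul_of_nonneg (volume : Measure (E n))
    (fun ξ => (mul i (c * R) ξ : ℂ) * (𝓕 f ξ * ex (c⁻¹ • x) ξ)) c (hR := hc.le)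
  rw [finrank_euclideanSpace_fin] at h
  rw [show (∫ ξ, (mul i (c * R) ξ : ℂ) * (𝓕 f ξ * ex (c⁻¹ • x) ξ)) =
    (c ^ n : ℝ) • ((c ^ n : ℝ)⁻¹ • ∫ ξ, (mul i (c * R) ξ : ℂ) * (𝓕 f ξ * ex (c⁻¹ • x) ξ)) from by
      rw [smul_smul, mul_inv_cancel₀ (by positivity), one_smul], ← h, ← integral_smul]
  refine integral_congr_ae (Filter.Eventually.of_forall fun ξ => ?_)
  simp only
  rw [← mul_dil i hc R (c • ξ), ← ex_dil (c := c) x (c • ξ), smul_smul, inv_mul_cancel₀ hc.ne',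
    one_smul, fourier_dil hc]
  simp only [Complex.real_smul]
  ring

theorem iSup_Icc {c : ℝ} (hc : 0 < c) (g : ℝ → ℝ≥0∞) :
    (⨆ R ∈ Icc (1 : ℝ) (2 * 1), g (c * R)) = ⨆ R ∈ Icc c (2 * c), g R := by
  refine le_antisymm (iSup₂_le fun R hR => ?_) (iSup₂_le fun R hR => ?_)
  · refine le_iSup₂_of_le (c * R) ?_ le_rfl
    constructor
    · nlinarith [hR.1]
    · nlinarith [hR.2]
  · refine le_iSup₂_of_le (c⁻¹ * R) ?_ ?_
    · constructor
      · rw [← div_eq_inv_mul, le_div_iff₀ hc]; linarith [hR.1]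
      · rw [← div_eq_inv_mul, div_le_iff₀ hc]; linarith [hR.2]
    · rw [mul_inv_cancel_left₀ hc.ne']

/-! #### The Fourier transform of dilations -/

theorem fourier_cont {n : ℕ} {f : E n → ℂ} (hf : Integrable f) : Continuous (𝓕 f) := by
  have := VectorFourier.fourierIntegral_continuous (V := E n) (W := E n)
      Real.continuous_fourierChar (L := innerₗ (E n)) continuous_inner hf
  exact this

theorem dil_int {n : ℕ} {c : ℝ} (hc : 0 < c) {f : E n → ℂ} (hf : Integrable f) :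
    Integrable (dil c f) :=
  hf.comp_smul (inv_ne_zero hc.ne')

theorem dil_meas {n : ℕ} {c : ℝ} {f : E n → ℂ} (hf : Measurable f) : Measurable (dil c f) :=
  hf.comp (measurable_const_smul _)

theorem enorm_sq_smul {a : ℝ} (ha : 0 ≤ a) (z : ℂ) :
    ‖a • z‖ₑ ^ 2 = ENNReal.ofReal a ^ 2 * ‖z‖ₑ ^ 2 := by
  rw [enorm_smul, Real.enorm_of_nonneg ha, mul_pow]

theorem ofReal_inv_cancel {n : ℕ} {c : ℝ} (hc : 0 < c) :
    ENNReal.ofReal ((c ^ n)⁻¹) * ENNReal.ofReal (c ^ n) = 1 := by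
  rw [← ENNReal.ofReal_mul (by positivity), inv_mul_cancel₀ (by positivity), ENNReal.ofReal_one]

theorem ofReal_inv_cancel' {n : ℕ} {c : ℝ} (hc : 0 < c) :
    ENNReal.ofReal (c ^ n) * ENNReal.ofReal ((c ^ n)⁻¹) = 1 := by
  rw [mul_comm, ofReal_inv_cancel hc]

theorem fourier_dil_int {n : ℕ} {c : ℝ} (hc : 0 < c) (f : E n → ℂ) (A B : Set (E n))
    (hA : MeasurableSet A) (hB : MeasurableSet B) (hAB : ∀ x, x ∈ A ↔ c • x ∈ B) :
    ∫⁻ ξ in A, ‖𝓕 (dil c f) ξ‖ₑ ^ 2 = ENNReal.ofReal (c ^ n) * ∫⁻ ξ in B, ‖𝓕 f ξ‖ₑ ^ 2 := by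
  have h1 : ∀ ξ : E n, ‖𝓕 (dil c f) ξ‖ₑ ^ 2 = ENNReal.ofReal (c ^ n) ^ 2 * ‖𝓕 f (c • ξ)‖ₑ ^ 2 :=
    fun ξ => by rw [fourier_dil hc, enorm_sq_smul (by positivity)]
  simp only [h1]
  rw [lintegral_const_mul' _ _ (by simp), setLint_smul hc (fun x => ‖𝓕 f x‖ₑ ^ 2) A B hA hB hAB,
    ← mul_assoc, pow_two, mul_assoc (ENNReal.ofReal (c ^ n)), ofReal_inv_cancel' hc, mul_one]

theorem dil_lint {n : ℕ} {c : ℝ} (hc : 0 < c) (f : E n → ℂ) (p : ℕ) :
    ∫⁻ x, ‖dil c f x‖ₑ ^ p = ENNReal.ofReal (c ^ n) * ∫⁻ x, ‖f x‖ₑ ^ p :=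
  lint_inv_smul hc (fun x => ‖f x‖ₑ ^ p)

theorem dil_memLp {n : ℕ} {c : ℝ} (hc : 0 < c) {f : E n → ℂ} (hm : Measurable f)
    (hf : MemLp f 2) : MemLp (dil c f) 2 := by
  refine ⟨(dil_meas hm).aestronglyMeasurable, ?_⟩
  have h := hf.2
  rw [eLpNorm_lt_top_iff_lintegral_rpow_enorm_lt_top (by norm_num) (by norm_num)] at h ⊢
  simp only [ENNReal.toReal_ofNat, ENNReal.rpow_ofNat] at h ⊢
  rw [dil_lint hc]
  exact ENNReal.mul_lt_top ENNReal.ofReal_lt_top h

end J8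

open J8

theorem pScale : tScale := by
  intro n i c f hc
  unfold W
  have h := lint_inv_smul hc (fun x : E n => (⨆ R ∈ Icc c (2 * c), ‖T (mul i R) (𝓕 f) x‖ₑ) ^ 2)
  rw [← h]
  refine lintegral_congr fun x => ?_
  rw [← iSup_Icc hc]
  simp only [T_dil i hc]

namespace J8

theorem W_scale {n : ℕ} (i : ℕ) {c : ℝ} (hc : 0 < c) (f : E n → ℂ) :
    W i c f = ENNReal.ofReal ((c ^ n)⁻¹) * W i 1 (dil c f) := by
  rw [pScale n i c f hc, ← mul_assoc, ofReal_inv_cancel hc, one_mul]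

theorem W_one {n : ℕ} (i : ℕ) (f : E n → ℂ) :
    W i 1 f = ∫⁻ x, (⨆ R ∈ Icc (1 : ℝ) 2, ‖T (mul i R) (𝓕 f) x‖ₑ) ^ 2 := by
  unfold W
  rw [mul_one]

end J8

theorem pF2c (h2 : tF2) : tF2c := by
  obtain ⟨C, hC⟩ := h2
  refine ⟨C, fun n i c f hc hf => ?_⟩
  rw [W_scale i hc f, W_one]
  refine (mul_le_mul_right (hC n i _ (fourier_cont (dil_int hc hf))) _).trans (le_of_eq ?_)
  rw [fourier_dil_int hc f {ξ : E n | 1 / 2 ≤ ‖ξ‖ ∧ ‖ξ‖ ≤ 2} {ξ : E n | c / 2 ≤ ‖ξ‖ ∧ ‖ξ‖ ≤ 2 * c}]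
  · rw [mul_left_comm, ← mul_assoc (ENNReal.ofReal _), ofReal_inv_cancel hc, one_mul]
  · exact (measurableSet_le measurable_const measurable_norm).inter
      (measurableSet_le measurable_norm measurable_const)
  · exact (measurableSet_le measurable_const measurable_norm).inter
      (measurableSet_le measurable_norm measurable_const)
  · intro x
    simp only [mem_ofPred_eq, norm_smul, Real.norm_of_nonneg hc.le]
    constructor
    · rintro ⟨h1, h2⟩
      constructor <;> nlinarith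
    · rintro ⟨h1, h2⟩
      constructor
      · by_contra h
        push Not at h
        nlinarith
      · by_contra h
        push Not at h
        nlinarith

theorem pGainc (hG : tGain) : tGainc := by
  intro n
  obtain ⟨C, hC⟩ := hG n
  refine ⟨C, fun i c s g hc hm hi h2 hs => ?_⟩
  rw [W_scale i hc g, W_one]
  have hP : (0 : ℝ) < (PP i : ℝ) := by unfold PP; positivity
  refine (mul_le_mul_right (hC i s _ (dil_meas hm) (dil_int hc hi) (dil_memLp hc hm h2) ?_) _).trans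
    (le_of_eq ?_)
  · intro x hx j hj
    have := hs _ hx j hj
    rw [PiLp.smul_apply, smul_eq_mul, abs_mul, abs_of_pos (inv_pos.2 hc),
      mul_inv_cancel_left₀ hc.ne'] at this
    exact this
  · have h1 : ∀ j : Fin n, ∫⁻ ξ in {ξ : E n | (PP i : ℝ)⁻¹ ≤ |ξ j|}, ‖𝓕 (dil c g) ξ‖ₑ ^ 2 =
        ENNReal.ofReal (c ^ n) * ∫⁻ ξ in {ξ : E n | c / (PP i : ℝ) ≤ |ξ j|}, ‖𝓕 g ξ‖ₑ ^ 2 := by
      intro j
      refine fourier_dil_int hc g _ _ ?_ ?_ ?_
      · exact measurableSet_le measurable_const (by fun_prop)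
      · exact measurableSet_le measurable_const (by fun_prop)
      · intro x
        simp only [mem_ofPred_eq, PiLp.smul_apply, smul_eq_mul, abs_mul, abs_of_pos hc]
        rw [div_eq_mul_inv]
        constructor
        · intro h
          exact mul_le_mul_of_nonneg_left h hc.le
        · intro h
          exact le_of_mul_le_mul_left h hc
    simp only [h1]
    rw [← Finset.mul_sum, dil_lint hc, mul_left_comm (PP i : ℝ≥0∞)⁻¹, ← mul_add,
      mul_left_comm, ← mul_assoc (ENNReal.ofReal _), ofReal_inv_cancel hc, one_mul]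

namespace J8

/-- every radius lies in at most three dyadic annuli -/
theorem overlap (r : ℝ) :
    ∑' m : ℤ, ({m : ℤ | (2 : ℝ) ^ m / 2 ≤ r ∧ r ≤ 2 * 2 ^ m} : Set ℤ).indicator
      (fun _ => (1 : ℝ≥0∞)) m ≤ 3 := by
  rcases le_or_gt r 0 with hr | hr
  · have h : ∀ m : ℤ, ({m : ℤ | (2 : ℝ) ^ m / 2 ≤ r ∧ r ≤ 2 * 2 ^ m} : Set ℤ).indicator
        (fun _ => (1 : ℝ≥0∞)) m = 0 := by
      intro m
      refine indicator_of_notMem ?_ _
      rintro ⟨h1, -⟩
      have : (0 : ℝ) < 2 ^ m := by positivity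
      linarith
    simp only [h, tsum_zero]
    exact zero_le
  · set k := Int.log 2 r with hk
    have hk1 : (2 : ℝ) ^ k ≤ r := Int.zpow_log_le_self (by norm_num) hr
    have hk2 : r < (2 : ℝ) ^ (k + 1) := Int.lt_zpow_succ_log_self (by norm_num) r
    rw [tsum_eq_sum (s := Finset.Icc (k - 1) (k + 1))]
    · refine (Finset.sum_le_card_nsmul _ _ 1 fun m _ => ?_).trans ?_
      · exact indicator_le_self' (fun _ _ => zero_le) m
      · rw [Int.card_Icc, nsmul_eq_mul, mul_one]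
        have : (k + 1 + 1 - (k - 1)).toNat = 3 := by omega
        rw [this]
        norm_num
    · intro m hm
      refine indicator_of_notMem ?_ _
      rintro ⟨h1, h2⟩
      apply hm
      rw [Finset.mem_Icc]
      constructor
      · by_contra h
        have h3 : m + 2 ≤ k := by omega
        have h4 : (2 : ℝ) ^ (m + 2) ≤ 2 ^ k := zpow_le_zpow_right₀ (by norm_num) h3
        rw [zpow_add₀ (by norm_num)] at h4
        have : (0 : ℝ) < 2 ^ m := by positivity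
        norm_num at h4
        linarith
      · by_contra h
        have h3 : k + 1 + 1 ≤ m := by omega
        have h4 : (2 : ℝ) ^ (k + 1 + 1) ≤ 2 ^ m := zpow_le_zpow_right₀ (by norm_num) h3
        rw [zpow_add₀ (by norm_num)] at h4
        norm_num at h4
        linarith

theorem plancherel_sq {n : ℕ} {f : E n → ℂ} (h1 : Integrable f) (h2 : MemLp f 2) :
    ∫⁻ ξ, ‖𝓕 f ξ‖ₑ ^ 2 = ∫⁻ x, ‖f x‖ₑ ^ 2 := by
  have h := H25.Plancherel.eLpNorm_fourier_eq h1 h2
  rw [eLpNorm_eq_lintegral_rpow_enorm_toReal (by norm_num) (by norm_num),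
    eLpNorm_eq_lintegral_rpow_enorm_toReal (by norm_num) (by norm_num)] at h
  simp only [ENNReal.toReal_ofNat, ENNReal.rpow_ofNat] at h
  exact ENNReal.rpow_left_injective (by norm_num) h

end J8

theorem pTriv (hF : tF2c) : tTriv := by
  obtain ⟨C, hC⟩ := hF
  refine ⟨C * 3, fun n i f hf h2 => ?_⟩
  have hmeas : ∀ m : ℤ, MeasurableSet {ξ : E n | (2 : ℝ) ^ m / 2 ≤ ‖ξ‖ ∧ ‖ξ‖ ≤ 2 * 2 ^ m} :=
    fun m => (measurableSet_le measurable_const measurable_norm).inter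
      (measurableSet_le measurable_norm measurable_const)
  have hFm : Measurable (fun ξ => ‖𝓕 f ξ‖ₑ ^ 2) :=
    (fourier_cont hf).measurable.enorm.pow_const 2
  calc ∑' m : ℤ, W i (2 ^ m) f
      ≤ ∑' m : ℤ, C * ∫⁻ ξ in {ξ : E n | (2 : ℝ) ^ m / 2 ≤ ‖ξ‖ ∧ ‖ξ‖ ≤ 2 * 2 ^ m}, ‖𝓕 f ξ‖ₑ ^ 2 :=
        ENNReal.tsum_le_tsum fun m => hC n i _ f (by positivity) hf
    _ = C * ∫⁻ ξ, ∑' m : ℤ, ({ξ : E n | (2 : ℝ) ^ m / 2 ≤ ‖ξ‖ ∧ ‖ξ‖ ≤ 2 * 2 ^ m}).indicator
          (fun ξ => ‖𝓕 f ξ‖ₑ ^ 2) ξ := by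
        rw [ENNReal.tsum_mul_left, lintegral_tsum]
        · congr 1
          refine tsum_congr fun m => ?_
          rw [lintegral_indicator (hmeas m)]
        · exact fun m => (hFm.indicator (hmeas m)).aemeasurable
    _ ≤ C * ∫⁻ ξ, 3 * ‖𝓕 f ξ‖ₑ ^ 2 := by
        refine mul_le_mul_right (lintegral_mono fun ξ => ?_) _
        have h1 : ∀ m : ℤ, ({ξ : E n | (2 : ℝ) ^ m / 2 ≤ ‖ξ‖ ∧ ‖ξ‖ ≤ 2 * 2 ^ m}).indicator
            (fun ξ => ‖𝓕 f ξ‖ₑ ^ 2) ξ =
            ({m : ℤ | (2 : ℝ) ^ m / 2 ≤ ‖ξ‖ ∧ ‖ξ‖ ≤ 2 * 2 ^ m} : Set ℤ).indicator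
              (fun _ => (1 : ℝ≥0∞)) m * ‖𝓕 f ξ‖ₑ ^ 2 := by
          intro m
          by_cases h : (2 : ℝ) ^ m / 2 ≤ ‖ξ‖ ∧ ‖ξ‖ ≤ 2 * 2 ^ m
          · rw [indicator_of_mem (by exact h), indicator_of_mem (by exact h), one_mul]
          · rw [indicator_of_notMem (by exact h), indicator_of_notMem (by exact h), zero_mul]
        simp only [h1]
        rw [ENNReal.tsum_mul_right]
        exact mul_le_mul_left (overlap ‖ξ‖) _
    _ = ↑(C * 3) * ∫⁻ x, ‖f x‖ₑ ^ 2 := by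
        rw [lintegral_const_mul _ hFm, plancherel_sq hf h2, ← mul_assoc]
        norm_cast

namespace J8

/-! #### Continuity of the multiplier operators -/

theorem ps_zero {u : ℝ} (hu : u ≤ 1 / 8) : ps u = 0 := by
  unfold ps et
  rw [Real.smoothTransition.zero_of_nonpos (by linarith),
    Real.smoothTransition.zero_of_nonpos (by linarith), sub_zero]

theorem ps_cont : Continuous ps := by
  unfold ps et
  exact (Real.smoothTransition.continuous.comp (by fun_prop)).sub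
    (Real.smoothTransition.continuous.comp (by fun_prop))

theorem mul_cont {n : ℕ} (i : ℕ) (R : ℝ) : Continuous (mul (n := n) i R) := by
  unfold mul
  exact ps_cont.comp (by fun_prop)

theorem mul_supp {n : ℕ} (i : ℕ) {R : ℝ} (hR : 0 < R) : HasCompactSupport (mul (n := n) i R) := by
  refine HasCompactSupport.intro (isCompact_closedBall (0 : E n) R) fun ξ hξ => ?_
  rw [mem_closedBall_zero_iff, not_le] at hξ
  unfold mul
  refine ps_zero ?_
  have h1 : 1 ≤ ‖ξ‖ ^ 2 / R ^ 2 := by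
    rw [le_div_iff₀ (by positivity), one_mul]
    exact pow_le_pow_left₀ hR.le hξ.le 2
  have h2 : (0 : ℝ) < 2 ^ i := by positivity
  nlinarith

theorem ex_cont {n : ℕ} : Continuous (fun p : E n × E n => ex p.1 p.2) := by
  unfold ex
  fun_prop

theorem ex_norm {n : ℕ} (x ξ : E n) : ‖ex x ξ‖ = 1 := by
  unfold ex
  rw [show (2 * Real.pi * Complex.I * ((inner ℝ x ξ : ℝ) : ℂ)) =
    ((2 * Real.pi * inner ℝ x ξ : ℝ) : ℂ) * Complex.I from by push_cast; ring]
  exact Complex.norm_exp_ofReal_mul_I _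

theorem T_cont {n : ℕ} {a : E n → ℝ} {h : E n → ℂ} (ha : Continuous a)
    (hc : HasCompactSupport a) (hh : Continuous h) : Continuous (T a h) := by
  unfold T
  have h1 : Continuous fun ξ => (a ξ : ℂ) * h ξ := (Complex.continuous_ofReal.comp ha).mul hh
  have h2 : HasCompactSupport fun ξ => (a ξ : ℂ) * h ξ := by
    refine HasCompactSupport.mul_right ?_
    exact hc.comp_left (g := fun t : ℝ => (t : ℂ)) Complex.ofReal_zero
  refine continuous_of_dominated (bound := fun ξ => ‖(a ξ : ℂ) * h ξ‖) ?_ ?_ ?_ ?_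
  · intro x
    refine Continuous.aestronglyMeasurable ?_
    exact (Complex.continuous_ofReal.comp ha).mul
      (hh.mul (ex_cont.comp (continuous_const.prodMk continuous_id)))
  · intro x
    refine Filter.Eventually.of_forall fun ξ => le_of_eq ?_
    rw [norm_mul, norm_mul, norm_mul, ex_norm, mul_one]
  · exact (h1.integrable_of_hasCompactSupport h2).norm
  · refine Filter.Eventually.of_forall fun ξ => ?_
    exact continuous_const.mul (continuous_const.mul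
      (ex_cont.comp (continuous_id.prodMk continuous_const)))

theorem sup_meas {n : ℕ} (i : ℕ) {c d : ℝ} (hc : 0 < c) {h : E n → ℂ} (hh : Continuous h) :
    Measurable fun x => ⨆ R ∈ Icc c d, ‖T (mul i R) h x‖ₑ := by
  refine LowerSemicontinuous.measurable ?_
  refine lowerSemicontinuous_biSup fun R hR => ?_
  exact (T_cont (mul_cont i R) (mul_supp i (hc.trans_le hR.1)) hh).enorm.lowerSemicontinuous

end J8

theorem pTstarW : tTstarW := by
  intro n i f hf
  have h0 : ∀ x, Tstar i f x ^ 2 ≤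
      ∑' m : ℤ, (⨆ R ∈ Icc ((2 : ℝ) ^ m) (2 * 2 ^ m), ‖T (mul i R) (𝓕 f) x‖ₑ) ^ 2 := by
    intro x
    set S := ∑' m : ℤ, (⨆ R ∈ Icc ((2 : ℝ) ^ m) (2 * 2 ^ m), ‖T (mul i R) (𝓕 f) x‖ₑ) ^ 2 with hS
    have h1 : Tstar i f x ≤ S ^ (1 / 2 : ℝ) := by
      refine iSup₂_le fun R hR => ?_
      have hk1 : (2 : ℝ) ^ (Int.log 2 R) ≤ R := Int.zpow_log_le_self (by norm_num) hR
      have hk2 : R < (2 : ℝ) ^ (Int.log 2 R + 1) := Int.lt_zpow_succ_log_self (by norm_num) R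
      rw [zpow_add_one₀ (by norm_num)] at hk2
      have h2 : ‖T (mul i R) (𝓕 f) x‖ₑ ^ 2 ≤ S := by
        refine le_trans ?_ (ENNReal.le_tsum (Int.log 2 R))
        refine pow_le_pow_left' ?_ 2
        exact le_iSup₂_of_le R ⟨hk1, by linarith⟩ le_rfl
      calc ‖T (mul i R) (𝓕 f) x‖ₑ = (‖T (mul i R) (𝓕 f) x‖ₑ ^ 2) ^ (1 / 2 : ℝ) := by
            rw [← ENNReal.rpow_natCast, ← ENNReal.rpow_mul]; norm_num
        _ ≤ S ^ (1 / 2 : ℝ) := ENNReal.rpow_le_rpow h2 (by norm_num)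
    calc Tstar i f x ^ 2 ≤ (S ^ (1 / 2 : ℝ)) ^ 2 := pow_le_pow_left' h1 2
      _ = S := by rw [← ENNReal.rpow_natCast, ← ENNReal.rpow_mul]; norm_num
  refine (lintegral_mono h0).trans ?_
  rw [lintegral_tsum]
  · rfl
  · intro m
    exact ((sup_meas i (by positivity) (fourier_cont hf)).pow_const 2).aemeasurable

namespace J8

/-! #### The kernel representation -/

theorem ex_sub {n : ℕ} (x y ξ : E n) :
    ((Real.fourierChar (-inner ℝ y ξ) : Circle) : ℂ) * ex x ξ = ex (x - y) ξ := by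
  unfold ex
  rw [Real.fourierChar_apply, ← Complex.exp_add, inner_sub_left]
  congr 1
  push_cast
  ring

theorem prod_int {n : ℕ} {a : E n → ℝ} (ha : Continuous a) (hc : HasCompactSupport a)
    {f : E n → ℂ} (hf : Integrable f) (x : E n) :
    Integrable (Function.uncurry fun (ξ y : E n) => (a ξ : ℂ) * (f y * ex (x - y) ξ))
      ((volume : Measure (E n)).prod volume) := by
  have h1 : Integrable (fun ξ => (a ξ : ℂ)) := (ha.integrable_of_hasCompactSupport hc).ofReal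
  have h2 : Integrable (fun z : E n × E n => (a z.1 : ℂ) * f z.2)
      ((volume : Measure (E n)).prod volume) := h1.mul_prod hf
  have h3 : Continuous (fun z : E n × E n => ex (x - z.2) z.1) :=
    ex_cont.comp ((continuous_const.sub continuous_snd).prodMk continuous_fst)
  refine Integrable.mono h2 ?_ ?_
  · have := h2.aestronglyMeasurable.mul h3.aestronglyMeasurable
    refine this.congr (Filter.Eventually.of_forall fun z => ?_)
    simp only [Pi.mul_apply, Function.uncurry]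
    exact mul_assoc _ _ _
  · refine Filter.Eventually.of_forall fun z => le_of_eq ?_
    simp only [Function.uncurry]
    rw [norm_mul, norm_mul, norm_mul, ex_norm, mul_one]

theorem T_conv {n : ℕ} {a : E n → ℝ} (ha : Continuous a) (hc : HasCompactSupport a)
    {f : E n → ℂ} (hf : Integrable f) (x : E n) :
    T a (𝓕 f) x = ∫ y, f y * T a (fun _ => 1) (x - y) := by
  unfold T
  have h1 : ∀ ξ : E n, (a ξ : ℂ) * (𝓕 f ξ * ex x ξ) = ∫ y, (a ξ : ℂ) * (f y * ex (x - y) ξ) := by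
    intro ξ
    rw [Real.fourier_eq, ← integral_mul_const, ← integral_const_mul]
    refine integral_congr_ae (Filter.Eventually.of_forall fun y => ?_)
    simp only
    rw [← ex_sub, Circle.smul_def, smul_eq_mul]
    ring
  have h2 : ∀ y : E n, f y * ∫ ξ, (a ξ : ℂ) * (1 * ex (x - y) ξ) =
      ∫ ξ, (a ξ : ℂ) * (f y * ex (x - y) ξ) := by
    intro y
    rw [← integral_const_mul]
    refine integral_congr_ae (Filter.Eventually.of_forall fun ξ => ?_)
    simp only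
    ring
  simp only [h1, h2]
  exact integral_integral_swap (prod_int ha hc hf x)

/-- Cauchy-Schwarz with a weight -/
theorem cs {n : ℕ} {F k : E n → ℝ≥0∞} (hF : Measurable F) (hk : Measurable k) :
    (∫⁻ y, F y * k y) ^ 2 ≤ (∫⁻ y, F y) * ∫⁻ y, F y * k y ^ 2 := by
  have h := ENNReal.lintegral_mul_le_Lp_mul_Lq (volume.withDensity F) (p := 2) (q := 2)
    Real.HolderConjugate.two_two (f := fun _ => 1) (g := k) aemeasurable_const hk.aemeasurable
  simp only [Pi.mul_apply, one_mul, ENNReal.rpow_ofNat, one_pow] at h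
  rw [lintegral_withDensity_eq_lintegral_mul _ hF measurable_const,
    lintegral_withDensity_eq_lintegral_mul _ hF hk,
    lintegral_withDensity_eq_lintegral_mul _ hF (hk.pow_const 2)] at h
  simp only [Pi.mul_apply, mul_one] at h
  calc (∫⁻ y, F y * k y) ^ 2
      ≤ ((∫⁻ y, F y) ^ (1 / 2 : ℝ) * (∫⁻ y, F y * k y ^ 2) ^ (1 / 2 : ℝ)) ^ 2 :=
        pow_le_pow_left' h 2
    _ = (∫⁻ y, F y) * ∫⁻ y, F y * k y ^ 2 := by
        rw [mul_pow, ← ENNReal.rpow_natCast, ← ENNReal.rpow_mul, ← ENNReal.rpow_natCast,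
          ← ENNReal.rpow_mul]
        norm_num

end J8

theorem pGainL1 (hK : tGainK) : tGainL1 := by
  intro n
  obtain ⟨C, hC⟩ := hK n
  refine ⟨C, fun i c f hc hm hf => ?_⟩
  set k : E n → ℝ≥0∞ := fun z => ⨆ R ∈ Icc (1 : ℝ) 2, ‖T (mul i R) (fun _ => 1) z‖ₑ with hk
  have hkm : Measurable k := sup_meas i (by norm_num) continuous_const
  have key : ∀ g : E n → ℂ, Measurable g → Integrable g →
      W i 1 g ≤ C * (PP i : ℝ≥0∞)⁻¹ * (∫⁻ x, ‖g x‖ₑ) ^ 2 := by
    intro g hgm hg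
    rw [W_one]
    have h1 : ∀ x, (⨆ R ∈ Icc (1 : ℝ) 2, ‖T (mul i R) (𝓕 g) x‖ₑ) ≤
        ∫⁻ y, ‖g y‖ₑ * k (x - y) := by
      intro x
      refine iSup₂_le fun R hR => ?_
      rw [T_conv (mul_cont i R) (mul_supp i (by linarith [hR.1])) hg]
      refine (enorm_integral_le_lintegral_enorm _).trans (lintegral_mono fun y => ?_)
      rw [enorm_mul]
      refine mul_le_mul_right ?_ _
      exact le_iSup₂_of_le R hR le_rfl
    have h2 : ∀ x, (⨆ R ∈ Icc (1 : ℝ) 2, ‖T (mul i R) (𝓕 g) x‖ₑ) ^ 2 ≤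
        (∫⁻ y, ‖g y‖ₑ) * ∫⁻ y, ‖g y‖ₑ * k (x - y) ^ 2 := fun x =>
      (pow_le_pow_left' (h1 x) 2).trans
        (cs hgm.enorm (hkm.comp (measurable_const.sub measurable_id)))
    refine (lintegral_mono h2).trans ?_
    rw [lintegral_const_mul]
    · rw [lintegral_lintegral_swap]
      · have h3 : ∀ y : E n, ∫⁻ x, ‖g y‖ₑ * k (x - y) ^ 2 = ‖g y‖ₑ * ∫⁻ x, k x ^ 2 := by
          intro y
          have hm1 : Measurable fun x => k (x - y) ^ 2 :=
            (hkm.comp (measurable_id.sub measurable_const)).pow_const 2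
          rw [lintegral_const_mul _ hm1]
          congr 1
          exact lintegral_sub_right_eq_self (fun x => k x ^ 2) y
        simp only [h3]
        rw [lintegral_mul_const _ hgm.enorm, pow_two]
        calc (∫⁻ y, ‖g y‖ₑ) * ((∫⁻ y, ‖g y‖ₑ) * ∫⁻ x, k x ^ 2)
            ≤ (∫⁻ y, ‖g y‖ₑ) * ((∫⁻ y, ‖g y‖ₑ) * (C * (PP i : ℝ≥0∞)⁻¹)) := by
              gcongr
              exact hC i
          _ = C * (PP i : ℝ≥0∞)⁻¹ * ((∫⁻ y, ‖g y‖ₑ) * ∫⁻ y, ‖g y‖ₑ) := by ring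
      · refine Measurable.aemeasurable ?_
        exact (hgm.enorm.comp measurable_snd).mul
          ((hkm.comp (measurable_fst.sub measurable_snd)).pow_const 2)
    · refine Measurable.lintegral_prod_right' (f := fun p : E n × E n =>
        ‖g p.2‖ₑ * k (p.1 - p.2) ^ 2) ?_
      exact (hgm.enorm.comp measurable_snd).mul
          ((hkm.comp (measurable_fst.sub measurable_snd)).pow_const 2)
  rw [W_scale i hc f]
  refine (mul_le_mul_right (key _ (dil_meas hm) (dil_int hc hf)) _).trans (le_of_eq ?_)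
  have h4 := dil_lint hc f 1
  simp only [pow_one] at h4
  rw [h4, mul_pow]
  calc ENNReal.ofReal (c ^ n)⁻¹ * (C * (PP i : ℝ≥0∞)⁻¹ *
        (ENNReal.ofReal (c ^ n) ^ 2 * (∫⁻ x, ‖f x‖ₑ) ^ 2))
      = (ENNReal.ofReal (c ^ n)⁻¹ * ENNReal.ofReal (c ^ n)) * (C * (PP i : ℝ≥0∞)⁻¹ *
        ENNReal.ofReal (c ^ n) * (∫⁻ x, ‖f x‖ₑ) ^ 2) := by ring
    _ = _ := by rw [ofReal_inv_cancel hc, one_mul]

end Pool.Agent.MBS
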