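import Pool.Agent.MBS.Targets

set_option autoImplicit false

/-! J3: the oscillator lemma.  For `R ∈ [a,b]` the formula
`F R = ∫_a^b (2 φ c F - φ' s F) + ∫_a^R Φ s G + ∫_R^b (Φ - 1) s G`, `G = F'' + w² F`,
`c t = cos (w (R - t))`, `s t = sin (w (R - t)) / w`, `Φ' = φ`, bounds `‖F R‖` uniformly in `w`. -/

namespace Pool.Agent.MBS

open MeasureTheory Set

/-- `sin (w x) / w`, with the value `x` at `w = 0` -/
noncomputable def sn (w x : ℝ) : ℝ := if w = 0 then x else Real.sin (w * x) / w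

lemma sn_zero (w : ℝ) : sn w 0 = 0 := by
  unfold sn; split_ifs <;> simp

lemma hasDerivAt_sn (w x : ℝ) : HasDerivAt (sn w) (Real.cos (w * x)) x := by
  by_cases hw : w = 0
  · have : sn w = fun x => x := by funext y; simp [sn, hw]
    rw [this, hw]; simpa using hasDerivAt_id' x
  · have : sn w = fun x => Real.sin (w * x) / w := by funext y; simp [sn, hw]
    rw [this]
    have h1 : HasDerivAt (fun x : ℝ => w * x) w x := by
      simpa using (hasDerivAt_id x).const_mul w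
    have h2 := (h1.sin).div_const w
    have h3 : Real.cos (w * x) * w / w = Real.cos (w * x) := by field_simp
    rw [h3] at h2
    exact h2

lemma hasDerivAt_cs (w x : ℝ) :
    HasDerivAt (fun y => Real.cos (w * y)) (-(w ^ 2 * sn w x)) x := by
  have h1 : HasDerivAt (fun x : ℝ => w * x) w x := by
    simpa using (hasDerivAt_id x).const_mul w
  have h2 := h1.cos
  have h3 : -Real.sin (w * x) * w = -(w ^ 2 * sn w x) := by
    unfold sn
    split_ifs with hw
    · rw [hw]; ring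
    · field_simp
  rw [h3] at h2
  exact h2

lemma abs_sn_le (w x : ℝ) : |sn w x| ≤ |x| := by
  unfold sn
  split_ifs with hw
  · exact le_rfl
  · rw [abs_div, div_le_iff₀ (abs_pos.mpr hw)]
    calc |Real.sin (w * x)| ≤ |w * x| := Real.abs_sin_le_abs
      _ = |x| * |w| := by rw [abs_mul, mul_comm]

lemma continuous_sn (w : ℝ) : Continuous (sn w) :=
  continuous_iff_continuousAt.mpr fun x => (hasDerivAt_sn w x).continuousAt

/-- derivative of the auxiliary function, for a general cutoff `A` with derivative `p`, whose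
derivative is `p1` -/
lemma hasDerivAt_aux (F F1 F2 : ℝ → ℂ) (A p p1 : ℝ → ℝ) (w R t : ℝ)
    (hF : HasDerivAt F (F1 t) t) (hF1 : HasDerivAt F1 (F2 t) t)
    (hA : HasDerivAt A (p t) t) (hp : HasDerivAt p (p1 t) t) :
    HasDerivAt (fun t => A t • (Real.cos (w * (R - t)) • F t + sn w (R - t) • F1 t)
        - (p t * sn w (R - t)) • F t)
      ((2 * p t * Real.cos (w * (R - t)) - p1 t * sn w (R - t)) • F t +
        (A t * sn w (R - t)) • (F2 t + ((w ^ 2 : ℝ) : ℂ) * F t)) t := by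
  have hR : HasDerivAt (fun t : ℝ => R - t) (-1) t := by
    simpa using (hasDerivAt_id t).const_sub R
  have hc : HasDerivAt (fun t : ℝ => Real.cos (w * (R - t))) (w ^ 2 * sn w (R - t)) t := by
    have h := (hasDerivAt_cs w (R - t)).comp t hR
    have h2 : -(w ^ 2 * sn w (R - t)) * -1 = w ^ 2 * sn w (R - t) := by ring
    rw [h2] at h
    exact h
  have hs : HasDerivAt (fun t : ℝ => sn w (R - t)) (-Real.cos (w * (R - t))) t := by
    have h := (hasDerivAt_sn w (R - t)).comp t hR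
    have h2 : Real.cos (w * (R - t)) * -1 = -Real.cos (w * (R - t)) := by ring
    rw [h2] at h
    exact h
  have h1 := (hA.smul ((hc.smul hF).add (hs.smul hF1))).sub ((hp.mul hs).smul hF)
  refine h1.congr_deriv ?_
  simp only [Complex.real_smul, Pi.add_apply, Pi.smul_apply', Pi.mul_apply]
  push_cast
  ring

lemma ode_bound (F F1 F2 : ℝ → ℂ) (w a b : ℝ) (hab : a < b)
    (hc : ContinuousOn F2 (Icc a b))
    (hF : ∀ t ∈ Icc a b, HasDerivAt F (F1 t) t) (hF1 : ∀ t ∈ Icc a b, HasDerivAt F1 (F2 t) t)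
    (R : ℝ) (hR : R ∈ Icc a b) :
    ‖F R‖ ≤ ∫ t in a..b, (9 / (b - a) * ‖F t‖ + (b - a) * ‖F2 t + ((w ^ 2 : ℝ) : ℂ) * F t‖) := by
  have hL : 0 < b - a := by linarith
  obtain ⟨L, hLdef⟩ : ∃ L, L = b - a := ⟨_, rfl⟩
  rw [← hLdef] at hL ⊢
  have hFc : ContinuousOn F (Icc a b) := fun t ht => (hF t ht).continuousAt.continuousWithinAt
  -- the cutoffs
  let p : ℝ → ℝ := fun t => 6 * ((t - a) * (b - t)) / L ^ 3
  let p1 : ℝ → ℝ := fun t => 6 * ((b - t) - (t - a)) / L ^ 3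
  let A : ℝ → ℝ := fun t => (t - a) ^ 2 * (3 * L - 2 * (t - a)) / L ^ 3
  let A' : ℝ → ℝ := fun t => A t - 1
  have hp : ∀ t, HasDerivAt p (p1 t) t := by
    intro t
    have h1 : HasDerivAt (fun t : ℝ => t - a) 1 t := (hasDerivAt_id t).sub_const a
    have h2 : HasDerivAt (fun t : ℝ => b - t) (-1) t := by
      simpa using (hasDerivAt_id t).const_sub b
    have h3 := ((h1.mul h2).const_mul 6).div_const (L ^ 3)
    refine h3.congr_deriv ?_
    show _ = 6 * ((b - t) - (t - a)) / L ^ 3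
    ring
  have hA : ∀ t, HasDerivAt A (p t) t := by
    intro t
    have h1 : HasDerivAt (fun t : ℝ => t - a) 1 t := (hasDerivAt_id t).sub_const a
    have h3 := ((h1.pow 2).mul (((h1.const_mul 2)).const_sub (3 * L))).div_const (L ^ 3)
    refine h3.congr_deriv ?_
    show _ = 6 * ((t - a) * (b - t)) / L ^ 3
    rw [hLdef]
    simp only [Nat.cast_ofNat, Pi.pow_apply]
    ring
  have hA' : ∀ t, HasDerivAt A' (p t) t := fun t => (hA t).sub_const 1
  have hpc : Continuous p := continuous_iff_continuousAt.mpr fun t => (hp t).continuousAt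
  have hAc : Continuous A := continuous_iff_continuousAt.mpr fun t => (hA t).continuousAt
  have hp1c : Continuous p1 := by
    show Continuous fun t => 6 * ((b - t) - (t - a)) / L ^ 3
    fun_prop
  have hsc : Continuous (fun t => sn w (R - t)) := (continuous_sn w).comp (by fun_prop)
  have hLne : L ≠ 0 := hL.ne'
  have hpa : p a = 0 := by simp [p]
  have hpb : p b = 0 := by simp [p]
  have hAa : A a = 0 := by simp [A]
  have hAb : A' b = 0 := by
    show (b - a) ^ 2 * (3 * L - 2 * (b - a)) / L ^ 3 - 1 = 0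
    rw [← hLdef]; field_simp; ring
  -- integrand
  let g : (ℝ → ℝ) → ℝ → ℂ := fun B t =>
      (2 * p t * Real.cos (w * (R - t)) - p1 t * sn w (R - t)) • F t +
        (B t * sn w (R - t)) • (F2 t + ((w ^ 2 : ℝ) : ℂ) * F t)
  have hgc : ∀ B : ℝ → ℝ, Continuous B → ContinuousOn (g B) (Icc a b) := by
    intro B hB
    have h1 : Continuous (fun t => 2 * p t * Real.cos (w * (R - t)) - p1 t * sn w (R - t)) := by
      fun_prop
    have h2 : Continuous (fun t => B t * sn w (R - t)) := hB.mul hsc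
    exact (h1.continuousOn.smul hFc).add (h2.continuousOn.smul
      (hc.add (continuousOn_const.mul hFc)))
  have hsub1 : uIcc a R ⊆ Icc a b := by
    rw [uIcc_of_le hR.1]; exact Icc_subset_Icc le_rfl hR.2
  have hsub2 : uIcc R b ⊆ Icc a b := by
    rw [uIcc_of_le hR.2]; exact Icc_subset_Icc hR.1 le_rfl
  have hA'c : Continuous A' := hAc.sub continuous_const
  have i1 : IntervalIntegrable (g A) volume a R :=
    ((hgc A hAc).mono hsub1).intervalIntegrable
  have i2 : IntervalIntegrable (g A') volume R b :=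
    ((hgc A' hA'c).mono hsub2).intervalIntegrable
  have e1 := intervalIntegral.integral_eq_sub_of_hasDerivAt
    (fun t ht => hasDerivAt_aux F F1 F2 A p p1 w R t (hF t (hsub1 ht)) (hF1 t (hsub1 ht))
      (hA t) (hp t)) i1
  have e2 := intervalIntegral.integral_eq_sub_of_hasDerivAt
    (fun t ht => hasDerivAt_aux F F1 F2 A' p p1 w R t (hF t (hsub2 ht)) (hF1 t (hsub2 ht))
      (hA' t) (hp t)) i2
  simp only [hpa, hpb, hAa, hAb, sub_self, mul_zero, Real.cos_zero, one_smul, sn_zero, zero_smul,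
    zero_mul, add_zero, sub_zero, zero_sub] at e1 e2
  have e3 : F R = (∫ t in a..R, g A t) + ∫ t in R..b, g A' t := by
    have h1 : (∫ t in a..R, g A t) = A R • F R := e1
    have h2 : (∫ t in R..b, g A' t) = -(A' R • F R) := e2
    rw [h1, h2, ← sub_eq_add_neg, ← sub_smul]
    have : A R - A' R = 1 := by show A R - (A R - 1) = 1; ring
    rw [this, one_smul]
  -- bounds
  have hmaj : ∀ B : ℝ → ℝ, (∀ t ∈ Icc a b, |B t| ≤ 1) → ∀ t ∈ Icc a b,
      ‖g B t‖ ≤ 9 / L * ‖F t‖ + L * ‖F2 t + ((w ^ 2 : ℝ) : ℂ) * F t‖ := by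
    intro B hB t ht
    have hta : 0 ≤ t - a := by linarith [ht.1]
    have htb : 0 ≤ b - t := by linarith [ht.2]
    have hs1 : |sn w (R - t)| ≤ L := by
      refine (abs_sn_le w (R - t)).trans ?_
      rw [abs_le, hLdef]
      constructor <;> linarith [hR.1, hR.2, ht.1, ht.2]
    have hL3 : 0 < L ^ 3 := by positivity
    have hpn : 0 ≤ p t := by
      show 0 ≤ 6 * ((t - a) * (b - t)) / L ^ 3
      positivity
    have hpu : p t ≤ 3 / (2 * L) := by
      show 6 * ((t - a) * (b - t)) / L ^ 3 ≤ 3 / (2 * L)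
      rw [div_le_div_iff₀ hL3 (by positivity)]
      have h4 : 4 * ((t - a) * (b - t)) ≤ L ^ 2 := by
        rw [hLdef]; nlinarith [sq_nonneg ((t - a) - (b - t))]
      nlinarith [mul_le_mul_of_nonneg_left h4 hL.le]
    have hp1u : |p1 t| ≤ 6 / L ^ 2 := by
      show |6 * ((b - t) - (t - a)) / L ^ 3| ≤ 6 / L ^ 2
      rw [abs_div, abs_of_pos hL3, abs_mul, div_le_div_iff₀ hL3 (by positivity)]
      have h5 : |(b - t) - (t - a)| ≤ L := by
        rw [abs_le, hLdef]; constructor <;> linarith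
      have h6 : |(6 : ℝ)| = 6 := abs_of_pos (by norm_num)
      rw [h6]
      nlinarith [mul_le_mul_of_nonneg_right h5 (sq_nonneg L)]
    have hcoef : |2 * p t * Real.cos (w * (R - t)) - p1 t * sn w (R - t)| ≤ 9 / L := by
      have h7 : |2 * p t * Real.cos (w * (R - t))| ≤ 3 / L := by
        rw [abs_mul, abs_mul, abs_of_nonneg hpn]
        have h8 : |Real.cos (w * (R - t))| ≤ 1 := Real.abs_cos_le_one _
        have h9 : |(2 : ℝ)| = 2 := abs_of_pos (by norm_num)
        rw [h9]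
        calc 2 * p t * |Real.cos (w * (R - t))| ≤ 2 * p t * 1 := by gcongr
          _ ≤ 2 * (3 / (2 * L)) := by rw [mul_one]; gcongr
          _ = 3 / L := by field_simp
      have h10 : |p1 t * sn w (R - t)| ≤ 6 / L := by
        rw [abs_mul]
        calc |p1 t| * |sn w (R - t)| ≤ 6 / L ^ 2 * L := by gcongr
          _ = 6 / L := by field_simp
      calc |2 * p t * Real.cos (w * (R - t)) - p1 t * sn w (R - t)|
          ≤ |2 * p t * Real.cos (w * (R - t))| + |p1 t * sn w (R - t)| := abs_sub _ _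
        _ ≤ 3 / L + 6 / L := add_le_add h7 h10
        _ = 9 / L := by ring
    have hBs : |B t * sn w (R - t)| ≤ L := by
      rw [abs_mul]
      calc |B t| * |sn w (R - t)| ≤ 1 * L := by
            gcongr
            exact hB t ht
        _ = L := one_mul L
    calc ‖g B t‖ ≤ ‖(2 * p t * Real.cos (w * (R - t)) - p1 t * sn w (R - t)) • F t‖ +
          ‖(B t * sn w (R - t)) • (F2 t + ((w ^ 2 : ℝ) : ℂ) * F t)‖ := norm_add_le _ _
      _ ≤ 9 / L * ‖F t‖ + L * ‖F2 t + ((w ^ 2 : ℝ) : ℂ) * F t‖ := by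
          rw [norm_smul, norm_smul, Real.norm_eq_abs, Real.norm_eq_abs]
          gcongr
  have hAb1 : ∀ t ∈ Icc a b, 0 ≤ A t ∧ A t ≤ 1 := by
    intro t ht
    have hta : 0 ≤ t - a := by linarith [ht.1]
    have htb : 0 ≤ b - t := by linarith [ht.2]
    have hL3 : 0 < L ^ 3 := by positivity
    have h3 : 3 * L - 2 * (t - a) = (b - t) * 3 + (t - a) := by rw [hLdef]; ring
    constructor
    · show 0 ≤ (t - a) ^ 2 * (3 * L - 2 * (t - a)) / L ^ 3
      rw [h3]; positivity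
    · show (t - a) ^ 2 * (3 * L - 2 * (t - a)) / L ^ 3 ≤ 1
      rw [div_le_one hL3, h3]
      have h5 : L = (t - a) + (b - t) := by rw [hLdef]; ring
      rw [h5]
      nlinarith [mul_nonneg hta (sq_nonneg (b - t)), pow_nonneg htb 3, mul_nonneg htb htb]
  have hmA := hmaj A (fun t ht => by rw [abs_le]; constructor <;> linarith [(hAb1 t ht).1, (hAb1 t ht).2])
  have hmA' := hmaj A' (fun t ht => by
    have := hAb1 t ht
    show |A t - 1| ≤ 1
    rw [abs_le]; constructor <;> linarith [this.1, this.2])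
  let M : ℝ → ℝ := fun t => 9 / L * ‖F t‖ + L * ‖F2 t + ((w ^ 2 : ℝ) : ℂ) * F t‖
  have hMc : ContinuousOn M (Icc a b) :=
    (continuousOn_const.mul hFc.norm).add (continuousOn_const.mul
      (hc.add (continuousOn_const.mul hFc)).norm)
  have j1 : IntervalIntegrable M volume a R := (hMc.mono hsub1).intervalIntegrable
  have j2 : IntervalIntegrable M volume R b := (hMc.mono hsub2).intervalIntegrable
  have k1 : ‖∫ t in a..R, g A t‖ ≤ ∫ t in a..R, M t := by
    refine intervalIntegral.norm_integral_le_of_norm_le hR.1 ?_ j1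
    exact Filter.Eventually.of_forall fun t ht =>
      hmA t ⟨ht.1.le, ht.2.trans hR.2⟩
  have k2 : ‖∫ t in R..b, g A' t‖ ≤ ∫ t in R..b, M t := by
    refine intervalIntegral.norm_integral_le_of_norm_le hR.2 ?_ j2
    exact Filter.Eventually.of_forall fun t ht =>
      hmA' t ⟨hR.1.trans ht.1.le, ht.2⟩
  calc ‖F R‖ = ‖(∫ t in a..R, g A t) + ∫ t in R..b, g A' t‖ := by rw [← e3]
    _ ≤ ‖∫ t in a..R, g A t‖ + ‖∫ t in R..b, g A' t‖ := norm_add_le _ _
    _ ≤ (∫ t in a..R, M t) + ∫ t in R..b, M t := add_le_add k1 k2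
    _ = ∫ t in a..b, M t := intervalIntegral.integral_add_adjacent_intervals j1 j2

/-- Cauchy-Schwarz on an interval -/
lemma sq_integral_le (h : ℝ → ℝ) (a b : ℝ) (hab : a < b) (hc : ContinuousOn h (Icc a b)) :
    (∫ t in a..b, h t) ^ 2 ≤ (b - a) * ∫ t in a..b, h t ^ 2 := by
  have hL : 0 < b - a := by linarith
  obtain ⟨m, hm⟩ : ∃ m, m = (∫ t in a..b, h t) / (b - a) := ⟨_, rfl⟩
  have hu : uIcc a b = Icc a b := uIcc_of_le hab.le
  have i1 : IntervalIntegrable h volume a b := (hu ▸ hc : ContinuousOn h (uIcc a b)).intervalIntegrable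
  have i2 : IntervalIntegrable (fun t => h t ^ 2) volume a b :=
    (by rw [hu]; exact hc.pow 2 : ContinuousOn (fun t => h t ^ 2) (uIcc a b)).intervalIntegrable
  have h0 : 0 ≤ ∫ t in a..b, (h t - m) ^ 2 :=
    intervalIntegral.integral_nonneg hab.le fun t _ => sq_nonneg _
  have h1 : (∫ t in a..b, (h t - m) ^ 2) =
      (∫ t in a..b, h t ^ 2) - 2 * m * (∫ t in a..b, h t) + (b - a) * m ^ 2 := by
    have e : ∀ t, (h t - m) ^ 2 = (h t ^ 2 - 2 * m * h t) + m ^ 2 := fun t => by ring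
    simp only [e]
    rw [intervalIntegral.integral_add (i2.sub (i1.const_mul _)) intervalIntegrable_const,
      intervalIntegral.integral_sub i2 (i1.const_mul _), intervalIntegral.integral_const_mul,
      intervalIntegral.integral_const, smul_eq_mul]
  have h2 : (∫ t in a..b, h t) = m * (b - a) := by rw [hm]; field_simp
  rw [h1, h2] at h0
  rw [h2]
  nlinarith

theorem pOde : tOde := by
  refine ⟨162, by norm_num, ?_⟩
  intro F F1 F2 q K hK hq hc hF hF1 R hR
  have hK0 : (0 : ℝ) < K := by exact_mod_cast hK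
  have hK1 : (1 : ℝ) ≤ K := by exact_mod_cast hK
  obtain ⟨L, hLd⟩ : ∃ L : ℝ, L = (K : ℝ)⁻¹ := ⟨_, rfl⟩
  have hL : 0 < L := by rw [hLd]; positivity
  have hL1 : L ≤ 1 := by rw [hLd]; exact inv_le_one_of_one_le₀ hK1
  obtain ⟨a, ha⟩ : ∃ a : ℝ, a = min R (2 - L) := ⟨_, rfl⟩
  have ha1 : 1 ≤ a := by rw [ha]; exact le_min hR.1 (by linarith)
  have ha2 : a ≤ 2 - L := by rw [ha]; exact min_le_right _ _
  have haR : a ≤ R := by rw [ha]; exact min_le_left _ _
  have hRb : R ≤ a + L := by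
    rcases min_choice R (2 - L) with h | h <;> rw [ha, h] <;> linarith [hR.2]
  have hab : a < a + L := by linarith
  have hsub : Icc a (a + L) ⊆ Icc 1 2 := Icc_subset_Icc ha1 (by linarith)
  have hw : (Real.sqrt q) ^ 2 = q := Real.sq_sqrt hq
  have hb := ode_bound F F1 F2 (Real.sqrt q) a (a + L) hab (hc.mono hsub)
    (fun t ht => hF t (hsub ht)) (fun t ht => hF1 t (hsub ht)) R ⟨haR, hRb⟩
  rw [hw] at hb
  have hLL : a + L - a = L := by ring
  rw [hLL] at hb
  have hFc : ContinuousOn F (Icc 1 2) := fun t ht => (hF t ht).continuousAt.continuousWithinAt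
  have hGc : ContinuousOn (fun t => F2 t + (q : ℂ) * F t) (Icc 1 2) :=
    hc.add (continuousOn_const.mul hFc)
  have hMc : ContinuousOn (fun t => 9 / L * ‖F t‖ + L * ‖F2 t + (q : ℂ) * F t‖) (Icc a (a + L)) :=
    ((continuousOn_const.mul hFc.norm).add (continuousOn_const.mul hGc.norm)).mono hsub
  have hcs := sq_integral_le _ a (a + L) hab hMc
  rw [hLL] at hcs
  have hI2 : ContinuousOn (fun t => 162 / L ^ 2 * ‖F t‖ ^ 2 + 2 * L ^ 2 * ‖F2 t + (q : ℂ) * F t‖ ^ 2)
      (Icc 1 2) :=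
    (continuousOn_const.mul (hFc.norm.pow 2)).add (continuousOn_const.mul (hGc.norm.pow 2))
  have hu : uIcc a (a + L) = Icc a (a + L) := uIcc_of_le hab.le
  have hu12 : uIcc (1 : ℝ) 2 = Icc 1 2 := uIcc_of_le (by norm_num)
  have h1 : (∫ t in a..(a + L), (9 / L * ‖F t‖ + L * ‖F2 t + (q : ℂ) * F t‖) ^ 2) ≤
      ∫ t in a..(a + L), (162 / L ^ 2 * ‖F t‖ ^ 2 + 2 * L ^ 2 * ‖F2 t + (q : ℂ) * F t‖ ^ 2) := by
    refine intervalIntegral.integral_mono_on hab.le
      (by rw [hu]; exact hMc.pow 2 : ContinuousOn _ (uIcc a (a + L))).intervalIntegrable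
      (by rw [hu]; exact hI2.mono hsub : ContinuousOn _ (uIcc a (a + L))).intervalIntegrable ?_
    intro t _
    have e : 162 / L ^ 2 * ‖F t‖ ^ 2 + 2 * L ^ 2 * ‖F2 t + (q : ℂ) * F t‖ ^ 2 -
        (9 / L * ‖F t‖ + L * ‖F2 t + (q : ℂ) * F t‖) ^ 2 =
        (9 / L * ‖F t‖ - L * ‖F2 t + (q : ℂ) * F t‖) ^ 2 := by
      ring
    linarith [sq_nonneg (9 / L * ‖F t‖ - L * ‖F2 t + (q : ℂ) * F t‖)]
  have h2 : (∫ t in a..(a + L),
      (162 / L ^ 2 * ‖F t‖ ^ 2 + 2 * L ^ 2 * ‖F2 t + (q : ℂ) * F t‖ ^ 2)) ≤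
      ∫ t in (1 : ℝ)..2, (162 / L ^ 2 * ‖F t‖ ^ 2 + 2 * L ^ 2 * ‖F2 t + (q : ℂ) * F t‖ ^ 2) := by
    refine intervalIntegral.integral_mono_interval ha1 hab.le (by linarith) ?_
      (by rw [hu12]; exact hI2 : ContinuousOn _ (uIcc (1 : ℝ) 2)).intervalIntegrable
    exact Filter.Eventually.of_forall fun t => by positivity
  have h3 : (∫ t in (1 : ℝ)..2,
      (162 / L ^ 2 * ‖F t‖ ^ 2 + 2 * L ^ 2 * ‖F2 t + (q : ℂ) * F t‖ ^ 2)) =
      162 / L ^ 2 * (∫ t in (1 : ℝ)..2, ‖F t‖ ^ 2) +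
        2 * L ^ 2 * ∫ t in (1 : ℝ)..2, ‖F2 t + (q : ℂ) * F t‖ ^ 2 := by
    rw [intervalIntegral.integral_add, intervalIntegral.integral_const_mul,
      intervalIntegral.integral_const_mul]
    · exact (by rw [hu12]; exact continuousOn_const.mul (hFc.norm.pow 2) :
        ContinuousOn _ (uIcc (1 : ℝ) 2)).intervalIntegrable
    · exact (by rw [hu12]; exact continuousOn_const.mul (hGc.norm.pow 2) :
        ContinuousOn _ (uIcc (1 : ℝ) 2)).intervalIntegrable
  have n1 : 0 ≤ ∫ t in (1 : ℝ)..2, ‖F t‖ ^ 2 :=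
    intervalIntegral.integral_nonneg (by norm_num) fun t _ => by positivity
  have n2 : 0 ≤ ∫ t in (1 : ℝ)..2, ‖F2 t + (q : ℂ) * F t‖ ^ 2 :=
    intervalIntegral.integral_nonneg (by norm_num) fun t _ => by positivity
  have hsq : ‖F R‖ ^ 2 ≤ (∫ t in a..(a + L), (9 / L * ‖F t‖ + L * ‖F2 t + (q : ℂ) * F t‖)) ^ 2 :=
    pow_le_pow_left₀ (norm_nonneg _) hb 2
  have hfin : ‖F R‖ ^ 2 ≤ L * (162 / L ^ 2 * (∫ t in (1 : ℝ)..2, ‖F t‖ ^ 2) +
        2 * L ^ 2 * ∫ t in (1 : ℝ)..2, ‖F2 t + (q : ℂ) * F t‖ ^ 2) := by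
    rw [← h3]
    exact hsq.trans (hcs.trans (mul_le_mul_of_nonneg_left (h1.trans h2) hL.le))
  have hKL : (K : ℝ) = L⁻¹ := by rw [hLd, inv_inv]
  rw [← hLd, hKL]
  refine hfin.trans ?_
  have e1 : L * (162 / L ^ 2 * (∫ t in (1 : ℝ)..2, ‖F t‖ ^ 2) +
        2 * L ^ 2 * ∫ t in (1 : ℝ)..2, ‖F2 t + (q : ℂ) * F t‖ ^ 2) =
      162 * (L⁻¹ * ∫ t in (1 : ℝ)..2, ‖F t‖ ^ 2) +
        2 * (L ^ 3 * ∫ t in (1 : ℝ)..2, ‖F2 t + (q : ℂ) * F t‖ ^ 2) := by
    field_simp
  rw [e1, mul_add]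
  have n3 : 0 ≤ L ^ 3 * ∫ t in (1 : ℝ)..2, ‖F2 t + (q : ℂ) * F t‖ ^ 2 :=
    mul_nonneg (by positivity) n2
  linarith

end Pool.Agent.MBS
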