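import Pool.Agent.MBS.Targets

set_option autoImplicit false

/-! MBS-J13: splitting, measurability, Theorem U (MP_ee701d_an). -/

namespace Pool.Agent.MBS

open MeasureTheory FourierTransform Set Filter Topology
open scoped ENNReal NNReal

namespace J13

/-! ### The profile -/

lemma et_cont : Continuous et := by
  unfold et
  exact Real.smoothTransition.continuous.comp (by fun_prop)

lemma et_nonneg (u : ℝ) : 0 ≤ et u := Real.smoothTransition.nonneg _

lemma et_le_one (u : ℝ) : et u ≤ 1 := Real.smoothTransition.le_one _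

lemma et_zero {u : ℝ} (h : u ≤ 1 / 4) : et u = 0 :=
  Real.smoothTransition.zero_of_nonpos (by linarith)

lemma et_one {u : ℝ} (h : 1 / 2 ≤ u) : et u = 1 :=
  Real.smoothTransition.one_of_one_le (by linarith)

/-- telescoping -/
lemma et_sum (u : ℝ) (I : ℕ) : et (2 ^ I * u) = et u + ∑ i ∈ Finset.range I, ps (2 ^ i * u) := by
  induction I with
  | zero => simp
  | succ I ih =>
    rw [Finset.sum_range_succ, ← add_assoc, ← ih, ps]
    have : 2 ^ (I + 1) * u = 2 * (2 ^ I * u) := by ring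
    rw [this]; ring

/-- the sharp limit -/
lemma et_lim {u : ℝ} (hu : u ≠ 0) :
    Tendsto (fun I : ℕ => et (2 ^ I * u)) atTop (𝓝 (if 0 < u then 1 else 0)) := by
  rcases lt_or_gt_of_ne hu with h | h
  · rw [if_neg (by linarith)]
    refine tendsto_const_nhds.congr fun I => ?_
    rw [et_zero]
    have : (2 : ℝ) ^ I * u ≤ 0 := mul_nonpos_of_nonneg_of_nonpos (by positivity) h.le
    linarith
  · rw [if_pos h]
    have h1 : Tendsto (fun I : ℕ => (2 : ℝ) ^ I * u) atTop atTop :=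
      (tendsto_pow_atTop_atTop_of_one_lt (by norm_num)).atTop_mul_const h
    refine tendsto_const_nhds.congr' ?_
    filter_upwards [h1.eventually_ge_atTop (1 / 2)] with I hI
    rw [et_one hI]

variable {n : ℕ}

lemma ex_norm (x ξ : E n) : ‖ex x ξ‖ = 1 := by
  unfold ex
  have : (2 * Real.pi * Complex.I * ((inner ℝ x ξ : ℝ) : ℂ)) =
      ((2 * Real.pi * (inner ℝ x ξ : ℝ) : ℝ) : ℂ) * Complex.I := by push_cast; ring
  rw [this, Complex.norm_exp_ofReal_mul_I]

lemma ex_cont : Continuous (fun p : E n × E n => ex p.1 p.2) := by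
  unfold ex
  fun_prop

lemma ex_cont_right (x : E n) : Continuous (fun ξ : E n => ex x ξ) :=
  ex_cont.comp (by fun_prop : Continuous fun ξ : E n => (x, ξ))

lemma fourier_cont {f : E n → ℂ} (hf : Integrable f) : Continuous (𝓕 f) :=
  VectorFourier.fourierIntegral_continuous Real.continuous_fourierChar
    (by exact continuous_inner) hf

/-- integrability of a bounded measurable compactly supported multiplier times a continuous
function -/
lemma integrable_mulT {h : E n → ℂ} (hh : Continuous h) {a : E n → ℝ} (ha : Measurable a)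
    {R B : ℝ} (hB : ∀ ξ, |a ξ| ≤ B) (hs : ∀ ξ, R < ‖ξ‖ → a ξ = 0) (x : E n) :
    Integrable (fun ξ => (a ξ : ℂ) * (h ξ * ex x ξ)) := by
  have h1 : IntegrableOn (fun ξ => h ξ * ex x ξ) (Metric.closedBall 0 R) :=
    (hh.mul (ex_cont_right x)).continuousOn.integrableOn_compact (isCompact_closedBall _ _)
  have h2 : IntegrableOn (fun ξ => (a ξ : ℂ) * (h ξ * ex x ξ)) (Metric.closedBall 0 R) := by
    refine Integrable.bdd_mul h1 (c := B) ?_ ?_
    · exact (Complex.measurable_ofReal.comp ha).aestronglyMeasurable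
    · refine Eventually.of_forall fun ξ => ?_
      rw [Complex.norm_real, Real.norm_eq_abs]
      exact hB ξ
  have h3 := (integrable_indicator_iff (measurableSet_closedBall (x := (0 : E n)) (ε := R))).2 h2
  refine h3.congr (Eventually.of_forall fun ξ => ?_)
  by_cases hξ : ξ ∈ Metric.closedBall (0 : E n) R
  · simp only [indicator_of_mem hξ]
  · simp only [indicator_of_notMem hξ]
    rw [mem_closedBall_zero_iff, not_le] at hξ
    rw [hs ξ hξ]
    simp

lemma arg_le {R : ℝ} (hR : 0 < R) {ξ : E n} (hξ : R < ‖ξ‖) : 1 - ‖ξ‖ ^ 2 / R ^ 2 ≤ 0 := by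
  have : 1 ≤ ‖ξ‖ ^ 2 / R ^ 2 := by
    rw [le_div_iff₀ (by positivity), one_mul]
    exact pow_le_pow_left₀ hR.le hξ.le 2
  linarith

lemma scaled_zero {R : ℝ} (hR : 0 < R) {ξ : E n} (hξ : R < ‖ξ‖) (I : ℕ) :
    et (2 ^ I * (1 - ‖ξ‖ ^ 2 / R ^ 2)) = 0 := by
  apply et_zero
  have : (2 : ℝ) ^ I * (1 - ‖ξ‖ ^ 2 / R ^ 2) ≤ 0 :=
    mul_nonpos_of_nonneg_of_nonpos (by positivity) (arg_le hR hξ)
  linarith

lemma scaled_meas (R : ℝ) (I : ℕ) :
    Measurable (fun ξ : E n => et (2 ^ I * (1 - ‖ξ‖ ^ 2 / R ^ 2))) := by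
  apply (et_cont.comp _).measurable
  fun_prop

lemma int_scaled {h : E n → ℂ} (hh : Continuous h) {R : ℝ} (hR : 0 < R) (I : ℕ) (x : E n) :
    Integrable (fun ξ => ((et (2 ^ I * (1 - ‖ξ‖ ^ 2 / R ^ 2)) : ℝ) : ℂ) * (h ξ * ex x ξ)) := by
  refine integrable_mulT hh (scaled_meas R I) (B := 1) (R := R) (fun ξ => ?_)
    (fun ξ hξ => scaled_zero hR hξ I) x
  rw [abs_of_nonneg (et_nonneg _)]
  exact et_le_one _

lemma int_mul {h : E n → ℂ} (hh : Continuous h) {R : ℝ} (hR : 0 < R) (i : ℕ) (x : E n) :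
    Integrable (fun ξ => ((mul i R ξ : ℝ) : ℂ) * (h ξ * ex x ξ)) := by
  have h1 := (int_scaled hh hR (i + 1) x).sub (int_scaled hh hR i x)
  refine h1.congr (Eventually.of_forall fun ξ => ?_)
  simp only [Pi.sub_apply, mul, ps]
  have : 2 * (2 ^ i * (1 - ‖ξ‖ ^ 2 / R ^ 2)) = 2 ^ (i + 1) * (1 - ‖ξ‖ ^ 2 / R ^ 2) := by ring
  rw [this]
  push_cast
  ring

lemma T_scaled {h : E n → ℂ} (hh : Continuous h) {R : ℝ} (hR : 0 < R) (I : ℕ) (x : E n) :
    T (fun ξ => et (2 ^ I * (1 - ‖ξ‖ ^ 2 / R ^ 2))) h x =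
      T (pm R) h x + ∑ i ∈ Finset.range I, T (mul i R) h x := by
  unfold T
  have hp : Integrable (fun ξ => ((pm R ξ : ℝ) : ℂ) * (h ξ * ex x ξ)) := by
    have := int_scaled hh hR 0 x
    simpa [pm] using this
  rw [← integral_finsetSum _ (fun i _ => int_mul hh hR i x),
    ← integral_add hp (integrable_finsetSum _ fun i _ => int_mul hh hR i x)]
  congr 1
  ext ξ
  beta_reduce
  rw [et_sum]
  simp only [pm, mul]
  push_cast
  rw [add_mul, Finset.sum_mul]

/-- the smooth approximations converge to the ball partial sum -/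
lemma T_lim {f : E n → ℂ} (hf : Integrable f) {R : ℝ} (hR : 0 < R) (x : E n) :
    Tendsto (fun I : ℕ => T (fun ξ => et (2 ^ I * (1 - ‖ξ‖ ^ 2 / R ^ 2))) (𝓕 f) x) atTop
      (𝓝 (S f R x)) := by
  have hh := fourier_cont hf
  have hS : S f R x = ∫ ξ, (Metric.closedBall (0 : E n) R).indicator (fun ξ => 𝓕 f ξ * ex x ξ) ξ := by
    rw [integral_indicator measurableSet_closedBall]; rfl
  rw [hS]
  unfold T
  have hb : Integrable ((Metric.closedBall (0 : E n) R).indicator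
      (fun ξ => ‖𝓕 f ξ * ex x ξ‖)) := by
    rw [integrable_indicator_iff measurableSet_closedBall]
    exact ((hh.mul (ex_cont_right x)).norm).continuousOn.integrableOn_compact
      (isCompact_closedBall _ _)
  refine tendsto_integral_of_dominated_convergence _ (fun I => (int_scaled hh hR I x).1) hb
    (fun I => Eventually.of_forall fun ξ => ?_) ?_
  · by_cases hξ : ξ ∈ Metric.closedBall (0 : E n) R
    · rw [indicator_of_mem hξ, norm_mul, Complex.norm_real, Real.norm_eq_abs,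
        abs_of_nonneg (et_nonneg _)]
      exact mul_le_of_le_one_left (norm_nonneg _) (et_le_one _)
    · rw [indicator_of_notMem hξ]
      rw [mem_closedBall_zero_iff, not_le] at hξ
      beta_reduce
      rw [scaled_zero hR hξ]
      simp
  · have hsph : ∀ᵐ ξ : E n, ξ ∉ Metric.sphere (0 : E n) R := by
      rw [ae_iff]
      simp only [not_not]
      exact Measure.addHaar_sphere_of_ne_zero volume 0 hR.ne'
    filter_upwards [hsph] with ξ hξ
    rw [mem_sphere_zero_iff_norm] at hξ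
    have hu : 1 - ‖ξ‖ ^ 2 / R ^ 2 ≠ 0 := by
      intro h0
      have : ‖ξ‖ ^ 2 = R ^ 2 := by
        have h1 : ‖ξ‖ ^ 2 / R ^ 2 = 1 := by linarith
        rwa [div_eq_one_iff_eq (by positivity)] at h1
      exact hξ ((pow_left_inj₀ (norm_nonneg _) hR.le (by norm_num)).1 this)
    have h1 := et_lim hu
    have h2 : Tendsto (fun I : ℕ => ((et (2 ^ I * (1 - ‖ξ‖ ^ 2 / R ^ 2)) : ℝ) : ℂ) *
        (𝓕 f ξ * ex x ξ)) atTop
        (𝓝 ((((if 0 < 1 - ‖ξ‖ ^ 2 / R ^ 2 then 1 else 0 : ℝ)) : ℂ) * (𝓕 f ξ * ex x ξ))) :=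
      ((Complex.continuous_ofReal.tendsto _).comp h1).mul_const _
    convert h2 using 2
    by_cases hξ' : ξ ∈ Metric.closedBall (0 : E n) R
    · rw [indicator_of_mem hξ']
      rw [mem_closedBall_zero_iff] at hξ'
      have h3 : ‖ξ‖ < R := lt_of_le_of_ne hξ' hξ
      have h4 : ‖ξ‖ ^ 2 / R ^ 2 < 1 := by
        rw [div_lt_one (by positivity)]
        exact pow_lt_pow_left₀ h3 (norm_nonneg _) (by norm_num)
      rw [if_pos (by linarith)]
      simp
    · rw [indicator_of_notMem hξ']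
      rw [mem_closedBall_zero_iff, not_le] at hξ'
      rw [if_neg (by have := arg_le hR hξ'; linarith)]
      simp

end J13

open J13

theorem pSplit : tSplit := by
  intro n f hf x
  refine iSup₂_le fun R hR => ?_
  have hh := fourier_cont hf
  have h1 := (T_lim hf hR x).enorm
  refine le_of_tendsto h1 (Eventually.of_forall fun I => ?_)
  rw [T_scaled hh hR]
  calc ‖T (pm R) (𝓕 f) x + ∑ i ∈ Finset.range I, T (mul i R) (𝓕 f) x‖ₑ
      ≤ ‖T (pm R) (𝓕 f) x‖ₑ + ‖∑ i ∈ Finset.range I, T (mul i R) (𝓕 f) x‖ₑ := enorm_add_le _ _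
    _ ≤ ‖T (pm R) (𝓕 f) x‖ₑ + ∑ i ∈ Finset.range I, ‖T (mul i R) (𝓕 f) x‖ₑ := by
        gcongr
        exact enorm_sum_le _ _
    _ ≤ Pstar f x + ∑' i : ℕ, Tstar i f x := by
        refine add_le_add ?_ ?_
        · exact le_iSup₂ (f := fun (R : ℝ) (_ : 0 < R) => ‖T (pm R) (𝓕 f) x‖ₑ) R hR
        · refine (Finset.sum_le_sum fun i _ => ?_).trans (ENNReal.sum_le_tsum _)
          exact le_iSup₂ (f := fun (R : ℝ) (_ : 0 < R) => ‖T (mul i R) (𝓕 f) x‖ₑ) R hR


/-! ### Measurability -/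

namespace J13

variable {n : ℕ}

/-- reduction of the supremum over `R > 0` to rational `R` -/
lemma sup_rat {G : ℝ → E n → ℂ} (hG : ∀ R, 0 < R → Measurable (G R))
    (hc : ∀ x R, 0 < R → ContinuousWithinAt (fun r => G r x) (Ioi R) R) :
    Measurable (fun x => ⨆ (R : ℝ) (_ : 0 < R), ‖G R x‖ₑ) := by
  have e : (fun x => ⨆ (R : ℝ) (_ : 0 < R), ‖G R x‖ₑ) =
      fun x => ⨆ (q : ℚ) (_ : (0 : ℝ) < q), ‖G q x‖ₑ := by
    ext x
    apply le_antisymm
    · refine iSup₂_le fun R hR => ?_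
      refine le_of_forall_lt fun c hc' => ?_
      have h1 : Tendsto (fun r => ‖G r x‖ₑ) (𝓝[>] R) (𝓝 ‖G R x‖ₑ) :=
        (hc x R hR).tendsto.enorm
      have h2 : ∀ᶠ r in 𝓝[>] R, c < ‖G r x‖ₑ := h1.eventually_const_lt hc'
      obtain ⟨u, hu, hu'⟩ := mem_nhdsGT_iff_exists_Ioo_subset.1 h2
      obtain ⟨q, hq1, hq2⟩ := exists_rat_btwn (show R < u from hu)
      have h3 : c < ‖G q x‖ₑ := hu' ⟨hq1, hq2⟩
      exact h3.trans_le (le_iSup₂ (f := fun (q : ℚ) (_ : (0 : ℝ) < q) => ‖G q x‖ₑ) q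
        (hR.trans hq1))
    · refine iSup₂_le fun q hq => ?_
      exact le_iSup₂ (f := fun (R : ℝ) (_ : 0 < R) => ‖G R x‖ₑ) (q : ℝ) hq
  rw [e]
  refine Measurable.iSup fun q => Measurable.iSup fun hq => ?_
  exact (hG q hq).enorm

lemma T_meas {a : E n → ℝ} (ha : Measurable a) {h : E n → ℂ} (hh : Continuous h) :
    Measurable (T a h) := by
  have h1 : StronglyMeasurable (fun p : E n × E n => (a p.2 : ℂ) * (h p.2 * ex p.1 p.2)) := by
    refine StronglyMeasurable.mul ?_ ?_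
    · exact (Complex.measurable_ofReal.comp (ha.comp measurable_snd)).stronglyMeasurable
    · exact ((hh.comp continuous_snd).mul ex_cont).stronglyMeasurable
  exact h1.integral_prod_right'.measurable

lemma S_meas {f : E n → ℂ} (hf : Integrable f) (R : ℝ) : Measurable (S f R) := by
  have h1 : StronglyMeasurable (fun p : E n × E n => 𝓕 f p.2 * ex p.1 p.2) :=
    (((fourier_cont hf).comp continuous_snd).mul ex_cont).stronglyMeasurable
  exact (h1.integral_prod_right' (ν := volume.restrict (Metric.closedBall 0 R))).measurable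

lemma S_cont {f : E n → ℂ} (hf : Integrable f) (x : E n) {R : ℝ} :
    ContinuousWithinAt (fun r => S f r x) (Ioi R) R := by
  have hh := (fourier_cont hf).mul (ex_cont_right x)
  have e : ∀ r : ℝ, S f r x =
      ∫ ξ, (Metric.closedBall (0 : E n) r).indicator (fun ξ => 𝓕 f ξ * ex x ξ) ξ := by
    intro r
    rw [integral_indicator measurableSet_closedBall]; rfl
  simp only [ContinuousWithinAt, e]
  refine tendsto_integral_filter_of_dominated_convergence
    ((Metric.closedBall (0 : E n) (R + 1)).indicator (fun ξ => ‖𝓕 f ξ * ex x ξ‖)) ?_ ?_ ?_ ?_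
  · exact Eventually.of_forall fun r =>
      hh.aestronglyMeasurable.indicator measurableSet_closedBall
  · have h1 : ∀ᶠ r in 𝓝[>] R, r < R + 1 :=
      nhdsWithin_le_nhds (gt_mem_nhds (by linarith))
    filter_upwards [h1] with r hr
    refine Eventually.of_forall fun ξ => ?_
    rw [norm_indicator_eq_indicator_norm]
    exact indicator_le_indicator_of_subset (Metric.closedBall_subset_closedBall hr.le)
      (fun _ => norm_nonneg _) ξ
  · rw [integrable_indicator_iff measurableSet_closedBall]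
    exact hh.norm.continuousOn.integrableOn_compact (isCompact_closedBall _ _)
  · refine Eventually.of_forall fun ξ => ?_
    by_cases hξ : ξ ∈ Metric.closedBall (0 : E n) R
    · rw [indicator_of_mem hξ]
      refine tendsto_const_nhds.congr' ?_
      filter_upwards [self_mem_nhdsWithin] with r hr
      rw [indicator_of_mem (Metric.closedBall_subset_closedBall (le_of_lt hr) hξ)]
    · rw [indicator_of_notMem hξ]
      rw [mem_closedBall_zero_iff, not_le] at hξ
      refine tendsto_const_nhds.congr' ?_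
      have h1 : ∀ᶠ r in 𝓝[>] R, r < ‖ξ‖ := nhdsWithin_le_nhds (gt_mem_nhds hξ)
      filter_upwards [h1] with r hr
      rw [indicator_of_notMem]
      rw [mem_closedBall_zero_iff, not_le]
      exact hr

lemma Fam_meas {a : ℝ → E n → ℝ} (ha : Fam a) {R : ℝ} (hR : 0 < R) : Measurable (a R) := by
  have : Continuous (a R) := by
    have h1 := ha.cont.comp_continuous (f := fun ξ : E n => (R, ξ)) (by fun_prop)
      (fun ξ => ⟨hR, mem_univ _⟩)
    exact h1
  exact this.measurable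

lemma fam_cont (hTcont : tTcont) {a : ℝ → E n → ℝ} (ha : Fam a) {h : E n → ℂ}
    (hh : Continuous h) (x : E n) {R : ℝ} (hR : 0 < R) :
    ContinuousWithinAt (fun r => T (a r) h x) (Ioi R) R := by
  have h1 := hTcont n a h ha hh (R, x) ⟨hR, mem_univ _⟩
  have h2 : ContinuousAt (fun p : ℝ × E n => T (a p.1) h p.2) (R, x) :=
    h1.continuousAt ((isOpen_Ioi.prod isOpen_univ).mem_nhds ⟨hR, mem_univ _⟩)
  have h3 : ContinuousAt (fun r : ℝ => T (a r) h x) R :=
    ContinuousAt.comp (f := fun r : ℝ => (r, x)) (g := fun p : ℝ × E n => T (a p.1) h p.2)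
      h2 (by fun_prop)
  exact h3.continuousWithinAt

end J13

theorem pMeas (hTcont : tTcont) (hFam : tMulFam) : tMeas := by
  intro n f hf
  have hh := fourier_cont hf
  refine ⟨?_, ?_, fun i => ?_⟩
  · exact sup_rat (G := fun R x => S f R x) (fun R _ => S_meas hf R)
      (fun x R _ => S_cont hf x)
  · have hF : Fam (pm (n := n)) := (hFam n 0).2.2.2.2.2.1
    exact sup_rat (G := fun R x => T (pm R) (𝓕 f) x) (fun R hR => T_meas (Fam_meas hF hR) hh)
      (fun x R hR => fam_cont hTcont hF hh x hR)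
  · have hF : Fam (mul (n := n) i) := (hFam n i).1
    exact sup_rat (G := fun R x => T (mul i R) (𝓕 f) x) (fun R hR => T_meas (Fam_meas hF hR) hh)
      (fun x R hR => fam_cont hTcont hF hh x hR)

/-! ### Theorem U -/

namespace J13

variable {n : ℕ}

/-- polynomial weights -/
noncomputable def wgt (i : ℕ) : ℝ≥0∞ := ((1 + i : ℕ) : ℝ≥0∞) ^ 2

lemma wgt_ne_zero (i : ℕ) : ((1 + i : ℕ) : ℝ≥0∞) ≠ 0 := by
  rw [Nat.cast_ne_zero]; omega

lemma wgt_ne_top (i : ℕ) : ((1 + i : ℕ) : ℝ≥0∞) ≠ ⊤ := ENNReal.natCast_ne_top _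

/-- Cauchy-Schwarz with polynomial weights -/
lemma tsum_sq_le (a : ℕ → ℝ≥0∞) :
    (∑' i, a i) ^ 2 ≤ (∑' i, (wgt i)⁻¹) * ∑' i, wgt i * a i ^ 2 := by
  have h1 := ENNReal.lintegral_mul_le_Lp_mul_Lq (Measure.count : Measure ℕ)
    (p := 2) (q := 2) Real.HolderConjugate.two_two
    (f := fun i => (((1 + i : ℕ) : ℝ≥0∞))⁻¹) (g := fun i => ((1 + i : ℕ) : ℝ≥0∞) * a i)
    (measurable_of_countable _).aemeasurable (measurable_of_countable _).aemeasurable
  rw [lintegral_count, lintegral_count, lintegral_count] at h1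
  have e1 : (∑' i, ((fun i : ℕ => (((1 + i : ℕ) : ℝ≥0∞))⁻¹) *
      fun i => ((1 + i : ℕ) : ℝ≥0∞) * a i) i) = ∑' i, a i := by
    congr 1
    ext i
    simp only [Pi.mul_apply]
    rw [← mul_assoc, ENNReal.inv_mul_cancel (wgt_ne_zero i) (wgt_ne_top i), one_mul]
  rw [e1] at h1
  have e2 : ∀ i : ℕ, (((1 + i : ℕ) : ℝ≥0∞))⁻¹ ^ (2 : ℝ) = (wgt i)⁻¹ := by
    intro i
    rw [ENNReal.rpow_two, wgt, ENNReal.inv_pow]
  have e3 : ∀ i : ℕ, (((1 + i : ℕ) : ℝ≥0∞) * a i) ^ (2 : ℝ) = wgt i * a i ^ 2 := by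
    intro i
    rw [ENNReal.rpow_two, wgt, mul_pow]
  simp only [e2, e3] at h1
  calc (∑' i, a i) ^ 2 ≤ ((∑' i, (wgt i)⁻¹) ^ (1 / 2 : ℝ) *
        (∑' i, wgt i * a i ^ 2) ^ (1 / 2 : ℝ)) ^ 2 := by gcongr
    _ = _ := by
        rw [mul_pow, ← ENNReal.rpow_two, ← ENNReal.rpow_two, ← ENNReal.rpow_mul,
          ← ENNReal.rpow_mul]
        norm_num

lemma tsum_wgt_inv : (∑' i, (wgt i)⁻¹) ≠ ⊤ := by
  have h1 : Summable (fun i : ℕ => ((1 + i : ℕ) : ℝ)⁻¹ ^ 2) := by
    have := (summable_nat_add_iff 1).2 (Real.summable_nat_pow_inv.2 (by norm_num : 1 < 2))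
    refine this.congr fun i => ?_
    rw [inv_pow, add_comm]
  have h2 : ∀ i : ℕ, (wgt i)⁻¹ = ENNReal.ofReal (((1 + i : ℕ) : ℝ)⁻¹ ^ 2) := by
    intro i
    rw [wgt, ENNReal.inv_pow, ENNReal.ofReal_pow (by positivity),
      ENNReal.ofReal_inv_of_pos (by positivity), ENNReal.ofReal_natCast]
  simp only [h2]
  exact h1.tsum_ofReal_ne_top

lemma PP_cast (i : ℕ) : (PP i : ℝ) = 2 ^ (i / 4) := by
  rw [PP, Nat.cast_pow, Nat.cast_ofNat]

lemma PP_ge (i : ℕ) : (9 / 10 : ℝ) ^ 3 * (PP i : ℝ)⁻¹ ≤ (9 / 10 : ℝ) ^ i := by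
  rw [PP_cast, ← inv_pow]
  have h0 : (2 : ℝ)⁻¹ ≤ (9 / 10 : ℝ) ^ 4 := by norm_num
  have h1 : ((2 : ℝ)⁻¹) ^ (i / 4) ≤ ((9 / 10 : ℝ) ^ 4) ^ (i / 4) :=
    pow_le_pow_left₀ (by norm_num) h0 (i / 4)
  have h2 : ((9 / 10 : ℝ) ^ 4) ^ (i / 4) = (9 / 10 : ℝ) ^ (4 * (i / 4)) := (pow_mul _ _ _).symm
  have h3 : (9 / 10 : ℝ) ^ 3 * (9 / 10 : ℝ) ^ (4 * (i / 4)) = (9 / 10 : ℝ) ^ (3 + 4 * (i / 4)) :=
    (pow_add _ _ _).symm
  have h4 : (9 / 10 : ℝ) ^ (3 + 4 * (i / 4)) ≤ (9 / 10 : ℝ) ^ i :=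
    pow_le_pow_of_le_one (by norm_num) (by norm_num) (by omega)
  calc (9 / 10 : ℝ) ^ 3 * (2 : ℝ)⁻¹ ^ (i / 4)
      ≤ (9 / 10 : ℝ) ^ 3 * (9 / 10 : ℝ) ^ (4 * (i / 4)) :=
        mul_le_mul_of_nonneg_left (h1.trans_eq h2) (by positivity)
    _ ≤ (9 / 10 : ℝ) ^ i := h3.trans_le h4

lemma tsum_PP : (∑' i : ℕ, wgt i * (((1 + i : ℕ) : ℝ≥0∞) * (PP i : ℝ≥0∞)⁻¹)) ≠ ⊤ := by
  have hr : ‖(9 / 10 : ℝ)‖ < 1 := by norm_num
  have h0 : Summable (fun i : ℕ => ((1 + i : ℕ) : ℝ) ^ 3 * (9 / 10 : ℝ) ^ (i + 1)) := by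
    have h00 : Summable (fun n : ℕ => (n : ℝ) ^ 3 * (9 / 10 : ℝ) ^ n) :=
      summable_pow_mul_geometric_of_norm_lt_one 3 hr
    have h01 : Summable (fun i : ℕ => ((i + 1 : ℕ) : ℝ) ^ 3 * (9 / 10 : ℝ) ^ (i + 1)) :=
      (summable_nat_add_iff (f := fun n : ℕ => (n : ℝ) ^ 3 * (9 / 10 : ℝ) ^ n) 1).2 h00
    refine h01.congr fun i => ?_
    rw [add_comm 1 i]
  have h1 : Summable (fun i : ℕ => ((1 + i : ℕ) : ℝ) ^ 3 * (PP i : ℝ)⁻¹) := by
    refine Summable.of_nonneg_of_le (fun i => by positivity) (fun i => ?_)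
      (h0.mul_left (((9 / 10 : ℝ) ^ 4)⁻¹))
    have h2 := PP_ge i
    have h3 : (PP i : ℝ)⁻¹ ≤ ((9 / 10 : ℝ) ^ 3)⁻¹ * (9 / 10 : ℝ) ^ i := by
      rw [inv_mul_eq_div, le_div_iff₀ (by positivity), mul_comm]
      exact h2
    calc ((1 + i : ℕ) : ℝ) ^ 3 * (PP i : ℝ)⁻¹ ≤ ((1 + i : ℕ) : ℝ) ^ 3 *
          (((9 / 10 : ℝ) ^ 3)⁻¹ * (9 / 10 : ℝ) ^ i) := by gcongr
      _ = _ := by rw [pow_succ (9 / 10 : ℝ) i]; field_simp
  have h2 : ∀ i : ℕ, wgt i * (((1 + i : ℕ) : ℝ≥0∞) * (PP i : ℝ≥0∞)⁻¹) =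
      ENNReal.ofReal (((1 + i : ℕ) : ℝ) ^ 3 * (PP i : ℝ)⁻¹) := by
    intro i
    have hP : (0 : ℝ) < (PP i : ℝ) := by unfold PP; positivity
    rw [wgt, ENNReal.ofReal_mul (by positivity), ENNReal.ofReal_pow (by positivity),
      ENNReal.ofReal_inv_of_pos hP, ENNReal.ofReal_natCast, ENNReal.ofReal_natCast]
    ring
  simp only [h2]
  exact h1.tsum_ofReal_ne_top

/-- counting the scales: the weights with `PP i ≤ 2 y` -/
lemma tsum_scales {y : ℝ} (N : ℕ → Prop) [DecidablePred N]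
    (hN : ∀ i, N i → 8 ≤ i ∧ (PP i : ℝ) ≤ 2 * y) :
    (∑' i : ℕ, if N i then wgt i else 0) ≤ ENNReal.ofReal (8000 * Real.log y ^ 3) := by
  by_cases hy : ∃ i, N i
  · obtain ⟨i0, hi0⟩ := hy
    have hy2 : 2 ≤ y := by
      obtain ⟨h8, h1⟩ := hN i0 hi0
      have h2 : (4 : ℝ) ≤ PP i0 := by
        unfold PP
        push_cast
        calc (4 : ℝ) = 2 ^ 2 := by norm_num
          _ ≤ 2 ^ (i0 / 4) := pow_le_pow_right₀ (by norm_num) (by omega)
      linarith
    have hlog2 : (0.6931471803 : ℝ) < Real.log 2 := Real.log_two_gt_d9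
    have hlogy : Real.log 2 ≤ Real.log y := Real.log_le_log (by norm_num) hy2
    set M : ℕ := ⌊Real.log (2 * y) / Real.log 2⌋₊ with hM
    have hlog2y : Real.log (2 * y) = Real.log 2 + Real.log y :=
      Real.log_mul (by norm_num) (by linarith)
    have hi : ∀ i, N i → i < 4 * M + 4 := by
      intro i hNi
      have h1 := (hN i hNi).2
      have h2 : ((i / 4 : ℕ) : ℝ) ≤ Real.log (2 * y) / Real.log 2 := by
        rw [le_div_iff₀ (by linarith)]
        have : Real.log (PP i : ℝ) ≤ Real.log (2 * y) :=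
          Real.log_le_log (by unfold PP; positivity) h1
        unfold PP at this
        push_cast at this
        rwa [Real.log_pow] at this
      have h3 : i / 4 ≤ M := Nat.le_floor h2
      omega
    have h1 : (∑' i : ℕ, if N i then wgt i else 0) ≤
        ∑ i ∈ Finset.range (4 * M + 4), wgt i := by
      rw [tsum_eq_sum (s := Finset.range (4 * M + 4))]
      · refine Finset.sum_le_sum fun i _ => ?_
        split_ifs
        · exact le_rfl
        · exact bot_le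
      · intro i hi'
        rw [if_neg]
        intro hNi
        exact hi' (Finset.mem_range.2 (hi i hNi))
    refine h1.trans ?_
    have h2 : ∑ i ∈ Finset.range (4 * M + 4), wgt i ≤
        ((4 * M + 4 : ℕ) : ℝ≥0∞) * ((4 * M + 4 : ℕ) : ℝ≥0∞) ^ 2 := by
      have : ∀ i ∈ Finset.range (4 * M + 4), wgt i ≤ ((4 * M + 4 : ℕ) : ℝ≥0∞) ^ 2 := by
        intro i hi'
        unfold wgt
        have h3 : 1 + i ≤ 4 * M + 4 := by
          have := Finset.mem_range.1 hi'
          omega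
        gcongr
      refine (Finset.sum_le_card_nsmul _ _ _ this).trans ?_
      rw [Finset.card_range, nsmul_eq_mul]
    refine h2.trans ?_
    have h3 : ((4 * M + 4 : ℕ) : ℝ) ≤ 20 * Real.log y := by
      have hM1 : (M : ℝ) ≤ Real.log (2 * y) / Real.log 2 :=
        Nat.floor_le (div_nonneg (by rw [hlog2y]; linarith) (by linarith))
      rw [le_div_iff₀ (by linarith), hlog2y] at hM1
      push_cast
      nlinarith
    have h4 : ((4 * M + 4 : ℕ) : ℝ≥0∞) ≤ ENNReal.ofReal (20 * Real.log y) := by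
      rw [← ENNReal.ofReal_natCast]
      exact ENNReal.ofReal_le_ofReal h3
    calc ((4 * M + 4 : ℕ) : ℝ≥0∞) * ((4 * M + 4 : ℕ) : ℝ≥0∞) ^ 2
        ≤ ENNReal.ofReal (20 * Real.log y) * ENNReal.ofReal (20 * Real.log y) ^ 2 := by
          gcongr
      _ = ENNReal.ofReal (8000 * Real.log y ^ 3) := by
          have : 0 ≤ 20 * Real.log y := by nlinarith
          rw [← ENNReal.ofReal_pow this, ← ENNReal.ofReal_mul this]
          congr 1
          ring
  · have : (∑' i : ℕ, if N i then wgt i else 0) = 0 := by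
      rw [ENNReal.tsum_eq_zero]
      intro i
      rw [if_neg (fun h => hy ⟨i, h⟩)]
    rw [this]
    exact bot_le

/-- the kernels of `om`, summed over `i` -/
noncomputable def KK (j : Fin n) (f : E n → ℂ) (i : ℕ) (x : E n) (t : ℝ) : ℝ≥0∞ :=
  {p : E n × ℝ | 8 ≤ i ∧ 0 < p.2 ∧ p.2 ≤ 2 / (PP i : ℝ) * |p.1 j|}.indicator
    (fun p => wgt i * (‖f (p.1 + p.2 • e j) - f p.1‖ₑ ^ 2 * ENNReal.ofReal p.2⁻¹)) (x, t)

lemma KK_meas (j : Fin n) {f : E n → ℂ} (hf : Measurable f) (i : ℕ) :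
    Measurable (fun p : E n × ℝ => KK j f i p.1 p.2) := by
  unfold KK
  refine Measurable.indicator ?_ ?_
  · have h1 : Measurable (fun p : E n × ℝ => f (p.1 + p.2 • e j)) := by
      refine hf.comp ?_
      exact (Continuous.measurable (by fun_prop))
    have h2 : Measurable (fun p : E n × ℝ => f p.1) := hf.comp measurable_fst
    fun_prop
  · refine MeasurableSet.inter (MeasurableSet.const _) (MeasurableSet.inter ?_ ?_)
    · exact measurableSet_lt measurable_const measurable_snd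
    · refine measurableSet_le measurable_snd ?_
      exact (Continuous.measurable (by fun_prop))

lemma KK_int (j : Fin n) {f : E n → ℂ} (i : ℕ) :
    (∫⁻ x, ∫⁻ t, KK j f i x t) = if 8 ≤ i then wgt i * om j (2 / (PP i : ℝ)) f else 0 := by
  split_ifs with h8
  · unfold om
    have hw : wgt i ≠ ⊤ := by unfold wgt; exact ENNReal.pow_ne_top (wgt_ne_top i)
    rw [← lintegral_const_mul' _ _ hw]
    congr 1
    ext x
    rw [← lintegral_const_mul' _ _ hw, ← lintegral_indicator measurableSet_Ioc]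
    congr 1
    ext t
    unfold KK
    by_cases ht : t ∈ Ioc 0 (2 / (PP i : ℝ) * |x j|)
    · rw [indicator_of_mem ht, indicator_of_mem (show (x, t) ∈ {p : E n × ℝ | 8 ≤ i ∧ 0 < p.2 ∧
        p.2 ≤ 2 / (PP i : ℝ) * |p.1 j|} from ⟨h8, ht.1, ht.2⟩)]
    · rw [indicator_of_notMem ht, indicator_of_notMem (show (x, t) ∉ {p : E n × ℝ | 8 ≤ i ∧
        0 < p.2 ∧ p.2 ≤ 2 / (PP i : ℝ) * |p.1 j|} from fun h => ht ⟨h.2.1, h.2.2⟩)]
  · have : ∀ x t, KK j f i x t = 0 := by
      intro x t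
      unfold KK
      exact indicator_of_notMem (fun h => h8 h.1) _
    simp only [this, lintegral_zero]

lemma sum_om (j : Fin n) {f : E n → ℂ} (hf : Measurable f) :
    (∑' i : ℕ, if 8 ≤ i then wgt i * om j (2 / (PP i : ℝ)) f else 0) ≤ 8000 * logReg j f := by
  have h1 : (∑' i : ℕ, if 8 ≤ i then wgt i * om j (2 / (PP i : ℝ)) f else 0) =
      ∫⁻ x, ∫⁻ t, ∑' i, KK j f i x t := by
    simp only [← KK_int]
    rw [← lintegral_tsum]
    · congr 1
      ext x
      rw [← lintegral_tsum]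
      intro i
      exact ((KK_meas j hf i).comp measurable_prodMk_left).aemeasurable
    · intro i
      exact (Measurable.lintegral_prod_right' (KK_meas j hf i)).aemeasurable
  rw [h1]
  unfold logReg
  rw [← lintegral_const_mul' _ _ (by norm_num)]
  refine lintegral_mono fun x => ?_
  rw [← lintegral_const_mul' _ _ (by norm_num), ← lintegral_indicator measurableSet_Ioc]
  refine lintegral_mono fun t => ?_
  simp only
  by_cases ht : t ∈ Ioc 0 (|x j| / 2)
  · rw [indicator_of_mem ht]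
    have ht0 := ht.1
    classical
    have h2 : ∀ i, KK j f i x t = (if (8 ≤ i ∧ 0 < t ∧ t ≤ 2 / (PP i : ℝ) * |x j|) then wgt i
        else 0) * (‖f (x + t • e j) - f x‖ₑ ^ 2 * ENNReal.ofReal t⁻¹) := by
      intro i
      unfold KK
      split_ifs with h
      · rw [indicator_of_mem (by exact h)]
      · rw [indicator_of_notMem (by exact h), zero_mul]
    simp only [h2]
    rw [ENNReal.tsum_mul_right]
    have h3 := tsum_scales (y := |x j| / t)
      (fun i => 8 ≤ i ∧ 0 < t ∧ t ≤ 2 / (PP i : ℝ) * |x j|) (by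
        rintro i ⟨h8, -, h⟩
        refine ⟨h8, ?_⟩
        have hP : (0 : ℝ) < (PP i : ℝ) := by rw [PP_cast]; positivity
        rw [← mul_div_assoc, le_div_iff₀ ht0]
        have h4 : t * PP i ≤ 2 * |x j| := by
          calc t * PP i ≤ (2 / (PP i : ℝ) * |x j|) * PP i := by gcongr
            _ = 2 * |x j| := by field_simp
        linarith)
    calc _ ≤ ENNReal.ofReal (8000 * Real.log (|x j| / t) ^ 3) *
          (‖f (x + t • e j) - f x‖ₑ ^ 2 * ENNReal.ofReal t⁻¹) := mul_le_mul_left h3 _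
      _ = _ := by
        rw [ENNReal.ofReal_mul (by norm_num), div_eq_mul_inv (_ ^ 3) t, ENNReal.ofReal_mul']
        · have : ENNReal.ofReal 8000 = 8000 := by norm_num
          rw [this]
          ring
        · positivity
  · rw [indicator_of_notMem ht]
    have : ∀ i, KK j f i x t = 0 := by
      intro i
      unfold KK
      refine indicator_of_notMem ?_ _
      rintro ⟨h8, h0, h⟩
      refine ht ⟨h0, ?_⟩
      have h2 : (4 : ℝ) ≤ PP i := by
        rw [PP_cast]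
        calc (4 : ℝ) = 2 ^ 2 := by norm_num
          _ ≤ 2 ^ (i / 4) := pow_le_pow_right₀ (by norm_num) (by omega)
      calc t ≤ 2 / (PP i : ℝ) * |x j| := h
        _ ≤ 2 / 4 * |x j| := by gcongr
        _ = |x j| / 2 := by ring
    simp only [this, tsum_zero]
    exact le_rfl

lemma add_sq_le' (a b : ℝ≥0∞) : (a + b) ^ 2 ≤ 4 * (a ^ 2 + b ^ 2) := by
  rcases le_total a b with h | h
  · calc (a + b) ^ 2 ≤ (b + b) ^ 2 := by gcongr
      _ = 4 * b ^ 2 := by ring
      _ ≤ 4 * (a ^ 2 + b ^ 2) := by gcongr; exact le_add_self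
  · calc (a + b) ^ 2 ≤ (a + a) ^ 2 := by gcongr
      _ = 4 * a ^ 2 := by ring
      _ ≤ 4 * (a ^ 2 + b ^ 2) := by gcongr; exact le_self_add

end J13

open J13 in
theorem pU (hSplit : tSplit) (hMeas : tMeas) (hMain : tMain) (hTriv : tTriv) (hTW : tTstarW)
    (hPdom : tPdom) (hMF2 : tMF2) : tU := by
  intro n
  obtain ⟨CM, hM⟩ := hMain n
  obtain ⟨CT, hT⟩ := hTriv
  obtain ⟨CP, hP⟩ := hPdom n
  obtain ⟨CF, hF⟩ := hMF2 n
  set K0 : ℝ≥0∞ := ∑' i, (wgt i)⁻¹ with hK0
  have hK0' : K0 ≠ ⊤ := tsum_wgt_inv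
  set K1 : ℝ≥0∞ := ∑' i : ℕ, wgt i * (((1 + i : ℕ) : ℝ≥0∞) * (PP i : ℝ≥0∞)⁻¹) with hK1
  have hK1' : K1 ≠ ⊤ := tsum_PP
  refine ⟨4 * (CP ^ 2 * CF + K0.toNNReal * (2 * CT + CM) * (K1.toNNReal + 8000)), ?_⟩
  intro f hf hfi hf2
  set A : ℝ≥0∞ := ∫⁻ x, ‖f x‖ₑ ^ 2 with hA
  set L : ℝ≥0∞ := ∑ j, logReg j f with hL
  obtain ⟨mS, mP, mT⟩ := hMeas n f hfi
  -- the pieces
  have hW : ∀ i : ℕ, ∑' m : ℤ, W i (2 ^ m) f ≤ (2 * CT + CM : ℝ≥0) *
      ((((1 + i : ℕ) : ℝ≥0∞) * (PP i : ℝ≥0∞)⁻¹) * A +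
        ∑ j, if 8 ≤ i then om j (2 / (PP i : ℝ)) f else 0) := by
    intro i
    by_cases h8 : 8 ≤ i
    · refine (hM i f h8 hf hfi hf2).trans ?_
      simp only [if_pos h8]
      have h1 : (CM : ℝ≥0∞) ≤ ((2 * CT + CM : ℝ≥0) : ℝ≥0∞) := by
        rw [ENNReal.coe_le_coe]; exact le_add_self
      have h2 : (i : ℝ≥0∞) ≤ ((1 + i : ℕ) : ℝ≥0∞) := by
        rw [Nat.cast_le]; omega
      gcongr
    · refine (hT n i f hfi hf2).trans ?_
      have h1 : (CT : ℝ≥0∞) ≤ ((2 * CT + CM : ℝ≥0) : ℝ≥0∞) * (PP i : ℝ≥0∞)⁻¹ := by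
        have hPi : (PP i : ℝ≥0∞) ≤ 2 := by
          have : PP i ≤ 2 := by
            unfold PP
            calc 2 ^ (i / 4) ≤ 2 ^ 1 := Nat.pow_le_pow_right (by norm_num) (by omega)
              _ = 2 := by norm_num
          exact_mod_cast this
        calc (CT : ℝ≥0∞) = (2 * CT) * (2 : ℝ≥0∞)⁻¹ := by
              rw [mul_comm (2 : ℝ≥0∞), mul_assoc, ENNReal.mul_inv_cancel (by norm_num) (by norm_num),
                mul_one]
          _ ≤ (2 * CT + CM) * (PP i : ℝ≥0∞)⁻¹ := by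
              gcongr
              exact le_self_add
          _ = _ := by push_cast; rfl
      have h2 : (1 : ℝ≥0∞) ≤ ((1 + i : ℕ) : ℝ≥0∞) := by
        rw [← Nat.cast_one, Nat.cast_le]; omega
      calc (CT : ℝ≥0∞) * A ≤ ((2 * CT + CM : ℝ≥0) : ℝ≥0∞) * (PP i : ℝ≥0∞)⁻¹ * A := by gcongr
        _ = ((2 * CT + CM : ℝ≥0) : ℝ≥0∞) * ((1 * (PP i : ℝ≥0∞)⁻¹) * A + 0) := by
            rw [one_mul, add_zero, mul_assoc]
        _ ≤ _ := by
            gcongr
            exact bot_le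
  -- the square function
  have hTsum : ∫⁻ x, (∑' i, Tstar i f x) ^ 2 ≤
      K0 * ((2 * CT + CM : ℝ≥0) * (K1 * A + 8000 * L)) := by
    calc ∫⁻ x, (∑' i, Tstar i f x) ^ 2
        ≤ ∫⁻ x, K0 * ∑' i, wgt i * Tstar i f x ^ 2 := lintegral_mono fun x => tsum_sq_le _
      _ = K0 * ∑' i, wgt i * ∫⁻ x, Tstar i f x ^ 2 := by
          rw [lintegral_const_mul' _ _ hK0', lintegral_tsum]
          · congr 2
            ext i
            rw [lintegral_const_mul' _ _ (by unfold wgt; exact ENNReal.pow_ne_top (wgt_ne_top i))]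
          · intro i
            exact (((mT i).pow_const 2).const_mul _).aemeasurable
      _ ≤ K0 * ∑' i, wgt i * ((2 * CT + CM : ℝ≥0) *
            ((((1 + i : ℕ) : ℝ≥0∞) * (PP i : ℝ≥0∞)⁻¹) * A +
              ∑ j, if 8 ≤ i then om j (2 / (PP i : ℝ)) f else 0)) := by
          gcongr with i
          exact (hTW n i f hfi).trans (hW i)
      _ = K0 * ((2 * CT + CM : ℝ≥0) * (K1 * A +
            ∑ j, ∑' i : ℕ, if 8 ≤ i then wgt i * om j (2 / (PP i : ℝ)) f else 0)) := by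
          congr 1
          rw [← Summable.tsum_finsetSum (fun _ _ => ENNReal.summable), hK1, ← ENNReal.tsum_mul_right,
            ← ENNReal.tsum_add, ← ENNReal.tsum_mul_left]
          congr 1
          ext i
          have : (∑ j, if 8 ≤ i then wgt i * om j (2 / (PP i : ℝ)) f else 0) =
              wgt i * ∑ j, if 8 ≤ i then om j (2 / (PP i : ℝ)) f else 0 := by
            rw [Finset.mul_sum]
            refine Finset.sum_congr rfl fun j _ => ?_
            split_ifs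
            · rfl
            · rw [mul_zero]
          rw [this]
          ring
      _ ≤ _ := by
          rw [hL, Finset.mul_sum]
          gcongr with j
          exact sum_om j hf
  have hPs : ∫⁻ x, Pstar f x ^ 2 ≤ CP ^ 2 * (CF * A) := by
    calc ∫⁻ x, Pstar f x ^ 2 ≤ ∫⁻ x, CP ^ 2 * MF (fun y => ‖f y‖ₑ) x ^ 2 := by
          refine lintegral_mono fun x => ?_
          simp only
          rw [← mul_pow]
          gcongr
          exact hP f hfi x
      _ = CP ^ 2 * ∫⁻ x, MF (fun y => ‖f y‖ₑ) x ^ 2 :=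
          lintegral_const_mul' _ _ (ENNReal.pow_ne_top ENNReal.coe_ne_top)
      _ ≤ _ := by
          gcongr
          exact hF _ hf.enorm
  calc ∫⁻ x, Sstar f x ^ 2 ≤ ∫⁻ x, 4 * (Pstar f x ^ 2 + (∑' i, Tstar i f x) ^ 2) := by
        refine lintegral_mono fun x => ?_
        refine le_trans ?_ (add_sq_le' _ _)
        gcongr
        exact hSplit n f hfi x
    _ = 4 * ((∫⁻ x, Pstar f x ^ 2) + ∫⁻ x, (∑' i, Tstar i f x) ^ 2) := by
        rw [lintegral_const_mul' _ _ (by norm_num), lintegral_add_left (mP.pow_const 2)]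
    _ ≤ 4 * (CP ^ 2 * (CF * A) + K0 * ((2 * CT + CM : ℝ≥0) * (K1 * A + 8000 * L))) := by
        gcongr
    _ ≤ 4 * (CP ^ 2 * (CF * (A + L)) + K0 * ((2 * CT + CM : ℝ≥0) * (K1 * (A + L) +
          8000 * (A + L)))) := by
        gcongr
        · exact le_self_add
        · exact le_self_add
        · exact le_add_self
    _ = _ := by
        push_cast
        rw [ENNReal.coe_toNNReal hK0', ENNReal.coe_toNNReal hK1']
        ring

end Pool.Agent.MBS
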