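import Pool.Agent.MBS.Targets

set_option autoImplicit false

/-! J5: the annulus multipliers. -/

namespace Pool.Agent.MBS

open MeasureTheory FourierTransform Set Filter
open scoped ENNReal NNReal Topology

theorem et_zero {u : ℝ} (h : u ≤ 1 / 4) : et u = 0 := by
  unfold et
  exact Real.smoothTransition.zero_of_nonpos (by linarith)

theorem et_one {u : ℝ} (h : 1 / 2 ≤ u) : et u = 1 := by
  unfold et
  exact Real.smoothTransition.one_of_one_le (by linarith)

theorem et_nonneg (u : ℝ) : 0 ≤ et u := Real.smoothTransition.nonneg _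

theorem et_le_one (u : ℝ) : et u ≤ 1 := Real.smoothTransition.le_one _

theorem et_contDiff : ContDiff ℝ ((⊤ : ℕ∞) : WithTop ℕ∞) et := by
  unfold et
  exact Real.smoothTransition.contDiff.comp (by fun_prop)

theorem ps_contDiff : ContDiff ℝ ((⊤ : ℕ∞) : WithTop ℕ∞) ps := by
  unfold ps
  exact (et_contDiff.comp (by fun_prop)).sub et_contDiff

theorem ps_zero {u : ℝ} (h : u ≤ 1 / 8 ∨ 1 / 2 ≤ u) : ps u = 0 := by
  unfold ps
  rcases h with h | h
  · rw [et_zero (by linarith), et_zero (by linarith), sub_zero]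
  · rw [et_one (by linarith), et_one h, sub_self]

theorem ev_zero {u : ℝ} (h : u < 1 / 8 ∨ 1 / 2 < u) : ps =ᶠ[𝓝 u] fun _ => 0 := by
  rcases h with h | h
  · filter_upwards [Iio_mem_nhds h] with v hv
    exact ps_zero (Or.inl (le_of_lt hv))
  · filter_upwards [Ioi_mem_nhds h] with v hv
    exact ps_zero (Or.inr (le_of_lt hv))

theorem ps1_zero {u : ℝ} (h : u < 1 / 8 ∨ 1 / 2 < u) : ps1 u = 0 := by
  unfold ps1
  rw [(ev_zero h).deriv_eq]
  simp

theorem ps2_zero {u : ℝ} (h : u < 1 / 8 ∨ 1 / 2 < u) : ps2 u = 0 := by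
  unfold ps2
  rw [(ev_zero h).deriv.deriv_eq]
  simp

theorem ps1_contDiff : ContDiff ℝ ((⊤ : ℕ∞) : WithTop ℕ∞) ps1 := by
  unfold ps1
  have h := ps_contDiff
  rw [contDiff_infty_iff_deriv] at h
  exact h.2

theorem ps2_contDiff : ContDiff ℝ ((⊤ : ℕ∞) : WithTop ℕ∞) ps2 := by
  have h := ps1_contDiff
  rw [contDiff_infty_iff_deriv] at h
  have e : ps2 = deriv ps1 := by
    funext u
    rfl
  rw [e]
  exact h.2

theorem hasDerivAt_ps (u : ℝ) : HasDerivAt ps (ps1 u) u :=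
  (ps_contDiff.differentiable (by simp)).differentiableAt.hasDerivAt

theorem hasDerivAt_ps1 (u : ℝ) : HasDerivAt ps1 (ps2 u) u := by
  have h := (ps1_contDiff.differentiable (by simp)).differentiableAt (x := u)
  exact h.hasDerivAt

theorem cs_of_zero {g : ℝ → ℝ} (hg : ∀ u, (u < 1 / 8 ∨ 1 / 2 < u) → g u = 0) :
    HasCompactSupport g := by
  refine HasCompactSupport.intro (isCompact_Icc (a := (1 / 8 : ℝ)) (b := 1 / 2)) fun u hu => ?_
  apply hg
  by_contra hcon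
  push Not at hcon
  exact hu ⟨hcon.1, hcon.2⟩

theorem exists_bd : ∃ B : ℝ, 1 ≤ B ∧ ∀ u, |ps u| ≤ B ∧ |ps1 u| ≤ B ∧ |ps2 u| ≤ B := by
  obtain ⟨B0, h0⟩ := (cs_of_zero (g := ps) fun u hu =>
    ps_zero (hu.imp le_of_lt le_of_lt)).exists_bound_of_continuous ps_contDiff.continuous
  obtain ⟨B1, h1⟩ := (cs_of_zero (g := ps1) fun u hu =>
    ps1_zero hu).exists_bound_of_continuous ps1_contDiff.continuous
  obtain ⟨B2, h2⟩ := (cs_of_zero (g := ps2) fun u hu =>
    ps2_zero hu).exists_bound_of_continuous ps2_contDiff.continuous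
  refine ⟨max (max B0 B1) (max B2 1), (le_max_right _ _).trans (le_max_right _ _), fun u =>
    ⟨?_, ?_, ?_⟩⟩
  · exact (h0 u).trans ((le_max_left _ _).trans (le_max_left _ _))
  · exact (h1 u).trans ((le_max_right _ _).trans (le_max_left _ _))
  · exact (h2 u).trans ((le_max_left _ _).trans (le_max_right _ _))

theorem pPs : tPs := by
  refine ⟨ps_contDiff, fun u hu => ⟨ps_zero (hu.imp le_of_lt le_of_lt), ps1_zero hu, ps2_zero hu⟩,
    fun u => ?_, fun u hu => et_one hu, fun u => ⟨et_nonneg u, et_le_one u⟩, exists_bd⟩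
  rcases le_or_gt u (1 / 4) with h | h
  · exact Or.inl (et_zero h)
  · exact Or.inr h

variable {n : ℕ}

theorem vv_cont (i : ℕ) : ContinuousOn (fun p : ℝ × E n => vv i p.1 p.2) (Ioi 0 ×ˢ univ) := by
  unfold vv
  have h : ∀ p ∈ (Ioi (0 : ℝ) ×ˢ (univ : Set (E n))), p.1 ^ 2 ≠ 0 := fun p hp => by
    have : 0 < p.1 := hp.1
    positivity
  exact continuousOn_const.mul (continuousOn_const.sub
    ((by fun_prop : Continuous fun p : ℝ × E n => ‖p.2‖ ^ 2).continuousOn.div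
      (by fun_prop : Continuous fun p : ℝ × E n => p.1 ^ 2).continuousOn h))

theorem vv_neg {i : ℕ} {R : ℝ} (hR : 0 < R) {ξ : E n} (h : R < ‖ξ‖) : vv i R ξ < 1 / 8 := by
  unfold vv
  have h1 : 1 < ‖ξ‖ ^ 2 / R ^ 2 := by
    rw [one_lt_div (by positivity)]
    gcongr
  have h2 : (0 : ℝ) < 2 ^ i := by positivity
  nlinarith

theorem div_cont {f : E n → ℝ} (hf : Continuous f) (k : ℕ) :
    ContinuousOn (fun p : ℝ × E n => f p.2 / p.1 ^ k) (Ioi 0 ×ˢ univ) := by
  have h : ∀ p ∈ (Ioi (0 : ℝ) ×ˢ (univ : Set (E n))), p.1 ^ k ≠ 0 := fun p hp => by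
    have : 0 < p.1 := hp.1
    positivity
  exact (hf.comp continuous_snd).continuousOn.div
    (by fun_prop : Continuous fun p : ℝ × E n => p.1 ^ k).continuousOn h

theorem fam_mul (i : ℕ) : Fam (mul (n := n) i) where
  cont := ps_contDiff.continuous.comp_continuousOn (vv_cont i)
  supp := fun R hR ξ hξ => ps_zero (Or.inl (vv_neg hR hξ).le)

theorem fam_mR (i : ℕ) : Fam (mR (n := n) i) where
  cont := (ps1_contDiff.continuous.comp_continuousOn (vv_cont i)).mul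
    (div_cont (f := fun ξ : E n => 2 * 2 ^ i * ‖ξ‖ ^ 2) (by fun_prop) 3)
  supp := fun R hR ξ hξ => by
    unfold mR
    rw [ps1_zero (Or.inl (vv_neg hR hξ)), zero_mul]

theorem fam_mRR (i : ℕ) : Fam (mRR (n := n) i) where
  cont := ((ps2_contDiff.continuous.comp_continuousOn (vv_cont i)).mul
    ((div_cont (f := fun ξ : E n => 2 * 2 ^ i * ‖ξ‖ ^ 2) (by fun_prop) 3).pow 2)).sub
    ((ps1_contDiff.continuous.comp_continuousOn (vv_cont i)).mul
    (div_cont (f := fun ξ : E n => 6 * 2 ^ i * ‖ξ‖ ^ 2) (by fun_prop) 4))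
  supp := fun R hR ξ hξ => by
    unfold mRR
    rw [ps1_zero (Or.inl (vv_neg hR hξ)), ps2_zero (Or.inl (vv_neg hR hξ)), zero_mul, zero_mul,
      sub_zero]

theorem fam_mj (i : ℕ) (j : Fin n) : Fam (mj (n := n) i j) where
  cont := (ps1_contDiff.continuous.comp_continuousOn (vv_cont i)).mul
    (div_cont (f := fun ξ : E n => 2 * 2 ^ i * ξ j) (by fun_prop) 2).neg
  supp := fun R hR ξ hξ => by
    unfold mj
    rw [ps1_zero (Or.inl (vv_neg hR hξ)), zero_mul]

theorem fam_mjj (i : ℕ) (j : Fin n) : Fam (mjj (n := n) i j) where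
  cont := ((ps2_contDiff.continuous.comp_continuousOn (vv_cont i)).mul
    ((div_cont (f := fun ξ : E n => 2 * 2 ^ i * ξ j) (by fun_prop) 2).pow 2)).sub
    ((ps1_contDiff.continuous.comp_continuousOn (vv_cont i)).mul
    (div_cont (f := fun _ : E n => 2 * 2 ^ i) (by fun_prop) 2))
  supp := fun R hR ξ hξ => by
    unfold mjj
    rw [ps1_zero (Or.inl (vv_neg hR hξ)), ps2_zero (Or.inl (vv_neg hR hξ)), zero_mul, zero_mul,
      sub_zero]

theorem fam_pm : Fam (pm (n := n)) where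
  cont := et_contDiff.continuous.comp_continuousOn (continuousOn_const.sub
    (div_cont (f := fun ξ : E n => ‖ξ‖ ^ 2) (by fun_prop) 2))
  supp := fun R hR ξ hξ => by
    apply et_zero
    have h1 : 1 < ‖ξ‖ ^ 2 / R ^ 2 := by
      rw [one_lt_div (by positivity)]
      gcongr
    linarith

theorem hasDerivAt_vv (i : ℕ) {R : ℝ} (hR : 0 < R) (ξ : E n) :
    HasDerivAt (fun r => vv i r ξ) (2 * 2 ^ i * ‖ξ‖ ^ 2 / R ^ 3) R := by
  unfold vv
  have h1 : HasDerivAt (fun r : ℝ => r ^ 2) (2 * R) R := by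
    simpa using hasDerivAt_pow 2 R
  have h2 := ((hasDerivAt_const R (‖ξ‖ ^ 2)).div h1 (by positivity)).const_sub 1
  have h3 := h2.const_mul ((2 : ℝ) ^ i)
  refine h3.congr_deriv ?_
  field_simp
  ring

theorem derR_mul (i : ℕ) : DerR (mul (n := n) i) (mR i) := fun R hR ξ =>
  (hasDerivAt_ps (vv i R ξ)).comp R (hasDerivAt_vv i hR ξ)

theorem derR_mR (i : ℕ) : DerR (mR (n := n) i) (mRR i) := by
  intro R hR ξ
  have h1 := (hasDerivAt_ps1 (vv i R ξ)).comp R (hasDerivAt_vv i hR ξ)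
  have h2 : HasDerivAt (fun r : ℝ => r ^ 3) (3 * R ^ 2) R := by
    simpa using hasDerivAt_pow 3 R
  have h3 := (hasDerivAt_const R (2 * 2 ^ i * ‖ξ‖ ^ 2)).div h2 (by positivity)
  refine (h1.mul h3).congr_deriv ?_
  unfold mRR
  simp only [Function.comp_apply, Pi.div_apply]
  field_simp
  ring

theorem pMulFam : tMulFam := fun n i =>
  ⟨fam_mul i, fam_mR i, fam_mRR i, derR_mul i, derR_mR i, fam_pm, fun j =>
    ⟨fam_mj i j, fam_mjj i j⟩⟩

theorem norm_add_e (ξ : E n) (j : Fin n) (t : ℝ) :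
    ‖ξ + t • e j‖ ^ 2 = ‖ξ‖ ^ 2 + 2 * t * ξ j + t ^ 2 := by
  rw [@norm_add_sq_real]
  have h1 : inner ℝ ξ (t • e j) = t * ξ j := by
    rw [real_inner_smul_right, real_inner_comm, e, EuclideanSpace.inner_single_left]
    simp
  have h2 : ‖t • e (n := n) j‖ = |t| := by
    rw [norm_smul, Real.norm_eq_abs]
    simp [e]
  rw [h1, h2, sq_abs]
  ring

theorem hasDerivAt_vvj (i : ℕ) (j : Fin n) (R : ℝ) (ξ : E n) :
    HasDerivAt (fun t : ℝ => vv i R (ξ + t • e j)) (-(2 * 2 ^ i * ξ j / R ^ 2)) 0 := by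
  unfold vv
  simp only [norm_add_e]
  have h1 : HasDerivAt (fun t : ℝ => ‖ξ‖ ^ 2 + 2 * t * ξ j + t ^ 2) (2 * ξ j) 0 := by
    have a1 : HasDerivAt (fun t : ℝ => 2 * t * ξ j) (2 * ξ j) 0 := by
      simpa using ((hasDerivAt_id (0 : ℝ)).const_mul 2).mul_const (ξ j)
    have a2 : HasDerivAt (fun t : ℝ => t ^ 2) 0 0 := by
      simpa using hasDerivAt_pow 2 (0 : ℝ)
    exact ((a1.const_add (‖ξ‖ ^ 2)).add a2).congr_deriv (by ring)
  have h2 := ((h1.div_const (R ^ 2)).const_sub 1).const_mul ((2 : ℝ) ^ i)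
  refine h2.congr_deriv ?_
  ring

theorem pMulj : tMulj := by
  intro n i j R ξ hR
  have hv := hasDerivAt_vvj i j R ξ
  have e0 : ξ + (0 : ℝ) • e j = ξ := by simp
  constructor
  · have h := (hasDerivAt_ps (vv i R (ξ + (0 : ℝ) • e j))).comp (0 : ℝ) hv
    refine h.congr_deriv ?_
    rw [e0]
    rfl
  · have h1 := (hasDerivAt_ps1 (vv i R (ξ + (0 : ℝ) • e j))).comp (0 : ℝ) hv
    have h2 : HasDerivAt (fun t : ℝ => -(2 * 2 ^ i * (ξ + t • e j) j / R ^ 2))
        (-(2 * 2 ^ i / R ^ 2)) 0 := by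
      have e1 : (fun t : ℝ => -(2 * 2 ^ i * (ξ + t • e j) j / R ^ 2)) =
          fun t : ℝ => -(2 * 2 ^ i * (ξ j + t) / R ^ 2) := by
        funext t
        simp [e]
      rw [e1]
      have a1 : HasDerivAt (fun t : ℝ => ξ j + t) 1 0 := (hasDerivAt_id (0 : ℝ)).const_add _
      have a2 := ((a1.const_mul (2 * (2 : ℝ) ^ i)).div_const (R ^ 2)).neg
      refine a2.congr_deriv ?_
      ring
    refine (h1.mul h2).congr_deriv ?_
    simp only [Function.comp_apply]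
    rw [e0]
    unfold mjj
    ring

theorem meas_of_close {s : Set ℝ} {d : ℝ} (h : ∀ x ∈ s, ∀ y ∈ s, x ≤ y → y - x ≤ d) :
    volume s ≤ ENNReal.ofReal (2 * d) := by
  rcases s.eq_empty_or_nonempty with hs | ⟨x, hx⟩
  · rw [hs, measure_empty]
    exact bot_le
  · have hsub : s ⊆ Icc (x - d) (x + d) := by
      intro y hy
      rcases le_total x y with hxy | hxy
      · have := h x hx y hy hxy
        exact ⟨by linarith, by linarith⟩
      · have := h y hy x hx hxy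
        exact ⟨by linarith, by linarith⟩
    refine (measure_mono hsub).trans ?_
    rw [Real.volume_Icc]
    apply ENNReal.ofReal_le_ofReal
    linarith

theorem vv_range {i : ℕ} {R : ℝ} (hR : 0 < R) {ξ : E n} (h1 : 1 / 8 ≤ vv i R ξ)
    (h2 : vv i R ξ ≤ 1 / 2) :
    ‖ξ‖ ^ 2 ≤ R ^ 2 ∧ R ^ 2 * (1 - 1 / (2 * 2 ^ i)) ≤ ‖ξ‖ ^ 2 := by
  have hN : (0 : ℝ) < 2 ^ i := by positivity
  have hR2 : 0 < R ^ 2 := by positivity
  unfold vv at h1 h2
  constructor
  · by_contra hcon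
    push Not at hcon
    have : 1 < ‖ξ‖ ^ 2 / R ^ 2 := by
      rw [one_lt_div hR2]
      exact hcon
    nlinarith
  · have h3 : 1 - ‖ξ‖ ^ 2 / R ^ 2 ≤ 1 / (2 * 2 ^ i) := by
      rw [le_div_iff₀ (by positivity)]
      nlinarith
    have h4 : 1 - 1 / (2 * 2 ^ i) ≤ ‖ξ‖ ^ 2 / R ^ 2 := by linarith
    rw [le_div_iff₀ hR2] at h4
    linarith

theorem pMeasR : tMeasR := by
  intro n i ξ
  have hN : (0 : ℝ) < 2 ^ i := by positivity
  refine (meas_of_close (d := 1 / 2 ^ i) ?_).trans (ENNReal.ofReal_le_ofReal ?_)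
  · rintro x ⟨hx, hx1, hx2⟩ y ⟨hy, hy1, hy2⟩ hxy
    have a1 := (vv_range (by linarith [hx.1]) hx1 hx2).1
    have a2 := (vv_range (by linarith [hy.1]) hy1 hy2).2
    have a3 : y ^ 2 * (1 / (2 * 2 ^ i)) ≤ 4 * (1 / (2 * 2 ^ i)) := by
      gcongr
      nlinarith [hy.1, hy.2]
    have a4 : y ^ 2 - x ^ 2 ≤ 2 * (1 / 2 ^ i) := by
      have e1 : 4 * (1 / (2 * (2 : ℝ) ^ i)) = 2 * (1 / 2 ^ i) := by
        field_simp
        norm_num
      rw [← e1]
      nlinarith
    have a5 : 2 * (y - x) ≤ (y - x) * (y + x) := by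
      rw [mul_comm]
      apply mul_le_mul_of_nonneg_left _ (by linarith)
      linarith [hx.1, hy.1]
    nlinarith
  · rw [mul_one_div]
    gcongr
    norm_num

theorem annulus {i : ℕ} {R : ℝ} (hR : R ∈ Icc (1 : ℝ) 2) {ξ : E n} (h1 : 1 / 8 ≤ vv i R ξ)
    (h2 : vv i R ξ ≤ 1 / 2) : 1 / 2 ≤ ‖ξ‖ ∧ ‖ξ‖ ≤ 2 := by
  obtain ⟨a1, a2⟩ := vv_range (by linarith [hR.1]) h1 h2
  have hN : (1 : ℝ) ≤ 2 ^ i := one_le_pow₀ (by norm_num)
  have h3 : 1 / (2 * (2 : ℝ) ^ i) ≤ 1 / 2 := by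
    apply one_div_le_one_div_of_le (by norm_num)
    linarith
  have h4 : 1 ≤ R ^ 2 := by nlinarith [hR.1]
  have h5 : R ^ 2 ≤ 4 := by nlinarith [hR.1, hR.2]
  have h6 : 1 / 2 ≤ ‖ξ‖ ^ 2 := by nlinarith
  have h7 := norm_nonneg ξ
  constructor
  · nlinarith
  · nlinarith

theorem pF2 (hSob : tSob) : tF2 := by
  obtain ⟨B, hB1, hB⟩ := exists_bd
  refine ⟨(24 * B ^ 2).toNNReal, fun n i h hh => ?_⟩
  set N : ℝ := 2 ^ i with hNdef
  have hN1 : 1 ≤ N := one_le_pow₀ (by norm_num)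
  have hN0 : 0 < N := by linarith
  set l : ℝ≥0 := 2 ^ i with hl
  have hlN : (l : ℝ≥0∞) = ENNReal.ofReal N := by
    rw [hl, hNdef, ENNReal.ofReal_pow (by norm_num)]
    push_cast
    norm_num
  have hl0 : 0 < l := by positivity
  refine (hSob n (mul i) (mR i) h (fam_mul i) (fam_mR i) hh (derR_mul i) l hl0).trans ?_
  set A : Set (E n) := {ξ : E n | 1 / 2 ≤ ‖ξ‖ ∧ ‖ξ‖ ≤ 2} with hA
  have hAm : MeasurableSet A := by
    have h1 : MeasurableSet {ξ : E n | 1 / 2 ≤ ‖ξ‖} := measurableSet_le measurable_const measurable_norm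
    have h2 : MeasurableSet {ξ : E n | ‖ξ‖ ≤ 2} := measurableSet_le measurable_norm measurable_const
    exact h1.inter h2
  rw [← lintegral_const_mul' _ _ ENNReal.coe_ne_top, ← lintegral_indicator hAm]
  refine lintegral_mono fun ξ => ?_
  dsimp only
  set Z : Set ℝ := {R : ℝ | R ∈ Icc (1 : ℝ) 2 ∧ 1 / 8 ≤ vv i R ξ ∧ vv i R ξ ≤ 1 / 2} with hZ
  have hZm : volume Z ≤ ENNReal.ofReal (4 / N) := pMeasR n i ξ
  have hvm : Measurable (fun R : ℝ => vv i R ξ) := by
    unfold vv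
    fun_prop
  have hZms : MeasurableSet Z := by
    refine measurableSet_Icc.inter ?_
    exact (measurableSet_le measurable_const hvm).inter (measurableSet_le hvm measurable_const)
  -- a general bound
  have key : ∀ (a : ℝ → ℝ) (K : ℝ), 0 ≤ K →
      (∀ R ∈ Icc (1 : ℝ) 2, (vv i R ξ < 1 / 8 ∨ 1 / 2 < vv i R ξ) → a R = 0) →
      (∀ R ∈ Z, |a R| ≤ K) →
      ∫⁻ R in Icc (1 : ℝ) 2, ‖a R‖ₑ ^ 2 ≤ ENNReal.ofReal (K ^ 2 * (4 / N)) := by
    intro a K hK ha0 haK
    calc ∫⁻ R in Icc (1 : ℝ) 2, ‖a R‖ₑ ^ 2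
        ≤ ∫⁻ R in Icc (1 : ℝ) 2, Z.indicator (fun _ => ENNReal.ofReal (K ^ 2)) R := by
          refine setLIntegral_mono' measurableSet_Icc fun R hR => ?_
          by_cases hRZ : R ∈ Z
          · rw [indicator_of_mem hRZ, ENNReal.ofReal_pow hK]
            gcongr
            rw [← ofReal_norm, Real.norm_eq_abs]
            exact ENNReal.ofReal_le_ofReal (haK R hRZ)
          · rw [indicator_of_notMem hRZ, ha0 R hR]
            · simp
            · by_contra hcon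
              push Not at hcon
              exact hRZ ⟨hR, hcon.1, hcon.2⟩
      _ ≤ ∫⁻ R, Z.indicator (fun _ => ENNReal.ofReal (K ^ 2)) R := setLIntegral_le_lintegral _ _
      _ = ENNReal.ofReal (K ^ 2) * volume Z := by
          rw [lintegral_indicator hZms, setLIntegral_const]
      _ ≤ ENNReal.ofReal (K ^ 2) * ENNReal.ofReal (4 / N) := by gcongr
      _ = _ := by rw [← ENNReal.ofReal_mul (by positivity)]
  have k1 := key (fun R => mul i R ξ) B (by linarith)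
    (fun R _ hv => ps_zero (hv.imp le_of_lt le_of_lt)) (fun R _ => (hB _).1)
  have k2 := key (fun R => mR i R ξ) (B * (2 * N)) (by positivity)
    (fun R _ hv => by
      unfold mR
      rw [ps1_zero hv, zero_mul])
    (fun R hR => by
      have hR1 := hR.1.1
      have hR0 : 0 < R := by linarith
      obtain ⟨a1, _⟩ := vv_range hR0 hR.2.1 hR.2.2
      unfold mR
      rw [abs_mul]
      have h3 : |2 * 2 ^ i * ‖ξ‖ ^ 2 / R ^ 3| ≤ 2 * N := by
        rw [abs_of_nonneg (by positivity), div_le_iff₀ (by positivity), ← hNdef]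
        have h4 : ‖ξ‖ ^ 2 ≤ R ^ 3 := by nlinarith [sq_nonneg R]
        gcongr
      exact mul_le_mul (hB _).2.1 h3 (abs_nonneg _) (by linarith))
  by_cases hξ : ξ ∈ A
  · rw [indicator_of_mem hξ]
    gcongr
    calc (1 + (l : ℝ≥0∞)) * (∫⁻ R in Icc (1 : ℝ) 2, ‖mul i R ξ‖ₑ ^ 2) +
          (l : ℝ≥0∞)⁻¹ * ∫⁻ R in Icc (1 : ℝ) 2, ‖mR i R ξ‖ₑ ^ 2
        ≤ (1 + (l : ℝ≥0∞)) * ENNReal.ofReal (B ^ 2 * (4 / N)) +
          (l : ℝ≥0∞)⁻¹ * ENNReal.ofReal ((B * (2 * N)) ^ 2 * (4 / N)) := by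
          gcongr
      _ = ENNReal.ofReal ((1 + N) * (B ^ 2 * (4 / N))) +
          ENNReal.ofReal (N⁻¹ * ((B * (2 * N)) ^ 2 * (4 / N))) := by
          rw [hlN, ENNReal.ofReal_mul (p := 1 + N) (by positivity), ENNReal.ofReal_add (by norm_num)
            hN0.le, ENNReal.ofReal_one, ENNReal.ofReal_mul (p := N⁻¹) (by positivity),
            ENNReal.ofReal_inv_of_pos hN0]
      _ = ENNReal.ofReal ((1 + N) * (B ^ 2 * (4 / N)) + N⁻¹ * ((B * (2 * N)) ^ 2 * (4 / N))) := by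
          rw [← ENNReal.ofReal_add (by positivity) (by positivity)]
      _ ≤ ENNReal.ofReal (24 * B ^ 2) := by
          apply ENNReal.ofReal_le_ofReal
          have e1 : (1 + N) * (B ^ 2 * (4 / N)) + N⁻¹ * ((B * (2 * N)) ^ 2 * (4 / N)) =
              B ^ 2 * (4 * (1 / N) + 20) := by
            field_simp
            ring
          rw [e1]
          have e2 : 1 / N ≤ 1 := by
            rw [div_le_one hN0]
            exact hN1
          nlinarith [sq_nonneg B]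
      _ = _ := rfl
  · rw [indicator_of_notMem hξ]
    have z1 : ∀ R ∈ Icc (1 : ℝ) 2, vv i R ξ < 1 / 8 ∨ 1 / 2 < vv i R ξ := by
      intro R hR
      by_contra hcon
      push Not at hcon
      exact hξ (annulus hR hcon.1 hcon.2)
    have z2 : ∫⁻ R in Icc (1 : ℝ) 2, ‖mul i R ξ‖ₑ ^ 2 = 0 := by
      rw [setLIntegral_congr_fun measurableSet_Icc (g := fun _ => 0) fun R hR => by
        have : mul i R ξ = 0 := ps_zero ((z1 R hR).imp le_of_lt le_of_lt)
        simp only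
        rw [this]
        simp]
      simp
    have z3 : ∫⁻ R in Icc (1 : ℝ) 2, ‖mR i R ξ‖ₑ ^ 2 = 0 := by
      rw [setLIntegral_congr_fun measurableSet_Icc (g := fun _ => 0) fun R hR => by
        simp only
        unfold mR
        rw [ps1_zero (z1 R hR)]
        simp]
      simp
    rw [z2, z3]
    simp

end Pool.Agent.MBS
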