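import Pool.Agent.MBS.Targets

set_option autoImplicit false

/-! J10: the main estimate. -/

namespace Pool.Agent.MBS

open MeasureTheory FourierTransform Set
open scoped ENNReal NNReal

namespace J10

lemma et_cont : Continuous et := by
  unfold et
  exact Real.smoothTransition.continuous.comp (by fun_prop)

lemma ps_cont : Continuous ps := by
  unfold ps
  exact (et_cont.comp (by fun_prop)).sub et_cont

lemma ps_zero {u : ℝ} (hu : u ≤ 0) : ps u = 0 := by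
  unfold ps et
  rw [Real.smoothTransition.zero_of_nonpos (by linarith),
    Real.smoothTransition.zero_of_nonpos (by linarith), sub_zero]

lemma mul_cont {n : ℕ} (i : ℕ) (R : ℝ) : Continuous (mul (n := n) i R) := by
  unfold mul
  exact ps_cont.comp (by fun_prop)

lemma mul_supp {n : ℕ} (i : ℕ) {R : ℝ} (hR : 0 < R) (ξ : E n) (h : R < ‖ξ‖) :
    mul i R ξ = 0 := by
  unfold mul
  apply ps_zero
  have h1 : 1 - ‖ξ‖ ^ 2 / R ^ 2 ≤ 0 := by
    rw [sub_nonpos, le_div_iff₀ (by positivity)]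
    nlinarith
  exact mul_nonpos_of_nonneg_of_nonpos (by positivity) h1

lemma mul_compact {n : ℕ} (i : ℕ) {R : ℝ} (hR : 0 < R) :
    HasCompactSupport (mul (n := n) i R) :=
  HasCompactSupport.intro (isCompact_closedBall (0 : E n) R) (fun ξ hξ => mul_supp i hR ξ (by
    simpa [dist_eq_norm] using hξ))

lemma ex_cont {n : ℕ} : Continuous (fun p : E n × E n => ex p.1 p.2) := by
  unfold ex
  fun_prop

lemma ex_norm {n : ℕ} (x ξ : E n) : ‖ex x ξ‖ = 1 := by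
  unfold ex
  rw [Complex.norm_exp]
  simp

lemma T_integrable {n : ℕ} {a : E n → ℝ} (ha : Continuous a) (hs : HasCompactSupport a)
    {h : E n → ℂ} (hh : Continuous h) (x : E n) :
    Integrable (fun ξ => (a ξ : ℂ) * (h ξ * ex x ξ)) := by
  apply Continuous.integrable_of_hasCompactSupport
  · have : Continuous (fun ξ => ex x ξ) := ex_cont.comp (continuous_const.prodMk continuous_id)
    fun_prop
  · refine HasCompactSupport.mul_right ?_
    exact hs.comp_left (g := fun t : ℝ => (t : ℂ)) Complex.ofReal_zero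

lemma T_cont {n : ℕ} {a : E n → ℝ} (ha : Continuous a) (hs : HasCompactSupport a)
    {h : E n → ℂ} (hh : Continuous h) : Continuous (T a h) := by
  unfold T
  apply continuous_of_dominated (bound := fun ξ => ‖(a ξ : ℂ) * (h ξ * ex 0 ξ)‖)
  · exact fun x => (T_integrable ha hs hh x).1
  · intro x
    refine ae_of_all _ fun ξ => ?_
    rw [norm_mul, norm_mul, norm_mul, norm_mul, ex_norm, ex_norm]
  · exact (T_integrable ha hs hh 0).norm
  · refine ae_of_all _ fun ξ => ?_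
    have : Continuous (fun x => ex x ξ) := ex_cont.comp (continuous_id.prodMk continuous_const)
    fun_prop

lemma fourier_cont {n : ℕ} {g : E n → ℂ} (hg : Integrable g) : Continuous (𝓕 g) :=
  VectorFourier.fourierIntegral_continuous Real.continuous_fourierChar
    (by simp only [innerₗ_apply_apply]; fun_prop) hg

lemma sup_measurable {n : ℕ} (i : ℕ) {c : ℝ} (hc : 0 < c) {g : E n → ℂ} (hg : Integrable g) :
    Measurable (fun x => ⨆ R ∈ Icc c (2 * c), ‖T (mul i R) (𝓕 g) x‖ₑ) := by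
  apply LowerSemicontinuous.measurable
  apply lowerSemicontinuous_biSup
  intro R hR
  apply Continuous.lowerSemicontinuous
  exact (T_cont (mul_cont i R) (mul_compact i (lt_of_lt_of_le hc hR.1)) (fourier_cont hg)).enorm

lemma fourier_sum {n : ℕ} {ι : Type} [Fintype ι] {g : ι → E n → ℂ}
    (hg : ∀ k, Integrable (g k)) (ξ : E n) :
    𝓕 (fun x => ∑ k, g k x) ξ = ∑ k, 𝓕 (g k) ξ := by
  simp only [Real.fourier_eq, Finset.smul_sum]
  rw [integral_finsetSum]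
  intro k _
  exact (Real.fourierIntegral_convergent_iff ξ).2 (hg k)

lemma T_sum {n : ℕ} {ι : Type} [Fintype ι] {g : ι → E n → ℂ} (hg : ∀ k, Integrable (g k))
    {a : E n → ℝ} (ha : Continuous a) (hs : HasCompactSupport a) (x : E n) :
    T a (𝓕 (fun x => ∑ k, g k x)) x = ∑ k, T a (𝓕 (g k)) x := by
  unfold T
  rw [← integral_finsetSum]
  · refine integral_congr_ae (ae_of_all _ fun ξ => ?_)
    simp only
    rw [fourier_sum hg, Finset.sum_mul, Finset.mul_sum]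
  · intro k _
    exact T_integrable ha hs (fourier_cont (hg k)) x

lemma sq_sum_le {ι : Type} [Fintype ι] (a : ι → ℝ≥0∞) :
    (∑ k, a k) ^ 2 ≤ (Fintype.card ι : ℝ≥0∞) ^ 2 * ∑ k, a k ^ 2 := by
  by_cases hne : Nonempty ι
  · obtain ⟨k0, -, hk0⟩ := Finset.exists_max_image (Finset.univ : Finset ι) a
      Finset.univ_nonempty
    have h1 : ∑ k, a k ≤ (Fintype.card ι : ℝ≥0∞) * a k0 := by
      calc ∑ k, a k ≤ ∑ _k : ι, a k0 := Finset.sum_le_sum fun k _ => hk0 k (Finset.mem_univ k)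
        _ = (Fintype.card ι : ℝ≥0∞) * a k0 := by
          rw [Finset.sum_const, nsmul_eq_mul, Finset.card_univ]
    calc (∑ k, a k) ^ 2 ≤ ((Fintype.card ι : ℝ≥0∞) * a k0) ^ 2 := by gcongr
      _ = (Fintype.card ι : ℝ≥0∞) ^ 2 * a k0 ^ 2 := by rw [mul_pow]
      _ ≤ (Fintype.card ι : ℝ≥0∞) ^ 2 * ∑ k, a k ^ 2 := by
        gcongr
        exact Finset.single_le_sum (f := fun k => a k ^ 2) (fun _ _ => bot_le)
          (Finset.mem_univ k0)
  · rw [not_nonempty_iff] at hne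
    simp

lemma W_sum {n : ℕ} {ι : Type} [Fintype ι] {g : ι → E n → ℂ} (hg : ∀ k, Integrable (g k))
    (i : ℕ) {c : ℝ} (hc : 0 < c) :
    W i c (fun x => ∑ k, g k x) ≤ (Fintype.card ι : ℝ≥0∞) ^ 2 * ∑ k, W i c (g k) := by
  unfold W
  rw [← lintegral_finsetSum _ (fun k _ => (sup_measurable i hc (hg k)).pow_const 2),
    ← lintegral_const_mul _ (Finset.measurable_sum _
      (fun k _ => (sup_measurable i hc (hg k)).pow_const 2))]
  refine lintegral_mono fun x => ?_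
  refine le_trans ?_ (sq_sum_le _)
  gcongr
  refine iSup₂_le fun R hR => ?_
  rw [T_sum hg (mul_cont i R) (mul_compact i (lt_of_lt_of_le hc hR.1))]
  refine (enorm_sum_le _ _).trans ?_
  refine Finset.sum_le_sum fun k _ => ?_
  exact le_iSup₂ (f := fun (R : ℝ) (_ : R ∈ Icc c (2 * c)) => ‖T (mul i R) (𝓕 (g k)) x‖ₑ) R hR

/-! ### the partition of unity in one coordinate -/

lemma chi_nonneg (u : ℝ) : 0 ≤ chi u := le_min zero_le_one (le_max_left _ _)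

lemma chi_le_one (u : ℝ) : chi u ≤ 1 := min_le_left _ _

lemma chi_eq_zero {u : ℝ} (h : |u| ≤ 1) : chi u = 0 := by
  unfold chi
  rw [max_eq_left (by linarith), min_eq_right zero_le_one]

lemma chi_eq_one {u : ℝ} (h : 2 ≤ |u|) : chi u = 1 := by
  unfold chi
  rw [max_eq_right (by linarith), min_eq_left (by linarith)]

lemma chi_cont : Continuous chi := by
  unfold chi
  fun_prop

noncomputable def p0 (P : ℝ) (u : ℝ) : ℝ := if |u| < P⁻¹ then 1 else 0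

noncomputable def ph (P : ℝ) (k : Fin 3) (u : ℝ) : ℝ :=
  if k = 0 then p0 P u else if k = 2 then chi (u / P ^ 2) else 1 - p0 P u - chi (u / P ^ 2)

lemma ph_sum (P u : ℝ) : ∑ k, ph P k u = 1 := by
  rw [Fin.sum_univ_three]
  simp [ph]
  ring

lemma p0_meas (P : ℝ) : Measurable (p0 P) := by
  unfold p0
  exact Measurable.ite (measurableSet_lt (by fun_prop) measurable_const) measurable_const
    measurable_const

lemma ph_meas (P : ℝ) (k : Fin 3) : Measurable (ph P k) := by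
  have h1 : Measurable (fun u : ℝ => chi (u / P ^ 2)) :=
    chi_cont.measurable.comp (by fun_prop)
  unfold ph
  by_cases h0 : k = 0
  · simp only [h0, if_true]
    exact p0_meas P
  · by_cases h2 : k = 2
    · simp only [h0, h2, if_false, if_true]
      exact h1
    · simp only [h0, h2, if_false]
      exact (measurable_const.sub (p0_meas P)).sub h1

lemma small_chi {P u : ℝ} (hP : 1 ≤ P) (h : |u| < P⁻¹) : chi (u / P ^ 2) = 0 := by
  apply chi_eq_zero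
  have h1 : P⁻¹ ≤ 1 := inv_le_one_of_one_le₀ hP
  have h2 : 1 ≤ P ^ 2 := one_le_pow₀ hP
  rw [abs_div, abs_of_pos (by positivity : (0 : ℝ) < P ^ 2), div_le_one (by positivity)]
  linarith

lemma ph_bd {P : ℝ} (hP : 1 ≤ P) (k : Fin 3) (u : ℝ) : 0 ≤ ph P k u ∧ ph P k u ≤ 1 := by
  unfold ph
  have hc := chi_nonneg (u / P ^ 2)
  have hc' := chi_le_one (u / P ^ 2)
  by_cases h0 : k = 0
  · simp only [h0, if_true]
    unfold p0
    split_ifs <;> norm_num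
  · by_cases h2 : k = 2
    · simp only [h0, h2, if_false, if_true]
      exact ⟨hc, hc'⟩
    · simp only [h0, h2, if_false]
      unfold p0
      split_ifs with h
      · rw [small_chi hP h]
        norm_num
      · constructor <;> linarith

lemma ph0_ne {P u : ℝ} (h : ph P 0 u ≠ 0) : |u| < P⁻¹ := by
  by_contra h1
  apply h
  simp [ph, p0, h1]

lemma ph1_ne {P u : ℝ} (hP : 1 ≤ P) (h : ph P 1 u ≠ 0) : P⁻¹ ≤ |u| ∧ |u| ≤ 2 * P ^ 2 := by
  have he : ph P 1 u = 1 - p0 P u - chi (u / P ^ 2) := by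
    simp [ph]
  rw [he] at h
  constructor
  · by_contra h1
    rw [not_le] at h1
    apply h
    rw [small_chi hP h1, p0, if_pos h1]
    norm_num
  · by_contra h1
    rw [not_le] at h1
    apply h
    have h2 : 1 ≤ P ^ 2 := one_le_pow₀ hP
    have h3 : ¬ |u| < P⁻¹ := by
      have : P⁻¹ ≤ 1 := inv_le_one_of_one_le₀ hP
      rw [not_lt]
      linarith
    rw [p0, if_neg h3, chi_eq_one]
    · norm_num
    · rw [abs_div, abs_of_pos (by positivity : (0 : ℝ) < P ^ 2), le_div_iff₀ (by positivity)]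
      linarith

lemma ph2_eq (P u : ℝ) : ph P 2 u = chi (u / P ^ 2) := by
  simp [ph]

/-! ### counting scales -/

lemma PP_cast (i : ℕ) : ((PP i : ℕ) : ℝ) = 2 ^ (i / 4) := by
  unfold PP
  push_cast
  rfl

lemma PP_one (i : ℕ) : (1 : ℝ) ≤ (PP i : ℝ) := by
  rw [PP_cast]
  exact one_le_pow₀ (by norm_num)

/-- scales `m` for which `1/P ≤ 2^m |y| ≤ 2 P²` -/
lemma count (i : ℕ) (hi : 8 ≤ i) (y : ℝ) (a : ℝ≥0∞) :
    ∑' m : ℤ, (if (PP i : ℝ)⁻¹ ≤ 2 ^ m * |y| ∧ 2 ^ m * |y| ≤ 2 * (PP i : ℝ) ^ 2 then a else 0) ≤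
      (i : ℝ≥0∞) * a := by
  have hP0 : (0 : ℝ) < (PP i : ℝ) := lt_of_lt_of_le one_pos (PP_one i)
  by_cases hy : y = 0
  · have : ∀ m : ℤ, (if (PP i : ℝ)⁻¹ ≤ 2 ^ m * |y| ∧ 2 ^ m * |y| ≤ 2 * (PP i : ℝ) ^ 2 then a
        else 0) = 0 := by
      intro m
      rw [if_neg]
      rw [hy, abs_zero, mul_zero]
      rintro ⟨h, -⟩
      have : 0 < (PP i : ℝ)⁻¹ := by positivity
      linarith
    simp only [this, tsum_zero]
    exact bot_le
  · have hy0 : 0 < |y| := abs_pos.mpr hy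
    obtain ⟨k, hk⟩ := exists_mem_Ico_zpow (y := (2 : ℝ)) (x := ((PP i : ℝ) * |y|)⁻¹)
      (by positivity) (by norm_num)
    have hsub : ∀ m : ℤ, m ∉ Finset.Ico k (k + (2 + 3 * (i / 4) : ℕ)) →
        (if (PP i : ℝ)⁻¹ ≤ 2 ^ m * |y| ∧ 2 ^ m * |y| ≤ 2 * (PP i : ℝ) ^ 2 then a else 0) = 0 := by
      intro m hm
      rw [if_neg]
      rintro ⟨h1, h2⟩
      apply hm
      rw [Finset.mem_Ico]
      have e1 : ((PP i : ℝ) * |y|)⁻¹ ≤ 2 ^ m := by
        rw [mul_inv, ← div_eq_mul_inv, div_le_iff₀ hy0]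
        exact h1
      have e2 : (2 : ℝ) ^ m ≤ 2 ^ ((1 + 3 * (i / 4) : ℕ) : ℤ) * ((PP i : ℝ) * |y|)⁻¹ := by
        have h3 : (2 : ℝ) ^ ((1 + 3 * (i / 4) : ℕ) : ℤ) = 2 * (PP i : ℝ) ^ 3 := by
          rw [PP_cast, zpow_natCast, pow_add, pow_one, ← pow_mul, mul_comm 3]
        rw [h3, mul_inv, ← mul_assoc, ← div_eq_mul_inv, le_div_iff₀ hy0]
        calc 2 ^ m * |y| ≤ 2 * (PP i : ℝ) ^ 2 := h2
          _ = 2 * (PP i : ℝ) ^ 3 * (PP i : ℝ)⁻¹ := by
            field_simp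
      constructor
      · by_contra h4
        rw [not_le] at h4
        have h5 : (2 : ℝ) ^ m < 2 ^ k := zpow_lt_zpow_right₀ (by norm_num) h4
        linarith [hk.1]
      · by_contra h4
        rw [not_lt] at h4
        have h5 : (2 : ℝ) ^ (k + (2 + 3 * (i / 4) : ℕ)) ≤ 2 ^ m :=
          zpow_le_zpow_right₀ (by norm_num) h4
        have h6 : (2 : ℝ) ^ (k + (2 + 3 * (i / 4) : ℕ)) =
            2 ^ ((1 + 3 * (i / 4) : ℕ) : ℤ) * 2 ^ (k + 1) := by
          rw [← zpow_add₀ (by norm_num)]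
          congr 1
          push_cast
          ring
        have h7 : (2 : ℝ) ^ ((1 + 3 * (i / 4) : ℕ) : ℤ) * ((PP i : ℝ) * |y|)⁻¹ <
            2 ^ ((1 + 3 * (i / 4) : ℕ) : ℤ) * 2 ^ (k + 1) := by
          have : (0 : ℝ) < 2 ^ ((1 + 3 * (i / 4) : ℕ) : ℤ) := by positivity
          exact mul_lt_mul_of_pos_left hk.2 this
        linarith
    rw [tsum_eq_sum hsub]
    calc ∑ m ∈ Finset.Ico k (k + (2 + 3 * (i / 4) : ℕ)),
          (if (PP i : ℝ)⁻¹ ≤ 2 ^ m * |y| ∧ 2 ^ m * |y| ≤ 2 * (PP i : ℝ) ^ 2 then a else 0)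
        ≤ ∑ _m ∈ Finset.Ico k (k + (2 + 3 * (i / 4) : ℕ)), a := by
          refine Finset.sum_le_sum fun m _ => ?_
          split_ifs
          · exact le_rfl
          · exact bot_le
      _ = ((2 + 3 * (i / 4) : ℕ) : ℝ≥0∞) * a := by
          rw [Finset.sum_const, nsmul_eq_mul, Int.card_Ico]
          congr 2
          omega
      _ ≤ (i : ℝ≥0∞) * a := by
          gcongr
          omega

/-! ### the pieces -/

noncomputable def G {n : ℕ} (P : ℝ) (τ : Fin n → Fin 3) (m : ℤ) (x : E n) : ℝ :=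
  ∏ j, ph P (τ j) (2 ^ m * x j)

lemma G_meas {n : ℕ} (P : ℝ) (τ : Fin n → Fin 3) (m : ℤ) : Measurable (G P τ m) := by
  unfold G
  exact Finset.measurable_prod _ fun j _ => (ph_meas P (τ j)).comp (by fun_prop)

lemma G_nonneg {n : ℕ} {P : ℝ} (hP : 1 ≤ P) (τ : Fin n → Fin 3) (m : ℤ) (x : E n) :
    0 ≤ G P τ m x :=
  Finset.prod_nonneg fun j _ => (ph_bd hP (τ j) _).1

lemma G_le {n : ℕ} {P : ℝ} (hP : 1 ≤ P) (τ : Fin n → Fin 3) (m : ℤ) (x : E n) :
    G P τ m x ≤ 1 :=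
  Finset.prod_le_one (fun j _ => (ph_bd hP (τ j) _).1) (fun j _ => (ph_bd hP (τ j) _).2)

lemma G_sum {n : ℕ} (P : ℝ) (m : ℤ) (x : E n) : ∑ τ : Fin n → Fin 3, G P τ m x = 1 := by
  have h := Finset.prod_univ_sum (fun _ : Fin n => (Finset.univ : Finset (Fin 3)))
    (fun j k => ph P k (2 ^ m * x j))
  rw [Fintype.piFinset_univ] at h
  unfold G
  rw [← h]
  exact Finset.prod_eq_one fun j _ => ph_sum P _

noncomputable def gg {n : ℕ} (P : ℝ) (f : E n → ℂ) (τ : Fin n → Fin 3) (m : ℤ) (x : E n) : ℂ :=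
  (G P τ m x : ℂ) * f x

lemma gg_meas {n : ℕ} (P : ℝ) {f : E n → ℂ} (hf : Measurable f) (τ : Fin n → Fin 3) (m : ℤ) :
    Measurable (gg P f τ m) := by
  unfold gg
  exact (Complex.measurable_ofReal.comp (G_meas P τ m)).mul hf

lemma gg_norm {n : ℕ} {P : ℝ} (hP : 1 ≤ P) (f : E n → ℂ) (τ : Fin n → Fin 3) (m : ℤ) (x : E n) :
    ‖gg P f τ m x‖ ≤ ‖f x‖ := by
  unfold gg
  rw [norm_mul, Complex.norm_real, Real.norm_of_nonneg (G_nonneg hP τ m x)]
  exact mul_le_of_le_one_left (norm_nonneg _) (G_le hP τ m x)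

lemma gg_int {n : ℕ} {P : ℝ} (hP : 1 ≤ P) {f : E n → ℂ} (hf : Measurable f) (hi : Integrable f)
    (τ : Fin n → Fin 3) (m : ℤ) : Integrable (gg P f τ m) :=
  hi.mono (gg_meas P hf τ m).aestronglyMeasurable (ae_of_all _ fun x => gg_norm hP f τ m x)

lemma gg_memLp {n : ℕ} {P : ℝ} (hP : 1 ≤ P) {f : E n → ℂ} (hf : Measurable f) (hi : MemLp f 2)
    (τ : Fin n → Fin 3) (m : ℤ) : MemLp (gg P f τ m) 2 :=
  hi.mono (gg_meas P hf τ m).aestronglyMeasurable (ae_of_all _ fun x => gg_norm hP f τ m x)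

lemma gg_sum {n : ℕ} (P : ℝ) (f : E n → ℂ) (m : ℤ) :
    f = fun x => ∑ τ : Fin n → Fin 3, gg P f τ m x := by
  funext x
  unfold gg
  rw [← Finset.sum_mul, ← Complex.ofReal_sum, G_sum, Complex.ofReal_one, one_mul]

lemma gg_ne {n : ℕ} {P : ℝ} {f : E n → ℂ} {τ : Fin n → Fin 3} {m : ℤ} {x : E n}
    (h : gg P f τ m x ≠ 0) (j : Fin n) : ph P (τ j) (2 ^ m * x j) ≠ 0 := by
  intro h0
  apply h
  unfold gg G
  rw [Finset.prod_eq_zero (Finset.mem_univ j) h0, Complex.ofReal_zero, zero_mul]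

lemma abs_scale (m : ℤ) (u : ℝ) : |2 ^ m * u| = 2 ^ m * |u| := by
  rw [abs_mul, abs_of_pos (by positivity)]

noncomputable def th {n : ℕ} (P : ℝ) (τ : Fin n → Fin 3) (j : Fin n) (m : ℤ) (x : E n) : ℝ :=
  ∏ l ∈ Finset.univ.erase j, ph P (τ l) (2 ^ m * x l)

lemma long_piece {n : ℕ} {C : ℝ≥0}
    (hL : ∀ (n i : ℕ) (j : Fin n) (f : E n → ℂ) (θ : ℤ → E n → ℝ), 8 ≤ i → Measurable f →
    Integrable f → MemLp f 2 → (∀ m, Measurable (θ m)) → (∀ m x, |θ m x| ≤ 1) →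
    (∀ m x (t : ℝ), θ m (x + t • e j) = θ m x) →
    ∑' m : ℤ, ∫⁻ ξ in {ξ : E n | (2 : ℝ) ^ m / (PP i : ℝ) ≤ |ξ j|},
        ‖𝓕 (fun x => ((θ m x * chi ((2 : ℝ) ^ m * x j / (PP i : ℝ) ^ 2) : ℝ) : ℂ) * f x) ξ‖ₑ ^ 2 ≤
      C * ((PP i : ℝ≥0∞)⁻¹ * (∫⁻ x, ‖f x‖ₑ ^ 2) + om j (2 / (PP i : ℝ)) f))
    {i : ℕ} (hi : 8 ≤ i) {f : E n → ℂ} (hf : Measurable f) (hf1 : Integrable f) (hf2 : MemLp f 2)
    (τ : Fin n → Fin 3) (j : Fin n) (hj : τ j = 2) :
    ∑' m : ℤ, ∫⁻ ξ in {ξ : E n | (2 : ℝ) ^ m / (PP i : ℝ) ≤ |ξ j|},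
        ‖𝓕 (gg (PP i : ℝ) f τ m) ξ‖ₑ ^ 2 ≤
      C * ((PP i : ℝ≥0∞)⁻¹ * (∫⁻ x, ‖f x‖ₑ ^ 2) + om j (2 / (PP i : ℝ)) f) := by
  have hP := PP_one i
  have key := hL n i j f (th (PP i : ℝ) τ j) hi hf hf1 hf2 ?_ ?_ ?_
  · have he : ∀ m, (fun x => ((th (PP i : ℝ) τ j m x *
        chi ((2 : ℝ) ^ m * x j / (PP i : ℝ) ^ 2) : ℝ) : ℂ) * f x) = gg (PP i : ℝ) f τ m := by
      intro m
      funext x
      unfold gg
      congr 2
      unfold G th
      rw [← Finset.mul_prod_erase Finset.univ _ (Finset.mem_univ j), hj, ph2_eq]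
      ring
    simp only [he] at key
    exact key
  · intro m
    unfold th
    exact Finset.measurable_prod _ fun l _ => (ph_meas _ (τ l)).comp (by fun_prop)
  · intro m x
    unfold th
    rw [Finset.abs_prod]
    refine Finset.prod_le_one (fun l _ => abs_nonneg _) (fun l _ => ?_)
    have := ph_bd hP (τ l) (2 ^ m * x l)
    rw [abs_of_nonneg this.1]
    exact this.2
  · intro m x t
    unfold th
    refine Finset.prod_congr rfl fun l hl => ?_
    have hne : l ≠ j := Finset.ne_of_mem_erase hl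
    simp [hne]

lemma mid_sum {n : ℕ} {i : ℕ} (hi : 8 ≤ i) {f : E n → ℂ} (hf : Measurable f)
    (τ : Fin n → Fin 3) (j : Fin n) (hj : τ j = 1) :
    ∑' m : ℤ, ∫⁻ x, ‖gg (PP i : ℝ) f τ m x‖ₑ ^ 2 ≤ (i : ℝ≥0∞) * ∫⁻ x, ‖f x‖ₑ ^ 2 := by
  have hP := PP_one i
  rw [← lintegral_tsum (fun m => ((gg_meas _ hf τ m).enorm.pow_const 2).aemeasurable),
    ← lintegral_const_mul _ (hf.enorm.pow_const 2)]
  refine lintegral_mono fun x => ?_
  refine le_trans (ENNReal.tsum_le_tsum fun m => ?_) (count i hi (x j) (‖f x‖ₑ ^ 2))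
  by_cases h0 : gg (PP i : ℝ) f τ m x = 0
  · rw [h0]
    simp
  · have h1 := gg_ne h0 j
    rw [hj] at h1
    have h2 := ph1_ne hP h1
    rw [abs_scale] at h2
    rw [if_pos h2]
    gcongr
    rw [← ofReal_norm, ← ofReal_norm]
    exact ENNReal.ofReal_le_ofReal (gg_norm hP f τ m x)

lemma exists_coord {n : ℕ} {P c : ℝ} (hP : 0 < P) (hc : 0 < c) (hn : 4 * (n : ℝ) < P ^ 2)
    {ξ : E n} (h : c / 2 ≤ ‖ξ‖) : ∃ j, c / P ≤ |ξ j| := by
  by_contra hcon
  push Not at hcon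
  have h1 : ‖ξ‖ ^ 2 ≤ (n : ℝ) * (c / P) ^ 2 := by
    rw [EuclideanSpace.norm_sq_eq]
    calc ∑ j, ‖ξ j‖ ^ 2 ≤ ∑ _j : Fin n, (c / P) ^ 2 := by
          refine Finset.sum_le_sum fun j _ => ?_
          have := hcon j
          rw [Real.norm_eq_abs]
          exact pow_le_pow_left₀ (abs_nonneg _) this.le 2
      _ = (n : ℝ) * (c / P) ^ 2 := by
          rw [Finset.sum_const, Finset.card_univ, Fintype.card_fin, nsmul_eq_mul]
  have h2 : (c / 2) ^ 2 ≤ ‖ξ‖ ^ 2 := pow_le_pow_left₀ (by positivity) h 2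
  have h3 : (n : ℝ) * (c / P) ^ 2 < (c / 2) ^ 2 := by
    rw [div_pow, div_pow, mul_div_assoc', div_lt_div_iff₀ (by positivity) (by positivity)]
    nlinarith [pow_pos hc 2]
  linarith

end J10

open J10 in
theorem pMain (hS : tShort) (hL : tLong) (hG : tGainc) (hF : tF2c) (hT : tTriv) : tMain := by
  intro n
  obtain ⟨CS, hS⟩ := hS
  obtain ⟨CL, hL⟩ := hL
  obtain ⟨CG, hG⟩ := hG n
  obtain ⟨CF, hF⟩ := hF
  obtain ⟨CT, hT⟩ := hT
  set D : ℝ≥0 := CS + CG * (1 + CL * (n + 1)) + CF * (CL * (n + 1)) with hD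
  refine ⟨(3 ^ n) ^ 2 * (3 ^ n * D) + CT * (4 * n), ?_⟩
  intro i f hi hf hf1 hf2
  have hP := PP_one i
  have hP0 : (0 : ℝ) < (PP i : ℝ) := lt_of_lt_of_le one_pos hP
  set A : ℝ≥0∞ := ∫⁻ x, ‖f x‖ₑ ^ 2 with hA
  set B : ℝ≥0∞ := (i : ℝ≥0∞) * (PP i : ℝ≥0∞)⁻¹ * A + ∑ j, om j (2 / (PP i : ℝ)) f with hB
  have hi1 : (1 : ℝ≥0∞) ≤ (i : ℝ≥0∞) := by
    exact_mod_cast (by omega : 1 ≤ i)
  have hAB : (PP i : ℝ≥0∞)⁻¹ * A ≤ B := by
    calc (PP i : ℝ≥0∞)⁻¹ * A = 1 * (PP i : ℝ≥0∞)⁻¹ * A := by rw [one_mul]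
      _ ≤ (i : ℝ≥0∞) * (PP i : ℝ≥0∞)⁻¹ * A := by gcongr
      _ ≤ B := le_self_add
  have hiAB : (i : ℝ≥0∞) * (PP i : ℝ≥0∞)⁻¹ * A ≤ B := le_self_add
  have hOB : ∑ j, om j (2 / (PP i : ℝ)) f ≤ B := le_add_self
  by_cases hn : 4 * (n : ℝ) < (PP i : ℝ) ^ 2
  · -- the pieces
    have hLsum : ∀ (τ : Fin n → Fin 3) (t : Finset (Fin n)), (∀ j ∈ t, τ j = 2) →
        ∑ j ∈ t, ∑' m : ℤ, ∫⁻ ξ in {ξ : E n | (2 : ℝ) ^ m / (PP i : ℝ) ≤ |ξ j|},
          ‖𝓕 (gg (PP i : ℝ) f τ m) ξ‖ₑ ^ 2 ≤ (CL : ℝ≥0∞) * ((n : ℝ≥0∞) + 1) * B := by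
      intro τ t ht
      calc ∑ j ∈ t, ∑' m : ℤ, ∫⁻ ξ in {ξ : E n | (2 : ℝ) ^ m / (PP i : ℝ) ≤ |ξ j|},
            ‖𝓕 (gg (PP i : ℝ) f τ m) ξ‖ₑ ^ 2
          ≤ ∑ j ∈ t, (CL : ℝ≥0∞) * ((PP i : ℝ≥0∞)⁻¹ * A + om j (2 / (PP i : ℝ)) f) :=
            Finset.sum_le_sum fun j hj => long_piece hL hi hf hf1 hf2 τ j (ht j hj)
        _ ≤ ∑ j, (CL : ℝ≥0∞) * ((PP i : ℝ≥0∞)⁻¹ * A + om j (2 / (PP i : ℝ)) f) :=
            Finset.sum_le_sum_of_subset (Finset.subset_univ t)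
        _ = (CL : ℝ≥0∞) * ((n : ℝ≥0∞) * ((PP i : ℝ≥0∞)⁻¹ * A) +
              ∑ j, om j (2 / (PP i : ℝ)) f) := by
            rw [← Finset.mul_sum, Finset.sum_add_distrib, Finset.sum_const, Finset.card_univ,
              Fintype.card_fin, nsmul_eq_mul]
        _ ≤ (CL : ℝ≥0∞) * ((n : ℝ≥0∞) * B + B) := by gcongr
        _ = (CL : ℝ≥0∞) * ((n : ℝ≥0∞) + 1) * B := by ring
    have hτ : ∀ τ : Fin n → Fin 3,
        ∑' m : ℤ, W i (2 ^ m) (gg (PP i : ℝ) f τ m) ≤ (D : ℝ≥0∞) * B := by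
      intro τ
      by_cases h0 : ∃ j, τ j = 0
      · obtain ⟨j, hj⟩ := h0
        calc ∑' m : ℤ, W i (2 ^ m) (gg (PP i : ℝ) f τ m)
            ≤ (CS : ℝ≥0∞) * (PP i : ℝ≥0∞)⁻¹ * A := by
              refine hS n i j f (gg (PP i : ℝ) f τ) hf hf1 hf2 (gg_meas _ hf τ)
                (gg_norm hP f τ) ?_
              intro m x hx
              have h1 := gg_ne hx j
              rw [hj] at h1
              have h2 := ph0_ne h1
              rwa [abs_scale] at h2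
          _ = (CS : ℝ≥0∞) * ((PP i : ℝ≥0∞)⁻¹ * A) := by rw [mul_assoc]
          _ ≤ (CS : ℝ≥0∞) * B := by gcongr
          _ ≤ (D : ℝ≥0∞) * B := by
              gcongr
              rw [hD]
              exact le_add_right le_self_add
      · push Not at h0
        have h3 : ∀ j, τ j = 1 ∨ τ j = 2 := by
          intro j
          have h4 := h0 j
          generalize τ j = k at h4
          fin_cases k
          · exact absurd rfl h4
          · exact Or.inl rfl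
          · exact Or.inr rfl
        by_cases h1 : ∃ j, τ j = 1
        · obtain ⟨j0, hj0⟩ := h1
          set s : Finset (Fin n) := Finset.univ.filter (fun j => τ j = 1) with hs
          have hW : ∀ m : ℤ, W i (2 ^ m) (gg (PP i : ℝ) f τ m) ≤
              CG * ((PP i : ℝ≥0∞)⁻¹ * (∫⁻ x, ‖gg (PP i : ℝ) f τ m x‖ₑ ^ 2) +
              ∑ j ∈ sᶜ, ∫⁻ ξ in {ξ : E n | (2 : ℝ) ^ m / (PP i : ℝ) ≤ |ξ j|},
                ‖𝓕 (gg (PP i : ℝ) f τ m) ξ‖ₑ ^ 2) := by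
            intro m
            refine hG i (2 ^ m) s _ (by positivity) (gg_meas _ hf τ m) (gg_int hP hf hf1 τ m)
              (gg_memLp hP hf hf2 τ m) ?_
            intro x hx j hj
            have hj1 : τ j = 1 := by
              rw [hs, Finset.mem_filter] at hj
              exact hj.2
            have h5 := gg_ne hx j
            rw [hj1] at h5
            have h6 := (ph1_ne hP h5).2
            rwa [abs_scale] at h6
          calc ∑' m : ℤ, W i (2 ^ m) (gg (PP i : ℝ) f τ m)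
              ≤ ∑' m : ℤ, CG * ((PP i : ℝ≥0∞)⁻¹ * (∫⁻ x, ‖gg (PP i : ℝ) f τ m x‖ₑ ^ 2) +
                ∑ j ∈ sᶜ, ∫⁻ ξ in {ξ : E n | (2 : ℝ) ^ m / (PP i : ℝ) ≤ |ξ j|},
                  ‖𝓕 (gg (PP i : ℝ) f τ m) ξ‖ₑ ^ 2) := ENNReal.tsum_le_tsum hW
            _ = CG * ((PP i : ℝ≥0∞)⁻¹ * (∑' m : ℤ, ∫⁻ x, ‖gg (PP i : ℝ) f τ m x‖ₑ ^ 2) +
                ∑ j ∈ sᶜ, ∑' m : ℤ, ∫⁻ ξ in {ξ : E n | (2 : ℝ) ^ m / (PP i : ℝ) ≤ |ξ j|},
                  ‖𝓕 (gg (PP i : ℝ) f τ m) ξ‖ₑ ^ 2) := by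
                rw [ENNReal.tsum_mul_left, ENNReal.tsum_add, ENNReal.tsum_mul_left,
                  Summable.tsum_finsetSum (fun _ _ => ENNReal.summable)]
            _ ≤ CG * ((PP i : ℝ≥0∞)⁻¹ * ((i : ℝ≥0∞) * A) +
                (CL : ℝ≥0∞) * ((n : ℝ≥0∞) + 1) * B) := by
                gcongr
                · exact mid_sum hi hf τ j0 hj0
                · refine hLsum τ sᶜ fun j hj => ?_
                  rcases h3 j with h4 | h4
                  · exfalso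
                    rw [Finset.mem_compl] at hj
                    exact hj (by rw [hs, Finset.mem_filter]; exact ⟨Finset.mem_univ _, h4⟩)
                  · exact h4
            _ = CG * ((i : ℝ≥0∞) * (PP i : ℝ≥0∞)⁻¹ * A +
                (CL : ℝ≥0∞) * ((n : ℝ≥0∞) + 1) * B) := by ring
            _ ≤ CG * (B + (CL : ℝ≥0∞) * ((n : ℝ≥0∞) + 1) * B) := by gcongr
            _ = CG * (1 + (CL : ℝ≥0∞) * ((n : ℝ≥0∞) + 1)) * B := by ring
            _ ≤ (D : ℝ≥0∞) * B := by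
              gcongr
              have : CG * (1 + CL * (n + 1)) ≤ D := by
                rw [hD]
                exact le_add_right le_add_self
              exact_mod_cast this
        · push Not at h1
          have h2 : ∀ j, τ j = 2 := fun j => (h3 j).resolve_left (h1 j)
          have hW : ∀ m : ℤ, W i (2 ^ m) (gg (PP i : ℝ) f τ m) ≤
              CF * ∑ j, ∫⁻ ξ in {ξ : E n | (2 : ℝ) ^ m / (PP i : ℝ) ≤ |ξ j|},
                ‖𝓕 (gg (PP i : ℝ) f τ m) ξ‖ₑ ^ 2 := by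
            intro m
            have hc : (0 : ℝ) < 2 ^ m := by positivity
            refine (hF n i (2 ^ m) _ hc (gg_int hP hf hf1 τ m)).trans ?_
            gcongr
            calc ∫⁻ ξ in {ξ : E n | (2 : ℝ) ^ m / 2 ≤ ‖ξ‖ ∧ ‖ξ‖ ≤ 2 * 2 ^ m},
                  ‖𝓕 (gg (PP i : ℝ) f τ m) ξ‖ₑ ^ 2
                ≤ ∫⁻ ξ in ⋃ j : Fin n,
                    {ξ : E n | (2 : ℝ) ^ m / (PP i : ℝ) ≤ |ξ j|},
                  ‖𝓕 (gg (PP i : ℝ) f τ m) ξ‖ₑ ^ 2 := by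
                  refine lintegral_mono_set ?_
                  intro ξ hξ
                  obtain ⟨j, hj⟩ := exists_coord hP0 hc hn hξ.1
                  exact mem_iUnion.2 ⟨j, hj⟩
              _ ≤ ∑ j, ∫⁻ ξ in {ξ : E n | (2 : ℝ) ^ m / (PP i : ℝ) ≤ |ξ j|},
                  ‖𝓕 (gg (PP i : ℝ) f τ m) ξ‖ₑ ^ 2 := by
                  refine (lintegral_iUnion_le _ _).trans (le_of_eq ?_)
                  rw [tsum_fintype]
          calc ∑' m : ℤ, W i (2 ^ m) (gg (PP i : ℝ) f τ m)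
              ≤ ∑' m : ℤ, CF * ∑ j, ∫⁻ ξ in {ξ : E n | (2 : ℝ) ^ m / (PP i : ℝ) ≤ |ξ j|},
                ‖𝓕 (gg (PP i : ℝ) f τ m) ξ‖ₑ ^ 2 := ENNReal.tsum_le_tsum hW
            _ = CF * ∑ j, ∑' m : ℤ, ∫⁻ ξ in {ξ : E n | (2 : ℝ) ^ m / (PP i : ℝ) ≤ |ξ j|},
                ‖𝓕 (gg (PP i : ℝ) f τ m) ξ‖ₑ ^ 2 := by
                rw [ENNReal.tsum_mul_left,
                  Summable.tsum_finsetSum (fun _ _ => ENNReal.summable)]
            _ ≤ CF * ((CL : ℝ≥0∞) * ((n : ℝ≥0∞) + 1) * B) := by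
                gcongr
                exact hLsum τ Finset.univ fun j _ => h2 j
            _ = CF * ((CL : ℝ≥0∞) * ((n : ℝ≥0∞) + 1)) * B := by ring
            _ ≤ (D : ℝ≥0∞) * B := by
              gcongr
              have : CF * (CL * (n + 1)) ≤ D := by
                rw [hD]
                exact le_add_self
              exact_mod_cast this
    have hWm : ∀ m : ℤ, W i (2 ^ m) f ≤
        (Fintype.card (Fin n → Fin 3) : ℝ≥0∞) ^ 2 *
          ∑ τ : Fin n → Fin 3, W i (2 ^ m) (gg (PP i : ℝ) f τ m) := by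
      intro m
      have hc : (0 : ℝ) < 2 ^ m := by positivity
      have h := W_sum (fun τ => gg_int hP hf hf1 τ m) i hc
      rwa [← gg_sum] at h
    calc ∑' m : ℤ, W i (2 ^ m) f
        ≤ ∑' m : ℤ, (Fintype.card (Fin n → Fin 3) : ℝ≥0∞) ^ 2 *
          ∑ τ : Fin n → Fin 3, W i (2 ^ m) (gg (PP i : ℝ) f τ m) := ENNReal.tsum_le_tsum hWm
      _ = (Fintype.card (Fin n → Fin 3) : ℝ≥0∞) ^ 2 *
          ∑ τ : Fin n → Fin 3, ∑' m : ℤ, W i (2 ^ m) (gg (PP i : ℝ) f τ m) := by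
          rw [ENNReal.tsum_mul_left, Summable.tsum_finsetSum (fun _ _ => ENNReal.summable)]
      _ ≤ (Fintype.card (Fin n → Fin 3) : ℝ≥0∞) ^ 2 *
          ∑ _τ : Fin n → Fin 3, (D : ℝ≥0∞) * B := by
          gcongr with τ
          exact hτ τ
      _ = (((3 ^ n) ^ 2 * (3 ^ n * D) : ℝ≥0) : ℝ≥0∞) * B := by
          rw [Finset.sum_const, Finset.card_univ, Fintype.card_fun, Fintype.card_fin,
            Fintype.card_fin, nsmul_eq_mul]
          push_cast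
          ring
      _ ≤ (((3 ^ n) ^ 2 * (3 ^ n * D) + CT * (4 * n) : ℝ≥0) : ℝ≥0∞) * B := by
          gcongr
          exact le_self_add
  · rw [not_lt] at hn
    have h1 : (PP i : ℝ) ≤ 4 * n := by nlinarith
    have h2 : (PP i : ℝ≥0∞) ≤ 4 * n := by exact_mod_cast h1
    have h3 : (PP i : ℝ≥0∞) ≠ 0 := by
      have : (PP i : ℝ) ≠ 0 := hP0.ne'
      exact_mod_cast this
    have h4 : (1 : ℝ≥0∞) ≤ 4 * n * (PP i : ℝ≥0∞)⁻¹ := by
      calc (1 : ℝ≥0∞) = (PP i : ℝ≥0∞) * (PP i : ℝ≥0∞)⁻¹ :=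
            (ENNReal.mul_inv_cancel h3 (ENNReal.natCast_ne_top _)).symm
        _ ≤ 4 * n * (PP i : ℝ≥0∞)⁻¹ := by gcongr
    calc ∑' m : ℤ, W i (2 ^ m) f ≤ CT * A := hT n i f hf1 hf2
      _ = CT * (1 * A) := by rw [one_mul]
      _ ≤ CT * (4 * n * (PP i : ℝ≥0∞)⁻¹ * A) := by gcongr
      _ = CT * (4 * n) * ((PP i : ℝ≥0∞)⁻¹ * A) := by ring
      _ ≤ CT * (4 * n) * B := by gcongr
      _ = ((CT * (4 * n) : ℝ≥0) : ℝ≥0∞) * B := by push_cast; rfl
      _ ≤ (((3 ^ n) ^ 2 * (3 ^ n * D) + CT * (4 * n) : ℝ≥0) : ℝ≥0∞) * B := by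
          gcongr
          exact le_add_self

end Pool.Agent.MBS
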