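import Pool.Agent.MBS.Targets

set_option autoImplicit false

/-! Maximal ball partial sums (MP_ee701d_an), J11: the Hardy-Littlewood maximal function. -/

namespace Pool.Agent.MBS

open MeasureTheory FourierTransform Set Filter Topology
open scoped ENNReal NNReal

namespace J11

/-- volume of a closed ball of radius `r` -/
noncomputable def V (n : ℕ) (r : ℝ) : ℝ≥0∞ := volume (Metric.closedBall (0 : E n) r)

theorem vol_cb {n : ℕ} (x : E n) (r : ℝ) : volume (Metric.closedBall x r) = V n r :=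
  Measure.addHaar_closedBall_center volume x r

theorem V_pos {n : ℕ} {r : ℝ} (hr : 0 < r) : 0 < V n r :=
  Metric.measure_closedBall_pos volume _ hr

theorem V_ne_top (n : ℕ) (r : ℝ) : V n r ≠ ⊤ := measure_closedBall_lt_top.ne

theorem V_eq {n : ℕ} {r : ℝ} (hr : 0 ≤ r) : V n r = ENNReal.ofReal (r ^ n) * V n 1 := by
  have := Measure.addHaar_closedBall_mul (volume : Measure (E n)) 0 hr (zero_le_one)
  rw [mul_one] at this
  unfold V
  rw [this]
  simp

theorem V_mul {n : ℕ} {r s : ℝ} (hr : 0 ≤ r) (hs : 0 ≤ s) :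
    V n (r * s) = ENNReal.ofReal (r ^ n) * V n s := by
  rw [V_eq (mul_nonneg hr hs), V_eq hs, mul_pow, ENNReal.ofReal_mul (pow_nonneg hr _), mul_assoc]

theorem V_tendsto {n : ℕ} {r : ℝ} (hr : 0 < r) :
    Tendsto (V n) (𝓝[>] r) (𝓝 (V n r)) := by
  have h1 : Tendsto (fun s : ℝ => ENNReal.ofReal (s ^ n) * V n 1) (𝓝[>] r)
      (𝓝 (ENNReal.ofReal (r ^ n) * V n 1)) := by
    refine ENNReal.Tendsto.mul_const ?_ (Or.inr (V_ne_top n 1))
    refine (ENNReal.continuous_ofReal.comp (continuous_pow n)).continuousAt.tendsto.mono_left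
      nhdsWithin_le_nhds
  rw [V_eq hr.le]
  refine h1.congr' ?_
  filter_upwards [self_mem_nhdsWithin] with s hs
  rw [V_eq (hr.trans hs).le]

theorem MF_eq {n : ℕ} (f : E n → ℝ≥0∞) (x : E n) :
    MF f x = ⨆ (r : ℝ) (_ : 0 < r), (V n r)⁻¹ * ∫⁻ y in Metric.closedBall x r, f y := by
  unfold MF
  simp only [vol_cb]

theorem lt_MF {n : ℕ} {f : E n → ℝ≥0∞} {x : E n} {a : ℝ≥0∞} :
    a < MF f x ↔ ∃ r : ℝ, 0 < r ∧ a < (V n r)⁻¹ * ∫⁻ y in Metric.closedBall x r, f y := by
  rw [MF_eq]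
  simp only [lt_iSup_iff, exists_prop]

theorem isOpen_lt_MF {n : ℕ} (f : E n → ℝ≥0∞) (a : ℝ≥0∞) : IsOpen {x | a < MF f x} := by
  rw [Metric.isOpen_iff]
  intro x hx
  obtain ⟨r, hr, har⟩ := lt_MF.1 hx
  have h1 : Tendsto (fun s => (V n s)⁻¹ * ∫⁻ y in Metric.closedBall x r, f y) (𝓝[>] r)
      (𝓝 ((V n r)⁻¹ * ∫⁻ y in Metric.closedBall x r, f y)) := by
    refine ENNReal.Tendsto.mul_const ?_ (Or.inl (ENNReal.inv_ne_zero.2 (V_ne_top n r)))
    exact (tendsto_inv₀_aux hr)
  have h2 := (h1.eventually (lt_mem_nhds har)).and self_mem_nhdsWithin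
  obtain ⟨s, hs1, hs2⟩ := h2.exists
  have hrs : 0 < s - r := sub_pos.2 hs2
  refine ⟨s - r, hrs, fun y hy => ?_⟩
  refine lt_MF.2 ⟨s, hr.trans hs2, hs1.trans_le ?_⟩
  gcongr
  intro z hz
  rw [Metric.mem_closedBall] at hz ⊢
  rw [Metric.mem_ball] at hy
  calc dist z y ≤ dist z x + dist x y := dist_triangle _ _ _
    _ ≤ r + (s - r) := by rw [dist_comm x y]; exact add_le_add hz hy.le
    _ = s := by ring
where
  tendsto_inv₀_aux {n : ℕ} {r : ℝ} (hr : 0 < r) :
      Tendsto (fun s => (V n s)⁻¹) (𝓝[>] r) (𝓝 ((V n r)⁻¹)) :=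
    tendsto_inv_iff.2 (V_tendsto hr)

theorem measurable_MF {n : ℕ} (f : E n → ℝ≥0∞) : Measurable (MF f) :=
  measurable_of_Ioi fun a => (isOpen_lt_MF f a).measurableSet

theorem MF_mono {n : ℕ} {f g : E n → ℝ≥0∞} (h : ∀ x, f x ≤ g x) (x : E n) : MF f x ≤ MF g x := by
  unfold MF
  gcongr with r hr y
  exact h y

theorem weak_zero (f : E 0 → ℝ≥0∞) (l : ℝ≥0) :
    (l : ℝ≥0∞) * volume {x | (l : ℝ≥0∞) < MF f x} ≤ ∫⁻ x, f x := by
  by_cases hs : {x : E 0 | (l : ℝ≥0∞) < MF f x}.Nonempty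
  · obtain ⟨x, hx⟩ := hs
    obtain ⟨r, hr, har⟩ := lt_MF.1 hx
    have h1 : volume {x : E 0 | (l : ℝ≥0∞) < MF f x} ≤ V 0 r := by
      rw [← vol_cb x r]
      refine measure_mono fun y _ => ?_
      rw [Subsingleton.elim y x]
      exact Metric.mem_closedBall_self hr.le
    calc (l : ℝ≥0∞) * volume {x : E 0 | (l : ℝ≥0∞) < MF f x}
        ≤ ((V 0 r)⁻¹ * ∫⁻ y in Metric.closedBall x r, f y) * V 0 r := by gcongr
      _ = ∫⁻ y in Metric.closedBall x r, f y := by
          rw [mul_comm, ← mul_assoc, ENNReal.mul_inv_cancel (V_pos hr).ne' (V_ne_top 0 r), one_mul]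
      _ ≤ ∫⁻ y, f y := setLIntegral_le_lintegral _ _
  · rw [Set.not_nonempty_iff_eq_empty.1 hs]
    simp

theorem weak_pos {n : ℕ} (hn : n ≠ 0) (f : E n → ℝ≥0∞) (l : ℝ≥0) (hl : 0 < l)
    (hI : ∫⁻ x, f x ≠ ⊤) :
    (l : ℝ≥0∞) * volume {x | (l : ℝ≥0∞) < MF f x} ≤ ENNReal.ofReal (5 ^ n) * ∫⁻ x, f x := by
  have hch : ∀ x : E n, ∃ r : ℝ, (l : ℝ≥0∞) < MF f x →
      0 < r ∧ (l : ℝ≥0∞) < (V n r)⁻¹ * ∫⁻ y in Metric.closedBall x r, f y := by
    intro x
    by_cases h : (l : ℝ≥0∞) < MF f x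
    · obtain ⟨r, hr⟩ := lt_MF.1 h
      exact ⟨r, fun _ => hr⟩
    · exact ⟨0, fun h' => absurd h' h⟩
  choose r hr using hch
  have hlr : ∀ x, (l : ℝ≥0∞) < MF f x →
      (l : ℝ≥0∞) * V n (r x) ≤ ∫⁻ y in Metric.closedBall x (r x), f y := by
    intro x hx
    obtain ⟨h1, h2⟩ := hr x hx
    calc (l : ℝ≥0∞) * V n (r x)
        ≤ ((V n (r x))⁻¹ * ∫⁻ y in Metric.closedBall x (r x), f y) * V n (r x) := by gcongr
      _ = ∫⁻ y in Metric.closedBall x (r x), f y := by
          rw [mul_comm, ← mul_assoc, ENNReal.mul_inv_cancel (V_pos h1).ne' (V_ne_top n _), one_mul]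
  -- the radii are bounded
  set c : ℝ := (∫⁻ x, f x).toReal / ((l : ℝ) * (V n 1).toReal) with hc
  have hV1 : 0 < (V n 1).toReal := ENNReal.toReal_pos (V_pos one_pos).ne' (V_ne_top n 1)
  have hl' : (0 : ℝ) < l := hl
  have hbd : ∀ x ∈ {x : E n | (l : ℝ≥0∞) < MF f x}, r x ≤ max 1 c := by
    intro x hx
    have h1 := (hr x hx).1
    have h2 : (l : ℝ≥0∞) * V n (r x) ≤ ∫⁻ y, f y :=
      (hlr x hx).trans (setLIntegral_le_lintegral _ _)
    have h3 : (l : ℝ) * ((r x) ^ n * (V n 1).toReal) ≤ (∫⁻ y, f y).toReal := by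
      have := ENNReal.toReal_mono hI h2
      rw [V_eq h1.le, ENNReal.toReal_mul, ENNReal.toReal_mul,
        ENNReal.toReal_ofReal (pow_nonneg h1.le _)] at this
      exact this
    rcases le_or_gt (r x) 1 with h | h
    · exact h.trans (le_max_left _ _)
    · refine le_trans ?_ (le_max_right _ _)
      rw [hc, le_div_iff₀ (mul_pos hl' hV1)]
      calc r x * ((l : ℝ) * (V n 1).toReal) ≤ (r x) ^ n * ((l : ℝ) * (V n 1).toReal) := by
            gcongr
            exact le_self_pow₀ h.le hn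
        _ = (l : ℝ) * ((r x) ^ n * (V n 1).toReal) := by ring
        _ ≤ _ := h3
  obtain ⟨u, hus, hud, hucov⟩ := Vitali.exists_disjoint_subfamily_covering_enlargement_closedBall
    {x : E n | (l : ℝ≥0∞) < MF f x} (fun x => x) r (max 1 c) hbd 5 (by norm_num)
  have huc : u.Countable := by
    refine hud.countable_of_nonempty_interior fun x hx => ?_
    exact ⟨x, Metric.ball_subset_interior_closedBall (Metric.mem_ball_self (hr x (hus hx)).1)⟩
  have hcov : {x : E n | (l : ℝ≥0∞) < MF f x} ⊆ ⋃ b ∈ u, Metric.closedBall b (5 * r b) := by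
    intro x hx
    obtain ⟨b, hb, hsub⟩ := hucov x hx
    exact mem_biUnion hb (hsub (Metric.mem_closedBall_self (hr x hx).1.le))
  have hmeas : volume {x : E n | (l : ℝ≥0∞) < MF f x} ≤
      ∑' b : u, ENNReal.ofReal (5 ^ n) * V n (r b) := by
    refine (measure_mono hcov).trans ((measure_biUnion_le _ huc _).trans ?_)
    refine ENNReal.tsum_le_tsum fun b => ?_
    rw [vol_cb, V_mul (by norm_num) (hr b (hus b.2)).1.le]
  calc (l : ℝ≥0∞) * volume {x : E n | (l : ℝ≥0∞) < MF f x}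
      ≤ (l : ℝ≥0∞) * ∑' b : u, ENNReal.ofReal (5 ^ n) * V n (r b) := by gcongr
    _ = ENNReal.ofReal (5 ^ n) * ∑' b : u, (l : ℝ≥0∞) * V n (r b) := by
        rw [← ENNReal.tsum_mul_left, ← ENNReal.tsum_mul_left]
        congr 1
        ext b
        ring
    _ ≤ ENNReal.ofReal (5 ^ n) * ∑' b : u, ∫⁻ y in Metric.closedBall (b : E n) (r b), f y := by
        gcongr with b
        exact hlr b (hus b.2)
    _ = ENNReal.ofReal (5 ^ n) * ∫⁻ y in ⋃ b ∈ u, Metric.closedBall b (r b), f y := by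
        rw [lintegral_biUnion huc (fun b _ => Metric.isClosed_closedBall.measurableSet) hud]
    _ ≤ ENNReal.ofReal (5 ^ n) * ∫⁻ y, f y := by
        gcongr
        exact Measure.restrict_le_self

theorem weak {n : ℕ} (f : E n → ℝ≥0∞) (l : ℝ≥0) (hl : 0 < l) :
    (l : ℝ≥0∞) * volume {x | (l : ℝ≥0∞) < MF f x} ≤ ((5 ^ n : ℝ≥0) : ℝ≥0∞) * ∫⁻ x, f x := by
  have h5 : ENNReal.ofReal (5 ^ n) = ((5 ^ n : ℝ≥0) : ℝ≥0∞) := by
    rw [ENNReal.ofReal_pow (by norm_num)]
    norm_num
  by_cases hI : ∫⁻ x, f x = ⊤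
  · rw [hI, ENNReal.mul_top]
    · exact le_top
    · simp
  · rcases eq_or_ne n 0 with rfl | hn
    · refine (weak_zero f l).trans ?_
      simp
    · rw [← h5]
      exact weak_pos hn f l hl hI

/-! ### the `L^p` bound -/

/-- the layer function -/
noncomputable def lay (q : ℝ) (g : ℝ≥0∞) (t : ℝ) : ℝ≥0∞ :=
  if ENNReal.ofReal t < g then ENNReal.ofReal (t ^ q) else 0

theorem lint_rpow {q : ℝ} (hq : -1 < q) {G : ℝ} (hG : 0 ≤ G) :
    ∫⁻ t in Ioo 0 G, ENNReal.ofReal (t ^ q) = ENNReal.ofReal (G ^ (q + 1) / (q + 1)) := by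
  have hint : IntegrableOn (fun t : ℝ => t ^ q) (Ioo 0 G) := by
    have := (intervalIntegral.intervalIntegrable_rpow' (a := 0) (b := G) hq)
    rw [intervalIntegrable_iff_integrableOn_Ioo_of_le hG] at this
    exact this
  rw [← ofReal_integral_eq_lintegral_ofReal hint]
  · congr 1
    rw [← integral_Ioc_eq_integral_Ioo, ← intervalIntegral.integral_of_le hG,
      integral_rpow (Or.inl hq), Real.zero_rpow (by linarith), sub_zero]
  · refine (ae_restrict_mem measurableSet_Ioo).mono fun t ht => ?_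
    exact Real.rpow_nonneg ht.1.le q

theorem lint_lay {q : ℝ} (hq : -1 < q) {G : ℝ} (hG : 0 ≤ G) :
    ∫⁻ t in Ioi 0, lay q (ENNReal.ofReal G) t = ENNReal.ofReal (G ^ (q + 1) / (q + 1)) := by
  rw [← lint_rpow hq hG, ← lintegral_indicator measurableSet_Ioi,
    ← lintegral_indicator measurableSet_Ioo]
  refine lintegral_congr fun t => ?_
  by_cases ht : 0 < t
  · by_cases h : t < G
    · have h1 : ENNReal.ofReal t < ENNReal.ofReal G :=
        (ENNReal.ofReal_lt_ofReal_iff (ht.trans h)).2 h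
      rw [indicator_of_mem (show t ∈ Ioi (0 : ℝ) from ht),
        indicator_of_mem (show t ∈ Ioo (0 : ℝ) G from ⟨ht, h⟩), lay, if_pos h1]
    · have h1 : ¬ ENNReal.ofReal t < ENNReal.ofReal G :=
        not_lt.2 (ENNReal.ofReal_le_ofReal (not_lt.1 h))
      rw [indicator_of_mem (show t ∈ Ioi (0 : ℝ) from ht), lay, if_neg h1,
        indicator_of_notMem (fun h' : t ∈ Ioo (0 : ℝ) G => h h'.2)]
  · rw [indicator_of_notMem (fun h' : t ∈ Ioi (0 : ℝ) => ht h'),
      indicator_of_notMem (fun h' : t ∈ Ioo (0 : ℝ) G => ht h'.1)]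

theorem lay_mono (q : ℝ) {g g' : ℝ≥0∞} (h : g ≤ g') (t : ℝ) : lay q g t ≤ lay q g' t := by
  unfold lay
  split_ifs with h1 h2
  · exact le_rfl
  · exact absurd (h1.trans_le h) h2
  · exact bot_le
  · exact le_rfl

/-- layer cake, the upper bound -/
theorem rpow_le_lay {p : ℝ} (hp : 0 < p) (g : ℝ≥0∞) :
    g ^ p ≤ ENNReal.ofReal p * ∫⁻ t in Ioi 0, lay (p - 1) g t := by
  rcases eq_or_ne g ⊤ with rfl | hg
  · have : ENNReal.ofReal p * ∫⁻ t in Ioi 0, lay (p - 1) ⊤ t = ⊤ := by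
      refine ENNReal.eq_top_of_forall_nnreal_le fun r => ?_
      have h1 := lint_lay (q := p - 1) (by linarith) (G := (r : ℝ) ^ (p⁻¹))
        (Real.rpow_nonneg r.2 _)
      have h2 : ENNReal.ofReal p * ENNReal.ofReal (((r : ℝ) ^ p⁻¹) ^ (p - 1 + 1) / (p - 1 + 1)) =
          r := by
        rw [← ENNReal.ofReal_mul hp.le, sub_add_cancel, mul_div_cancel₀ _ hp.ne',
          ← Real.rpow_mul (NNReal.coe_nonneg r), inv_mul_cancel₀ hp.ne', Real.rpow_one,
          ENNReal.ofReal_coe_nnreal]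
      rw [← h2, ← h1]
      gcongr with t
      exact lay_mono _ le_top t
    rw [this]
    exact le_top
  · have h1 := lint_lay (q := p - 1) (by linarith) (G := g.toReal) ENNReal.toReal_nonneg
    rw [ENNReal.ofReal_toReal hg] at h1
    rw [h1, ← ENNReal.ofReal_mul hp.le, sub_add_cancel, mul_div_cancel₀ _ hp.ne',
      ← ENNReal.ofReal_rpow_of_nonneg ENNReal.toReal_nonneg hp.le, ENNReal.ofReal_toReal hg]

/-- the inner integral -/
theorem inner_bound {p : ℝ} (hp : 1 < p) (f : ℝ≥0∞) :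
    f * ∫⁻ t in Ioi 0, lay (p - 2) (2 * f) t ≤ ENNReal.ofReal (2 ^ (p - 1) / (p - 1)) * f ^ p := by
  have hc : 0 < 2 ^ (p - 1) / (p - 1) := div_pos (Real.rpow_pos_of_pos two_pos _) (by linarith)
  rcases eq_or_ne f ⊤ with rfl | hf
  · rw [ENNReal.top_rpow_of_pos (by linarith), ENNReal.mul_top (ENNReal.ofReal_pos.2 hc).ne']
    exact le_top
  · have h1 := lint_lay (q := p - 2) (by linarith) (G := 2 * f.toReal)
      (mul_nonneg zero_le_two ENNReal.toReal_nonneg)
    rw [ENNReal.ofReal_mul zero_le_two, ENNReal.ofReal_toReal hf,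
      show ENNReal.ofReal 2 = 2 by norm_num] at h1
    rw [h1, show p - 2 + 1 = p - 1 by ring]
    rcases eq_or_ne f 0 with rfl | hf0
    · simp
    · have hF : 0 < f.toReal := ENNReal.toReal_pos hf0 hf
      have h2 : f * ENNReal.ofReal ((2 * f.toReal) ^ (p - 1) / (p - 1)) =
          ENNReal.ofReal (2 ^ (p - 1) / (p - 1)) * f ^ p := by
        conv_lhs => rw [← ENNReal.ofReal_toReal hf]
        conv_rhs => rw [← ENNReal.ofReal_toReal hf]
        rw [ENNReal.toReal_ofReal ENNReal.toReal_nonneg, ENNReal.ofReal_rpow_of_pos hF,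
          ← ENNReal.ofReal_mul hF.le, ← ENNReal.ofReal_mul hc.le]
        congr 1
        rw [Real.mul_rpow zero_le_two hF.le]
        have h3 : f.toReal ^ p = f.toReal * f.toReal ^ (p - 1) := by
          rw [← Real.rpow_one_add' hF.le (by linarith)]
          congr 1
          ring
        rw [h3]
        ring
      rw [h2]

/-- the part of `f` above the level `t` -/
noncomputable def up {n : ℕ} (f : E n → ℝ≥0∞) (t : ℝ) (x : E n) : ℝ≥0∞ :=
  if ENNReal.ofReal t < 2 * f x then f x else 0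

theorem le_up {n : ℕ} (f : E n → ℝ≥0∞) (t : ℝ) (x : E n) :
    f x ≤ up f t x + ENNReal.ofReal (t / 2) := by
  unfold up
  split_ifs with h
  · exact le_self_add
  · rw [zero_add]
    rw [not_lt] at h
    have h2 : ENNReal.ofReal t = 2 * ENNReal.ofReal (t / 2) := by
      rw [show (2 : ℝ≥0∞) = ENNReal.ofReal 2 by norm_num, ← ENNReal.ofReal_mul zero_le_two]
      congr 1
      ring
    rw [h2] at h
    exact (ENNReal.mul_le_mul_iff_right (by norm_num) (by norm_num)).1 h

theorem MF_le_up {n : ℕ} (f : E n → ℝ≥0∞) (t : ℝ) (x : E n) :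
    MF f x ≤ MF (up f t) x + ENNReal.ofReal (t / 2) := by
  rw [MF_eq, MF_eq]
  refine iSup₂_le fun r hr => ?_
  calc (V n r)⁻¹ * ∫⁻ y in Metric.closedBall x r, f y
      ≤ (V n r)⁻¹ * ∫⁻ y in Metric.closedBall x r, (up f t y + ENNReal.ofReal (t / 2)) := by
        gcongr with y
        exact le_up f t y
    _ = (V n r)⁻¹ * (∫⁻ y in Metric.closedBall x r, up f t y) + ENNReal.ofReal (t / 2) := by
        rw [lintegral_add_right _ measurable_const, setLIntegral_const, vol_cb, mul_add,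
          mul_comm (ENNReal.ofReal (t / 2)), ← mul_assoc, ENNReal.inv_mul_cancel
          (V_pos hr).ne' (V_ne_top n r), one_mul]
    _ ≤ _ := by
        gcongr
        exact le_iSup₂ (f := fun (r : ℝ) (_ : 0 < r) =>
          (V n r)⁻¹ * ∫⁻ y in Metric.closedBall x r, up f t y) r hr

theorem vol_level {n : ℕ} (f : E n → ℝ≥0∞) {t : ℝ} (ht : 0 < t) :
    volume {x | ENNReal.ofReal t < MF f x} ≤
      ENNReal.ofReal (2 * 5 ^ n) * (ENNReal.ofReal t⁻¹ * ∫⁻ x, up f t x) := by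
  have hsub : {x | ENNReal.ofReal t < MF f x} ⊆
      {x | (((t / 2).toNNReal : ℝ≥0) : ℝ≥0∞) < MF (up f t) x} := by
    intro x hx
    have h1 : ENNReal.ofReal t < MF (up f t) x + ENNReal.ofReal (t / 2) :=
      lt_of_lt_of_le hx (MF_le_up f t x)
    have h2 : ENNReal.ofReal t = ENNReal.ofReal (t / 2) + ENNReal.ofReal (t / 2) := by
      rw [← ENNReal.ofReal_add (by positivity) (by positivity)]
      congr 1
      ring
    rw [h2] at h1
    exact lt_of_add_lt_add_right h1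
  have hw := weak (up f t) (t / 2).toNNReal (by simpa using ht)
  have h4 : ENNReal.ofReal (2 * t⁻¹) * ENNReal.ofReal (t / 2) = 1 := by
    rw [← ENNReal.ofReal_mul (by positivity)]
    rw [show 2 * t⁻¹ * (t / 2) = 1 by field_simp]
    exact ENNReal.ofReal_one
  calc volume {x | ENNReal.ofReal t < MF f x}
      ≤ volume {x | (((t / 2).toNNReal : ℝ≥0) : ℝ≥0∞) < MF (up f t) x} := measure_mono hsub
    _ = ENNReal.ofReal (2 * t⁻¹) * (ENNReal.ofReal (t / 2) *
          volume {x | (((t / 2).toNNReal : ℝ≥0) : ℝ≥0∞) < MF (up f t) x}) := by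
        rw [← mul_assoc, h4, one_mul]
    _ ≤ ENNReal.ofReal (2 * t⁻¹) * (((5 ^ n : ℝ≥0) : ℝ≥0∞) * ∫⁻ x, up f t x) := by
        exact mul_le_mul_right hw _
    _ = _ := by
        have h5 : ((5 ^ n : ℝ≥0) : ℝ≥0∞) = ENNReal.ofReal (5 ^ n) := by
          rw [ENNReal.ofReal_pow (by norm_num)]
          norm_num
        rw [h5, ENNReal.ofReal_mul zero_le_two, ENNReal.ofReal_mul zero_le_two]
        ring

theorem up_eq {n : ℕ} (f : E n → ℝ≥0∞) {p t : ℝ} (ht : 0 < t) (x : E n) :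
    ENNReal.ofReal (t ^ (p - 1)) * (ENNReal.ofReal t⁻¹ * up f t x) =
      f x * lay (p - 2) (2 * f x) t := by
  unfold up lay
  split_ifs with h
  · rw [← mul_assoc, ← ENNReal.ofReal_mul (Real.rpow_nonneg ht.le _), mul_comm]
    congr 2
    rw [← Real.rpow_neg_one t, ← Real.rpow_add ht]
    congr 1
    ring
  · simp

theorem strong {n : ℕ} {p : ℝ} (hp : 1 < p) {f : E n → ℝ≥0∞} (hf : Measurable f) :
    ∫⁻ x, MF f x ^ p ≤ ENNReal.ofReal (p * (2 * 5 ^ n) * (2 ^ (p - 1) / (p - 1))) *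
      ∫⁻ x, f x ^ p := by
  have hp0 : 0 < p := by linarith
  have hm1 : Measurable (fun z : E n × ℝ => lay (p - 1) (MF f z.1) z.2) := by
    unfold lay
    refine Measurable.ite ?_ (by fun_prop) measurable_const
    exact measurableSet_lt (by fun_prop) ((measurable_MF f).comp measurable_fst)
  have hm2 : Measurable (fun z : ℝ × E n => f z.2 * lay (p - 2) (2 * f z.2) z.1) := by
    refine (hf.comp measurable_snd).mul ?_
    unfold lay
    refine Measurable.ite ?_ (by fun_prop) measurable_const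
    exact measurableSet_lt (by fun_prop) ((hf.comp measurable_snd).const_mul 2)
  calc ∫⁻ x, MF f x ^ p
      ≤ ∫⁻ x, ENNReal.ofReal p * ∫⁻ t in Ioi 0, lay (p - 1) (MF f x) t :=
        lintegral_mono fun x => rpow_le_lay hp0 _
    _ = ENNReal.ofReal p * ∫⁻ x, ∫⁻ t in Ioi 0, lay (p - 1) (MF f x) t :=
        lintegral_const_mul' _ _ ENNReal.ofReal_ne_top
    _ = ENNReal.ofReal p * ∫⁻ t in Ioi 0, ∫⁻ x, lay (p - 1) (MF f x) t := by
        rw [lintegral_lintegral_swap hm1.aemeasurable]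
    _ ≤ ENNReal.ofReal p * ∫⁻ t in Ioi 0, ENNReal.ofReal (2 * 5 ^ n) *
          ∫⁻ x, f x * lay (p - 2) (2 * f x) t := by
        gcongr ENNReal.ofReal p * ?_
        refine setLIntegral_mono' measurableSet_Ioi fun t ht => ?_
        have ht' : (0 : ℝ) < t := ht
        calc ∫⁻ x, lay (p - 1) (MF f x) t
            = ENNReal.ofReal (t ^ (p - 1)) * volume {x | ENNReal.ofReal t < MF f x} := by
              rw [← setLIntegral_const, ← lintegral_indicator
                (measurableSet_lt measurable_const (measurable_MF f))]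
              refine lintegral_congr fun x => ?_
              simp only [lay, indicator_apply, mem_ofPred_eq]
          _ ≤ ENNReal.ofReal (t ^ (p - 1)) *
              (ENNReal.ofReal (2 * 5 ^ n) * (ENNReal.ofReal t⁻¹ * ∫⁻ x, up f t x)) := by
              gcongr
              exact vol_level f ht'
          _ = ENNReal.ofReal (2 * 5 ^ n) *
              ∫⁻ x, ENNReal.ofReal (t ^ (p - 1)) * (ENNReal.ofReal t⁻¹ * up f t x) := by
              rw [lintegral_const_mul' _ _ ENNReal.ofReal_ne_top,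
                lintegral_const_mul' _ _ ENNReal.ofReal_ne_top]
              ring
          _ = ENNReal.ofReal (2 * 5 ^ n) * ∫⁻ x, f x * lay (p - 2) (2 * f x) t := by
              simp only [up_eq f ht']
    _ = ENNReal.ofReal p * (ENNReal.ofReal (2 * 5 ^ n) *
          ∫⁻ t in Ioi 0, ∫⁻ x, f x * lay (p - 2) (2 * f x) t) := by
        rw [lintegral_const_mul' _ _ ENNReal.ofReal_ne_top]
    _ = ENNReal.ofReal p * (ENNReal.ofReal (2 * 5 ^ n) *
          ∫⁻ x, ∫⁻ t in Ioi 0, f x * lay (p - 2) (2 * f x) t) := by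
        rw [lintegral_lintegral_swap hm2.aemeasurable]
    _ ≤ ENNReal.ofReal p * (ENNReal.ofReal (2 * 5 ^ n) *
          ∫⁻ x, ENNReal.ofReal (2 ^ (p - 1) / (p - 1)) * f x ^ p) := by
        gcongr with x
        rw [lintegral_const_mul _ (by
          unfold lay
          exact Measurable.ite (measurableSet_lt (by fun_prop) measurable_const) (by fun_prop)
            measurable_const)]
        exact inner_bound hp _
    _ = _ := by
        rw [lintegral_const_mul' _ _ ENNReal.ofReal_ne_top,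
          ENNReal.ofReal_mul (p := p * (2 * 5 ^ n)) (by positivity),
          ENNReal.ofReal_mul (p := p) hp0.le]
        ring

end J11

theorem pMFmeas : tMFmeas := fun _ f _ => J11.measurable_MF f

theorem pWeak : tWeak := fun n => ⟨5 ^ n, fun f l _ hl => J11.weak f l hl⟩

theorem pMF2 : tMF2 := by
  intro n
  refine ⟨(2 * (2 * 5 ^ n) * (2 ^ ((2 : ℝ) - 1) / (2 - 1)) : ℝ).toNNReal, fun f hf => ?_⟩
  have := J11.strong (n := n) (p := 2) (by norm_num) hf
  simp only [ENNReal.rpow_two] at this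
  exact this

theorem pMFind : tMFind := by
  intro n p hp
  refine ⟨(p * (2 * 5 ^ n) * (2 ^ (p - 1) / (p - 1)) : ℝ).toNNReal, fun A hA => ?_⟩
  have h1 := J11.strong (n := n) (p := p) hp
    (f := A.indicator 1) (measurable_const.indicator hA)
  have h2 : ∫⁻ x : E n, (A.indicator (1 : E n → ℝ≥0∞) x) ^ p = volume A := by
    rw [← lintegral_indicator_one hA]
    refine lintegral_congr fun x => ?_
    by_cases hx : x ∈ A
    · simp [hx]
    · simp [hx, show 0 < p by linarith]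
  rw [h2] at h1
  exact h1

end Pool.Agent.MBS
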