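import Pool.Agent.MBS.Targets

/-!
# Kernel bounds and domination by the Hardy-Littlewood maximal function
-/

set_option autoImplicit false

namespace Pool.Agent.MBS

open MeasureTheory FourierTransform Set
open scoped ENNReal NNReal ContDiff

namespace J12

/-! ### Derivatives of the phase -/

lemma norm_iterated_id {n : ℕ} (k : ℕ) (ξ : E n) (hξ : ‖ξ‖ ≤ 1) :
    ‖iteratedFDeriv ℝ k (fun x : E n => x) ξ‖ ≤ 1 := by
  rcases k with _ | _ | k
  · simpa using hξ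
  · rw [zero_add, norm_iteratedFDeriv_one]
    have : fderiv ℝ (fun x : E n => x) ξ = ContinuousLinearMap.id ℝ (E n) := fderiv_fun_id
    rw [this]
    exact ContinuousLinearMap.norm_id_le
  · rw [← norm_iteratedFDeriv_fderiv]
    have : fderiv ℝ (fun x : E n => x) = fun _ => ContinuousLinearMap.id ℝ (E n) := by
      funext x; exact fderiv_fun_id
    rw [this, iteratedFDeriv_const_of_ne (Nat.succ_ne_zero k)]
    simp

lemma norm_iterated_sq {n : ℕ} (k : ℕ) (ξ : E n) (hξ : ‖ξ‖ ≤ 1) :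
    ‖iteratedFDeriv ℝ k (fun x : E n => ‖x‖ ^ 2) ξ‖ ≤ 2 ^ k := by
  have h1 : (fun x : E n => ‖x‖ ^ 2) = fun x : E n => innerSL ℝ x x := by
    funext x
    rw [innerSL_apply_apply, real_inner_self_eq_norm_sq]
  rw [h1]
  have h2 := ContinuousLinearMap.norm_iteratedFDeriv_le_of_bilinear (innerSL ℝ (E := E n))
    (f := fun x : E n => x) (g := fun x : E n => x) (N := ∞) contDiff_id contDiff_id ξ
    (n := k) (by exact_mod_cast le_top)
  refine h2.trans ?_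
  have h3 : ‖innerSL ℝ (E := E n)‖ ≤ 1 := norm_innerSL_le _
  have h4 : ∑ i ∈ Finset.range (k + 1), (k.choose i : ℝ) *
      ‖iteratedFDeriv ℝ i (fun x : E n => x) ξ‖ *
      ‖iteratedFDeriv ℝ (k - i) (fun x : E n => x) ξ‖ ≤ 2 ^ k := by
    calc _ ≤ ∑ i ∈ Finset.range (k + 1), (k.choose i : ℝ) := by
          refine Finset.sum_le_sum fun i _ => ?_
          have a1 := norm_iterated_id i ξ hξ
          have a2 := norm_iterated_id (k - i) ξ hξ
          have a3 : (0 : ℝ) ≤ k.choose i := Nat.cast_nonneg _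
          calc _ ≤ (k.choose i : ℝ) * 1 * 1 := by gcongr
            _ = _ := by ring
      _ = 2 ^ k := by
          rw [← Nat.cast_sum, Nat.sum_range_choose]; norm_cast
  refine (mul_le_mul h3 h4 ?_ zero_le_one).trans_eq (one_mul _)
  positivity

lemma norm_iterated_phase {n : ℕ} (N : ℝ) (hN : 1 ≤ N) (k : ℕ) (hk : 1 ≤ k) (ξ : E n)
    (hξ : ‖ξ‖ ≤ 1) :
    ‖iteratedFDeriv ℝ k (fun x : E n => N * (1 - ‖x‖ ^ 2)) ξ‖ ≤ (2 * N) ^ k := by
  have hsq : ContDiff ℝ ∞ (fun x : E n => ‖x‖ ^ 2) := contDiff_norm_sq ℝ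
  have h1 : (fun x : E n => N * (1 - ‖x‖ ^ 2)) =
      (fun _ : E n => N) + (-N) • (fun x : E n => ‖x‖ ^ 2) := by
    funext x
    simp only [Pi.add_apply, Pi.smul_apply, smul_eq_mul]
    ring
  have hk' : ContDiff ℝ k (fun x : E n => ‖x‖ ^ 2) := hsq.of_le (by exact_mod_cast le_top)
  have e1 : ContDiffAt ℝ k (fun _ : E n => N) ξ := contDiffAt_const
  have e2 : ContDiffAt ℝ k ((-N) • (fun x : E n => ‖x‖ ^ 2)) ξ := (hk'.const_smul (-N)).contDiffAt
  rw [h1, iteratedFDeriv_add_apply e1 e2, iteratedFDeriv_const_of_ne (by omega)]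
  rw [iteratedFDeriv_const_smul_apply hk'.contDiffAt]
  simp only [Pi.zero_apply, zero_add]
  rw [norm_smul, norm_neg, Real.norm_eq_abs, abs_of_pos (by linarith), mul_pow, mul_comm]
  have h2 := norm_iterated_sq k ξ hξ
  have h3 : N ≤ N ^ k := le_self_pow₀ hN (by omega)
  have h4 : 0 ≤ N := by linarith
  gcongr

/-! ### The profile -/

/-- the unscaled multiplier as a complex function -/
noncomputable def Fp {n : ℕ} (p : ℝ → ℝ) (N : ℝ) (ξ : E n) : ℂ := ((p (N * (1 - ‖ξ‖ ^ 2)) : ℝ) : ℂ)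

lemma Fp_contDiff {n : ℕ} {p : ℝ → ℝ} (hp : ContDiff ℝ ∞ p) (N : ℝ) :
    ContDiff ℝ ∞ (Fp (n := n) p N) := by
  have h1 : ContDiff ℝ ∞ (fun ξ : E n => N * (1 - ‖ξ‖ ^ 2)) :=
    contDiff_const.mul (contDiff_const.sub (contDiff_norm_sq ℝ))
  exact Complex.ofRealCLM.contDiff.comp (hp.comp h1)

lemma Fp_zero {n : ℕ} {p : ℝ → ℝ} (hp0 : ∀ u ≤ 1 / 8, p u = 0) {N : ℝ} (hN : 0 ≤ N) {ξ : E n}
    (hξ : 1 ≤ ‖ξ‖) : Fp p N ξ = 0 := by
  have h1 : N * (1 - ‖ξ‖ ^ 2) ≤ 0 := by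
    refine mul_nonpos_of_nonneg_of_nonpos hN ?_
    nlinarith
  rw [Fp, hp0 _ (by linarith)]
  simp

lemma Fp_tsupport {n : ℕ} {p : ℝ → ℝ} (hp0 : ∀ u ≤ 1 / 8, p u = 0) {N : ℝ} (hN : 0 ≤ N) :
    tsupport (Fp (n := n) p N) ⊆ Metric.closedBall 0 1 := by
  refine closure_minimal ?_ Metric.isClosed_closedBall
  intro ξ hξ
  rw [mem_closedBall_zero_iff]
  by_contra h
  exact hξ (Fp_zero hp0 hN (not_le.mp h).le)

lemma Fp_compact {n : ℕ} {p : ℝ → ℝ} (hp0 : ∀ u ≤ 1 / 8, p u = 0) {N : ℝ} (hN : 0 ≤ N) :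
    HasCompactSupport (Fp (n := n) p N) :=
  (isCompact_closedBall _ _).of_isClosed_subset (isClosed_tsupport _) (Fp_tsupport hp0 hN)

lemma Fp_deriv {n : ℕ} {p : ℝ → ℝ} (hp : ContDiff ℝ ∞ p) {N : ℝ} (hN : 1 ≤ N) {B : ℝ} (q : ℕ)
    (hB : ∀ j ≤ q, ∀ u, 0 ≤ u → u ≤ N → ‖iteratedFDeriv ℝ j p u‖ ≤ B) {ξ : E n} (hξ : ‖ξ‖ ≤ 1) :
    ‖iteratedFDeriv ℝ q (Fp p N) ξ‖ ≤ q.factorial * B * (2 * N) ^ q := by
  have h1 : ContDiff ℝ ∞ (fun ξ : E n => N * (1 - ‖ξ‖ ^ 2)) :=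
    contDiff_const.mul (contDiff_const.sub (contDiff_norm_sq ℝ))
  have hg : ContDiff ℝ ∞ (fun u : ℝ => ((p u : ℝ) : ℂ)) := Complex.ofRealCLM.contDiff.comp hp
  have h2 : Fp (n := n) p N = (fun u : ℝ => ((p u : ℝ) : ℂ)) ∘ (fun ξ : E n => N * (1 - ‖ξ‖ ^ 2)) :=
    rfl
  rw [h2]
  refine norm_iteratedFDeriv_comp_le hg h1 (by exact_mod_cast le_top) ξ ?_ ?_
  · intro j hj
    have h3 : (fun u : ℝ => ((p u : ℝ) : ℂ)) = Complex.ofRealLI ∘ p := rfl
    rw [h3, LinearIsometry.norm_iteratedFDeriv_comp_left _ (hp.contDiffAt)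
      (by exact_mod_cast le_top)]
    refine hB j hj _ ?_ ?_
    · refine mul_nonneg (by linarith) ?_
      nlinarith [norm_nonneg ξ]
    · nlinarith [norm_nonneg ξ, sq_nonneg ‖ξ‖]
  · intro j hj _
    exact norm_iterated_phase N hN j hj ξ hξ

lemma Fp_deriv_zero {n : ℕ} {p : ℝ → ℝ} (hp0 : ∀ u ≤ 1 / 8, p u = 0) {N : ℝ} (hN : 0 ≤ N)
    (q : ℕ) {ξ : E n} (hξ : ξ ∉ Metric.closedBall (0 : E n) 1) :
    iteratedFDeriv ℝ q (Fp p N) ξ = 0 := by
  by_contra h
  exact hξ (Fp_tsupport hp0 hN (support_iteratedFDeriv_subset q h))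

lemma integral_deriv_le {n : ℕ} {p : ℝ → ℝ} (hp : ContDiff ℝ ∞ p) (hp0 : ∀ u ≤ 1 / 8, p u = 0)
    {N : ℝ} (hN : 1 ≤ N) {B : ℝ} (m q : ℕ) (hq : q ≤ m) (hB0 : 0 ≤ B)
    (hB : ∀ j ≤ m, ∀ u, 0 ≤ u → u ≤ N → ‖iteratedFDeriv ℝ j p u‖ ≤ B) :
    ∫ v : E n, ‖iteratedFDeriv ℝ q (Fp p N) v‖ ≤
      m.factorial * B * 2 ^ m * N ^ m * (volume (Metric.closedBall (0 : E n) 1)).toReal := by
  have hN0 : 0 ≤ N := by linarith
  have h1 : ∫ v : E n, ‖iteratedFDeriv ℝ q (Fp p N) v‖ =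
      ∫ v in Metric.closedBall (0 : E n) 1, ‖iteratedFDeriv ℝ q (Fp p N) v‖ := by
    refine (setIntegral_eq_integral_of_forall_compl_eq_zero fun v hv => ?_).symm
    rw [Fp_deriv_zero hp0 hN0 q hv, norm_zero]
  rw [h1]
  refine (le_abs_self _).trans ?_
  rw [← Real.norm_eq_abs]
  refine norm_setIntegral_le_of_norm_le_const (isCompact_closedBall _ _).measure_lt_top ?_
  intro v hv
  rw [norm_norm]
  refine (Fp_deriv hp hN q (fun j hj => hB j (hj.trans hq)) (mem_closedBall_zero_iff.mp hv)).trans ?_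
  have e1 : (q.factorial : ℝ) ≤ m.factorial := by exact_mod_cast Nat.factorial_le hq
  have e2 : (2 * N) ^ q ≤ (2 * N) ^ m := pow_le_pow_right₀ (by linarith) hq
  calc (q.factorial : ℝ) * B * (2 * N) ^ q ≤ m.factorial * B * (2 * N) ^ m := by gcongr
    _ = m.factorial * B * 2 ^ m * N ^ m := by rw [mul_pow]; ring

lemma kernel_pow {n : ℕ} {p : ℝ → ℝ} (hp : ContDiff ℝ ∞ p) (hp0 : ∀ u ≤ 1 / 8, p u = 0)
    {N : ℝ} (hN : 1 ≤ N) {B : ℝ} (m q : ℕ) (hq : q ≤ m) (hB0 : 0 ≤ B)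
    (hB : ∀ j ≤ m, ∀ u, 0 ≤ u → u ≤ N → ‖iteratedFDeriv ℝ j p u‖ ≤ B) (w : E n) :
    ‖w‖ ^ q * ‖𝓕 (Fp p N) w‖ ≤ 2 ^ m * ((m + 1) *
      (m.factorial * B * 2 ^ m * N ^ m * (volume (Metric.closedBall (0 : E n) 1)).toReal)) := by
  have hN0 : 0 ≤ N := by linarith
  have hsm : ContDiff ℝ ((⊤ : ℕ∞) : WithTop ℕ∞) (Fp (n := n) p N) := Fp_contDiff hp N
  have hint : ∀ (k l : ℕ), (k : ℕ∞) ≤ (0 : ℕ∞) → (l : ℕ∞) ≤ (⊤ : ℕ∞) →
      Integrable (fun v : E n => ‖v‖ ^ k * ‖iteratedFDeriv ℝ l (Fp p N) v‖) := by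
    intro k l _ _
    refine Continuous.integrable_of_hasCompactSupport ?_ ?_
    · exact (continuous_norm.pow k).mul
        (hsm.continuous_iteratedFDeriv (by exact_mod_cast le_top)).norm
    · exact (((Fp_compact hp0 hN0).iteratedFDeriv l).norm).mul_left
  have key := Real.pow_mul_norm_iteratedFDeriv_fourier_le (K := 0) (N := ⊤) hsm hint
    (k := 0) (n := q) le_rfl le_top w
  rw [norm_iteratedFDeriv_zero] at key
  refine key.trans ?_
  set V := (m.factorial * B * 2 ^ m * N ^ m *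
    (volume (Metric.closedBall (0 : E n) 1)).toReal : ℝ) with hV
  have hV0 : 0 ≤ V := by positivity
  have hsum : ∑ r ∈ Finset.range (0 + 1) ×ˢ Finset.range (q + 1),
      ∫ v : E n, ‖v‖ ^ r.1 * ‖iteratedFDeriv ℝ r.2 (Fp p N) v‖ ≤ (m + 1) * V := by
    calc _ ≤ ∑ r ∈ Finset.range (0 + 1) ×ˢ Finset.range (q + 1), V := by
          refine Finset.sum_le_sum fun r hr => ?_
          rw [Finset.mem_product, Finset.mem_range, Finset.mem_range] at hr
          have h0 : r.1 = 0 := by omega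
          simp only [h0, pow_zero, one_mul]
          exact integral_deriv_le hp hp0 hN m r.2 (by omega) hB0 hB
      _ = (q + 1) * V := by
          rw [Finset.sum_const, Finset.card_product, Finset.card_range, Finset.card_range]
          simp
      _ ≤ (m + 1) * V := by
          have : (q : ℝ) ≤ m := by exact_mod_cast hq
          gcongr
  have e1 : (2 : ℝ) ^ q ≤ 2 ^ m := pow_le_pow_right₀ (by norm_num) hq
  calc _ = 2 ^ q * ∑ r ∈ Finset.range (0 + 1) ×ˢ Finset.range (q + 1),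
      ∫ v : E n, ‖v‖ ^ r.1 * ‖iteratedFDeriv ℝ r.2 (Fp p N) v‖ := by
        simp
    _ ≤ 2 ^ q * ((m + 1) * V) := by gcongr
    _ ≤ 2 ^ m * ((m + 1) * V) := by gcongr

/-! ### From the multiplier operator to the kernel -/

lemma fourier_scale {n : ℕ} (F : E n → ℂ) {R : ℝ} (hR : 0 < R) (w : E n) :
    𝓕 (fun ξ => F (R⁻¹ • ξ)) w = (R ^ n : ℝ) • 𝓕 F (R • w) := by
  rw [Real.fourier_eq, Real.fourier_eq]
  have h1 := Measure.integral_comp_inv_smul_of_nonneg (volume : Measure (E n))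
    (fun u : E n => Real.fourierChar (-(inner ℝ (R • u) w)) • F u) hR.le
  have h2 : ∀ v : E n, R • R⁻¹ • v = v := fun v => smul_inv_smul₀ hR.ne' v
  simp only [h2, finrank_euclideanSpace, Fintype.card_fin] at h1
  rw [h1]
  congr 1
  refine integral_congr_ae (Filter.Eventually.of_forall fun u => ?_)
  simp only [inner_smul_left, inner_smul_right, RCLike.conj_to_real]

lemma fourier_shift {n : ℕ} (a : E n → ℂ) (x y : E n) :
    𝓕 (fun ξ => a ξ * ex x ξ) y = 𝓕 a (y - x) := by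
  rw [Real.fourier_eq, Real.fourier_eq]
  refine integral_congr_ae (Filter.Eventually.of_forall fun v => ?_)
  simp only [Circle.smul_def, Real.fourierChar_apply, ex, smul_eq_mul]
  rw [mul_left_comm, ← Complex.exp_add, mul_comm]
  congr 2
  rw [inner_sub_right, real_inner_comm x v]
  push_cast
  ring

lemma T_eq {n : ℕ} (a : E n → ℝ) (f : E n → ℂ) (hf : Integrable f) (ha : Continuous a)
    (hac : HasCompactSupport a) (x : E n) :
    T a (𝓕 f) x = ∫ y, f y * 𝓕 (fun ξ => (a ξ : ℂ)) (y - x) := by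
  have hex : Continuous (fun ξ : E n => ex x ξ) := by
    unfold ex
    fun_prop
  have hg : Integrable (fun ξ : E n => (a ξ : ℂ) * ex x ξ) := by
    refine Continuous.integrable_of_hasCompactSupport ?_ ?_
    · exact (Complex.continuous_ofReal.comp ha).mul hex
    · have h1 : HasCompactSupport (fun ξ : E n => (a ξ : ℂ)) :=
        hac.comp_left (g := fun t : ℝ => (t : ℂ)) (by simp)
      exact h1.mul_right
  have key := VectorFourier.integral_fourierIntegral_smul_eq_flip (L := innerₗ (E n))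
    (μ := volume) (ν := volume) Real.continuous_fourierChar continuous_inner hf hg
  have e1 : T a (𝓕 f) x = ∫ ξ, 𝓕 f ξ • ((a ξ : ℂ) * ex x ξ) := by
    unfold T
    refine integral_congr_ae (Filter.Eventually.of_forall fun ξ => ?_)
    simp only [smul_eq_mul]
    ring
  rw [e1]
  have e2 : ∫ y, f y * 𝓕 (fun ξ => (a ξ : ℂ)) (y - x) =
      ∫ y, f y • 𝓕 (fun ξ => (a ξ : ℂ) * ex x ξ) y := by
    refine integral_congr_ae (Filter.Eventually.of_forall fun y => ?_)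
    simp only [smul_eq_mul]
    rw [fourier_shift]
  rw [e2]
  simpa using! key

lemma T_bound {n : ℕ} (a : E n → ℝ) (F : E n → ℂ) (f : E n → ℂ) (hf : Integrable f)
    (ha : Continuous a) (hac : HasCompactSupport a) {R : ℝ} (hR : 0 < R)
    (haF : ∀ ξ, (a ξ : ℂ) = F (R⁻¹ • ξ)) (x : E n) :
    ‖T a (𝓕 f) x‖ₑ ≤ ∫⁻ y, ‖f y‖ₑ * (ENNReal.ofReal (R ^ n) * ‖𝓕 F (R • (y - x))‖ₑ) := by
  rw [T_eq a f hf ha hac]
  refine (enorm_integral_le_lintegral_enorm _).trans (le_of_eq ?_)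
  refine lintegral_congr fun y => ?_
  have h1 : (fun ξ => (a ξ : ℂ)) = fun ξ => F (R⁻¹ • ξ) := funext haF
  rw [h1, fourier_scale F hR, enorm_mul, enorm_smul]
  congr 2
  rw [← ofReal_norm, Real.norm_eq_abs, abs_of_pos (pow_pos hR n)]

/-! ### Domination by the maximal function -/

lemma ball_le_MF {n : ℕ} (f : E n → ℝ≥0∞) (x : E n) {r : ℝ} (hr : 0 < r) :
    ∫⁻ y in Metric.closedBall x r, f y ≤ volume (Metric.closedBall x r) * MF f x := by
  have h1 : (volume (Metric.closedBall x r))⁻¹ * ∫⁻ y in Metric.closedBall x r, f y ≤ MF f x := by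
    unfold MF
    exact le_iSup₂_of_le r hr le_rfl
  have h2 : volume (Metric.closedBall x r) ≠ 0 :=
    (Metric.measure_closedBall_pos volume x hr).ne'
  have h3 : volume (Metric.closedBall x r) ≠ ⊤ := (isCompact_closedBall x r).measure_lt_top.ne
  calc _ = volume (Metric.closedBall x r) * ((volume (Metric.closedBall x r))⁻¹ *
      ∫⁻ y in Metric.closedBall x r, f y) := by
        rw [← mul_assoc, ENNReal.mul_inv_cancel h2 h3, one_mul]
    _ ≤ _ := by gcongr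

/-- The dyadic majorant of the kernel. -/
lemma kernel_dyadic {n : ℕ} {A : ℝ} (hA : 0 ≤ A) (κ : E n → ℂ) (h0 : ∀ w, ‖κ w‖ ≤ A)
    (h1 : ∀ w, ‖w‖ ^ (n + 1) * ‖κ w‖ ≤ A) (w : E n) :
    ‖κ w‖ₑ ≤ ∑' k : ℕ, (Metric.closedBall (0 : E n) (2 ^ k)).indicator
      (fun _ => ENNReal.ofReal (A * 2 ^ (n + 1) * (2 ^ (n + 1))⁻¹ ^ k)) w := by
  have hp : (0 : ℝ) < 2 ^ (n + 1) := by positivity
  rcases lt_or_ge ‖w‖ 1 with hw | hw
  · refine le_trans ?_ (ENNReal.le_tsum 0)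
    rw [indicator_of_mem (by simpa using hw.le)]
    rw [← ofReal_norm]
    refine ENNReal.ofReal_le_ofReal ((h0 w).trans ?_)
    have : (1 : ℝ) ≤ 2 ^ (n + 1) := one_le_pow₀ (by norm_num)
    rw [pow_zero, mul_one]
    nlinarith
  · obtain ⟨k, hk1, hk2⟩ := exists_nat_pow_near hw (one_lt_two : (1 : ℝ) < 2)
    refine le_trans ?_ (ENNReal.le_tsum (k + 1))
    rw [indicator_of_mem (by simpa using hk2.le)]
    rw [← ofReal_norm]
    refine ENNReal.ofReal_le_ofReal ?_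
    have e1 : (2 : ℝ) ^ (n + 1) * (2 ^ (n + 1))⁻¹ ^ (k + 1) = ((2 ^ k) ^ (n + 1))⁻¹ := by
      rw [pow_succ _ k, mul_comm, mul_assoc, inv_mul_cancel₀ hp.ne', mul_one, inv_pow, ← pow_mul,
        ← pow_mul, mul_comm]
    rw [mul_assoc, e1]
    have e2 : (0 : ℝ) < (2 ^ k) ^ (n + 1) := by positivity
    rw [← div_eq_mul_inv, le_div_iff₀ e2, mul_comm]
    refine le_trans ?_ (h1 w)
    have e3 : ((2 : ℝ) ^ k) ^ (n + 1) ≤ ‖w‖ ^ (n + 1) := pow_le_pow_left₀ (by positivity) hk1 _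
    gcongr

lemma dom {n : ℕ} {A : ℝ} (hA : 0 ≤ A) (κ : E n → ℂ) (h0 : ∀ w, ‖κ w‖ ≤ A)
    (h1 : ∀ w, ‖w‖ ^ (n + 1) * ‖κ w‖ ≤ A) {f : E n → ℂ} (hf : AEStronglyMeasurable f)
    {R : ℝ} (hR : 0 < R) (x : E n) :
    ∫⁻ y, ‖f y‖ₑ * (ENNReal.ofReal (R ^ n) * ‖κ (R • (y - x))‖ₑ) ≤
      ENNReal.ofReal (A * 2 ^ (n + 1) * 2) * volume (Metric.ball (0 : E n) 1) *
        MF (fun y => ‖f y‖ₑ) x := by
  set c : ℕ → ℝ≥0∞ := fun k => ENNReal.ofReal (A * 2 ^ (n + 1) * (2 ^ (n + 1))⁻¹ ^ k) with hc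
  have hmem : ∀ (k : ℕ) (y : E n), R • (y - x) ∈ Metric.closedBall (0 : E n) (2 ^ k) ↔
      y ∈ Metric.closedBall x (2 ^ k / R) := by
    intro k y
    rw [mem_closedBall_zero_iff, Metric.mem_closedBall, dist_eq_norm, norm_smul, Real.norm_eq_abs,
      abs_of_pos hR, le_div_iff₀ hR, mul_comm]
  have step1 : ∀ y, ‖f y‖ₑ * (ENNReal.ofReal (R ^ n) * ‖κ (R • (y - x))‖ₑ) ≤
      ∑' k : ℕ, ENNReal.ofReal (R ^ n) * c k *
        (Metric.closedBall x (2 ^ k / R)).indicator (fun y => ‖f y‖ₑ) y := by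
    intro y
    calc _ ≤ ‖f y‖ₑ * (ENNReal.ofReal (R ^ n) *
          ∑' k : ℕ, (Metric.closedBall (0 : E n) (2 ^ k)).indicator (fun _ => c k)
            (R • (y - x))) := by
          gcongr
          exact kernel_dyadic hA κ h0 h1 _
      _ = ∑' k : ℕ, ‖f y‖ₑ * (ENNReal.ofReal (R ^ n) *
          (Metric.closedBall (0 : E n) (2 ^ k)).indicator (fun _ => c k) (R • (y - x))) := by
          rw [← ENNReal.tsum_mul_left, ← ENNReal.tsum_mul_left]
      _ = _ := by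
          refine tsum_congr fun k => ?_
          by_cases hy : y ∈ Metric.closedBall x (2 ^ k / R)
          · rw [indicator_of_mem ((hmem k y).mpr hy), indicator_of_mem hy]
            ring
          · rw [indicator_of_notMem (fun h => hy ((hmem k y).mp h)), indicator_of_notMem hy]
            ring
  refine (lintegral_mono step1).trans ?_
  rw [lintegral_tsum]
  · have step2 : ∀ k : ℕ, ∫⁻ y, ENNReal.ofReal (R ^ n) * c k *
        (Metric.closedBall x (2 ^ k / R)).indicator (fun y => ‖f y‖ₑ) y ≤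
        ENNReal.ofReal (A * 2 ^ (n + 1)) * (2 : ℝ≥0∞)⁻¹ ^ k *
          (volume (Metric.ball (0 : E n) 1) * MF (fun y => ‖f y‖ₑ) x) := by
      intro k
      have hr : (0 : ℝ) < 2 ^ k / R := by positivity
      rw [lintegral_const_mul' _ _ (ENNReal.mul_ne_top ENNReal.ofReal_ne_top ENNReal.ofReal_ne_top),
        lintegral_indicator Metric.isClosed_closedBall.measurableSet]
      calc _ ≤ ENNReal.ofReal (R ^ n) * c k *
            (volume (Metric.closedBall x (2 ^ k / R)) * MF (fun y => ‖f y‖ₑ) x) := by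
            gcongr
            exact ball_le_MF _ x hr
        _ = _ := by
            rw [Measure.addHaar_closedBall volume x hr.le, finrank_euclideanSpace,
              Fintype.card_fin, hc]
            have e1 : ENNReal.ofReal (R ^ n) * ENNReal.ofReal (A * 2 ^ (n + 1) *
                (2 ^ (n + 1))⁻¹ ^ k) * ENNReal.ofReal ((2 ^ k / R) ^ n) =
                ENNReal.ofReal (A * 2 ^ (n + 1)) * (2 : ℝ≥0∞)⁻¹ ^ k := by
              have e2 : (2 : ℝ≥0∞)⁻¹ ^ k = ENNReal.ofReal ((2⁻¹ : ℝ) ^ k) := by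
                rw [ENNReal.ofReal_pow (by norm_num), ENNReal.ofReal_inv_of_pos (by norm_num)]
                norm_num
              rw [e2, ← ENNReal.ofReal_mul (by positivity), ← ENNReal.ofReal_mul (by positivity),
                ← ENNReal.ofReal_mul (by positivity)]
              congr 1
              rw [div_pow]
              have hRn : R ^ n ≠ 0 := (pow_pos hR n).ne'
              have e3 : ((2 : ℝ) ^ (n + 1))⁻¹ ^ k * (2 ^ k) ^ n = 2⁻¹ ^ k := by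
                rw [inv_pow, inv_pow, ← pow_mul, ← pow_mul,
                  show (n + 1) * k = k * n + k by ring, pow_add, mul_inv]
                field_simp
              rw [← e3]
              field_simp
            rw [← e1]
            ring
    calc _ ≤ ∑' k : ℕ, ENNReal.ofReal (A * 2 ^ (n + 1)) * (2 : ℝ≥0∞)⁻¹ ^ k *
          (volume (Metric.ball (0 : E n) 1) * MF (fun y => ‖f y‖ₑ) x) :=
          ENNReal.tsum_le_tsum step2
      _ = _ := by
          rw [ENNReal.tsum_mul_right, ENNReal.tsum_mul_left, ENNReal.tsum_geometric,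
            ENNReal.one_sub_inv_two, inv_inv, ENNReal.ofReal_mul (p := A * 2 ^ (n + 1))
            (by positivity)]
          simp only [ENNReal.ofReal_ofNat]
          ring
  · intro k
    refine AEMeasurable.const_mul ?_ _
    exact hf.enorm.indicator Metric.isClosed_closedBall.measurableSet

/-! ### The profiles -/

lemma et_contDiff : ContDiff ℝ ∞ et := by
  unfold et
  exact Real.smoothTransition.contDiff.comp
    ((contDiff_const.mul contDiff_id).sub contDiff_const)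

lemma ps_contDiff : ContDiff ℝ ∞ ps := by
  unfold ps
  exact (et_contDiff.comp (contDiff_const.mul contDiff_id)).sub et_contDiff

lemma et_zero {u : ℝ} (hu : u ≤ 1 / 4) : et u = 0 := by
  unfold et
  exact Real.smoothTransition.zero_of_nonpos (by linarith)

lemma et_one {u : ℝ} (hu : 1 / 2 ≤ u) : et u = 1 := by
  unfold et
  exact Real.smoothTransition.one_of_one_le (by linarith)

lemma ps_zero {u : ℝ} (hu : u ≤ 1 / 8) : ps u = 0 := by
  unfold ps
  rw [et_zero (by linarith), et_zero (by linarith), sub_zero]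

lemma ps_zero' {u : ℝ} (hu : 1 / 2 ≤ u) : ps u = 0 := by
  unfold ps
  rw [et_one (by linarith), et_one hu, sub_self]

lemma ps_compact : HasCompactSupport ps := by
  refine HasCompactSupport.intro (K := Icc 0 1) isCompact_Icc fun u hu => ?_
  rw [mem_Icc, not_and_or, not_le, not_le] at hu
  rcases hu with hu | hu
  · exact ps_zero (by linarith)
  · exact ps_zero' (by linarith)

lemma ps_bound (m : ℕ) : ∃ B : ℝ, 0 ≤ B ∧ ∀ j ≤ m, ∀ u, ‖iteratedFDeriv ℝ j ps u‖ ≤ B := by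
  have h1 : ∀ j : ℕ, ∃ B : ℝ, ∀ u, ‖iteratedFDeriv ℝ j ps u‖ ≤ B := fun j =>
    (ps_compact.iteratedFDeriv j).exists_bound_of_continuous
      (ps_contDiff.continuous_iteratedFDeriv (by exact_mod_cast le_top))
  choose B hB using h1
  have hB0 : ∀ j, 0 ≤ B j := fun j => (norm_nonneg _).trans (hB j 0)
  refine ⟨∑ j ∈ Finset.range (m + 1), B j, Finset.sum_nonneg fun j _ => hB0 j, fun j hj u => ?_⟩
  refine (hB j u).trans (Finset.single_le_sum (f := B) (fun j _ => hB0 j) ?_)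
  exact Finset.mem_range.mpr (by omega)

lemma et_bound (m : ℕ) : ∃ B : ℝ, 0 ≤ B ∧ ∀ j ≤ m, ∀ u, 0 ≤ u → u ≤ 1 →
    ‖iteratedFDeriv ℝ j et u‖ ≤ B := by
  have h1 : ∀ j : ℕ, ∃ B : ℝ, ∀ u ∈ Icc (0 : ℝ) 1, ‖iteratedFDeriv ℝ j et u‖ ≤ B := fun j =>
    isCompact_Icc.exists_bound_of_continuousOn
      (et_contDiff.continuous_iteratedFDeriv (by exact_mod_cast le_top)).continuousOn
  choose B hB using h1
  have hB0 : ∀ j, 0 ≤ B j := fun j => (norm_nonneg _).trans (hB j 0 (by simp))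
  refine ⟨∑ j ∈ Finset.range (m + 1), B j, Finset.sum_nonneg fun j _ => hB0 j,
    fun j hj u h0 h1 => ?_⟩
  refine (hB j u ⟨h0, h1⟩).trans (Finset.single_le_sum (f := B) (fun j _ => hB0 j) ?_)
  exact Finset.mem_range.mpr (by omega)

lemma prof_eq {n : ℕ} (p : ℝ → ℝ) (N R : ℝ) (hR : 0 < R) (ξ : E n) :
    ((p (N * (1 - ‖ξ‖ ^ 2 / R ^ 2)) : ℝ) : ℂ) = Fp p N (R⁻¹ • ξ) := by
  unfold Fp
  rw [norm_smul, norm_inv, Real.norm_eq_abs, abs_of_pos hR, mul_pow, inv_pow,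
    ← div_eq_inv_mul]

lemma prof_continuous {n : ℕ} {p : ℝ → ℝ} (hp : ContDiff ℝ ∞ p) (N R : ℝ) :
    Continuous (fun ξ : E n => p (N * (1 - ‖ξ‖ ^ 2 / R ^ 2))) := by
  have := hp.continuous
  fun_prop

lemma prof_compact {n : ℕ} {p : ℝ → ℝ} (hp0 : ∀ u ≤ 1 / 8, p u = 0) {N R : ℝ} (hN : 0 ≤ N)
    (hR : 0 < R) : HasCompactSupport (fun ξ : E n => p (N * (1 - ‖ξ‖ ^ 2 / R ^ 2))) := by
  refine HasCompactSupport.intro (isCompact_closedBall (0 : E n) R) fun ξ hξ => ?_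
  rw [mem_closedBall_zero_iff, not_le] at hξ
  refine hp0 _ ?_
  have h1 : 1 ≤ ‖ξ‖ ^ 2 / R ^ 2 := by
    rw [le_div_iff₀ (by positivity), one_mul]
    exact pow_le_pow_left₀ hR.le hξ.le 2
  have h2 : N * (1 - ‖ξ‖ ^ 2 / R ^ 2) ≤ 0 := mul_nonpos_of_nonneg_of_nonpos hN (by linarith)
  linarith

/-- The general estimate for one profile. -/
lemma prof_dom {n : ℕ} {p : ℝ → ℝ} (hp : ContDiff ℝ ∞ p) (hp0 : ∀ u ≤ 1 / 8, p u = 0)
    {N : ℝ} (hN : 1 ≤ N) {B : ℝ} (hB0 : 0 ≤ B)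
    (hB : ∀ j ≤ n + 1, ∀ u, 0 ≤ u → u ≤ N → ‖iteratedFDeriv ℝ j p u‖ ≤ B)
    {f : E n → ℂ} (hf : Integrable f) {R : ℝ} (hR : 0 < R) (x : E n) :
    ‖T (fun ξ : E n => p (N * (1 - ‖ξ‖ ^ 2 / R ^ 2))) (𝓕 f) x‖ₑ ≤
      ENNReal.ofReal ((2 ^ (n + 1) * (((n + 1 : ℕ) + 1) * ((n + 1).factorial * B * 2 ^ (n + 1) *
        N ^ (n + 1) * (volume (Metric.closedBall (0 : E n) 1)).toReal))) * 2 ^ (n + 1) * 2) *
        volume (Metric.ball (0 : E n) 1) * MF (fun y => ‖f y‖ₑ) x := by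
  have hN0 : 0 ≤ N := by linarith
  refine (T_bound _ (Fp p N) f hf (prof_continuous hp N R) (prof_compact hp0 hN0 hR) hR
    (prof_eq p N R hR) x).trans ?_
  refine dom (by positivity) (𝓕 (Fp (n := n) p N)) ?_ ?_ hf.aestronglyMeasurable hR x
  · intro w
    have := kernel_pow hp hp0 hN (n + 1) 0 (Nat.zero_le _) hB0 hB w
    rwa [pow_zero, one_mul] at this
  · intro w
    exact kernel_pow hp hp0 hN (n + 1) (n + 1) le_rfl hB0 hB w

end J12

open J12 in
theorem pPdom : tPdom := by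
  intro n
  obtain ⟨B, hB0, hB⟩ := et_bound (n + 1)
  set C : ℝ≥0∞ := ENNReal.ofReal ((2 ^ (n + 1) * (((n + 1 : ℕ) + 1) * ((n + 1).factorial * B *
    2 ^ (n + 1) * 1 ^ (n + 1) * (volume (Metric.closedBall (0 : E n) 1)).toReal))) *
    2 ^ (n + 1) * 2) * volume (Metric.ball (0 : E n) 1) with hC
  have hCt : C ≠ ⊤ := ENNReal.mul_ne_top ENNReal.ofReal_ne_top
    (measure_ball_lt_top).ne
  refine ⟨C.toNNReal, fun f hf x => ?_⟩
  rw [ENNReal.coe_toNNReal hCt]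
  unfold Pstar
  refine iSup₂_le fun R hR => ?_
  have h1 : (pm R : E n → ℝ) = fun ξ : E n => et (1 * (1 - ‖ξ‖ ^ 2 / R ^ 2)) := by
    funext ξ
    rw [pm, one_mul]
  rw [h1]
  exact prof_dom et_contDiff (fun u hu => et_zero (by linarith)) le_rfl hB0
    (fun j hj u h0 h1 => hB j hj u h0 h1) hf hR x

open J12 in
theorem pTdom : tTdom := by
  intro n
  obtain ⟨B, hB0, hB⟩ := ps_bound (n + 1)
  set C : ℝ≥0∞ := ENNReal.ofReal ((2 ^ (n + 1) * (((n + 1 : ℕ) + 1) * ((n + 1).factorial * B *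
    2 ^ (n + 1) * (volume (Metric.closedBall (0 : E n) 1)).toReal))) *
    2 ^ (n + 1) * 2) * volume (Metric.ball (0 : E n) 1) with hC
  have hCt : C ≠ ⊤ := ENNReal.mul_ne_top ENNReal.ofReal_ne_top
    (measure_ball_lt_top).ne
  refine ⟨C.toNNReal, n + 1, fun i f hf x => ?_⟩
  rw [ENNReal.coe_toNNReal hCt]
  unfold Tstar
  refine iSup₂_le fun R hR => ?_
  have h1 : (mul i R : E n → ℝ) = fun ξ : E n => ps (2 ^ i * (1 - ‖ξ‖ ^ 2 / R ^ 2)) := rfl
  rw [h1]
  refine (prof_dom ps_contDiff (fun u hu => ps_zero hu) (one_le_pow₀ (by norm_num)) hB0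
    (fun j hj u _ _ => hB j hj u) hf hR x).trans (le_of_eq ?_)
  have e1 : (2 : ℝ≥0∞) ^ ((n + 1) * i) = ENNReal.ofReal (((2 : ℝ) ^ i) ^ (n + 1)) := by
    rw [← pow_mul, ENNReal.ofReal_pow (by norm_num), ENNReal.ofReal_ofNat, mul_comm]
  rw [e1, hC, mul_right_comm (ENNReal.ofReal _) _ (ENNReal.ofReal _),
    ← ENNReal.ofReal_mul (by positivity)]
  congr 3
  ring

end Pool.Agent.MBS
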