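import Pool.Agent.MBS.Targets

set_option autoImplicit false

/-! J14: Theorem E, the logarithmic Nash inequality for the maximal ball partial sums. -/

namespace Pool.Agent.MBS

open MeasureTheory FourierTransform Set
open scoped ENNReal NNReal

namespace J14

/-- geometric sums over the dyadic scales below `l` -/
lemma geo_le (α l : ℝ) (hα : 0 < α) (hl : 0 < l) :
    ∑' m : ℤ, (if (2 : ℝ) ^ m ≤ l then ENNReal.ofReal (((2 : ℝ) ^ m) ^ α) else 0) ≤
      ENNReal.ofReal (l ^ α * (1 - (2 : ℝ) ^ (-α))⁻¹) := by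
  set M : ℤ := Int.log 2 l with hM
  have hiff : ∀ m : ℤ, (2 : ℝ) ^ m ≤ l ↔ m ≤ M := fun m => by
    have := Int.zpow_le_iff_le_log (b := 2) (by norm_num) (x := m) hl
    simpa using this
  have hinj : Function.Injective (fun k : ℕ => M - (k : ℤ)) := by
    intro a b h
    simpa using h
  rw [← hinj.tsum_eq]
  · have hq0 : 0 < (2 : ℝ) ^ (-α) := by positivity
    have hq1 : (2 : ℝ) ^ (-α) < 1 := Real.rpow_lt_one_of_one_lt_of_neg (by norm_num) (by linarith)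
    have h1 : ∀ k : ℕ, (if (2 : ℝ) ^ (M - (k : ℤ)) ≤ l then
        ENNReal.ofReal (((2 : ℝ) ^ (M - (k : ℤ))) ^ α) else 0) =
        ENNReal.ofReal (((2 : ℝ) ^ M) ^ α * ((2 : ℝ) ^ (-α)) ^ k) := by
      intro k
      rw [if_pos ((hiff _).2 (by omega))]
      congr 1
      rw [zpow_sub₀ (by norm_num), Real.div_rpow (by positivity) (by positivity), div_eq_mul_inv]
      congr 1
      rw [zpow_natCast, ← Real.rpow_natCast, ← Real.rpow_mul (by norm_num),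
        ← Real.rpow_neg (by norm_num), ← Real.rpow_natCast, ← Real.rpow_mul (by norm_num)]
      congr 1
      ring
    simp only [h1]
    rw [← ENNReal.ofReal_tsum_of_nonneg (fun k => by positivity)
      ((summable_geometric_of_lt_one hq0.le hq1).mul_left _), tsum_mul_left,
      tsum_geometric_of_lt_one hq0.le hq1]
    apply ENNReal.ofReal_le_ofReal
    apply mul_le_mul_of_nonneg_right _ (by rw [inv_nonneg]; linarith)
    exact Real.rpow_le_rpow (by positivity) ((hiff M).2 le_rfl) hα.le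
  · intro m hm
    rw [Function.mem_support] at hm
    have : (2 : ℝ) ^ m ≤ l := by
      by_contra h
      exact hm (if_neg h)
    have h2 := (hiff m).1 this
    exact ⟨(M - m).toNat, by simp only; omega⟩

/-- geometric sums over the dyadic scales above `l` -/
lemma geo_gt (α l : ℝ) (hα : 0 < α) (hl : 0 < l) :
    ∑' m : ℤ, (if l < (2 : ℝ) ^ m then ENNReal.ofReal (((2 : ℝ) ^ m) ^ (-α)) else 0) ≤
      ENNReal.ofReal (l ^ (-α) * (1 - (2 : ℝ) ^ (-α))⁻¹) := by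
  have h := geo_le α l⁻¹ hα (inv_pos.2 hl)
  have h3 : l⁻¹ ^ α = l ^ (-α) := by
    rw [Real.inv_rpow hl.le, Real.rpow_neg hl.le]
  rw [h3] at h
  refine le_trans ?_ h
  rw [← (Equiv.neg ℤ).tsum_eq]
  apply ENNReal.tsum_le_tsum
  intro m
  simp only [Equiv.neg_apply]
  split_ifs with h1 h2 h2
  · apply le_of_eq
    congr 1
    rw [zpow_neg, Real.inv_rpow (by positivity), Real.rpow_neg (by positivity), inv_inv]
  · exfalso
    apply h2
    rw [zpow_neg] at h1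
    have hp : (0 : ℝ) < 2 ^ m := by positivity
    rw [le_inv_comm₀ hp hl]
    exact h1.le
  · exact bot_le
  · exact le_rfl

/-- the sum of `min(1, Q 2^{-a i})` is `O(1 + log Q)` -/
lemma log_sum (a : ℝ) (ha : 0 < a) : ∃ C : ℝ, 0 < C ∧ ∀ Q : ℝ, 1 ≤ Q →
    ∑' i : ℕ, ENNReal.ofReal (min 1 (Q * (2 : ℝ) ^ (-(a * i)))) ≤
      ENNReal.ofReal (C * (1 + Real.log Q)) := by
  have hq0 : 0 < (2 : ℝ) ^ (-a) := by positivity
  have hq1 : (2 : ℝ) ^ (-a) < 1 := Real.rpow_lt_one_of_one_lt_of_neg (by norm_num) (by linarith)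
  have hl2 : 0 < Real.log 2 := Real.log_pos (by norm_num)
  have hS : 0 < (1 - (2 : ℝ) ^ (-a))⁻¹ := inv_pos.2 (by linarith)
  refine ⟨1 / (a * Real.log 2) + 1 + (1 - (2 : ℝ) ^ (-a))⁻¹, by positivity, fun Q hQ => ?_⟩
  have hlQ : 0 ≤ Real.log Q := Real.log_nonneg hQ
  set k := ⌈Real.log Q / (a * Real.log 2)⌉₊ with hk
  have hk1 : (k : ℝ) ≤ Real.log Q / (a * Real.log 2) + 1 :=
    (Nat.ceil_lt_add_one (by positivity)).le
  have hk2 : Real.log Q / (a * Real.log 2) ≤ k := Nat.le_ceil _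
  have hQk : Q * (2 : ℝ) ^ (-(a * k)) ≤ 1 := by
    have h1 : Q ≤ (2 : ℝ) ^ (a * k) := by
      rw [← Real.log_le_log_iff (by linarith) (by positivity), Real.log_rpow (by norm_num)]
      rw [div_le_iff₀ (by positivity)] at hk2
      linarith
    rw [Real.rpow_neg (by norm_num), ← div_eq_mul_inv]
    exact (div_le_one (by positivity)).2 h1
  have hsplit := Summable.sum_add_tsum_nat_add' (k := k)
    (f := fun i : ℕ => ENNReal.ofReal (min 1 (Q * (2 : ℝ) ^ (-(a * (i : ℝ))))))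
    ENNReal.summable
  rw [← hsplit]
  have hA : ∑ i ∈ Finset.range k, ENNReal.ofReal (min 1 (Q * (2 : ℝ) ^ (-(a * i)))) ≤
      ENNReal.ofReal k := by
    calc ∑ i ∈ Finset.range k, ENNReal.ofReal (min 1 (Q * (2 : ℝ) ^ (-(a * i))))
        ≤ ∑ i ∈ Finset.range k, (1 : ℝ≥0∞) := by
          apply Finset.sum_le_sum
          intro i _
          rw [← ENNReal.ofReal_one]
          exact ENNReal.ofReal_le_ofReal (min_le_left _ _)
      _ = ENNReal.ofReal k := by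
          simp
  have hB : ∑' i : ℕ, ENNReal.ofReal (min 1 (Q * (2 : ℝ) ^ (-(a * ((i + k : ℕ) : ℝ))))) ≤
      ENNReal.ofReal ((1 - (2 : ℝ) ^ (-a))⁻¹) := by
    calc ∑' i : ℕ, ENNReal.ofReal (min 1 (Q * (2 : ℝ) ^ (-(a * ((i + k : ℕ) : ℝ)))))
        ≤ ∑' i : ℕ, ENNReal.ofReal (((2 : ℝ) ^ (-a)) ^ i) := by
          apply ENNReal.tsum_le_tsum
          intro i
          apply ENNReal.ofReal_le_ofReal
          refine le_trans (min_le_right _ _) ?_
          have h1 : Q * (2 : ℝ) ^ (-(a * ((i + k : ℕ) : ℝ))) =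
              (Q * (2 : ℝ) ^ (-(a * k))) * ((2 : ℝ) ^ (-a)) ^ i := by
            rw [← Real.rpow_natCast ((2 : ℝ) ^ (-a)), ← Real.rpow_mul (by norm_num), mul_assoc,
              ← Real.rpow_add (by norm_num)]
            congr 2
            push_cast
            ring
          rw [h1]
          calc _ ≤ 1 * ((2 : ℝ) ^ (-a)) ^ i :=
                mul_le_mul_of_nonneg_right hQk (by positivity)
            _ = _ := one_mul _
      _ = ENNReal.ofReal ((1 - (2 : ℝ) ^ (-a))⁻¹) := by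
          rw [← ENNReal.ofReal_tsum_of_nonneg (fun k => by positivity)
            (summable_geometric_of_lt_one hq0.le hq1), tsum_geometric_of_lt_one hq0.le hq1]
  refine le_trans (add_le_add hA hB) ?_
  rw [← ENNReal.ofReal_add (by positivity) hS.le]
  apply ENNReal.ofReal_le_ofReal
  have e1 : (1 / (a * Real.log 2) + 1 + (1 - (2 : ℝ) ^ (-a))⁻¹) * (1 + Real.log Q) =
      (Real.log Q / (a * Real.log 2) + 1 + (1 - (2 : ℝ) ^ (-a))⁻¹) + 1 / (a * Real.log 2) +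
      (1 + (1 - (2 : ℝ) ^ (-a))⁻¹) * Real.log Q := by
    field_simp
    ring
  rw [e1]
  have e2 : 0 ≤ 1 / (a * Real.log 2) := by positivity
  have e3 : 0 ≤ (1 + (1 - (2 : ℝ) ^ (-a))⁻¹) * Real.log Q := by positivity
  linarith

/-- weighted Cauchy-Schwarz for sums -/
lemma cs_sum (b t : ℕ → ℝ≥0∞) (hb0 : ∀ i, b i ≠ 0) (hb1 : ∀ i, b i ≠ ⊤) :
    (∑' i, t i) ^ 2 ≤ (∑' i, b i) * ∑' i, t i ^ 2 * (b i)⁻¹ := by
  have h := ENNReal.lintegral_mul_le_Lp_mul_Lq (μ := (Measure.count : Measure ℕ))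
    (p := 2) (q := 2) (by constructor <;> norm_num)
    (f := fun i => b i ^ (1 / 2 : ℝ)) (g := fun i => t i * (b i) ^ (-(1 / 2) : ℝ))
    (measurable_from_nat).aemeasurable (measurable_from_nat).aemeasurable
  simp only [Pi.mul_apply, lintegral_count] at h
  have e1 : ∀ i, b i ^ (1 / 2 : ℝ) * (t i * (b i) ^ (-(1 / 2) : ℝ)) = t i := by
    intro i
    rw [mul_left_comm, ← ENNReal.rpow_add _ _ (hb0 i) (hb1 i)]
    simp
  have e2 : ∀ i, (b i ^ (1 / 2 : ℝ)) ^ (2 : ℝ) = b i := by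
    intro i
    rw [← ENNReal.rpow_mul]
    simp
  have e3 : ∀ i, (t i * (b i) ^ (-(1 / 2) : ℝ)) ^ (2 : ℝ) = t i ^ 2 * (b i)⁻¹ := by
    intro i
    rw [ENNReal.mul_rpow_of_nonneg _ _ (by norm_num), ← ENNReal.rpow_mul]
    norm_num
    rw [ENNReal.rpow_neg_one]
  simp only [e1, e2, e3] at h
  calc (∑' i, t i) ^ 2 ≤ ((∑' i, b i) ^ (1 / (2 : ℝ)) * (∑' i, t i ^ 2 * (b i)⁻¹) ^ (1 / (2 : ℝ))) ^ 2 := by
        gcongr
    _ = _ := by
        rw [mul_pow, ← ENNReal.rpow_natCast, ← ENNReal.rpow_natCast, ← ENNReal.rpow_mul,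
          ← ENNReal.rpow_mul]
        norm_num

lemma PP_pos (i : ℕ) : 0 < PP i := by unfold PP; positivity

lemma PP_one (i : ℕ) : (1 : ℝ) ≤ PP i := by exact_mod_cast (PP_pos i)

/-- the two regimes of scales -/
lemma w_bound (hF2c : tF2c) (hG : tGainL1) (n : ℕ) (s : ℝ) (hs : 0 < s) :
    ∃ C : ℝ≥0, ∀ (f : E n → ℂ) (i : ℕ) (m : ℤ) (l : ℝ), 0 < l → Measurable f → Integrable f →
      W i (2 ^ m) f ≤
        (if (2 : ℝ) ^ m ≤ l then ENNReal.ofReal (((2 : ℝ) ^ m) ^ (n : ℝ)) else 0) *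
          (C * (PP i : ℝ≥0∞)⁻¹ * (∫⁻ x, ‖f x‖ₑ) ^ 2) +
        (if l < (2 : ℝ) ^ m then ENNReal.ofReal (((2 : ℝ) ^ m) ^ (-(2 * s))) else 0) *
          (C * ENNReal.ofReal ((2 : ℝ) ^ (2 * s)) *
            ∫⁻ ξ, ENNReal.ofReal (‖ξ‖ ^ (2 * s)) * ‖𝓕 f ξ‖ₑ ^ 2) := by
  obtain ⟨C1, hC1⟩ := hG n
  obtain ⟨C2, hC2⟩ := hF2c
  refine ⟨max C1 C2, fun f i m l hl hfm hfi => ?_⟩
  have hc : (0 : ℝ) < 2 ^ m := by positivity
  have m1 : (C1 : ℝ≥0∞) ≤ ((max C1 C2 : ℝ≥0) : ℝ≥0∞) := by exact_mod_cast le_max_left _ _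
  have m2 : (C2 : ℝ≥0∞) ≤ ((max C1 C2 : ℝ≥0) : ℝ≥0∞) := by exact_mod_cast le_max_right _ _
  by_cases h : (2 : ℝ) ^ m ≤ l
  · rw [if_pos h, if_neg (not_lt.2 h), zero_mul, add_zero]
    refine le_trans (hC1 i _ f hc hfm hfi) ?_
    rw [Real.rpow_natCast]
    calc (C1 : ℝ≥0∞) * (PP i : ℝ≥0∞)⁻¹ * ENNReal.ofReal ((2 ^ m) ^ n) * (∫⁻ x, ‖f x‖ₑ) ^ 2
        = ENNReal.ofReal ((2 ^ m) ^ n) * (C1 * (PP i : ℝ≥0∞)⁻¹ * (∫⁻ x, ‖f x‖ₑ) ^ 2) := by ring
      _ ≤ _ := by gcongr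
  · rw [if_neg h, if_pos (not_le.1 h), zero_mul, zero_add]
    refine le_trans (hC2 n i _ f hc hfi) ?_
    have key : ∫⁻ ξ in {ξ : E n | (2 : ℝ) ^ m / 2 ≤ ‖ξ‖ ∧ ‖ξ‖ ≤ 2 * (2 : ℝ) ^ m}, ‖𝓕 f ξ‖ₑ ^ 2 ≤
        ENNReal.ofReal (((2 : ℝ) ^ m) ^ (-(2 * s))) * (ENNReal.ofReal ((2 : ℝ) ^ (2 * s)) *
          ∫⁻ ξ, ENNReal.ofReal (‖ξ‖ ^ (2 * s)) * ‖𝓕 f ξ‖ₑ ^ 2) := by
      rw [← mul_assoc, ← ENNReal.ofReal_mul (by positivity),
        ← lintegral_const_mul' _ _ ENNReal.ofReal_ne_top]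
      refine le_trans ?_ (setLIntegral_le_lintegral
        {ξ : E n | (2 : ℝ) ^ m / 2 ≤ ‖ξ‖ ∧ ‖ξ‖ ≤ 2 * (2 : ℝ) ^ m} _)
      refine setLIntegral_mono' ?_ ?_
      · exact (measurableSet_le measurable_const measurable_norm).inter
          (measurableSet_le measurable_norm measurable_const)
      · intro ξ hξ
        rw [← mul_assoc, ← ENNReal.ofReal_mul (by positivity)]
        have h1 : 1 ≤ ((2 : ℝ) ^ m) ^ (-(2 * s)) * (2 : ℝ) ^ (2 * s) * ‖ξ‖ ^ (2 * s) := by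
          have e1 : ((2 : ℝ) ^ m) ^ (-(2 * s)) * (2 : ℝ) ^ (2 * s) * ‖ξ‖ ^ (2 * s) =
              (2 * ‖ξ‖ / 2 ^ m) ^ (2 * s) := by
            rw [Real.div_rpow (by positivity) (by positivity),
              Real.mul_rpow (by norm_num) (norm_nonneg _), Real.rpow_neg (by positivity)]
            ring
          rw [e1]
          apply Real.one_le_rpow _ (by positivity)
          rw [one_le_div hc]
          have := hξ.1
          linarith
        calc ‖𝓕 f ξ‖ₑ ^ 2 = 1 * ‖𝓕 f ξ‖ₑ ^ 2 := (one_mul _).symm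
          _ ≤ _ := by
            gcongr
            rw [← ENNReal.ofReal_one]
            exact ENNReal.ofReal_le_ofReal h1
    calc (C2 : ℝ≥0∞) * ∫⁻ ξ in {ξ : E n | (2 : ℝ) ^ m / 2 ≤ ‖ξ‖ ∧ ‖ξ‖ ≤ 2 * (2 : ℝ) ^ m},
          ‖𝓕 f ξ‖ₑ ^ 2
        ≤ ((max C1 C2 : ℝ≥0) : ℝ≥0∞) * (ENNReal.ofReal (((2 : ℝ) ^ m) ^ (-(2 * s))) *
          (ENNReal.ofReal ((2 : ℝ) ^ (2 * s)) *
          ∫⁻ ξ, ENNReal.ofReal (‖ξ‖ ^ (2 * s)) * ‖𝓕 f ξ‖ₑ ^ 2)) := by gcongr
      _ = _ := by ring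

/-- one annulus operator -/
lemma tstar_bound (hTW : tTstarW) (hF2c : tF2c) (hG : tGainL1) (hTriv : tTriv) (n : ℕ) (s : ℝ)
    (hn : 1 ≤ n) (hs : 0 < s) :
    ∃ C : ℝ, 0 < C ∧ ∀ (f : E n → ℂ) (Q : ℝ) (i : ℕ), Measurable f → Integrable f →
      MemLp f 2 → 1 ≤ Q →
      (∫⁻ x, ‖f x‖ₑ) ^ (2 * s / n) *
        (∫⁻ ξ, ENNReal.ofReal (‖ξ‖ ^ (2 * s)) * ‖𝓕 f ξ‖ₑ ^ 2) ^ (1 / 2 : ℝ)
        ≤ ENNReal.ofReal Q * ((∫⁻ x, ‖f x‖ₑ ^ 2) ^ (1 / 2 : ℝ)) ^ (1 + 2 * s / n) →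
      ∫⁻ x, Tstar i f x ^ 2 ≤ ENNReal.ofReal (C * ((PP i : ℝ) ^ (-(1 / 4) : ℝ) +
        min 1 (Q * (PP i : ℝ) ^ (-(s / (2 * n)) : ℝ))) ^ 2) * ∫⁻ x, ‖f x‖ₑ ^ 2 := by
  obtain ⟨C1, hC1⟩ := w_bound hF2c hG n s hs
  obtain ⟨C3, hC3⟩ := hTriv
  have hn0 : (0 : ℝ) < n := by exact_mod_cast hn
  have hr1 : (2 : ℝ) ^ (-(n : ℝ)) < 1 := Real.rpow_lt_one_of_one_lt_of_neg (by norm_num)
    (by linarith)
  have hr2 : (2 : ℝ) ^ (-(2 * s)) < 1 := Real.rpow_lt_one_of_one_lt_of_neg (by norm_num)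
    (by linarith)
  set S1 : ℝ := (1 - (2 : ℝ) ^ (-(n : ℝ)))⁻¹ with hS1
  set S2 : ℝ := (1 - (2 : ℝ) ^ (-(2 * s)))⁻¹ with hS2
  have hS1p : 0 < S1 := inv_pos.2 (by linarith)
  have hS2p : 0 < S2 := inv_pos.2 (by linarith)
  refine ⟨1 + C3 + C1 * S1 + C1 * S2 * (2 : ℝ) ^ (2 * s), by positivity,
    fun f Q i hfm hfi hf2 hQ hyp => ?_⟩
  set P : ℝ := (PP i : ℝ) with hPdef
  have hP1 : 1 ≤ P := PP_one i
  have hP0 : 0 < P := by linarith
  set N1 := ∫⁻ x, ‖f x‖ₑ with hN1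
  set N2 := ∫⁻ x, ‖f x‖ₑ ^ 2 with hN2
  set H := ∫⁻ ξ, ENNReal.ofReal (‖ξ‖ ^ (2 * s)) * ‖𝓕 f ξ‖ₑ ^ 2 with hH
  have hN1t : N1 ≠ ⊤ := hfi.2.ne
  have hN2t : N2 ≠ ⊤ := by
    have := hf2.eLpNorm_lt_top
    rw [eLpNorm_lt_top_iff_lintegral_rpow_enorm_lt_top (by norm_num) (by norm_num)] at this
    simpa using this.ne
  have hTW' := hTW n i f hfi
  have htriv := hC3 n i f hfi hf2
  have hb1 : 0 < P ^ (-(1 / 4) : ℝ) := by positivity
  have hb2 : 0 < Q * P ^ (-(s / (2 * n)) : ℝ) := by positivity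
  by_cases hcase : N2 = 0
  · refine le_trans hTW' (le_trans htriv ?_)
    rw [← hN2, hcase]
    simp
  have hN1z : N1 ≠ 0 := by
    intro h0
    apply hcase
    rw [hN1, lintegral_eq_zero_iff hfm.enorm] at h0
    rw [hN2, lintegral_eq_zero_iff (hfm.enorm.pow_const 2)]
    filter_upwards [h0] with x hx
    simp only [Pi.zero_apply] at hx ⊢
    rw [hx]
    simp
  by_cases hbig : 1 ≤ Q * P ^ (-(s / (2 * n)) : ℝ)
  · refine le_trans hTW' (le_trans htriv ?_)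
    have h1 : (C3 : ℝ) ≤ (1 + C3 + C1 * S1 + C1 * S2 * (2 : ℝ) ^ (2 * s)) *
        (P ^ (-(1 / 4) : ℝ) + min 1 (Q * P ^ (-(s / (2 * n)) : ℝ))) ^ 2 := by
      rw [min_eq_left hbig]
      have h2 : 1 ≤ (P ^ (-(1 / 4) : ℝ) + 1) ^ 2 := by nlinarith
      have h3 : (C3 : ℝ) ≤ 1 + C3 + C1 * S1 + C1 * S2 * (2 : ℝ) ^ (2 * s) := by
        have : 0 ≤ (C1 : ℝ) * S1 := by positivity
        have : 0 ≤ (C1 : ℝ) * S2 * (2 : ℝ) ^ (2 * s) := by positivity
        linarith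
      calc (C3 : ℝ) ≤ 1 + C3 + C1 * S1 + C1 * S2 * (2 : ℝ) ^ (2 * s) := h3
        _ = (1 + C3 + C1 * S1 + C1 * S2 * (2 : ℝ) ^ (2 * s)) * 1 := (mul_one _).symm
        _ ≤ _ := by gcongr
    rw [← hN2]
    gcongr
    calc (C3 : ℝ≥0∞) = ENNReal.ofReal (C3 : ℝ) := (ENNReal.ofReal_coe_nnreal).symm
      _ ≤ _ := ENNReal.ofReal_le_ofReal h1
  rw [not_le] at hbig
  rw [min_eq_right hbig.le]
  set a := N1.toReal with ha
  set b := N2.toReal with hb
  have ha0 : 0 < a := ENNReal.toReal_pos hN1z hN1t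
  have hb0 : 0 < b := ENNReal.toReal_pos hcase hN2t
  have ea : N1 = ENNReal.ofReal a := (ENNReal.ofReal_toReal hN1t).symm
  have eb : N2 = ENNReal.ofReal b := (ENNReal.ofReal_toReal hN2t).symm
  -- bound for H
  have hHb : H ≤ ENNReal.ofReal (Q ^ 2 * b ^ (1 + 2 * s / n) * a ^ (-(4 * s / n))) := by
    have hp : 0 < a ^ (2 * s / n) := by positivity
    rw [ea, eb, ENNReal.ofReal_rpow_of_pos ha0, ENNReal.ofReal_rpow_of_pos hb0,
      ENNReal.ofReal_rpow_of_pos (by positivity), ← ENNReal.ofReal_mul (by linarith)] at hyp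
    have h1 : H ^ (1 / 2 : ℝ) ≤ ENNReal.ofReal (Q * (b ^ (1 / 2 : ℝ)) ^ (1 + 2 * s / n) *
        (a ^ (2 * s / n))⁻¹) := by
      calc H ^ (1 / 2 : ℝ) = ENNReal.ofReal (a ^ (2 * s / n))⁻¹ *
            (ENNReal.ofReal (a ^ (2 * s / n)) * H ^ (1 / 2 : ℝ)) := by
            rw [← mul_assoc, ← ENNReal.ofReal_mul (by positivity), inv_mul_cancel₀ hp.ne']
            simp
        _ ≤ ENNReal.ofReal (a ^ (2 * s / n))⁻¹ *
            ENNReal.ofReal (Q * (b ^ (1 / 2 : ℝ)) ^ (1 + 2 * s / n)) := by gcongr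
        _ = _ := by
            rw [← ENNReal.ofReal_mul (by positivity)]
            congr 1
            ring
    calc H = (H ^ (1 / 2 : ℝ)) ^ 2 := by
          rw [← ENNReal.rpow_natCast, ← ENNReal.rpow_mul]
          norm_num
      _ ≤ (ENNReal.ofReal (Q * (b ^ (1 / 2 : ℝ)) ^ (1 + 2 * s / n) *
        (a ^ (2 * s / n))⁻¹)) ^ 2 := by gcongr
      _ = _ := by
          rw [← ENNReal.ofReal_pow (by positivity)]
          congr 1
          rw [mul_pow, mul_pow, inv_pow]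
          congr 1
          · congr 1
            rw [← Real.rpow_natCast, ← Real.rpow_mul (by positivity), ← Real.rpow_mul hb0.le]
            congr 1
            push_cast
            ring
          · rw [← Real.rpow_natCast, ← Real.rpow_mul ha0.le, ← Real.rpow_neg ha0.le]
            congr 1
            push_cast
            ring
  -- the scale
  set l : ℝ := (P ^ (1 / 2 : ℝ) * b / a ^ 2) ^ (1 / (n : ℝ)) with hl
  have hl0 : 0 < l := by positivity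
  have hln : l ^ (n : ℝ) = P ^ (1 / 2 : ℝ) * b / a ^ 2 := by
    rw [hl, ← Real.rpow_mul (by positivity)]
    rw [one_div_mul_cancel hn0.ne', Real.rpow_one]
  have hls : l ^ (-(2 * s)) = P ^ (-(s / n)) * b ^ (-(2 * s / n)) * a ^ (4 * s / n) := by
    rw [hl, ← Real.rpow_mul (by positivity), Real.div_rpow (by positivity) (by positivity),
      Real.mul_rpow (by positivity) hb0.le, ← Real.rpow_mul hP0.le, ← Real.rpow_natCast a 2,
      ← Real.rpow_mul ha0.le, div_eq_mul_inv, ← Real.rpow_neg ha0.le]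
    congr 1
    · congr 1
      · congr 1
        field_simp
      · congr 1
        field_simp
    · congr 1
      field_simp
      push_cast
      ring
  refine le_trans hTW' ?_
  calc ∑' m : ℤ, W i (2 ^ m) f
      ≤ ∑' m : ℤ, ((if (2 : ℝ) ^ m ≤ l then ENNReal.ofReal (((2 : ℝ) ^ m) ^ (n : ℝ)) else 0) *
          (C1 * (PP i : ℝ≥0∞)⁻¹ * N1 ^ 2) +
        (if l < (2 : ℝ) ^ m then ENNReal.ofReal (((2 : ℝ) ^ m) ^ (-(2 * s))) else 0) *
          (C1 * ENNReal.ofReal ((2 : ℝ) ^ (2 * s)) * H)) :=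
        ENNReal.tsum_le_tsum fun m => hC1 f i m l hl0 hfm hfi
    _ = (∑' m : ℤ, (if (2 : ℝ) ^ m ≤ l then ENNReal.ofReal (((2 : ℝ) ^ m) ^ (n : ℝ)) else 0)) *
          (C1 * (PP i : ℝ≥0∞)⁻¹ * N1 ^ 2) +
        (∑' m : ℤ, (if l < (2 : ℝ) ^ m then ENNReal.ofReal (((2 : ℝ) ^ m) ^ (-(2 * s))) else 0)) *
          (C1 * ENNReal.ofReal ((2 : ℝ) ^ (2 * s)) * H) := by
        rw [ENNReal.tsum_add, ENNReal.tsum_mul_right, ENNReal.tsum_mul_right]
    _ ≤ ENNReal.ofReal (l ^ (n : ℝ) * S1) * (C1 * (PP i : ℝ≥0∞)⁻¹ * N1 ^ 2) +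
        ENNReal.ofReal (l ^ (-(2 * s)) * S2) * (C1 * ENNReal.ofReal ((2 : ℝ) ^ (2 * s)) *
          ENNReal.ofReal (Q ^ 2 * b ^ (1 + 2 * s / n) * a ^ (-(4 * s / n)))) := by
        gcongr
        · exact geo_le _ _ hn0 hl0
        · exact geo_gt _ _ (by positivity) hl0
    _ = ENNReal.ofReal (C1 * S1 * P ^ (-(1 / 2) : ℝ) * b +
          C1 * S2 * (2 : ℝ) ^ (2 * s) * Q ^ 2 * P ^ (-(s / n)) * b) := by
        have eP : ((PP i : ℝ≥0∞))⁻¹ = ENNReal.ofReal P⁻¹ := by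
          rw [ENNReal.ofReal_inv_of_pos hP0, hPdef, ENNReal.ofReal_natCast]
        rw [eP, ea, ← ENNReal.ofReal_coe_nnreal, ← ENNReal.ofReal_pow ha0.le,
          ← ENNReal.ofReal_mul (by positivity), ← ENNReal.ofReal_mul (by positivity),
          ← ENNReal.ofReal_mul (by positivity), ← ENNReal.ofReal_mul (by positivity),
          ← ENNReal.ofReal_mul (by positivity), ← ENNReal.ofReal_mul (by positivity),
          ← ENNReal.ofReal_add (by positivity) (by positivity)]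
        congr 1
        rw [hln, hls]
        congr 1
        · have e1 : P ^ (-(1 / 2) : ℝ) = P ^ (1 / 2 : ℝ) * P⁻¹ := by
            rw [← Real.rpow_neg_one, ← Real.rpow_add hP0]
            norm_num
          rw [e1]
          field_simp
        · have e2 : b ^ (1 + 2 * s / n) = b * b ^ (2 * s / n) := by
            rw [Real.rpow_add hb0, Real.rpow_one]
          have e3 : b ^ (-(2 * s / n)) = (b ^ (2 * s / n))⁻¹ := Real.rpow_neg hb0.le _
          have e4 : a ^ (-(4 * s / n)) = (a ^ (4 * s / n))⁻¹ := Real.rpow_neg ha0.le _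
          have e5 : b ^ (2 * s / n) ≠ 0 := by positivity
          have e6 : a ^ (4 * s / n) ≠ 0 := by positivity
          rw [e2, e3, e4]
          generalize b ^ (2 * s / n) = X at *
          generalize a ^ (4 * s / n) = Y at *
          field_simp
    _ ≤ ENNReal.ofReal ((1 + C3 + C1 * S1 + C1 * S2 * (2 : ℝ) ^ (2 * s)) *
          (P ^ (-(1 / 4) : ℝ) + Q * P ^ (-(s / (2 * n)) : ℝ)) ^ 2 * b) := by
        apply ENNReal.ofReal_le_ofReal
        have f1 : P ^ (-(1 / 2) : ℝ) = (P ^ (-(1 / 4) : ℝ)) ^ 2 := by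
          rw [← Real.rpow_natCast, ← Real.rpow_mul hP0.le]
          norm_num
        have f2 : P ^ (-(s / n)) = (P ^ (-(s / (2 * n)) : ℝ)) ^ 2 := by
          rw [← Real.rpow_natCast, ← Real.rpow_mul hP0.le]
          congr 1
          push_cast
          field_simp
        rw [f1, f2]
        generalize P ^ (-(1 / 4) : ℝ) = X at *
        generalize P ^ (-(s / (2 * n)) : ℝ) = Y at *
        have hQ0 : 0 < Q := by linarith
        have g1 : 0 ≤ (C1 : ℝ) * S1 := by positivity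
        have g2 : 0 ≤ (C1 : ℝ) * S2 * (2 : ℝ) ^ (2 * s) := by positivity
        have g3 : 0 ≤ (C3 : ℝ) := by positivity
        have h1 : X ^ 2 ≤ (X + Q * Y) ^ 2 := by nlinarith
        have h2 : (Q * Y) ^ 2 ≤ (X + Q * Y) ^ 2 := by nlinarith
        calc C1 * S1 * X ^ 2 * b + C1 * S2 * (2 : ℝ) ^ (2 * s) * Q ^ 2 * Y ^ 2 * b
            = (C1 * S1 * X ^ 2 + C1 * S2 * (2 : ℝ) ^ (2 * s) * (Q * Y) ^ 2) * b := by ring
          _ ≤ (C1 * S1 * (X + Q * Y) ^ 2 +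
                C1 * S2 * (2 : ℝ) ^ (2 * s) * (X + Q * Y) ^ 2) * b := by gcongr
          _ = (C1 * S1 + C1 * S2 * (2 : ℝ) ^ (2 * s)) * (X + Q * Y) ^ 2 * b := by ring
          _ ≤ _ := by
            gcongr
            linarith
    _ = _ := by
        rw [eb, ← ENNReal.ofReal_mul (by positivity)]

/-- the gain of the `i`-th operator -/
noncomputable def be (Q a : ℝ) (i : ℕ) : ℝ :=
  (PP i : ℝ) ^ (-(1 / 4) : ℝ) + min 1 (Q * (PP i : ℝ) ^ (-a))

lemma be_pos (Q a : ℝ) (hQ : 1 ≤ Q) (i : ℕ) : 0 < be Q a i := by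
  have h0 : (0 : ℝ) < PP i := by exact_mod_cast PP_pos i
  have h1 : 0 < (PP i : ℝ) ^ (-(1 / 4) : ℝ) := by positivity
  have h2 : 0 ≤ min 1 (Q * (PP i : ℝ) ^ (-a)) := le_min (by norm_num) (by positivity)
  unfold be
  linarith

lemma PP_rpow_le (a : ℝ) (ha : 0 < a) (i : ℕ) :
    (PP i : ℝ) ^ (-a) ≤ (2 : ℝ) ^ a * (2 : ℝ) ^ (-(a / 4 * i)) := by
  have h1 : (i : ℝ) / 4 - 1 ≤ ((i / 4 : ℕ) : ℝ) := by
    have h2 : i ≤ 4 * (i / 4) + 3 := by omega
    have h3 : (i : ℝ) ≤ 4 * ((i / 4 : ℕ) : ℝ) + 3 := by exact_mod_cast h2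
    linarith
  unfold PP
  push_cast
  rw [← Real.rpow_natCast, ← Real.rpow_mul (by norm_num), ← Real.rpow_add (by norm_num)]
  apply Real.rpow_le_rpow_of_exponent_le (by norm_num)
  nlinarith

lemma be_sum (a : ℝ) (ha : 0 < a) : ∃ C : ℝ, 0 < C ∧ ∀ Q : ℝ, 1 ≤ Q →
    ∑' i : ℕ, ENNReal.ofReal (be Q a i) ≤ ENNReal.ofReal (C * (1 + Real.log Q)) := by
  obtain ⟨C1, hC1, h1⟩ := log_sum (a / 4) (by positivity)
  have hq0 : 0 < (2 : ℝ) ^ (-(1 / 16) : ℝ) := by positivity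
  have hq1 : (2 : ℝ) ^ (-(1 / 16) : ℝ) < 1 :=
    Real.rpow_lt_one_of_one_lt_of_neg (by norm_num) (by norm_num)
  have hS : 0 < (1 - (2 : ℝ) ^ (-(1 / 16) : ℝ))⁻¹ := inv_pos.2 (by linarith)
  have hl2 : 0 < Real.log 2 := Real.log_pos (by norm_num)
  refine ⟨(2 : ℝ) ^ (1 / 4 : ℝ) * (1 - (2 : ℝ) ^ (-(1 / 16) : ℝ))⁻¹ +
    C1 * (1 + a * Real.log 2), by positivity, fun Q hQ => ?_⟩
  have hlQ : 0 ≤ Real.log Q := Real.log_nonneg hQ
  have hQ0 : 0 < Q := by linarith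
  have hA : ∑' i : ℕ, ENNReal.ofReal ((PP i : ℝ) ^ (-(1 / 4) : ℝ)) ≤
      ENNReal.ofReal ((2 : ℝ) ^ (1 / 4 : ℝ) * (1 - (2 : ℝ) ^ (-(1 / 16) : ℝ))⁻¹) := by
    calc ∑' i : ℕ, ENNReal.ofReal ((PP i : ℝ) ^ (-(1 / 4) : ℝ))
        ≤ ∑' i : ℕ, ENNReal.ofReal ((2 : ℝ) ^ (1 / 4 : ℝ) * ((2 : ℝ) ^ (-(1 / 16) : ℝ)) ^ i) := by
          apply ENNReal.tsum_le_tsum
          intro i
          apply ENNReal.ofReal_le_ofReal
          refine le_trans (PP_rpow_le (1 / 4) (by norm_num) i) (le_of_eq ?_)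
          congr 1
          rw [← Real.rpow_natCast, ← Real.rpow_mul (by norm_num)]
          congr 1
          ring
      _ = _ := by
          rw [← ENNReal.ofReal_tsum_of_nonneg (fun k => by positivity)
            ((summable_geometric_of_lt_one hq0.le hq1).mul_left _), tsum_mul_left,
            tsum_geometric_of_lt_one hq0.le hq1]
  have hB : ∑' i : ℕ, ENNReal.ofReal (min 1 (Q * (PP i : ℝ) ^ (-a))) ≤
      ENNReal.ofReal (C1 * (1 + a * Real.log 2 + Real.log Q)) := by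
    have hQ' : 1 ≤ Q * (2 : ℝ) ^ a := by
      have : (1 : ℝ) ≤ (2 : ℝ) ^ a := Real.one_le_rpow (by norm_num) ha.le
      nlinarith
    refine le_trans (ENNReal.tsum_le_tsum fun i => ENNReal.ofReal_le_ofReal
      (min_le_min_left 1 ?_)) (le_trans (h1 _ hQ') (le_of_eq ?_))
    · rw [mul_assoc]
      exact mul_le_mul_of_nonneg_left (PP_rpow_le a ha i) hQ0.le
    · rw [Real.log_mul hQ0.ne' (by positivity), Real.log_rpow (by norm_num)]
      congr 1
      ring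
  calc ∑' i : ℕ, ENNReal.ofReal (be Q a i)
      ≤ ∑' i : ℕ, (ENNReal.ofReal ((PP i : ℝ) ^ (-(1 / 4) : ℝ)) +
          ENNReal.ofReal (min 1 (Q * (PP i : ℝ) ^ (-a)))) :=
        ENNReal.tsum_le_tsum fun i => ENNReal.ofReal_add_le
    _ = ∑' i : ℕ, ENNReal.ofReal ((PP i : ℝ) ^ (-(1 / 4) : ℝ)) +
          ∑' i : ℕ, ENNReal.ofReal (min 1 (Q * (PP i : ℝ) ^ (-a))) := ENNReal.tsum_add
    _ ≤ _ := add_le_add hA hB
    _ ≤ _ := by
        rw [← ENNReal.ofReal_add (by positivity) (by positivity)]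
        apply ENNReal.ofReal_le_ofReal
        have e1 : 0 ≤ (2 : ℝ) ^ (1 / 4 : ℝ) * (1 - (2 : ℝ) ^ (-(1 / 16) : ℝ))⁻¹ := by positivity
        have e2 : 0 ≤ C1 * (a * Real.log 2) * Real.log Q := by positivity
        nlinarith [mul_nonneg e1 hlQ]

end J14

open J14 in
theorem pE (hSplit : tSplit) (hMeas : tMeas) (hTW : tTstarW) (hF2c : tF2c) (hG : tGainL1)
    (hTriv : tTriv) (hPdom : tPdom) (hMF : tMF2) : tE := by
  intro n s hn hs
  have hn0 : (0 : ℝ) < n := by exact_mod_cast hn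
  obtain ⟨C1, hC1, hT⟩ := tstar_bound hTW hF2c hG hTriv n s hn hs
  obtain ⟨C2, hC2, hB⟩ := be_sum (s / (2 * n)) (by positivity)
  obtain ⟨C3, hP⟩ := hPdom n
  obtain ⟨C4, hM⟩ := hMF n
  refine ⟨1 + 2 * (C3 ^ 2 * C4) + 2 * (C1 * C2 ^ 2), fun f Q hfm hfi hf2 hQ hyp => ?_⟩
  have hlQ : 0 ≤ Real.log Q := Real.log_nonneg hQ
  set N2 := ∫⁻ x, ‖f x‖ₑ ^ 2 with hN2
  set b : ℕ → ℝ≥0∞ := fun i => ENNReal.ofReal (be Q (s / (2 * n)) i) with hb
  have hb0 : ∀ i, b i ≠ 0 := fun i => by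
    simp only [hb, ne_eq, ENNReal.ofReal_eq_zero, not_le]
    exact be_pos Q _ hQ i
  have hb1 : ∀ i, b i ≠ ⊤ := fun i => ENNReal.ofReal_ne_top
  have hTi : ∀ i, ∫⁻ x, Tstar i f x ^ 2 ≤ ENNReal.ofReal C1 * b i ^ 2 * N2 := by
    intro i
    refine le_trans (hT f Q i hfm hfi hf2 hQ hyp) (le_of_eq ?_)
    have e1 : b i = ENNReal.ofReal (be Q (s / (2 * n)) i) := rfl
    rw [ENNReal.ofReal_mul hC1.le, e1, ← ENNReal.ofReal_pow (be_pos Q _ hQ i).le]
    rfl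
  obtain ⟨hm1, hm2, hm3⟩ := hMeas n f hfi
  -- the sum of the annulus operators
  have hsum : ∫⁻ x, (∑' i, Tstar i f x) ^ 2 ≤
      ENNReal.ofReal C1 * (ENNReal.ofReal (C2 * (1 + Real.log Q))) ^ 2 * N2 := by
    calc ∫⁻ x, (∑' i, Tstar i f x) ^ 2
        ≤ ∫⁻ x, (∑' i, b i) * ∑' i, Tstar i f x ^ 2 * (b i)⁻¹ :=
          lintegral_mono fun x => cs_sum b _ hb0 hb1
      _ = (∑' i, b i) * ∑' i, (∫⁻ x, Tstar i f x ^ 2) * (b i)⁻¹ := by
          rw [lintegral_const_mul'' _ (AEMeasurable.tsum fun i =>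
            (((hm3 i).pow_const 2).mul_const _).aemeasurable),
            lintegral_tsum fun i => (((hm3 i).pow_const 2).mul_const _).aemeasurable]
          congr 1
          apply tsum_congr
          intro i
          rw [lintegral_mul_const _ ((hm3 i).pow_const 2)]
      _ ≤ (∑' i, b i) * ∑' i, ENNReal.ofReal C1 * N2 * b i := by
          refine mul_le_mul_right (ENNReal.tsum_le_tsum fun i => ?_) _
          calc (∫⁻ x, Tstar i f x ^ 2) * (b i)⁻¹ ≤ (ENNReal.ofReal C1 * b i ^ 2 * N2) * (b i)⁻¹ := by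
                gcongr
                exact hTi i
            _ = ENNReal.ofReal C1 * N2 * b i * (b i * (b i)⁻¹) := by ring
            _ = _ := by rw [ENNReal.mul_inv_cancel (hb0 i) (hb1 i), mul_one]
      _ = ENNReal.ofReal C1 * (∑' i, b i) ^ 2 * N2 := by
          rw [ENNReal.tsum_mul_left]
          ring
      _ ≤ _ := by
          gcongr
          exact hB Q hQ
  have hPs : ∫⁻ x, Pstar f x ^ 2 ≤ ENNReal.ofReal (C3 ^ 2 * C4) * N2 := by
    calc ∫⁻ x, Pstar f x ^ 2 ≤ ∫⁻ x, (C3 * MF (fun y => ‖f y‖ₑ) x) ^ 2 := by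
          gcongr with x
          exact hP f hfi x
      _ = (C3 : ℝ≥0∞) ^ 2 * ∫⁻ x, MF (fun y => ‖f y‖ₑ) x ^ 2 := by
          rw [← lintegral_const_mul' _ _ (by simp)]
          congr 1
          ext x
          rw [mul_pow]
      _ ≤ (C3 : ℝ≥0∞) ^ 2 * (C4 * N2) := by
          gcongr
          exact hM _ hfm.enorm
      _ = _ := by
          rw [ENNReal.ofReal_mul (by positivity), ENNReal.ofReal_pow (by positivity),
            ENNReal.ofReal_coe_nnreal, ENNReal.ofReal_coe_nnreal]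
          ring
  have htot : ∫⁻ x, Sstar f x ^ 2 ≤
      (ENNReal.ofReal ((1 + 2 * (C3 ^ 2 * C4) + 2 * (C1 * C2 ^ 2)) * (1 + Real.log Q))) ^ 2 * N2 := by
    calc ∫⁻ x, Sstar f x ^ 2 ≤ ∫⁻ x, (2 * Pstar f x ^ 2 + 2 * (∑' i, Tstar i f x) ^ 2) := by
          gcongr with x
          calc Sstar f x ^ 2 ≤ (Pstar f x + ∑' i, Tstar i f x) ^ 2 := by
                gcongr
                exact hSplit n f hfi x
            _ ≤ 2 * Pstar f x ^ 2 + 2 * (∑' i, Tstar i f x) ^ 2 := by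
                have := ENNReal.rpow_add_le_mul_rpow_add_rpow (Pstar f x) (∑' i, Tstar i f x)
                  (p := 2) (by norm_num)
                have e2 : ∀ y : ℝ≥0∞, y ^ (2 : ℝ) = y ^ 2 := fun y => by
                  rw [← ENNReal.rpow_natCast]; norm_num
                rw [e2, e2, e2] at this
                refine le_trans this (le_of_eq ?_)
                norm_num
                ring
      _ = 2 * (∫⁻ x, Pstar f x ^ 2) + 2 * ∫⁻ x, (∑' i, Tstar i f x) ^ 2 := by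
          rw [lintegral_add_left ((hm2.pow_const 2).const_mul _),
            lintegral_const_mul' _ _ (by simp), lintegral_const_mul' _ _ (by simp)]
      _ ≤ 2 * (ENNReal.ofReal (C3 ^ 2 * C4) * N2) +
          2 * (ENNReal.ofReal C1 * (ENNReal.ofReal (C2 * (1 + Real.log Q))) ^ 2 * N2) := by
          gcongr
      _ = ENNReal.ofReal (2 * (C3 ^ 2 * C4) + 2 * (C1 * (C2 * (1 + Real.log Q)) ^ 2)) * N2 := by
          have e2 : (2 : ℝ≥0∞) = ENNReal.ofReal 2 := by simp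
          rw [ENNReal.ofReal_add (by positivity) (by positivity),
            ENNReal.ofReal_mul (p := 2) (q := (C3 : ℝ) ^ 2 * C4) (by norm_num),
            ENNReal.ofReal_mul (p := 2) (q := C1 * (C2 * (1 + Real.log Q)) ^ 2) (by norm_num),
            ENNReal.ofReal_mul (p := C1) hC1.le,
            ENNReal.ofReal_pow (p := C2 * (1 + Real.log Q)) (by positivity), ← e2]
          ring
      _ ≤ _ := by
          gcongr
          rw [← ENNReal.ofReal_pow (by positivity)]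
          apply ENNReal.ofReal_le_ofReal
          set X := 1 + Real.log Q with hX
          have hX1 : 1 ≤ X := by linarith
          set u : ℝ := 2 * ((C3 : ℝ) ^ 2 * C4) with hu
          set v : ℝ := 2 * (C1 * C2 ^ 2) with hv
          have hu0 : 0 ≤ u := by positivity
          have hv0 : 0 ≤ v := by positivity
          have e1 : u + 2 * (C1 * (C2 * X) ^ 2) = u + v * X ^ 2 := by rw [hv]; ring
          rw [e1]
          have hX2 : 1 ≤ X ^ 2 := by nlinarith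
          calc u + v * X ^ 2 ≤ u * X ^ 2 + v * X ^ 2 := by nlinarith
            _ = (u + v) * X ^ 2 := by ring
            _ ≤ (1 + u + v) ^ 2 * X ^ 2 := by
                gcongr
                nlinarith
            _ = _ := by ring
  calc (∫⁻ x, Sstar f x ^ 2) ^ (1 / 2 : ℝ)
      ≤ ((ENNReal.ofReal ((1 + 2 * (C3 ^ 2 * C4) + 2 * (C1 * C2 ^ 2)) * (1 + Real.log Q))) ^ 2 *
          N2) ^ (1 / 2 : ℝ) := by gcongr
    _ = _ := by
        rw [ENNReal.mul_rpow_of_nonneg _ _ (by norm_num), ← ENNReal.rpow_natCast,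
          ← ENNReal.rpow_mul]
        norm_num

end Pool.Agent.MBS
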