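import Pool.Agent.MBS.J7c

set_option autoImplicit false

/-! Job J7: the gain `1/P`. -/

namespace Pool.Agent.MBS

open MeasureTheory FourierTransform Set
open scoped ENNReal NNReal

namespace G7

variable {n : ℕ}

theorem sumJ {ι : Type*} (s : Finset ι) (c : ℂ) (a b d : ι → ℂ) :
    ∑ j ∈ s, (-a j + c * b j + d j) = -(∑ j ∈ s, a j) + ∑ j ∈ s, c * b j + ∑ j ∈ s, d j := by
  rw [Finset.sum_add_distrib, Finset.sum_add_distrib, Finset.sum_neg_distrib]

/-- the master estimate -/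
theorem core (hpl : tPlanch) (hode : tOdeT) (hps : tPs) (hfam : tMulFam) (hmj : tMulj)
    (hms : tMeasR) (n : ℕ) : ∃ C : ℝ≥0, ∀ (i : ℕ) (s : Finset (Fin n)) (h : E n → ℂ)
      (h1 h2 : Fin n → E n → ℂ) (V : ℝ≥0∞), Continuous h → (∀ j ∈ s, Continuous (h1 j)) →
      (∀ j ∈ s, Continuous (h2 j)) →
      (∀ j ∈ s, ∀ (a a1 a2 : E n → ℝ),
        Continuous a → Continuous a1 → Continuous a2 → HasCompactSupport a →
        HasCompactSupport a1 → HasCompactSupport a2 →
        (∀ ξ, HasDerivAt (fun t : ℝ => a (ξ + t • e j)) (a1 ξ) 0) →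
        (∀ ξ, HasDerivAt (fun t : ℝ => a1 (ξ + t • e j)) (a2 ξ) 0) →
        ∀ x : E n, ((2 * Real.pi * x j : ℝ) : ℂ) ^ 2 * T a h x =
          - T a2 h x + 4 * Real.pi * Complex.I * T a1 (h1 j) x +
            4 * Real.pi ^ 2 * T a (h2 j) x) →
      ∫⁻ ξ in Metric.closedBall (0 : E n) 2, ‖h ξ‖ₑ ^ 2 ≤ V →
      (∀ j ∈ s, ∫⁻ ξ in Metric.closedBall (0 : E n) 2, ‖h1 j ξ‖ₑ ^ 2 ≤
        ENNReal.ofReal (4 * (PP i : ℝ) ^ 4) * V) →
      (∀ j ∈ s, ∫⁻ ξ in Metric.closedBall (0 : E n) 2, ‖h2 j ξ‖ₑ ^ 2 ≤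
        ENNReal.ofReal (16 * (PP i : ℝ) ^ 8) * V) →
      ∫⁻ x, (⨆ R ∈ Icc (1 : ℝ) 2, ‖T (fun ξ => mul i R ξ * XX (PP i : ℝ) s ξ) h x‖ₑ) ^ 2 ≤
        C * (PP i : ℝ≥0∞)⁻¹ * V := by
  obtain ⟨C0, hC0⟩ := hode
  obtain ⟨-, hz, -, -, -, B, hB1, hB⟩ := hps
  have hBpos : 0 < B := by linarith
  set c0 : ℝ := 4 * B ^ 2 with hc0
  set c1 : ℝ := 3 * (B * (40 + 20 * n)) ^ 2 with hc1
  set c2 : ℝ := 3 * n * (n * ((4 * Real.pi) ^ 2 * ((4 * B) ^ 2 * 4))) with hc2
  set c3 : ℝ := 3 * n * (n * ((4 * Real.pi ^ 2) ^ 2 * (B ^ 2 * 16))) with hc3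
  have hc0' : 0 ≤ c0 := by positivity
  have hc1' : 0 ≤ c1 := by positivity
  have hc2' : 0 ≤ c2 := by positivity
  have hc3' : 0 ≤ c3 := by positivity
  refine ⟨C0 * Real.toNNReal (c0 + 4 * (c1 + c2 + c3)), ?_⟩
  intro i s h h1 h2 V hh hh1 hh2 hX hV hV1 hV2
  obtain ⟨hP1, hPN, hKP⟩ := PP_real i
  set P : ℝ := (PP i : ℝ) with hPdef
  set N : ℝ := 2 ^ i with hNdef
  set K : ℕ := 2 ^ (i - i / 4) with hKdef
  have hP0 : 0 < P := by linarith
  have hN0 : 0 < N := by positivity
  obtain ⟨f0, f1, f2, d1, d2, -, fj⟩ := hfam n i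
  have hXc := XX_cont (n := n) P s
  -- the families
  have F0 := fam_mulX f0 hXc
  have F1 := fam_mulX f1 hXc
  have F2 := fam_mulX f2 hXc
  have D1 : DerR (fun R ξ => mul i R ξ * XX P s ξ) (fun R ξ => mR i R ξ * XX P s ξ) :=
    fun R hR ξ => (d1 R hR ξ).mul_const _
  have D2 : DerR (fun R ξ => mR i R ξ * XX P s ξ) (fun R ξ => mRR i R ξ * XX P s ξ) :=
    fun R hR ξ => (d2 R hR ξ).mul_const _
  set q : E n → ℝ := fun x => ∑ j ∈ s, (2 * Real.pi * x j) ^ 2 with hq
  have hqc : Continuous q := by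
    rw [hq]
    refine continuous_finsetSum _ fun j _ => ?_
    fun_prop
  have hq0 : ∀ x, 0 ≤ q x := fun x => Finset.sum_nonneg fun j _ => by positivity
  have main := hC0 n _ _ _ h q K (Nat.one_le_two_pow) F0 F1 F2 hh D1 D2 hqc hq0
  -- slab support
  have hsl : ∀ (R : ℝ) (ξ : E n), (mul i R ξ ≠ 0 ∨ mR i R ξ ≠ 0 ∨ mRR i R ξ ≠ 0 ∨
      (∃ j, mj i j R ξ ≠ 0) ∨ ∃ j, mjj i j R ξ ≠ 0) → 1 / 8 ≤ vv i R ξ ∧ vv i R ξ ≤ 1 / 2 := by
    intro R ξ hne
    by_contra hc
    have hv : vv i R ξ < 1 / 8 ∨ 1 / 2 < vv i R ξ := by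
      by_cases h8 : vv i R ξ < 1 / 8
      · exact Or.inl h8
      · push Not at h8
        right
        by_contra h9
        push Not at h9
        exact hc ⟨h8, h9⟩
    obtain ⟨z0, z1, z2⟩ := hz _ hv
    have z0' : mul i R ξ = 0 := z0
    rcases hne with a | a | a | ⟨j, a⟩ | ⟨j, a⟩
    · exact a z0'
    · exact a (by simp [mR, z1])
    · exact a (by simp [mRR, z1, z2])
    · exact a (by simp [mj, z1])
    · exact a (by simp [mjj, z1, z2])
  -- first term
  have t1 : ∫⁻ R in Icc (1 : ℝ) 2, ∫⁻ x, ‖T (fun ξ => mul i R ξ * XX P s ξ) h x‖ₑ ^ 2 ≤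
      ENNReal.ofReal (c0 / N) * V := by
    have hw : Measurable (fun ξ : E n => ENNReal.ofReal (B ^ 2) *
        (Metric.closedBall (0 : E n) 2).indicator (fun ξ => ‖h ξ‖ₑ ^ 2) ξ) := by
      refine Measurable.const_mul ?_ _
      exact (hh.measurable.enorm.pow_const 2).indicator measurableSet_closedBall
    refine (slabR hms i hw (Φ := fun R => ∫⁻ x,
      ‖T (fun ξ => mul i R ξ * XX P s ξ) h x‖ₑ ^ 2) ?_).trans ?_
    · intro R hR
      refine planchA hpl F0 i hR ?_ ?_ hh
      · intro ξ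
        rw [abs_mul, abs_of_nonneg (XX_nonneg P s ξ)]
        calc |mul i R ξ| * XX P s ξ ≤ |mul i R ξ| * 1 := by
              gcongr; exact XX_le _ _ _
          _ ≤ B := by rw [mul_one]; exact (hB _).1
      · intro ξ hne
        exact hsl R ξ (Or.inl (left_ne_zero_of_mul hne))
    · rw [lintegral_const_mul' _ _ ENNReal.ofReal_ne_top,
        lintegral_indicator measurableSet_closedBall]
      calc ENNReal.ofReal (4 / 2 ^ i) * (ENNReal.ofReal (B ^ 2) *
            ∫⁻ a in Metric.closedBall (0 : E n) 2, ‖h a‖ₑ ^ 2)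
          ≤ ENNReal.ofReal (4 / 2 ^ i) * (ENNReal.ofReal (B ^ 2) * V) := by gcongr
        _ = ENNReal.ofReal (c0 / N) * V := by
            rw [← mul_assoc, ← ENNReal.ofReal_mul (by positivity)]
            congr 2
            rw [hc0, hNdef]; ring
  -- second term
  have t2 : ∫⁻ R in Icc (1 : ℝ) 2, ∫⁻ x, ‖T (fun ξ => mRR i R ξ * XX P s ξ) h x +
        (q x : ℂ) * T (fun ξ => mul i R ξ * XX P s ξ) h x‖ₑ ^ 2 ≤
      ENNReal.ofReal (4 / N * (c1 * (N ^ 4 / P ^ 4) + c2 * (N ^ 2 * P ^ 4) + c3 * P ^ 8)) * V := by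
    set M1 : ℝ := B * (40 + 20 * n) * (2 ^ i) ^ 2 / P ^ 2 with hM1
    set M2 : ℝ := 4 * B * 2 ^ i with hM2
    have mi : ∀ u : E n → ℂ, Continuous u → Measurable (fun ξ : E n =>
        (Metric.closedBall (0 : E n) 2).indicator (fun ξ => ‖u ξ‖ₑ ^ 2) ξ) := fun u hu =>
      (hu.measurable.enorm.pow_const 2).indicator measurableSet_closedBall
    set w : E n → ℝ≥0∞ := fun ξ =>
      3 * (ENNReal.ofReal (M1 ^ 2) *
        (Metric.closedBall (0 : E n) 2).indicator (fun ξ => ‖h ξ‖ₑ ^ 2) ξ) +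
      3 * n * (∑ j ∈ s, ENNReal.ofReal ((4 * Real.pi) ^ 2) * (ENNReal.ofReal (M2 ^ 2) *
        (Metric.closedBall (0 : E n) 2).indicator (fun ξ => ‖h1 j ξ‖ₑ ^ 2) ξ)) +
      3 * n * (∑ j ∈ s, ENNReal.ofReal ((4 * Real.pi ^ 2) ^ 2) * (ENNReal.ofReal (B ^ 2) *
        (Metric.closedBall (0 : E n) 2).indicator (fun ξ => ‖h2 j ξ‖ₑ ^ 2) ξ)) with hw
    have mw0 : Measurable (fun ξ => 3 * (ENNReal.ofReal (M1 ^ 2) *
        (Metric.closedBall (0 : E n) 2).indicator (fun ξ => ‖h ξ‖ₑ ^ 2) ξ)) :=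
      ((mi h hh).const_mul _).const_mul _
    have mw1 : ∀ j ∈ s, Measurable (fun ξ => ENNReal.ofReal ((4 * Real.pi) ^ 2) *
        (ENNReal.ofReal (M2 ^ 2) *
        (Metric.closedBall (0 : E n) 2).indicator (fun ξ => ‖h1 j ξ‖ₑ ^ 2) ξ)) := fun j hj =>
      ((mi _ (hh1 j hj)).const_mul _).const_mul _
    have mw2 : ∀ j ∈ s, Measurable (fun ξ => ENNReal.ofReal ((4 * Real.pi ^ 2) ^ 2) *
        (ENNReal.ofReal (B ^ 2) *
        (Metric.closedBall (0 : E n) 2).indicator (fun ξ => ‖h2 j ξ‖ₑ ^ 2) ξ)) := fun j hj =>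
      ((mi _ (hh2 j hj)).const_mul _).const_mul _
    have mw1' : Measurable (fun ξ => 3 * (n : ℝ≥0∞) * (∑ j ∈ s,
        ENNReal.ofReal ((4 * Real.pi) ^ 2) * (ENNReal.ofReal (M2 ^ 2) *
        (Metric.closedBall (0 : E n) 2).indicator (fun ξ => ‖h1 j ξ‖ₑ ^ 2) ξ))) :=
      (Finset.measurable_fun_sum _ mw1).const_mul _
    have mw2' : Measurable (fun ξ => 3 * (n : ℝ≥0∞) * (∑ j ∈ s,
        ENNReal.ofReal ((4 * Real.pi ^ 2) ^ 2) * (ENNReal.ofReal (B ^ 2) *
        (Metric.closedBall (0 : E n) 2).indicator (fun ξ => ‖h2 j ξ‖ₑ ^ 2) ξ))) :=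
      (Finset.measurable_fun_sum _ mw2).const_mul _
    have hwm : Measurable w := (mw0.add mw1').add mw2'
    have hn3 : (3 * (n : ℝ≥0∞)) ≠ ⊤ := ENNReal.mul_ne_top (by norm_num) (by simp)
    refine (slabR hms i hwm (Φ := fun R => ∫⁻ x, ‖T (fun ξ => mRR i R ξ * XX P s ξ) h x +
        (q x : ℂ) * T (fun ξ => mul i R ξ * XX P s ξ) h x‖ₑ ^ 2) ?_).trans ?_
    · intro R hR
      have hR0 : 0 < R := by linarith [hR.1]
      -- identity
      have fD : Fam (fun R ξ => (mRR i R ξ - ∑ j ∈ s, mjj i j R ξ) * XX P s ξ) :=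
        fam_mulX (fam_sub f2 (fam_sum s fun j _ => (fj j).2)) hXc
      have fJ1 : ∀ j, Fam (fun R ξ => mj (n := n) i j R ξ * XX P s ξ) := fun j =>
        fam_mulX (fj j).1 hXc
      have fJ2 : ∀ j, Fam (fun R ξ => mjj (n := n) i j R ξ * XX P s ξ) := fun j =>
        fam_mulX (fj j).2 hXc
      have ident : ∀ x, T (fun ξ => mRR i R ξ * XX P s ξ) h x +
          (q x : ℂ) * T (fun ξ => mul i R ξ * XX P s ξ) h x =
          T (fun ξ => (mRR i R ξ - ∑ j ∈ s, mjj i j R ξ) * XX P s ξ) h x +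
          ∑ j ∈ s, 4 * Real.pi * Complex.I * T (fun ξ => mj i j R ξ * XX P s ξ) (h1 j) x +
          ∑ j ∈ s, 4 * Real.pi ^ 2 * T (fun ξ => mul i R ξ * XX P s ξ) (h2 j) x := by
        intro x
        have e1 : (q x : ℂ) * T (fun ξ => mul i R ξ * XX P s ξ) h x =
            ∑ j ∈ s, (- T (fun ξ => mjj i j R ξ * XX P s ξ) h x +
              4 * Real.pi * Complex.I * T (fun ξ => mj i j R ξ * XX P s ξ) (h1 j) x +
              4 * Real.pi ^ 2 * T (fun ξ => mul i R ξ * XX P s ξ) (h2 j) x) := by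
          have e0 : (q x : ℂ) = ∑ j ∈ s, ((2 * Real.pi * x j : ℝ) : ℂ) ^ 2 := by
            rw [hq]; push_cast; rfl
          rw [e0, Finset.sum_mul]
          refine Finset.sum_congr rfl fun j hj => ?_
          refine hX j hj _ _ _ (fam_cont F0 hR0) (fam_cont (fJ1 j) hR0) (fam_cont (fJ2 j) hR0)
            (fam_cs F0 hR0) (fam_cs (fJ1 j) hR0) (fam_cs (fJ2 j) hR0) ?_ ?_ x
          · intro ξ
            have := (hmj n i j R ξ hR0).1.mul_const (XX P s ξ)
            refine this.congr_of_eventuallyEq (Filter.Eventually.of_forall fun t => ?_)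
            simp only [XX_line P hj ξ t]
          · intro ξ
            have := (hmj n i j R ξ hR0).2.mul_const (XX P s ξ)
            refine this.congr_of_eventuallyEq (Filter.Eventually.of_forall fun t => ?_)
            simp only [XX_line P hj ξ t]
        have e2 : T (fun ξ => (mRR i R ξ - ∑ j ∈ s, mjj i j R ξ) * XX P s ξ) h x =
            T (fun ξ => mRR i R ξ * XX P s ξ) h x -
              ∑ j ∈ s, T (fun ξ => mjj i j R ξ * XX P s ξ) h x := by
          rw [← T_sum s (fun j _ => fam_cont (fJ2 j) hR0) (fun j _ => fam_cs (fJ2 j) hR0) hh x,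
            ← T_sub (fam_cont F2 hR0) (fam_cs F2 hR0) (fam_cont (fam_sum s fun j _ => fJ2 j) hR0)
              (fam_cs (fam_sum s fun j _ => fJ2 j) hR0) hh x]
          congr 1
          funext ξ
          rw [sub_mul, Finset.sum_mul]
        rw [e1, e2, Finset.sum_add_distrib, Finset.sum_add_distrib, Finset.sum_neg_distrib]
        ring
      calc ∫⁻ x, ‖T (fun ξ => mRR i R ξ * XX P s ξ) h x +
            (q x : ℂ) * T (fun ξ => mul i R ξ * XX P s ξ) h x‖ₑ ^ 2
          ≤ ∫⁻ x, (3 * ‖T (fun ξ => (mRR i R ξ - ∑ j ∈ s, mjj i j R ξ) * XX P s ξ) h x‖ₑ ^ 2 +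
              3 * n * (∑ j ∈ s, ENNReal.ofReal ((4 * Real.pi) ^ 2) *
                ‖T (fun ξ => mj i j R ξ * XX P s ξ) (h1 j) x‖ₑ ^ 2) +
              3 * n * (∑ j ∈ s, ENNReal.ofReal ((4 * Real.pi ^ 2) ^ 2) *
                ‖T (fun ξ => mul i R ξ * XX P s ξ) (h2 j) x‖ₑ ^ 2)) := by
            refine lintegral_mono fun x => ?_
            simp only
            rw [ident x]
            refine (three s _ _ _).trans (le_of_eq ?_)
            have g1 : ∀ z : ℂ, ‖4 * (Real.pi : ℂ) * Complex.I * z‖ₑ ^ 2 =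
                ENNReal.ofReal ((4 * Real.pi) ^ 2) * ‖z‖ₑ ^ 2 := by
              intro z
              rw [enorm_sq_eq, enorm_sq_eq, ← ENNReal.ofReal_mul (by positivity)]
              congr 1
              rw [norm_mul, norm_mul, norm_mul, Complex.norm_I, Complex.norm_real]
              simp only [Real.norm_eq_abs, abs_of_pos Real.pi_pos]
              norm_num
              ring
            have g2 : ∀ z : ℂ, ‖4 * (Real.pi : ℂ) ^ 2 * z‖ₑ ^ 2 =
                ENNReal.ofReal ((4 * Real.pi ^ 2) ^ 2) * ‖z‖ₑ ^ 2 := by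
              intro z
              rw [enorm_sq_eq, enorm_sq_eq, ← ENNReal.ofReal_mul (by positivity)]
              congr 1
              rw [norm_mul, norm_mul, norm_pow, Complex.norm_real]
              simp only [Real.norm_eq_abs, abs_of_pos Real.pi_pos]
              norm_num
              ring
            simp only [g1, g2]
        _ = 3 * (∫⁻ x, ‖T (fun ξ => (mRR i R ξ - ∑ j ∈ s, mjj i j R ξ) * XX P s ξ) h x‖ₑ ^ 2) +
              3 * n * (∑ j ∈ s, ENNReal.ofReal ((4 * Real.pi) ^ 2) *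
                ∫⁻ x, ‖T (fun ξ => mj i j R ξ * XX P s ξ) (h1 j) x‖ₑ ^ 2) +
              3 * n * (∑ j ∈ s, ENNReal.ofReal ((4 * Real.pi ^ 2) ^ 2) *
                ∫⁻ x, ‖T (fun ξ => mul i R ξ * XX P s ξ) (h2 j) x‖ₑ ^ 2) := by
            have k0 : Measurable (fun x =>
                ‖T (fun ξ => (mRR i R ξ - ∑ j ∈ s, mjj i j R ξ) * XX P s ξ) h x‖ₑ ^ 2) :=
              (T_cont (fam_cont fD hR0) (fam_cs fD hR0) hh).measurable.enorm.pow_const 2
            have k1 : ∀ j ∈ s, Measurable (fun x =>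
                ‖T (fun ξ => mj i j R ξ * XX P s ξ) (h1 j) x‖ₑ ^ 2) := fun j hj =>
              (T_cont (fam_cont (fJ1 j) hR0) (fam_cs (fJ1 j) hR0)
                (hh1 j hj)).measurable.enorm.pow_const 2
            have k2 : ∀ j ∈ s, Measurable (fun x =>
                ‖T (fun ξ => mul i R ξ * XX P s ξ) (h2 j) x‖ₑ ^ 2) := fun j hj =>
              (T_cont (fam_cont F0 hR0) (fam_cs F0 hR0) (hh2 j hj)).measurable.enorm.pow_const 2
            rw [lintegral_add_left, lintegral_add_left, lintegral_const_mul _ k0,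
              lintegral_const_mul, lintegral_const_mul, lintegral_finsetSum',
              lintegral_finsetSum']
            · congr 1
              · congr 2
                refine Finset.sum_congr rfl fun j hj => ?_
                rw [lintegral_const_mul _ (k1 j hj)]
              · congr 1
                refine Finset.sum_congr rfl fun j hj => ?_
                rw [lintegral_const_mul _ (k2 j hj)]
            · exact fun j hj => ((k2 j hj).const_mul _).aemeasurable
            · exact fun j hj => ((k1 j hj).const_mul _).aemeasurable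
            · exact Finset.measurable_fun_sum _ fun j hj => (k2 j hj).const_mul _
            · exact Finset.measurable_fun_sum _ fun j hj => (k1 j hj).const_mul _
            · exact k0.const_mul _
            · exact (k0.const_mul _).add
                ((Finset.measurable_fun_sum _ fun j hj => (k1 j hj).const_mul _).const_mul _)
        _ ≤ 3 * (∫⁻ ξ, (slabSet n i).indicator (fun _ => (1 : ℝ≥0∞)) (R, ξ) *
                (ENNReal.ofReal (M1 ^ 2) *
                  (Metric.closedBall (0 : E n) 2).indicator (fun ξ => ‖h ξ‖ₑ ^ 2) ξ)) +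
              3 * n * (∑ j ∈ s, ENNReal.ofReal ((4 * Real.pi) ^ 2) *
                ∫⁻ ξ, (slabSet n i).indicator (fun _ => (1 : ℝ≥0∞)) (R, ξ) *
                (ENNReal.ofReal (M2 ^ 2) *
                  (Metric.closedBall (0 : E n) 2).indicator (fun ξ => ‖h1 j ξ‖ₑ ^ 2) ξ)) +
              3 * n * (∑ j ∈ s, ENNReal.ofReal ((4 * Real.pi ^ 2) ^ 2) *
                ∫⁻ ξ, (slabSet n i).indicator (fun _ => (1 : ℝ≥0∞)) (R, ξ) *
                (ENNReal.ofReal (B ^ 2) *
                  (Metric.closedBall (0 : E n) 2).indicator (fun ξ => ‖h2 j ξ‖ₑ ^ 2) ξ)) := by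
            refine add_le_add (add_le_add ?_ ?_) ?_
            · refine mul_le_mul_right ?_ _
              refine planchA hpl fD i hR (fun ξ => ?_) (fun ξ hne => ?_) hh
              · have := diff_bound i s hB1 hz hB hR ξ
                rw [← hPdef] at this
                exact this
              · refine hsl R ξ ?_
                have h5 := left_ne_zero_of_mul hne
                by_contra hc
                push Not at hc
                obtain ⟨-, -, q3, -, q5⟩ := hc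
                apply h5
                rw [q3, Finset.sum_eq_zero fun j _ => q5 j, sub_zero]
            · refine mul_le_mul_right (Finset.sum_le_sum fun j hj => ?_) _
              refine mul_le_mul_right ?_ _
              refine planchA hpl (fJ1 j) i hR (fun ξ => ?_) (fun ξ hne => ?_) (hh1 j hj)
              · rw [abs_mul, abs_of_nonneg (XX_nonneg P s ξ)]
                calc |mj i j R ξ| * XX P s ξ ≤ |mj i j R ξ| * 1 := by
                      gcongr; exact XX_le _ _ _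
                  _ ≤ M2 := by rw [mul_one]; exact mj_bound i j hB1 hz hB hR ξ
              · exact hsl R ξ (Or.inr (Or.inr (Or.inr (Or.inl ⟨j, left_ne_zero_of_mul hne⟩))))
            · refine mul_le_mul_right (Finset.sum_le_sum fun j hj => ?_) _
              refine mul_le_mul_right ?_ _
              refine planchA hpl F0 i hR (fun ξ => ?_) (fun ξ hne => ?_) (hh2 j hj)
              · rw [abs_mul, abs_of_nonneg (XX_nonneg P s ξ)]
                calc |mul i R ξ| * XX P s ξ ≤ |mul i R ξ| * 1 := by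
                      gcongr; exact XX_le _ _ _
                  _ ≤ B := by rw [mul_one]; exact (hB _).1
              · exact hsl R ξ (Or.inl (left_ne_zero_of_mul hne))
        _ = ∫⁻ ξ, (slabSet n i).indicator (fun _ => (1 : ℝ≥0∞)) (R, ξ) * w ξ := by
            have mS : Measurable (fun ξ : E n =>
                (slabSet n i).indicator (fun _ => (1 : ℝ≥0∞)) (R, ξ)) :=
              (measurable_const.indicator (slabSet_meas i)).comp
                (measurable_const.prodMk measurable_id)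
            have e1 : ∀ ξ, (slabSet n i).indicator (fun _ => (1 : ℝ≥0∞)) (R, ξ) * w ξ =
                3 * ((slabSet n i).indicator (fun _ => (1 : ℝ≥0∞)) (R, ξ) *
                (ENNReal.ofReal (M1 ^ 2) *
                  (Metric.closedBall (0 : E n) 2).indicator (fun ξ => ‖h ξ‖ₑ ^ 2) ξ)) +
              3 * n * (∑ j ∈ s, ENNReal.ofReal ((4 * Real.pi) ^ 2) *
                ((slabSet n i).indicator (fun _ => (1 : ℝ≥0∞)) (R, ξ) *
                (ENNReal.ofReal (M2 ^ 2) *
                  (Metric.closedBall (0 : E n) 2).indicator (fun ξ => ‖h1 j ξ‖ₑ ^ 2) ξ))) +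
              3 * n * (∑ j ∈ s, ENNReal.ofReal ((4 * Real.pi ^ 2) ^ 2) *
                ((slabSet n i).indicator (fun _ => (1 : ℝ≥0∞)) (R, ξ) *
                (ENNReal.ofReal (B ^ 2) *
                  (Metric.closedBall (0 : E n) 2).indicator (fun ξ => ‖h2 j ξ‖ₑ ^ 2) ξ))) := by
              intro ξ
              rw [hw]
              simp only [mul_add, Finset.mul_sum]
              congr 1
              · congr 1
                · ring
                · exact Finset.sum_congr rfl fun j _ => by ring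
              · exact Finset.sum_congr rfl fun j _ => by ring
            rw [lintegral_congr e1]
            have k0 : Measurable (fun ξ => (slabSet n i).indicator (fun _ => (1 : ℝ≥0∞)) (R, ξ) *
                (ENNReal.ofReal (M1 ^ 2) *
                  (Metric.closedBall (0 : E n) 2).indicator (fun ξ => ‖h ξ‖ₑ ^ 2) ξ)) :=
              mS.mul ((mi h hh).const_mul (ENNReal.ofReal (M1 ^ 2)))
            have k1 : ∀ j ∈ s, Measurable (fun ξ =>
                (slabSet n i).indicator (fun _ => (1 : ℝ≥0∞)) (R, ξ) *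
                (ENNReal.ofReal (M2 ^ 2) *
                  (Metric.closedBall (0 : E n) 2).indicator (fun ξ => ‖h1 j ξ‖ₑ ^ 2) ξ)) :=
              fun j hj => mS.mul ((mi _ (hh1 j hj)).const_mul (ENNReal.ofReal (M2 ^ 2)))
            have k2 : ∀ j ∈ s, Measurable (fun ξ =>
                (slabSet n i).indicator (fun _ => (1 : ℝ≥0∞)) (R, ξ) *
                (ENNReal.ofReal (B ^ 2) *
                  (Metric.closedBall (0 : E n) 2).indicator (fun ξ => ‖h2 j ξ‖ₑ ^ 2) ξ)) :=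
              fun j hj => mS.mul ((mi _ (hh2 j hj)).const_mul (ENNReal.ofReal (B ^ 2)))
            rw [lintegral_add_left, lintegral_add_left, lintegral_const_mul _ k0,
              lintegral_const_mul, lintegral_const_mul, lintegral_finsetSum',
              lintegral_finsetSum']
            · congr 1
              · congr 2
                refine Finset.sum_congr rfl fun j hj => ?_
                rw [lintegral_const_mul _ (k1 j hj)]
              · congr 1
                refine Finset.sum_congr rfl fun j hj => ?_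
                rw [lintegral_const_mul _ (k2 j hj)]
            · exact fun j hj => ((k2 j hj).const_mul _).aemeasurable
            · exact fun j hj => ((k1 j hj).const_mul _).aemeasurable
            · exact Finset.measurable_fun_sum _ fun j hj => (k2 j hj).const_mul _
            · exact Finset.measurable_fun_sum _ fun j hj => (k1 j hj).const_mul _
            · exact k0.const_mul _
            · exact (k0.const_mul _).add
                ((Finset.measurable_fun_sum _ fun j hj => (k1 j hj).const_mul _).const_mul _)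
    · -- integrate `w`
      have iw : ∫⁻ ξ, w ξ ≤ 3 * (ENNReal.ofReal (M1 ^ 2) * V) +
          3 * n * (n * (ENNReal.ofReal ((4 * Real.pi) ^ 2) * (ENNReal.ofReal (M2 ^ 2) *
            (ENNReal.ofReal (4 * P ^ 4) * V)))) +
          3 * n * (n * (ENNReal.ofReal ((4 * Real.pi ^ 2) ^ 2) * (ENNReal.ofReal (B ^ 2) *
            (ENNReal.ofReal (16 * P ^ 8) * V)))) := by
        rw [hw]
        simp only
        have eA : ∀ A B D : E n → ℝ≥0∞, Measurable A → Measurable B →
            ∫⁻ ξ, (A ξ + B ξ + D ξ) = (∫⁻ ξ, A ξ) + (∫⁻ ξ, B ξ) + ∫⁻ ξ, D ξ := by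
          intro A B D hA hB
          have e1 := lintegral_add_left (μ := volume) (hA.add hB) D
          have e2 := lintegral_add_left (μ := volume) hA B
          rw [← e2]
          exact e1
        rw [eA _ _ _ mw0 mw1',
          lintegral_const_mul _ ((mi h hh).const_mul _),
          lintegral_const_mul _ (Finset.measurable_fun_sum _ mw1),
          lintegral_const_mul _ (Finset.measurable_fun_sum _ mw2),
          lintegral_finsetSum' _ fun j hj => (mw1 j hj).aemeasurable,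
          lintegral_finsetSum' _ fun j hj => (mw2 j hj).aemeasurable]
        have hcard : (s.card : ℝ≥0∞) ≤ n := by
          have : s.card ≤ n := by simpa using Finset.card_le_univ s
          exact_mod_cast this
        refine add_le_add (add_le_add ?_ ?_) ?_
        · refine mul_le_mul_right ?_ _
          rw [lintegral_const_mul _ (mi h hh), lintegral_indicator measurableSet_closedBall]
          gcongr
        · refine mul_le_mul_right ?_ _
          calc ∑ j ∈ s, ∫⁻ ξ, ENNReal.ofReal ((4 * Real.pi) ^ 2) * (ENNReal.ofReal (M2 ^ 2) *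
                (Metric.closedBall (0 : E n) 2).indicator (fun ξ => ‖h1 j ξ‖ₑ ^ 2) ξ)
              ≤ ∑ _j ∈ s, ENNReal.ofReal ((4 * Real.pi) ^ 2) * (ENNReal.ofReal (M2 ^ 2) *
                (ENNReal.ofReal (4 * P ^ 4) * V)) := by
                refine Finset.sum_le_sum fun j hj => ?_
                rw [lintegral_const_mul _ ((mi _ (hh1 j hj)).const_mul _),
                  lintegral_const_mul _ (mi _ (hh1 j hj)),
                  lintegral_indicator measurableSet_closedBall]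
                have := hV1 j hj
                gcongr
            _ = s.card * (ENNReal.ofReal ((4 * Real.pi) ^ 2) * (ENNReal.ofReal (M2 ^ 2) *
                (ENNReal.ofReal (4 * P ^ 4) * V))) := by simp
            _ ≤ _ := by gcongr
        · refine mul_le_mul_right ?_ _
          calc ∑ j ∈ s, ∫⁻ ξ, ENNReal.ofReal ((4 * Real.pi ^ 2) ^ 2) * (ENNReal.ofReal (B ^ 2) *
                (Metric.closedBall (0 : E n) 2).indicator (fun ξ => ‖h2 j ξ‖ₑ ^ 2) ξ)
              ≤ ∑ _j ∈ s, ENNReal.ofReal ((4 * Real.pi ^ 2) ^ 2) * (ENNReal.ofReal (B ^ 2) *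
                (ENNReal.ofReal (16 * P ^ 8) * V)) := by
                refine Finset.sum_le_sum fun j hj => ?_
                rw [lintegral_const_mul _ ((mi _ (hh2 j hj)).const_mul _),
                  lintegral_const_mul _ (mi _ (hh2 j hj)),
                  lintegral_indicator measurableSet_closedBall]
                have := hV2 j hj
                gcongr
            _ = s.card * (ENNReal.ofReal ((4 * Real.pi ^ 2) ^ 2) * (ENNReal.ofReal (B ^ 2) *
                (ENNReal.ofReal (16 * P ^ 8) * V))) := by simp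
            _ ≤ _ := by gcongr
      refine (mul_le_mul_right iw _).trans (le_of_eq ?_)
      have r3 : (3 : ℝ≥0∞) = ENNReal.ofReal 3 := by simp
      have rn : (n : ℝ≥0∞) = ENNReal.ofReal n := by simp
      rw [r3, rn]
      simp only [← mul_assoc]
      rw [← ENNReal.ofReal_mul (by positivity), ← ENNReal.ofReal_mul (by positivity),
        ← ENNReal.ofReal_mul (by positivity), ← ENNReal.ofReal_mul (by positivity),
        ← ENNReal.ofReal_mul (by positivity), ← ENNReal.ofReal_mul (by positivity),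
        ← ENNReal.ofReal_mul (by positivity), ← ENNReal.ofReal_mul (by positivity),
        ← ENNReal.ofReal_mul (by positivity), ← add_mul, ← add_mul,
        ← ENNReal.ofReal_add (by positivity) (by positivity),
        ← ENNReal.ofReal_add (by positivity) (by positivity), ← mul_assoc,
        ← ENNReal.ofReal_mul (by positivity)]
      congr 2
      rw [hc1, hc2, hc3, hM1, hM2, ← hNdef]
      field_simp
  -- assembly
  refine main.trans ?_
  have hKr : (K : ℝ≥0∞) = ENNReal.ofReal K := by simp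
  have hK0 : (0 : ℝ) < K := by rw [hKdef]; positivity
  have hPe : (PP i : ℝ≥0∞)⁻¹ = ENNReal.ofReal P⁻¹ := by
    rw [ENNReal.ofReal_inv_of_pos hP0, hPdef, ENNReal.ofReal_natCast]
  have hfin := numer hP1 hPN (K := K) hKP hc0' hc1' hc2' hc3'
  calc (C0 : ℝ≥0∞) * (K * (∫⁻ R in Icc (1 : ℝ) 2, ∫⁻ x,
          ‖T (fun ξ => mul i R ξ * XX P s ξ) h x‖ₑ ^ 2) + (K : ℝ≥0∞)⁻¹ ^ 3 *
          ∫⁻ R in Icc (1 : ℝ) 2, ∫⁻ x, ‖T (fun ξ => mRR i R ξ * XX P s ξ) h x +
            (q x : ℂ) * T (fun ξ => mul i R ξ * XX P s ξ) h x‖ₑ ^ 2)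
      ≤ C0 * (K * (ENNReal.ofReal (c0 / N) * V) + (K : ℝ≥0∞)⁻¹ ^ 3 *
          (ENNReal.ofReal (4 / N * (c1 * (N ^ 4 / P ^ 4) + c2 * (N ^ 2 * P ^ 4) +
            c3 * P ^ 8)) * V)) := by gcongr
    _ = C0 * (ENNReal.ofReal (K * (c0 / N) + (K : ℝ)⁻¹ ^ 3 * (4 / N * (c1 * (N ^ 4 / P ^ 4) +
          c2 * (N ^ 2 * P ^ 4) + c3 * P ^ 8))) * V) := by
        rw [hKr, ← ENNReal.ofReal_inv_of_pos hK0, ← ENNReal.ofReal_pow (by positivity),
          ← mul_assoc (ENNReal.ofReal (K : ℝ)), ← ENNReal.ofReal_mul (by positivity),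
          ← mul_assoc (ENNReal.ofReal _) (ENNReal.ofReal _) V,
          ← ENNReal.ofReal_mul (by positivity), ← add_mul,
          ← ENNReal.ofReal_add (by positivity) (by positivity)]
    _ ≤ C0 * (ENNReal.ofReal ((c0 + 4 * (c1 + c2 + c3)) * P⁻¹) * V) := by gcongr
    _ = (C0 * Real.toNNReal (c0 + 4 * (c1 + c2 + c3)) : ℝ≥0) * (PP i : ℝ≥0∞)⁻¹ * V := by
        rw [hPe, ENNReal.ofReal_mul (by positivity), ENNReal.coe_mul]
        simp only [ENNReal.ofReal]
        ring

theorem sup_meas {b : ℝ → E n → ℝ} (hb : Fam b) {h : E n → ℂ} (hh : Continuous h) :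
    Measurable (fun x => ⨆ R ∈ Icc (1 : ℝ) 2, ‖T (b R) h x‖ₑ) := by
  refine LowerSemicontinuous.measurable ?_
  refine lowerSemicontinuous_biSup fun R hR => ?_
  have hR0 : 0 < R := by linarith [hR.1]
  exact (T_cont (fam_cont hb hR0) (fam_cs hb hR0) hh).enorm.lowerSemicontinuous

theorem add_sq_le (a b : ℝ≥0∞) : (a + b) ^ 2 ≤ 2 * a ^ 2 + 2 * b ^ 2 := by
  have h := ENNReal.rpow_add_le_mul_rpow_add_rpow a b (p := 2) (by norm_num)
  norm_num at h
  calc (a + b) ^ 2 ≤ 2 * (a ^ 2 + b ^ 2) := by exact_mod_cast h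
    _ = 2 * a ^ 2 + 2 * b ^ 2 := by ring

end G7

open G7

theorem pGain (hpl : tPlanch) (hode : tOdeT) (hF2 : tF2) (hxj : tXj) (hps : tPs)
    (hfam : tMulFam) (hmj : tMulj) (hms : tMeasR) : tGain := by
  intro n
  obtain ⟨C1, hC1⟩ := core hpl hode hps hfam hmj hms n
  obtain ⟨C2, hC2⟩ := hF2
  refine ⟨2 * C1 + 2 * C2, ?_⟩
  intro i s g hgm hgi hg2 hsupp
  set P : ℝ := (PP i : ℝ) with hPdef
  obtain ⟨hP1, -, -⟩ := PP_real i
  have hP0 : 0 < P := by rw [hPdef]; linarith
  have hFc := F_cont hgi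
  have hXc := XX_cont (n := n) P s
  obtain ⟨f0, -, -, -, -, -, -⟩ := hfam n i
  -- the two parts
  set A : E n → ℝ≥0∞ := fun x => ⨆ R ∈ Icc (1 : ℝ) 2,
    ‖T (fun ξ => mul i R ξ * XX P s ξ) (𝓕 g) x‖ₑ with hA
  set B : E n → ℝ≥0∞ := fun x => ⨆ R ∈ Icc (1 : ℝ) 2,
    ‖T (mul i R) (fun ξ => ((1 - XX P s ξ : ℝ) : ℂ) * 𝓕 g ξ) x‖ₑ with hB
  have hh' : Continuous (fun ξ => ((1 - XX P s ξ : ℝ) : ℂ) * 𝓕 g ξ) :=
    (Complex.continuous_ofReal.comp (continuous_const.sub hXc)).mul hFc
  have hAm : Measurable A := sup_meas (fam_mulX f0 hXc) hFc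
  have hsplit : ∀ x, (⨆ R ∈ Icc (1 : ℝ) 2, ‖T (mul i R) (𝓕 g) x‖ₑ) ^ 2 ≤
      2 * A x ^ 2 + 2 * B x ^ 2 := by
    intro x
    refine le_trans (pow_le_pow_left₀ (zero_le) ?_ 2) (add_sq_le _ _)
    refine iSup₂_le fun R hR => ?_
    have hR0 : 0 < R := by linarith [hR.1]
    rw [T_split (fam_cont f0 hR0) (fam_cs f0 hR0) hFc hXc x]
    refine (enorm_add_le _ _).trans (add_le_add ?_ ?_)
    · exact le_iSup₂ (f := fun (R : ℝ) (_ : R ∈ Icc (1 : ℝ) 2) =>
        ‖T (fun ξ => mul i R ξ * XX P s ξ) (𝓕 g) x‖ₑ) R hR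
    · exact le_iSup₂ (f := fun (R : ℝ) (_ : R ∈ Icc (1 : ℝ) 2) =>
        ‖T (mul i R) (fun ξ => ((1 - XX P s ξ : ℝ) : ℂ) * 𝓕 g ξ) x‖ₑ) R hR
  -- weights
  have coordm : ∀ j : Fin n, Measurable (fun y : E n => ((y j : ℝ) : ℂ)) := by
    intro j
    have : Continuous (fun y : E n => ((y j : ℝ) : ℂ)) := by fun_prop
    exact this.measurable
  have b1 : ∀ j ∈ s, ∀ y : E n, ‖(y j : ℂ) * g y‖ ≤ (2 * P ^ 2) * ‖g y‖ := by
    intro j hj y
    by_cases hy : g y = 0
    · simp [hy]
    · rw [norm_mul, Complex.norm_real, Real.norm_eq_abs]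
      exact mul_le_mul_of_nonneg_right (hsupp y hy j hj) (norm_nonneg _)
  have b2 : ∀ j ∈ s, ∀ y : E n, ‖(y j : ℂ) ^ 2 * g y‖ ≤ (4 * P ^ 4) * ‖g y‖ := by
    intro j hj y
    by_cases hy : g y = 0
    · simp [hy]
    · rw [norm_mul, norm_pow, Complex.norm_real, Real.norm_eq_abs]
      refine mul_le_mul_of_nonneg_right ?_ (norm_nonneg _)
      calc |y j| ^ 2 ≤ (2 * P ^ 2) ^ 2 := pow_le_pow_left₀ (abs_nonneg _) (hsupp y hy j hj) 2
        _ = 4 * P ^ 4 := by ring
  have m1 : ∀ j : Fin n, Measurable (fun y : E n => (y j : ℂ) * g y) := fun j =>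
    (coordm j).mul hgm
  have m2 : ∀ j : Fin n, Measurable (fun y : E n => (y j : ℂ) ^ 2 * g y) := fun j =>
    ((coordm j).pow_const 2).mul hgm
  have i1 : ∀ j ∈ s, Integrable (fun y : E n => (y j : ℂ) * g y) := fun j hj =>
    (hgi.norm.const_mul (2 * P ^ 2)).mono' (m1 j).aestronglyMeasurable
      (Filter.Eventually.of_forall (b1 j hj))
  have i2 : ∀ j ∈ s, Integrable (fun y : E n => (y j : ℂ) ^ 2 * g y) := fun j hj =>
    (hgi.norm.const_mul (4 * P ^ 4)).mono' (m2 j).aestronglyMeasurable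
      (Filter.Eventually.of_forall (b2 j hj))
  have l1 : ∀ j ∈ s, MemLp (fun y : E n => (y j : ℂ) * g y) 2 := fun j hj =>
    hg2.of_le_mul (m1 j).aestronglyMeasurable (Filter.Eventually.of_forall (b1 j hj))
  have l2 : ∀ j ∈ s, MemLp (fun y : E n => (y j : ℂ) ^ 2 * g y) 2 := fun j hj =>
    hg2.of_le_mul (m2 j).aestronglyMeasurable (Filter.Eventually.of_forall (b2 j hj))
  set V : ℝ≥0∞ := ∫⁻ x, ‖g x‖ₑ ^ 2 with hV
  have energy : ∀ (u : E n → ℂ) (c : ℝ), 0 ≤ c → (∀ y, ‖u y‖ ≤ c * ‖g y‖) →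
      ∫⁻ y, ‖u y‖ₑ ^ 2 ≤ ENNReal.ofReal (c ^ 2) * V := by
    intro u c hc hu
    rw [hV, ← lintegral_const_mul' _ _ ENNReal.ofReal_ne_top]
    refine lintegral_mono fun y => ?_
    rw [enorm_sq_eq, enorm_sq_eq, ← ENNReal.ofReal_mul (by positivity)]
    refine ENNReal.ofReal_le_ofReal ?_
    calc ‖u y‖ ^ 2 ≤ (c * ‖g y‖) ^ 2 := pow_le_pow_left₀ (norm_nonneg _) (hu y) 2
      _ = c ^ 2 * ‖g y‖ ^ 2 := by ring
  -- part A
  have partA : ∫⁻ x, A x ^ 2 ≤ C1 * (PP i : ℝ≥0∞)⁻¹ * V := by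
    refine hC1 i s (𝓕 g) (fun j => 𝓕 (fun y => (y j : ℂ) * g y))
      (fun j => 𝓕 (fun y => (y j : ℂ) ^ 2 * g y)) V hFc (fun j hj => F_cont (i1 j hj))
      (fun j hj => F_cont (i2 j hj)) ?_ ?_ ?_ ?_
    · intro j hj a a1 a2 ha ha1 ha2 hc hc1 hc2 hd1 hd2 x
      exact hxj n j a a1 a2 g ha ha1 ha2 hc hc1 hc2 hd1 hd2 hgi (i1 j hj) (i2 j hj) x
    · refine (setLIntegral_le_lintegral _ _).trans ?_
      rw [F_planch hgi hg2]
    · intro j hj
      refine (setLIntegral_le_lintegral _ _).trans ?_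
      rw [F_planch (i1 j hj) (l1 j hj)]
      refine (energy _ (2 * P ^ 2) (by positivity) (b1 j hj)).trans (le_of_eq ?_)
      congr 2
      ring
    · intro j hj
      refine (setLIntegral_le_lintegral _ _).trans ?_
      rw [F_planch (i2 j hj) (l2 j hj)]
      refine (energy _ (4 * P ^ 4) (by positivity) (b2 j hj)).trans (le_of_eq ?_)
      congr 2
      ring
  -- part B
  have partB : ∫⁻ x, B x ^ 2 ≤
      C2 * ∑ j ∈ sᶜ, ∫⁻ ξ in {ξ : E n | P⁻¹ ≤ |ξ j|}, ‖𝓕 g ξ‖ₑ ^ 2 := by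
    refine (hC2 n i _ hh').trans ?_
    refine mul_le_mul_right ((setLIntegral_le_lintegral _ _).trans ?_) _
    have hset : ∀ j : Fin n, MeasurableSet {ξ : E n | P⁻¹ ≤ |ξ j|} := by
      intro j
      refine measurableSet_le measurable_const ?_
      have : Continuous (fun ξ : E n => |ξ j|) := by fun_prop
      exact this.measurable
    calc ∫⁻ ξ, ‖((1 - XX P s ξ : ℝ) : ℂ) * 𝓕 g ξ‖ₑ ^ 2
        ≤ ∫⁻ ξ, ∑ j ∈ sᶜ, ({ξ : E n | P⁻¹ ≤ |ξ j|}).indicator (fun ξ => ‖𝓕 g ξ‖ₑ ^ 2) ξ := by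
          refine lintegral_mono fun ξ => ?_
          simp only
          by_cases hx : XX P s ξ = 1
          · rw [hx]; simp
          · obtain ⟨j, hj, hj2⟩ := XX_ne1 hP0 hx
            refine le_trans ?_ (Finset.single_le_sum (f := fun j =>
              ({ξ : E n | P⁻¹ ≤ |ξ j|}).indicator (fun ξ => ‖𝓕 g ξ‖ₑ ^ 2) ξ)
              (fun _ _ => zero_le) hj)
            simp only
            rw [indicator_of_mem (show ξ ∈ {ξ : E n | P⁻¹ ≤ |ξ j|} from hj2)]
            rw [enorm_sq_eq, enorm_sq_eq]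
            refine ENNReal.ofReal_le_ofReal (pow_le_pow_left₀ (norm_nonneg _) ?_ 2)
            rw [norm_mul, Complex.norm_real, Real.norm_eq_abs]
            have q1 := XX_nonneg P s ξ
            have q2 := XX_le P s ξ
            rw [abs_of_nonneg (by linarith)]
            calc (1 - XX P s ξ) * ‖𝓕 g ξ‖ ≤ 1 * ‖𝓕 g ξ‖ := by
                  gcongr; linarith
              _ = ‖𝓕 g ξ‖ := one_mul _
      _ = ∑ j ∈ sᶜ, ∫⁻ ξ in {ξ : E n | P⁻¹ ≤ |ξ j|}, ‖𝓕 g ξ‖ₑ ^ 2 := by
          rw [lintegral_finsetSum']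
          · refine Finset.sum_congr rfl fun j _ => ?_
            rw [lintegral_indicator (hset j)]
          · intro j _
            exact ((hFc.measurable.enorm.pow_const 2).indicator (hset j)).aemeasurable
  calc ∫⁻ x, (⨆ R ∈ Icc (1 : ℝ) 2, ‖T (mul i R) (𝓕 g) x‖ₑ) ^ 2
      ≤ ∫⁻ x, (2 * A x ^ 2 + 2 * B x ^ 2) := lintegral_mono hsplit
    _ = 2 * (∫⁻ x, A x ^ 2) + 2 * ∫⁻ x, B x ^ 2 := by
        have e1 : Measurable (fun x => 2 * A x ^ 2) := (hAm.pow_const 2).const_mul _
        rw [lintegral_add_left e1, lintegral_const_mul' _ _ (by norm_num),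
          lintegral_const_mul' _ _ (by norm_num)]
    _ ≤ 2 * (C1 * (PP i : ℝ≥0∞)⁻¹ * V) +
        2 * (C2 * ∑ j ∈ sᶜ, ∫⁻ ξ in {ξ : E n | P⁻¹ ≤ |ξ j|}, ‖𝓕 g ξ‖ₑ ^ 2) := by gcongr
    _ ≤ _ := by
        push_cast
        set U : ℝ≥0∞ := ∑ j ∈ sᶜ, ∫⁻ ξ in {ξ : E n | P⁻¹ ≤ |ξ j|}, ‖𝓕 g ξ‖ₑ ^ 2
        calc 2 * ((C1 : ℝ≥0∞) * (PP i : ℝ≥0∞)⁻¹ * V) + 2 * (C2 * U)
            = (2 * C1) * ((PP i : ℝ≥0∞)⁻¹ * V) + (2 * C2) * U := by ring
          _ ≤ (2 * C1 + 2 * C2) * ((PP i : ℝ≥0∞)⁻¹ * V) + (2 * C1 + 2 * C2) * U := by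
              gcongr
              · exact le_self_add
              · exact le_add_self
          _ = _ := by ring

theorem pGainK (hpl : tPlanch) (hode : tOdeT) (hxjK : tXjK) (hps : tPs)
    (hfam : tMulFam) (hmj : tMulj) (hms : tMeasR) : tGainK := by
  intro n
  obtain ⟨C1, hC1⟩ := core hpl hode hps hfam hmj hms n
  refine ⟨C1 * (volume (Metric.closedBall (0 : E n) 2)).toNNReal, ?_⟩
  intro i
  have hX1 : ∀ ξ : E n, XX (PP i : ℝ) Finset.univ ξ = 1 := by
    intro ξ
    simp [XX]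
  have hfin : volume (Metric.closedBall (0 : E n) 2) ≠ ⊤ :=
    (isCompact_closedBall (0 : E n) 2).measure_lt_top.ne
  have h := hC1 i Finset.univ (fun _ => 1) (fun _ _ => 0) (fun _ _ => 0)
    (volume (Metric.closedBall (0 : E n) 2)) continuous_const (fun _ _ => continuous_const)
    (fun _ _ => continuous_const) ?_ (by simp) (by simp) (by simp)
  · simp only [hX1, mul_one] at h
    refine h.trans (le_of_eq ?_)
    rw [ENNReal.coe_mul, ENNReal.coe_toNNReal hfin]
    ring
  · intro j _ a a1 a2 ha ha1 ha2 hc hc1 hc2 hd1 hd2 x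
    rw [hxjK n j a a1 a2 ha ha1 ha2 hc hc1 hc2 hd1 hd2 x]
    simp [T]

end Pool.Agent.MBS
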