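import Pool.Agent.MBS.Targets

set_option autoImplicit false

/-! J10a: short coordinates. -/

namespace Pool.Agent.MBS

open MeasureTheory FourierTransform Set
open scoped ENNReal NNReal

/-- the geometric series over the dyadic scales `2^m u < p` -/
lemma shortSum (u p : ℝ) (hu : 0 ≤ u) (hp : 0 < p) :
    ∑' m : ℤ, (if (2 : ℝ) ^ m * u < p then ENNReal.ofReal √((2 : ℝ) ^ m * u) else 0) ≤
      4 * ENNReal.ofReal √p := by
  rcases hu.eq_or_lt with h0 | h0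
  · subst h0
    simp
  · -- the largest `m0` with `2^m0 * u < p`
    obtain ⟨m0, hm0, hm0'⟩ : ∃ m0 : ℤ, (2 : ℝ) ^ m0 * u < p ∧ p ≤ (2 : ℝ) ^ (m0 + 1) * u := by
      obtain ⟨k, hk1, hk2⟩ := exists_mem_Ioc_zpow (x := p / u) (y := (2 : ℝ)) (by positivity)
        (by norm_num)
      refine ⟨k, ?_, ?_⟩
      · rwa [lt_div_iff₀ h0] at hk1
      · rwa [div_le_iff₀ h0] at hk2
    set F : ℤ → ℝ≥0∞ := fun m =>
      if (2 : ℝ) ^ m * u < p then ENNReal.ofReal √((2 : ℝ) ^ m * u) else 0 with hF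
    have hinj : Function.Injective (fun k : ℕ => m0 - (k : ℤ)) := by
      intro a b hab
      simpa using hab
    have hsupp : Function.support F ⊆ range (fun k : ℕ => m0 - (k : ℤ)) := by
      intro m hm
      have hm1 : (2 : ℝ) ^ m * u < p := by
        by_contra hcon
        apply hm
        simp [hF, hcon]
      have hle : m ≤ m0 := by
        by_contra hcon
        push Not at hcon
        have h1 : (2 : ℝ) ^ (m0 + 1) ≤ (2 : ℝ) ^ m := zpow_le_zpow_right₀ (by norm_num) hcon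
        have h2 : (2 : ℝ) ^ (m0 + 1) * u ≤ (2 : ℝ) ^ m * u :=
          mul_le_mul_of_nonneg_right h1 h0.le
        linarith
      refine ⟨(m0 - m).toNat, ?_⟩
      simp only []
      omega
    rw [← hinj.tsum_eq hsupp]
    have hterm : ∀ k : ℕ, F (m0 - (k : ℤ)) ≤ ENNReal.ofReal √p * (ENNReal.ofReal (3 / 4)) ^ k := by
      intro k
      have h1 : (2 : ℝ) ^ (m0 - (k : ℤ)) * u ≤ p * ((3 / 4 : ℝ) ^ k) ^ 2 := by
        have h2 : (2 : ℝ) ^ (m0 - (k : ℤ)) = (2 : ℝ) ^ m0 * (1 / 2 : ℝ) ^ k := by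
          rw [zpow_sub₀ (by norm_num), zpow_natCast, div_eq_mul_inv, one_div, inv_pow]
        rw [h2]
        have h3 : (1 / 2 : ℝ) ^ k ≤ ((3 / 4 : ℝ) ^ k) ^ 2 := by
          rw [← pow_mul, mul_comm, pow_mul]
          exact pow_le_pow_left₀ (by norm_num) (by norm_num) k
        have h4 : 0 ≤ (1 / 2 : ℝ) ^ k := by positivity
        calc (2 : ℝ) ^ m0 * (1 / 2 : ℝ) ^ k * u = ((2 : ℝ) ^ m0 * u) * (1 / 2 : ℝ) ^ k := by ring
          _ ≤ p * (1 / 2 : ℝ) ^ k := mul_le_mul_of_nonneg_right hm0.le h4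
          _ ≤ p * ((3 / 4 : ℝ) ^ k) ^ 2 := mul_le_mul_of_nonneg_left h3 hp.le
      have h5 : √((2 : ℝ) ^ (m0 - (k : ℤ)) * u) ≤ √p * (3 / 4 : ℝ) ^ k := by
        calc √((2 : ℝ) ^ (m0 - (k : ℤ)) * u) ≤ √(p * ((3 / 4 : ℝ) ^ k) ^ 2) := Real.sqrt_le_sqrt h1
          _ = √p * (3 / 4 : ℝ) ^ k := by
            rw [Real.sqrt_mul hp.le, Real.sqrt_sq (by positivity)]
      have h6 : F (m0 - (k : ℤ)) ≤ ENNReal.ofReal √((2 : ℝ) ^ (m0 - (k : ℤ)) * u) := by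
        simp only [hF]
        split_ifs
        · exact le_rfl
        · exact zero_le
      refine h6.trans ((ENNReal.ofReal_le_ofReal h5).trans (le_of_eq ?_))
      rw [ENNReal.ofReal_mul (Real.sqrt_nonneg _), ENNReal.ofReal_pow (by norm_num)]
    calc ∑' k : ℕ, F (m0 - (k : ℤ))
        ≤ ∑' k : ℕ, ENNReal.ofReal √p * (ENNReal.ofReal (3 / 4)) ^ k := ENNReal.tsum_le_tsum hterm
      _ = ENNReal.ofReal √p * (1 - ENNReal.ofReal (3 / 4))⁻¹ := by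
        rw [ENNReal.tsum_mul_left, ENNReal.tsum_geometric]
      _ = 4 * ENNReal.ofReal √p := by
        have h7 : (1 - ENNReal.ofReal (3 / 4))⁻¹ = 4 := by
          rw [← ENNReal.ofReal_one, ← ENNReal.ofReal_sub _ (by norm_num),
            ← ENNReal.ofReal_inv_of_pos (by norm_num)]
          norm_num
        rw [h7, mul_comm]

theorem pShort (hF2 : tF2c) (hLow : tLow) : tShort := by
  obtain ⟨C, hC⟩ := hF2
  refine ⟨C * 256, ?_⟩
  intro n i j f g hf hfi hf2 hgm hgf hgs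
  have hPP : 0 < (PP i : ℝ) := by
    have : 0 < PP i := by unfold PP; positivity
    exact_mod_cast this
  have hPinv : 0 < (PP i : ℝ)⁻¹ := inv_pos.mpr hPP
  have hgi : ∀ m, Integrable (g m) := fun m =>
    hfi.mono (hgm m).aestronglyMeasurable (Filter.Eventually.of_forall (hgf m))
  have hg2 : ∀ m, MemLp (g m) 2 := fun m =>
    hf2.mono (hgm m).aestronglyMeasurable (Filter.Eventually.of_forall (hgf m))
  -- one scale
  have hone : ∀ m : ℤ, W i (2 ^ m) (g m) ≤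
      (C : ℝ≥0∞) * 64 * ENNReal.ofReal √(PP i : ℝ)⁻¹ *
        ∫⁻ x, ‖f x‖ₑ ^ 2 *
          (if (2 : ℝ) ^ m * |x j| < (PP i : ℝ)⁻¹ then ENNReal.ofReal √((2 : ℝ) ^ m * |x j|)
            else 0) := by
    intro m
    have hc : (0 : ℝ) < 2 ^ m := by positivity
    have h1 := hC n i (2 ^ m) (g m) hc (hgi m)
    have h2 : ∫⁻ ξ in {ξ : E n | (2 : ℝ) ^ m / 2 ≤ ‖ξ‖ ∧ ‖ξ‖ ≤ 2 * 2 ^ m}, ‖𝓕 (g m) ξ‖ₑ ^ 2 ≤
        ∫⁻ ξ in {ξ : E n | |ξ j| ≤ 2 * 2 ^ m}, ‖𝓕 (g m) ξ‖ₑ ^ 2 := by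
      refine lintegral_mono_set ?_
      intro ξ hξ
      have h3 : ‖ξ j‖ ≤ ‖ξ‖ := PiLp.norm_apply_le ξ j
      rw [Real.norm_eq_abs] at h3
      exact h3.trans hξ.2
    have hb : (0 : ℝ) < (PP i : ℝ)⁻¹ * (2 ^ m)⁻¹ := by positivity
    have h4 := hLow n j (g m) ((PP i : ℝ)⁻¹ * (2 ^ m)⁻¹) (2 ^ m) hb hc (hgm m) (hgi m) (hg2 m) (by
      intro x hx
      have h5 := hgs m x hx
      rw [← div_eq_mul_inv, le_div_iff₀ hc, mul_comm]
      exact h5.le)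
    have h6 : ENNReal.ofReal (64 * 2 ^ m * √((PP i : ℝ)⁻¹ * (2 ^ m)⁻¹)) =
        64 * ENNReal.ofReal √(PP i : ℝ)⁻¹ * ENNReal.ofReal √(2 ^ m) := by
      have h7 : (64 : ℝ) * 2 ^ m * √((PP i : ℝ)⁻¹ * (2 ^ m)⁻¹) =
          64 * √(PP i : ℝ)⁻¹ * √(2 ^ m) := by
        rw [Real.sqrt_mul hPinv.le, Real.sqrt_inv ((2 : ℝ) ^ m)]
        have h8 : (2 : ℝ) ^ m = √(2 ^ m) * √(2 ^ m) := (Real.mul_self_sqrt hc.le).symm
        have h9 : √((2 : ℝ) ^ m) ≠ 0 := (Real.sqrt_pos.mpr hc).ne'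
        calc (64 : ℝ) * 2 ^ m * (√(PP i : ℝ)⁻¹ * (√(2 ^ m))⁻¹)
            = 64 * (√(2 ^ m) * √(2 ^ m)) * (√(PP i : ℝ)⁻¹ * (√(2 ^ m))⁻¹) := by rw [← h8]
          _ = 64 * √(PP i : ℝ)⁻¹ * √(2 ^ m) := by field_simp
      rw [h7, ENNReal.ofReal_mul (by positivity), ENNReal.ofReal_mul (by norm_num)]
      norm_num
    have h10 : ∫⁻ x, ‖g m x‖ₑ ^ 2 * ENNReal.ofReal √|x j| * ENNReal.ofReal √(2 ^ m) ≤
        ∫⁻ x, ‖f x‖ₑ ^ 2 *
          (if (2 : ℝ) ^ m * |x j| < (PP i : ℝ)⁻¹ then ENNReal.ofReal √((2 : ℝ) ^ m * |x j|)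
            else 0) := by
      refine lintegral_mono fun x => ?_
      by_cases hx : g m x = 0
      · simp [hx]
      · have h11 := hgs m x hx
        rw [if_pos h11, mul_assoc, ← ENNReal.ofReal_mul (Real.sqrt_nonneg _),
          ← Real.sqrt_mul (abs_nonneg _), mul_comm |x j|]
        gcongr
        exact enorm_le_iff_norm_le.mpr (hgf m x)
    calc W i (2 ^ m) (g m) ≤ C * ∫⁻ ξ in {ξ : E n | (2 : ℝ) ^ m / 2 ≤ ‖ξ‖ ∧ ‖ξ‖ ≤ 2 * 2 ^ m},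
          ‖𝓕 (g m) ξ‖ₑ ^ 2 := h1
      _ ≤ C * (ENNReal.ofReal (64 * 2 ^ m * √((PP i : ℝ)⁻¹ * (2 ^ m)⁻¹)) *
            ∫⁻ x, ‖g m x‖ₑ ^ 2 * ENNReal.ofReal √|x j|) := by
          gcongr
          exact h2.trans h4
      _ = C * 64 * ENNReal.ofReal √(PP i : ℝ)⁻¹ *
            ∫⁻ x, ‖g m x‖ₑ ^ 2 * ENNReal.ofReal √|x j| * ENNReal.ofReal √(2 ^ m) := by
          rw [h6, lintegral_mul_const' _ _ ENNReal.ofReal_ne_top]
          ring
      _ ≤ _ := by gcongr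
  -- summation
  have hmeas : ∀ m : ℤ, Measurable (fun x : E n => ‖f x‖ₑ ^ 2 *
      (if (2 : ℝ) ^ m * |x j| < (PP i : ℝ)⁻¹ then ENNReal.ofReal √((2 : ℝ) ^ m * |x j|)
        else 0)) := by
    intro m
    have hx : Measurable (fun x : E n => (2 : ℝ) ^ m * |x j|) := by
      have : Continuous (fun x : E n => (2 : ℝ) ^ m * |x j|) := by fun_prop
      exact this.measurable
    refine (hf.enorm.pow_const 2).mul (Measurable.ite ?_ ?_ measurable_const)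
    · exact measurableSet_lt hx measurable_const
    · exact ENNReal.measurable_ofReal.comp (Real.continuous_sqrt.measurable.comp hx)
  calc ∑' m : ℤ, W i (2 ^ m) (g m)
      ≤ ∑' m : ℤ, (C : ℝ≥0∞) * 64 * ENNReal.ofReal √(PP i : ℝ)⁻¹ *
        ∫⁻ x, ‖f x‖ₑ ^ 2 *
          (if (2 : ℝ) ^ m * |x j| < (PP i : ℝ)⁻¹ then ENNReal.ofReal √((2 : ℝ) ^ m * |x j|)
            else 0) := ENNReal.tsum_le_tsum hone
    _ = (C : ℝ≥0∞) * 64 * ENNReal.ofReal √(PP i : ℝ)⁻¹ *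
        ∫⁻ x, ‖f x‖ₑ ^ 2 * ∑' m : ℤ,
          (if (2 : ℝ) ^ m * |x j| < (PP i : ℝ)⁻¹ then ENNReal.ofReal √((2 : ℝ) ^ m * |x j|)
            else 0) := by
        rw [ENNReal.tsum_mul_left, ← lintegral_tsum fun m => (hmeas m).aemeasurable]
        simp_rw [ENNReal.tsum_mul_left]
    _ ≤ (C : ℝ≥0∞) * 64 * ENNReal.ofReal √(PP i : ℝ)⁻¹ *
        ∫⁻ x, ‖f x‖ₑ ^ 2 * (4 * ENNReal.ofReal √(PP i : ℝ)⁻¹) := by
        gcongr with x
        exact shortSum _ _ (abs_nonneg _) hPinv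
    _ = ((C * 256 : ℝ≥0) : ℝ≥0∞) * (PP i : ℝ≥0∞)⁻¹ * ∫⁻ x, ‖f x‖ₑ ^ 2 := by
        have h12 : (4 : ℝ≥0∞) * ENNReal.ofReal √(PP i : ℝ)⁻¹ ≠ ∞ :=
          ENNReal.mul_ne_top (by norm_num) ENNReal.ofReal_ne_top
        rw [lintegral_mul_const' _ _ h12]
        have h13 : ENNReal.ofReal √(PP i : ℝ)⁻¹ * ENNReal.ofReal √(PP i : ℝ)⁻¹ =
            (PP i : ℝ≥0∞)⁻¹ := by
          rw [← ENNReal.ofReal_mul (Real.sqrt_nonneg _), Real.mul_self_sqrt hPinv.le,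
            ENNReal.ofReal_inv_of_pos hPP, ENNReal.ofReal_natCast]
        calc (C : ℝ≥0∞) * 64 * ENNReal.ofReal √(PP i : ℝ)⁻¹ *
              ((∫⁻ x, ‖f x‖ₑ ^ 2) * (4 * ENNReal.ofReal √(PP i : ℝ)⁻¹))
            = (C : ℝ≥0∞) * (64 * 4) * (ENNReal.ofReal √(PP i : ℝ)⁻¹ *
                ENNReal.ofReal √(PP i : ℝ)⁻¹) * ∫⁻ x, ‖f x‖ₑ ^ 2 := by ring
          _ = _ := by
            rw [h13]
            push_cast
            norm_num

end Pool.Agent.MBS
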