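import Pool.Agent.MBS.Targets

set_option autoImplicit false

/-! J10b: long coordinates, the high frequencies. -/

namespace Pool.Agent.MBS

open MeasureTheory FourierTransform Set
open scoped ENNReal NNReal

theorem j10_card (a : ℝ) (ha : 0 < a) (L : ℕ) :
    ∑' m : ℤ, ({m : ℤ | a ≤ (2 : ℝ) ^ m ∧ (2 : ℝ) ^ m ≤ 2 ^ L * a}.indicator
      (1 : ℤ → ℝ≥0∞) m) ≤ L + 1 := by
  classical
  set k : ℤ := ⌈Real.logb 2 a⌉ with hk
  have hsub : ∀ m : ℤ, a ≤ (2 : ℝ) ^ m → (2 : ℝ) ^ m ≤ 2 ^ L * a → m ∈ Finset.Icc k (k + L) := by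
    intro m h1 h2
    rw [Finset.mem_Icc]
    have hm : Real.logb 2 ((2 : ℝ) ^ m) = m := by
      rw [← Real.rpow_intCast, Real.logb_rpow (by norm_num) (by norm_num)]
    constructor
    · rw [hk, Int.ceil_le, ← hm]
      exact Real.logb_le_logb_of_le (by norm_num) ha h1
    · have h3 : (m : ℝ) ≤ L + Real.logb 2 a := by
        rw [← hm]
        refine (Real.logb_le_logb_of_le (by norm_num) (by positivity) h2).trans ?_
        rw [Real.logb_mul (by positivity) ha.ne', Real.logb_pow, Real.logb_self_eq_one (by norm_num),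
          mul_one]
      have h4 : Real.logb 2 a ≤ k := Int.le_ceil _
      have h5 : (m : ℝ) ≤ ((k + L : ℤ) : ℝ) := by
        push_cast
        linarith
      exact_mod_cast h5
  calc ∑' m : ℤ, ({m : ℤ | a ≤ (2 : ℝ) ^ m ∧ (2 : ℝ) ^ m ≤ 2 ^ L * a}.indicator
      (1 : ℤ → ℝ≥0∞) m)
      ≤ ∑' m : ℤ, ((Finset.Icc k (k + L) : Finset ℤ) : Set ℤ).indicator (1 : ℤ → ℝ≥0∞) m := by
        refine ENNReal.tsum_le_tsum fun m => ?_
        refine indicator_le_indicator_of_subset ?_ (fun _ => bot_le) m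
        rintro m ⟨h1, h2⟩
        exact Finset.mem_coe.2 (hsub m h1 h2)
    _ = L + 1 := by
        rw [tsum_eq_sum (s := Finset.Icc k (k + L))]
        · rw [Finset.sum_congr rfl (g := fun _ => (1 : ℝ≥0∞))]
          · simp only [Finset.sum_const, Int.card_Icc, nsmul_eq_mul, mul_one]
            have : (k + L + 1 - k).toNat = L + 1 := by omega
            rw [this]
            push_cast
            rfl
          · intro m hm
            rw [indicator_of_mem (Finset.mem_coe.2 hm)]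
            rfl
        · intro m hm
          exact indicator_of_notMem (by simpa using hm) _

theorem j10_chi_nonneg (u : ℝ) : 0 ≤ chi u := by
  unfold chi
  exact le_min zero_le_one (le_max_left _ _)

theorem j10_chi_le_one (u : ℝ) : chi u ≤ 1 := min_le_left _ _

theorem j10_chi_lip (u v : ℝ) : |chi u - chi v| ≤ |u - v| := by
  unfold chi
  have h1 : |min 1 (max 0 (|u| - 1)) - min 1 (max 0 (|v| - 1))| ≤
      |max 0 (|u| - 1) - max 0 (|v| - 1)| := by
    have := abs_min_sub_min_le_max (1 : ℝ) (max 0 (|u| - 1)) 1 (max 0 (|v| - 1))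
    simpa using this
  have h2 : |max 0 (|u| - 1) - max 0 (|v| - 1)| ≤ |(|u| - 1) - (|v| - 1)| := by
    have := abs_max_sub_max_le_max (0 : ℝ) (|u| - 1) 0 (|v| - 1)
    simpa using this
  have h3 : |(|u| - 1) - (|v| - 1)| ≤ |u - v| := by
    have : (|u| - 1) - (|v| - 1) = |u| - |v| := by ring
    rw [this]
    exact abs_abs_sub_abs_le_abs_sub u v
  exact h1.trans (h2.trans h3)

theorem j10_chi_ne (u : ℝ) (h : chi u ≠ 0) : 1 < |u| := by
  by_contra hc
  apply h
  unfold chi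
  have : max 0 (|u| - 1) = 0 := max_eq_left (by linarith)
  rw [this]
  norm_num

theorem j10_chi_one (u : ℝ) (h : 2 ≤ |u|) : chi u = 1 := by
  unfold chi
  have h1 : (1 : ℝ) ≤ max 0 (|u| - 1) := le_max_of_le_right (by linarith)
  exact min_eq_left h1

theorem j10_chi_diff (u v : ℝ) (h : |u - v| ≤ 1 / 2) (hne : chi u ≠ chi v) :
    1 / 2 ≤ |u| ∧ |u| ≤ 5 / 2 := by
  have h1 : |u| - |v| ≤ 1 / 2 := (abs_sub_abs_le_abs_sub u v).trans h
  have h2 : |v| - |u| ≤ 1 / 2 := by
    refine (abs_sub_abs_le_abs_sub v u).trans ?_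
    rwa [abs_sub_comm]
  constructor
  · by_contra hc
    push Not at hc
    have hu : chi u = 0 := by
      by_contra h0
      have := j10_chi_ne u h0
      linarith
    have hv : chi v = 0 := by
      by_contra h0
      have := j10_chi_ne v h0
      linarith
    exact hne (hu.trans hv.symm)
  · by_contra hc
    push Not at hc
    exact hne ((j10_chi_one u (by linarith)).trans (j10_chi_one v (by linarith)).symm)

/-- the pointwise estimate -/
theorem j10_point (P c t u : ℝ) (hP : 4 ≤ P) (hc : 0 < c) (ht1 : P / c ≤ t) (ht2 : t ≤ 2 * (P / c))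
    (th : ℝ) (hth : |th| ≤ 1) (z w : ℂ) :
    ‖((th * chi (c * (u + t) / P ^ 2) : ℝ) : ℂ) * z - ((th * chi (c * u / P ^ 2) : ℝ) : ℂ) * w‖ₑ ^ 2 ≤
      2 * (if t ≤ 2 / P * |u| then ‖z - w‖ₑ ^ 2 else 0) +
      2 * (ENNReal.ofReal (4 / P ^ 2) *
        (if 1 / 2 ≤ |c * (u + t) / P ^ 2| ∧ |c * (u + t) / P ^ 2| ≤ 5 / 2 then ‖z‖ₑ ^ 2 else 0)) := by
  have hP0 : 0 < P := by linarith
  have ht0 : 0 < t := lt_of_lt_of_le (by positivity) ht1
  set A : ℝ := if t ≤ 2 / P * |u| then ‖z - w‖ else 0 with hA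
  set B : ℝ := 2 / P * (if 1 / 2 ≤ |c * (u + t) / P ^ 2| ∧ |c * (u + t) / P ^ 2| ≤ 5 / 2
    then ‖z‖ else 0) with hB
  have hA0 : 0 ≤ A := by
    rw [hA]; split_ifs <;> positivity
  have hB0 : 0 ≤ B := by
    rw [hB]
    refine mul_nonneg (by positivity) ?_
    split_ifs <;> positivity
  have hct : c * t ≤ 2 * P := by
    have := mul_le_mul_of_nonneg_left ht2 hc.le
    have h2 : c * (2 * (P / c)) = 2 * P := by field_simp
    linarith
  have hdiff : |c * (u + t) / P ^ 2 - c * u / P ^ 2| ≤ 2 / P := by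
    have : c * (u + t) / P ^ 2 - c * u / P ^ 2 = c * t / P ^ 2 := by ring
    rw [this, abs_of_nonneg (by positivity), div_le_div_iff₀ (by positivity) hP0]
    nlinarith
  have hhalf : 2 / P ≤ 1 / 2 := by
    rw [div_le_div_iff₀ hP0 (by norm_num)]
    linarith
  have key : ‖((th * chi (c * (u + t) / P ^ 2) : ℝ) : ℂ) * z -
      ((th * chi (c * u / P ^ 2) : ℝ) : ℂ) * w‖ ≤ A + B := by
    have e1 : ((th * chi (c * (u + t) / P ^ 2) : ℝ) : ℂ) * z -
        ((th * chi (c * u / P ^ 2) : ℝ) : ℂ) * w =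
        ((th : ℝ) : ℂ) * (((chi (c * u / P ^ 2) : ℝ) : ℂ) * (z - w) +
          ((chi (c * (u + t) / P ^ 2) - chi (c * u / P ^ 2) : ℝ) : ℂ) * z) := by
      push_cast
      ring
    rw [e1, norm_mul, Complex.norm_real, Real.norm_eq_abs]
    refine (mul_le_of_le_one_left (norm_nonneg _) hth).trans ?_
    refine (norm_add_le _ _).trans (add_le_add ?_ ?_)
    · rw [norm_mul, Complex.norm_real, Real.norm_eq_abs, abs_of_nonneg (j10_chi_nonneg _), hA]
      split_ifs with h
      · exact mul_le_of_le_one_left (norm_nonneg _) (j10_chi_le_one _)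
      · have hz : chi (c * u / P ^ 2) = 0 := by
          by_contra h0
          have h1 := j10_chi_ne _ h0
          apply h
          rw [abs_div, abs_mul, abs_of_pos hc, abs_of_pos (by positivity : 0 < P ^ 2),
            lt_div_iff₀ (by positivity)] at h1
          have h2 : P / c * P ≤ |u| := by
            rw [div_mul_eq_mul_div, div_le_iff₀ hc]
            nlinarith
          have h3 : 2 * (P / c) ≤ 2 / P * |u| := by
            rw [div_mul_eq_mul_div, le_div_iff₀ hP0]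
            nlinarith
          linarith
        rw [hz, zero_mul]
    · rw [norm_mul, Complex.norm_real, Real.norm_eq_abs, hB]
      split_ifs with h
      · exact mul_le_mul_of_nonneg_right ((j10_chi_lip _ _).trans hdiff) (norm_nonneg _)
      · have hz : chi (c * (u + t) / P ^ 2) = chi (c * u / P ^ 2) := by
          by_contra h0
          exact h (j10_chi_diff _ _ (hdiff.trans hhalf) h0)
        rw [hz, sub_self, abs_zero, zero_mul, mul_zero]
  have hsq : ‖((th * chi (c * (u + t) / P ^ 2) : ℝ) : ℂ) * z -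
      ((th * chi (c * u / P ^ 2) : ℝ) : ℂ) * w‖ ^ 2 ≤ 2 * A ^ 2 + 2 * B ^ 2 := by
    refine (pow_le_pow_left₀ (norm_nonneg _) key 2).trans ?_
    nlinarith [sq_nonneg (A - B)]
  have h1 : ∀ v : ℂ, ‖v‖ₑ ^ 2 = ENNReal.ofReal (‖v‖ ^ 2) := by
    intro v
    rw [← ofReal_norm, ← ENNReal.ofReal_pow (norm_nonneg _)]
  rw [h1]
  refine (ENNReal.ofReal_le_ofReal hsq).trans ?_
  rw [ENNReal.ofReal_add (by positivity) (by positivity), ENNReal.ofReal_mul (by norm_num),
    ENNReal.ofReal_mul (by norm_num), ENNReal.ofReal_ofNat]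
  refine add_le_add (mul_le_mul' le_rfl ?_) (mul_le_mul' le_rfl ?_)
  · rw [hA]
    split_ifs
    · rw [h1]
    · simp
  · rw [hB, mul_pow, ENNReal.ofReal_mul (by positivity)]
    refine mul_le_mul' (le_of_eq ?_) ?_
    · congr 1
      ring
    · split_ifs
      · rw [h1]
      · simp

theorem j10_coord {n : ℕ} (j : Fin n) (x : E n) (t : ℝ) : (x + t • e j) j = x j + t := by
  simp [e]

theorem j10_int_inv (t0 : ℝ) (h : 0 < t0) :
    ∫⁻ t in Icc t0 (2 * t0), ENNReal.ofReal t⁻¹ ≤ 1 := by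
  calc ∫⁻ t in Icc t0 (2 * t0), ENNReal.ofReal t⁻¹
      ≤ ∫⁻ _ in Icc t0 (2 * t0), ENNReal.ofReal t0⁻¹ := by
        refine setLIntegral_mono measurable_const fun t ht => ?_
        exact ENNReal.ofReal_le_ofReal (inv_anti₀ h ht.1)
    _ = 1 := by
        rw [setLIntegral_const, Real.volume_Icc, ← ENNReal.ofReal_mul (by positivity)]
        have : t0⁻¹ * (2 * t0 - t0) = 1 := by
          field_simp
          ring
        rw [this, ENNReal.ofReal_one]

/-- sum over the dyadic time intervals -/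
theorem j10_sum_t (P : ℝ) (hP : 0 < P) (H : ℝ → ℝ≥0∞) (hH : Measurable H) :
    ∑' m : ℤ, ∫⁻ t in Icc (P / 2 ^ m) (2 * (P / 2 ^ m)), H t ≤ 2 * ∫⁻ t in Ioi 0, H t := by
  have h1 : ∀ m : ℤ, ∫⁻ t in Icc (P / 2 ^ m) (2 * (P / 2 ^ m)), H t =
      ∫⁻ t, (Icc (P / 2 ^ m) (2 * (P / 2 ^ m))).indicator H t := fun m =>
    (lintegral_indicator measurableSet_Icc _).symm
  simp_rw [h1]
  rw [← lintegral_tsum (fun m => (hH.indicator measurableSet_Icc).aemeasurable),
    ← lintegral_const_mul _ hH, ← lintegral_indicator measurableSet_Ioi]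
  refine lintegral_mono fun t => ?_
  by_cases ht : 0 < t
  · rw [indicator_of_mem (mem_Ioi.2 ht)]
    have h2 : ∀ m : ℤ, (Icc (P / 2 ^ m) (2 * (P / 2 ^ m))).indicator H t =
        ({m : ℤ | P / t ≤ (2 : ℝ) ^ m ∧ (2 : ℝ) ^ m ≤ 2 ^ 1 * (P / t)}.indicator
          (1 : ℤ → ℝ≥0∞) m) * H t := by
      intro m
      have hc : (0 : ℝ) < 2 ^ m := by positivity
      have hiff : t ∈ Icc (P / 2 ^ m) (2 * (P / 2 ^ m)) ↔
          m ∈ {m : ℤ | P / t ≤ (2 : ℝ) ^ m ∧ (2 : ℝ) ^ m ≤ 2 ^ 1 * (P / t)} := by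
        simp only [mem_Icc, mem_ofPred_eq, pow_one]
        rw [div_le_iff₀ hc, div_le_iff₀ ht, mul_div_assoc', le_div_iff₀ hc, mul_div_assoc',
          le_div_iff₀ ht, mul_comm t]
      by_cases hm : t ∈ Icc (P / 2 ^ m) (2 * (P / 2 ^ m))
      · rw [indicator_of_mem hm, indicator_of_mem (hiff.1 hm), Pi.one_apply, one_mul]
      · rw [indicator_of_notMem hm, indicator_of_notMem (fun h => hm (hiff.2 h)), zero_mul]
    simp_rw [h2]
    rw [ENNReal.tsum_mul_right]
    refine mul_le_mul' ((j10_card (P / t) (by positivity) 1).trans ?_) le_rfl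
    norm_num
  · rw [indicator_of_notMem (by simpa using ht)]
    rw [ENNReal.tsum_eq_zero.2]
    intro m
    refine indicator_of_notMem ?_ _
    intro h
    have : (0 : ℝ) < P / 2 ^ m := by positivity
    exact ht (lt_of_lt_of_le this h.1)

/-- sum over the dyadic space annuli -/
theorem j10_sum_x {n : ℕ} (j : Fin n) (P : ℝ) (hP : 0 < P) (F : E n → ℝ≥0∞) (hF : Measurable F) :
    ∑' m : ℤ, ∫⁻ y, (if 1 / 2 ≤ |(2 : ℝ) ^ m * y j / P ^ 2| ∧ |(2 : ℝ) ^ m * y j / P ^ 2| ≤ 5 / 2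
      then F y else 0) ≤ 4 * ∫⁻ y, F y := by
  have hmeas : ∀ m : ℤ, MeasurableSet {y : E n | 1 / 2 ≤ |(2 : ℝ) ^ m * y j / P ^ 2| ∧
      |(2 : ℝ) ^ m * y j / P ^ 2| ≤ 5 / 2} := by
    intro m
    have hcont : Continuous fun y : E n => |(2 : ℝ) ^ m * y j / P ^ 2| := by fun_prop
    exact (measurableSet_le measurable_const hcont.measurable).inter
      (measurableSet_le hcont.measurable measurable_const)
  rw [← lintegral_tsum (fun m => (Measurable.ite (hmeas m) hF measurable_const).aemeasurable),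
    ← lintegral_const_mul _ hF]
  refine lintegral_mono fun y => ?_
  by_cases hy : y j = 0
  · rw [ENNReal.tsum_eq_zero.2]
    · exact bot_le
    · intro m
      rw [if_neg]
      rw [hy]
      norm_num
  · have hy0 : 0 < |y j| := abs_pos.2 hy
    have h2 : ∀ m : ℤ, (if 1 / 2 ≤ |(2 : ℝ) ^ m * y j / P ^ 2| ∧
        |(2 : ℝ) ^ m * y j / P ^ 2| ≤ 5 / 2 then F y else 0) ≤
        ({m : ℤ | P ^ 2 / (2 * |y j|) ≤ (2 : ℝ) ^ m ∧
          (2 : ℝ) ^ m ≤ 2 ^ 3 * (P ^ 2 / (2 * |y j|))}.indicator (1 : ℤ → ℝ≥0∞) m) * F y := by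
      intro m
      have hc : (0 : ℝ) < 2 ^ m := by positivity
      split_ifs with h
      · rw [abs_div, abs_mul, abs_of_pos hc, abs_of_pos (by positivity : 0 < P ^ 2),
          le_div_iff₀ (by positivity), div_le_iff₀ (by positivity)] at h
        rw [indicator_of_mem, Pi.one_apply, one_mul]
        constructor
        · rw [div_le_iff₀ (by positivity)]
          linarith [h.1]
        · rw [mul_div_assoc', le_div_iff₀ (by positivity)]
          nlinarith [h.2, sq_nonneg P]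
      · exact bot_le
    refine (ENNReal.tsum_le_tsum h2).trans ?_
    rw [ENNReal.tsum_mul_right]
    refine mul_le_mul' ((j10_card _ (by positivity) 3).trans ?_) le_rfl
    norm_num

/-- the sum of the first terms is the modulus of smoothness -/
theorem j10_om {n : ℕ} (j : Fin n) (r : ℝ) (f : E n → ℂ) (hf : Measurable f) :
    ∫⁻ t in Ioi (0 : ℝ), (∫⁻ x, (if t ≤ r * |x j| then ‖f (x + t • e j) - f x‖ₑ ^ 2 else 0)) *
      ENNReal.ofReal t⁻¹ = om j r f := by
  have hm : Measurable fun p : ℝ × E n =>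
      (if p.1 ≤ r * |p.2 j| then ‖f (p.2 + p.1 • e j) - f p.2‖ₑ ^ 2 else 0) *
        ENNReal.ofReal p.1⁻¹ := by
    refine Measurable.mul (Measurable.ite ?_ ?_ measurable_const) (by fun_prop)
    · exact measurableSet_le measurable_fst (by fun_prop)
    · have h1 : Measurable fun p : ℝ × E n => f (p.2 + p.1 • e j) := hf.comp (by fun_prop)
      have h2 : Measurable fun p : ℝ × E n => f p.2 := hf.comp measurable_snd
      exact ((h1.sub h2).enorm).pow_const 2
  have h0 : ∀ t : ℝ, (∫⁻ x : E n, (if t ≤ r * |x j| then ‖f (x + t • e j) - f x‖ₑ ^ 2 else 0)) *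
      ENNReal.ofReal t⁻¹ = ∫⁻ x : E n,
        (if t ≤ r * |x j| then ‖f (x + t • e j) - f x‖ₑ ^ 2 else 0) * ENNReal.ofReal t⁻¹ := by
    intro t
    rw [lintegral_mul_const']
    exact ENNReal.ofReal_ne_top
  simp_rw [h0]
  rw [lintegral_lintegral_swap hm.aemeasurable]
  unfold om
  refine lintegral_congr fun x => ?_
  rw [← lintegral_indicator measurableSet_Ioi, ← lintegral_indicator measurableSet_Ioc]
  refine lintegral_congr fun t => ?_
  by_cases ht : 0 < t
  · rw [indicator_of_mem (mem_Ioi.2 ht)]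
    by_cases h2 : t ≤ r * |x j|
    · rw [if_pos h2, indicator_of_mem (mem_Ioc.2 ⟨ht, h2⟩)]
    · rw [if_neg h2, indicator_of_notMem (fun h => h2 (mem_Ioc.1 h).2), zero_mul]
  · rw [indicator_of_notMem (by simpa using ht), indicator_of_notMem (fun h => ht (mem_Ioc.1 h).1)]

theorem pLong (hHigh : tHigh) : tLong := by
  refine ⟨64, ?_⟩
  intro n i j f θ hi hf hfi hf2 hθm hθ1 hθt
  set P : ℝ := (PP i : ℝ) with hPdef
  have hP4 : 4 ≤ P := by
    rw [hPdef]
    have h1 : 2 ≤ i / 4 := by omega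
    have h2 : (4 : ℕ) ≤ PP i := by
      unfold PP
      calc 4 = 2 ^ 2 := by norm_num
        _ ≤ 2 ^ (i / 4) := Nat.pow_le_pow_right (by norm_num) h1
    exact_mod_cast h2
  have hP0 : 0 < P := by linarith
  set g : ℤ → E n → ℂ := fun m x =>
    ((θ m x * chi ((2 : ℝ) ^ m * x j / P ^ 2) : ℝ) : ℂ) * f x with hg
  have hchi : Continuous chi := by
    unfold chi
    fun_prop
  have hgm : ∀ m, Measurable (g m) := by
    intro m
    have h1 : Measurable fun x : E n => chi ((2 : ℝ) ^ m * x j / P ^ 2) :=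
      hchi.measurable.comp (by fun_prop)
    exact (Complex.measurable_ofReal.comp ((hθm m).mul h1)).mul hf
  have hgle : ∀ m x, ‖g m x‖ ≤ ‖f x‖ := by
    intro m x
    rw [hg]
    simp only [norm_mul, Complex.norm_real, Real.norm_eq_abs]
    refine mul_le_of_le_one_left (norm_nonneg _) ?_
    rw [abs_of_nonneg (j10_chi_nonneg _)]
    exact mul_le_one₀ (hθ1 m x) (j10_chi_nonneg _) (j10_chi_le_one _)
  have hgi : ∀ m, Integrable (g m) := fun m =>
    hfi.mono (hgm m).aestronglyMeasurable (Filter.Eventually.of_forall (hgle m))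
  have hg2 : ∀ m, MemLp (g m) 2 := fun m =>
    hf2.mono (hgm m).aestronglyMeasurable (Filter.Eventually.of_forall (hgle m))
  set F1 : ℝ → ℝ≥0∞ := fun t =>
    ∫⁻ x : E n, (if t ≤ 2 / P * |x j| then ‖f (x + t • e j) - f x‖ₑ ^ 2 else 0) with hF1
  set G : ℤ → ℝ≥0∞ := fun m => ∫⁻ y : E n,
    (if 1 / 2 ≤ |(2 : ℝ) ^ m * y j / P ^ 2| ∧ |(2 : ℝ) ^ m * y j / P ^ 2| ≤ 5 / 2
      then ‖f y‖ₑ ^ 2 else 0) with hG
  have hF1m : Measurable F1 := by
    have hm : Measurable fun p : ℝ × E n =>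
        (if p.1 ≤ 2 / P * |p.2 j| then ‖f (p.2 + p.1 • e j) - f p.2‖ₑ ^ 2 else 0) := by
      refine Measurable.ite ?_ ?_ measurable_const
      · exact measurableSet_le measurable_fst (by fun_prop)
      · have h1 : Measurable fun p : ℝ × E n => f (p.2 + p.1 • e j) := hf.comp (by fun_prop)
        have h2 : Measurable fun p : ℝ × E n => f p.2 := hf.comp measurable_snd
        exact ((h1.sub h2).enorm).pow_const 2
    exact hm.lintegral_prod_right'
  have hH1 : Measurable fun t : ℝ => F1 t * ENNReal.ofReal t⁻¹ := hF1m.mul (by fun_prop)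
  -- one scale
  have hone : ∀ m : ℤ, ∫⁻ ξ in {ξ : E n | (2 : ℝ) ^ m / P ≤ |ξ j|}, ‖𝓕 (g m) ξ‖ₑ ^ 2 ≤
      4 * (∫⁻ t in Icc (P / 2 ^ m) (2 * (P / 2 ^ m)), F1 t * ENNReal.ofReal t⁻¹) +
        4 * ENNReal.ofReal (4 / P ^ 2) * G m := by
    intro m
    have hc : (0 : ℝ) < 2 ^ m := by positivity
    have ht0 : 0 < P / (2 : ℝ) ^ m := by positivity
    have h1 := hHigh n j (g m) (P / 2 ^ m) ht0 (hgm m) (hgi m) (hg2 m)
    rw [inv_div] at h1
    refine h1.trans ?_
    have h2 : ∫⁻ t in Icc (P / (2 : ℝ) ^ m) (2 * (P / 2 ^ m)),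
        (∫⁻ x, ‖g m (x + t • e j) - g m x‖ₑ ^ 2) * ENNReal.ofReal t⁻¹ ≤
        ∫⁻ t in Icc (P / (2 : ℝ) ^ m) (2 * (P / 2 ^ m)),
          (2 * (F1 t * ENNReal.ofReal t⁻¹) +
            2 * ENNReal.ofReal (4 / P ^ 2) * G m * ENNReal.ofReal t⁻¹) := by
      refine setLIntegral_mono ?_ ?_
      · exact (hH1.const_mul _).add ((by fun_prop : Measurable fun t : ℝ =>
          ENNReal.ofReal t⁻¹).const_mul _)
      · intro t ht
        have h3 : ∫⁻ x, ‖g m (x + t • e j) - g m x‖ₑ ^ 2 ≤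
            2 * F1 t + 2 * ENNReal.ofReal (4 / P ^ 2) * G m := by
          have h4 : ∀ x : E n, ‖g m (x + t • e j) - g m x‖ₑ ^ 2 ≤
              2 * (if t ≤ 2 / P * |x j| then ‖f (x + t • e j) - f x‖ₑ ^ 2 else 0) +
              2 * (ENNReal.ofReal (4 / P ^ 2) *
                (if 1 / 2 ≤ |(2 : ℝ) ^ m * (x + t • e j) j / P ^ 2| ∧
                    |(2 : ℝ) ^ m * (x + t • e j) j / P ^ 2| ≤ 5 / 2
                  then ‖f (x + t • e j)‖ₑ ^ 2 else 0)) := by
            intro x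
            have h5 := j10_point P (2 ^ m) t (x j) hP4 hc ht.1 ht.2 (θ m x) (hθ1 m x)
              (f (x + t • e j)) (f x)
            rw [j10_coord]
            rw [hg]
            simp only [j10_coord, hθt]
            exact h5
          refine (lintegral_mono h4).trans ?_
          have hmA : Measurable fun x : E n =>
              (if t ≤ 2 / P * |x j| then ‖f (x + t • e j) - f x‖ₑ ^ 2 else 0) := by
            refine Measurable.ite ?_ ?_ measurable_const
            · exact measurableSet_le measurable_const (by fun_prop)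
            · have h1 : Measurable fun x : E n => f (x + t • e j) := hf.comp (by fun_prop)
              exact ((h1.sub hf).enorm).pow_const 2
          rw [lintegral_add_left (hmA.const_mul _), lintegral_const_mul _ hmA,
            lintegral_const_mul' _ _ (by norm_num), lintegral_const_mul' _ _ ENNReal.ofReal_ne_top,
            lintegral_add_right_eq_self (fun y : E n =>
              (if 1 / 2 ≤ |(2 : ℝ) ^ m * y j / P ^ 2| ∧ |(2 : ℝ) ^ m * y j / P ^ 2| ≤ 5 / 2
                then ‖f y‖ₑ ^ 2 else 0)) (t • e j), ← mul_assoc]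
        calc (∫⁻ x, ‖g m (x + t • e j) - g m x‖ₑ ^ 2) * ENNReal.ofReal t⁻¹
            ≤ (2 * F1 t + 2 * ENNReal.ofReal (4 / P ^ 2) * G m) * ENNReal.ofReal t⁻¹ :=
              mul_le_mul' h3 le_rfl
          _ = _ := by ring
    refine (mul_le_mul' le_rfl h2).trans ?_
    rw [lintegral_add_left (hH1.const_mul _),
      lintegral_const_mul _ hH1, lintegral_const_mul _ (by fun_prop)]
    calc 2 * (2 * (∫⁻ t in Icc (P / (2 : ℝ) ^ m) (2 * (P / 2 ^ m)), F1 t * ENNReal.ofReal t⁻¹) +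
          2 * ENNReal.ofReal (4 / P ^ 2) * G m *
            ∫⁻ t in Icc (P / (2 : ℝ) ^ m) (2 * (P / 2 ^ m)), ENNReal.ofReal t⁻¹)
        ≤ 2 * (2 * (∫⁻ t in Icc (P / (2 : ℝ) ^ m) (2 * (P / 2 ^ m)), F1 t * ENNReal.ofReal t⁻¹) +
          2 * ENNReal.ofReal (4 / P ^ 2) * G m * 1) := by
          gcongr
          exact j10_int_inv _ ht0
      _ = _ := by ring
  refine (ENNReal.tsum_le_tsum hone).trans ?_
  rw [ENNReal.tsum_add, ENNReal.tsum_mul_left, ENNReal.tsum_mul_left]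
  have hA : ∑' m : ℤ, ∫⁻ t in Icc (P / (2 : ℝ) ^ m) (2 * (P / 2 ^ m)),
      F1 t * ENNReal.ofReal t⁻¹ ≤ 2 * om j (2 / P) f := by
    refine (j10_sum_t P hP0 _ hH1).trans ?_
    rw [← j10_om j (2 / P) f hf]
  have hB : ∑' m : ℤ, G m ≤ 4 * ∫⁻ x, ‖f x‖ₑ ^ 2 :=
    j10_sum_x j P hP0 _ (hf.enorm.pow_const 2)
  have hPinv : ENNReal.ofReal (4 / P ^ 2) ≤ 4 * (PP i : ℝ≥0∞)⁻¹ := by
    have h1 : (PP i : ℝ≥0∞) = ENNReal.ofReal P := by
      rw [hPdef, ENNReal.ofReal_natCast]
    rw [h1, ← ENNReal.ofReal_inv_of_pos hP0, ← ENNReal.ofReal_ofNat 4,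
      ← ENNReal.ofReal_mul (by norm_num)]
    refine ENNReal.ofReal_le_ofReal ?_
    rw [← div_eq_mul_inv, div_le_div_iff₀ (by positivity) hP0]
    nlinarith
  calc 4 * (∑' m : ℤ, ∫⁻ t in Icc (P / (2 : ℝ) ^ m) (2 * (P / 2 ^ m)),
      F1 t * ENNReal.ofReal t⁻¹) + 4 * ENNReal.ofReal (4 / P ^ 2) * ∑' m : ℤ, G m
      ≤ 4 * (2 * om j (2 / P) f) + 4 * (4 * (PP i : ℝ≥0∞)⁻¹) * (4 * ∫⁻ x, ‖f x‖ₑ ^ 2) := by
        gcongr
    _ = 8 * om j (2 / P) f + 64 * ((PP i : ℝ≥0∞)⁻¹ * ∫⁻ x, ‖f x‖ₑ ^ 2) := by ring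
    _ ≤ 64 * om j (2 / P) f + 64 * ((PP i : ℝ≥0∞)⁻¹ * ∫⁻ x, ‖f x‖ₑ ^ 2) := by
        gcongr
        norm_num
    _ = _ := by
        push_cast
        ring

end Pool.Agent.MBS
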