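import Pool.Agent.MBS.Targets

set_option autoImplicit false

/-! J16: boxes for convex bodies -/

namespace Pool.Agent.MBS

open MeasureTheory Set
open scoped ENNReal NNReal

namespace J16

/-- the linear map with matrix `U` -/
noncomputable def LU {n : ℕ} (U : Matrix (Fin n) (Fin n) ℝ) : E n →ₗ[ℝ] E n :=
  Matrix.toLin (EuclideanSpace.basisFun (Fin n) ℝ).toBasis
    (EuclideanSpace.basisFun (Fin n) ℝ).toBasis U

lemma det_LU {n : ℕ} (U : Matrix (Fin n) (Fin n) ℝ) : LinearMap.det (LU U) = U.det :=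
  LinearMap.det_toLin _ _

lemma LU_apply {n : ℕ} (U : Matrix (Fin n) (Fin n) ℝ) (t : E n) (i : Fin n) :
    LU U t i = ∑ j, U i j * t j := by
  unfold LU
  rw [Matrix.toLin_apply]
  simp [Matrix.mulVec, dotProduct, Finset.sum_apply, Pi.single_apply]

/-- the small cube -/
def TT (n : ℕ) : Set (E n) := {t | ∀ j, 0 ≤ t j ∧ t j ≤ (n : ℝ)⁻¹}

lemma volume_TT (n : ℕ) : volume (TT n) = ENNReal.ofReal ((n : ℝ)⁻¹ ^ n) := by
  have h : TT n = (fun x : E n => (WithLp.ofLp x : Fin n → ℝ)) ⁻¹'
      (Icc (fun _ => (0 : ℝ)) (fun _ => (n : ℝ)⁻¹)) := by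
    ext t
    simp only [TT, mem_ofPred_eq, mem_preimage, mem_Icc, Pi.le_def]
    exact ⟨fun h => ⟨fun j => (h j).1, fun j => (h j).2⟩, fun h j => ⟨h.1 j, h.2 j⟩⟩
  rw [h, (PiLp.volume_preserving_ofLp (Fin n)).measure_preimage
    measurableSet_Icc.nullMeasurableSet, Real.volume_Icc_pi]
  simp only [sub_zero, Finset.prod_const, Finset.card_univ, Fintype.card_fin]
  rw [ENNReal.ofReal_pow (by positivity)]

/-- a triangular system of points in a convex set bounds its volume from below -/
lemma vol_lower {n : ℕ} (K : Set (E n)) (hK : Convex ℝ K) (h0 : (0 : E n) ∈ K)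
    (b : OrthonormalBasis (Fin n) ℝ (E n)) (x : Fin n → E n) (hx : ∀ j, x j ∈ K)
    (hpos : ∀ j, 0 ≤ inner ℝ (b j) (x j)) (htri : ∀ i j, j < i → inner ℝ (b i) (x j) = 0) :
    ENNReal.ofReal ((∏ j, inner ℝ (b j) (x j)) * (n : ℝ)⁻¹ ^ n) ≤ volume K := by
  set U : Matrix (Fin n) (Fin n) ℝ := fun i j => inner ℝ (b i) (x j) with hU
  have hdet : U.det = ∏ j, inner ℝ (b j) (x j) :=
    Matrix.det_of_isUpperTriangular (fun i j hij => htri i j hij)
  have hsub : (LU U) '' (TT n) ⊆ b.repr '' K := by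
    rintro _ ⟨t, ht, rfl⟩
    refine ⟨∑ j, t j • x j, ?_, ?_⟩
    · have hs : ∑ j, t j ≤ 1 := by
        calc ∑ j, t j ≤ ∑ _j : Fin n, (n : ℝ)⁻¹ := Finset.sum_le_sum fun j _ => (ht j).2
          _ = n * (n : ℝ)⁻¹ := by simp
          _ ≤ 1 := by
            by_cases hn : (n : ℝ) = 0
            · rw [hn]; simp
            · rw [mul_inv_cancel₀ hn]
      have h0s : 0 ≤ ∑ j, t j := Finset.sum_nonneg fun j _ => (ht j).1
      rcases h0s.eq_or_lt with h | h
      · have hz : ∀ j ∈ Finset.univ, t j = 0 :=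
          (Finset.sum_eq_zero_iff_of_nonneg fun j _ => (ht j).1).1 h.symm
        have : ∑ j, t j • x j = 0 := Finset.sum_eq_zero fun j hj => by rw [hz j hj, zero_smul]
        rw [this]; exact h0
      · have h1 : ∑ j, (t j / ∑ k, t k) • x j ∈ K := by
          refine hK.sum_mem (fun j _ => div_nonneg (ht j).1 h.le) ?_ fun j _ => hx j
          rw [← Finset.sum_div, div_self h.ne']
        have h2 : ∑ j, t j • x j = (∑ k, t k) • ∑ j, (t j / ∑ k, t k) • x j := by
          rw [Finset.smul_sum]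
          refine Finset.sum_congr rfl fun j _ => ?_
          rw [smul_smul, mul_div_cancel₀ _ h.ne']
        rw [h2]
        have := hK.starConvex h0 |>.smul_mem h1 h.le hs
        exact this
    · ext i
      rw [LU_apply, b.repr_apply_apply, inner_sum]
      refine Finset.sum_congr rfl fun j _ => ?_
      rw [inner_smul_right, mul_comm]
  have hvol : volume ((LU U) '' (TT n)) = ENNReal.ofReal ((∏ j, inner ℝ (b j) (x j)) *
      (n : ℝ)⁻¹ ^ n) := by
    rw [Measure.addHaar_image_linearMap, det_LU, hdet, volume_TT,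
      abs_of_nonneg (Finset.prod_nonneg fun j _ => hpos j),
      ← ENNReal.ofReal_mul (Finset.prod_nonneg fun j _ => hpos j)]
  rw [← hvol]
  refine (measure_mono hsub).trans ?_
  have : volume (b.repr '' K) = volume K := by
    have e1 : b.repr '' K = b.repr.symm ⁻¹' K := by
      ext y
      constructor
      · rintro ⟨z, hz, rfl⟩
        simpa using hz
      · intro hy
        exact ⟨b.repr.symm y, hy, by simp⟩
    rw [e1]
    exact b.repr.symm.measurePreserving.measure_preimage_equiv (f := b.repr.symm.toMeasurableEquiv) K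
  rw [this]

/-- a convex set of finite volume containing a ball around `0` is bounded -/
lemma bounded {n : ℕ} (K : Set (E n)) (hK : Convex ℝ K) (ρ : ℝ) (hρ : 0 < ρ)
    (hb : Metric.closedBall (0 : E n) ρ ⊆ K) (hfin : volume K ≠ ⊤) :
    ∃ D : ℝ, ∀ y ∈ K, ‖y‖ ≤ D := by
  refine ⟨(volume K).toReal * ((n : ℝ) ^ n) / ρ ^ (n - 1), fun y hy => ?_⟩
  rcases eq_or_ne y 0 with rfl | hy0
  · rw [norm_zero]; positivity
  have hn : 0 < n := by
    rcases Nat.eq_zero_or_pos n with h | h
    · subst h
      exact absurd (Subsingleton.elim y 0) hy0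
    · exact h
  set u : E n := ‖y‖⁻¹ • y with hu
  have hny : 0 < ‖y‖ := norm_pos_iff.2 hy0
  have hu1 : ‖u‖ = 1 := by
    rw [hu, norm_smul, norm_inv, norm_norm, inv_mul_cancel₀ hny.ne']
  have hort : Orthonormal ℝ (({(⟨0, hn⟩ : Fin n)} : Set (Fin n)).domRestrict
      (fun _ : Fin n => u)) := by
    constructor
    · intro i; exact hu1
    · intro i j hij
      exact absurd (Subtype.ext ((Set.mem_singleton_iff.1 i.2).trans
        (Set.mem_singleton_iff.1 j.2).symm)) hij
  obtain ⟨b, hbb⟩ := hort.exists_orthonormalBasis_extension_of_card_eq (by simp)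
  have hb0 : b ⟨0, hn⟩ = u := hbb _ rfl
  have h0 : (0 : E n) ∈ K := hb (by simpa using hρ.le)
  have hin : ∀ i j, inner ℝ (b i) (b j) = if i = j then (1 : ℝ) else 0 := fun i j =>
    orthonormal_iff_ite.1 b.orthonormal i j
  have hyb : y = ‖y‖ • b ⟨0, hn⟩ := by
    rw [hb0, hu, smul_smul, mul_inv_cancel₀ hny.ne', one_smul]
  have key := vol_lower K hK h0 b (fun j => if j = ⟨0, hn⟩ then y else ρ • b j) (fun j => by
      split_ifs with h
      · exact hy
      · apply hb
        rw [mem_closedBall_zero_iff, norm_smul, b.orthonormal.1 j, mul_one,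
          Real.norm_of_nonneg hρ.le]) (fun j => by
      split_ifs with h
      · rw [h, hyb, inner_smul_right, hin, if_pos rfl, mul_one]
        exact norm_nonneg _
      · rw [inner_smul_right, hin, if_pos rfl, mul_one]; exact hρ.le) (fun i j hij => by
      split_ifs with h
      · rw [hyb, inner_smul_right, hin, if_neg, mul_zero]
        rintro rfl; rw [h] at hij; exact lt_irrefl _ hij
      · rw [inner_smul_right, hin, if_neg hij.ne', mul_zero])
  have hprod : ∏ j, inner ℝ (b j) (if j = ⟨0, hn⟩ then y else ρ • b j) = ‖y‖ * ρ ^ (n - 1) := by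
    rw [← Finset.mul_prod_erase Finset.univ _ (Finset.mem_univ (⟨0, hn⟩ : Fin n))]
    congr 1
    · rw [if_pos rfl]
      conv_lhs => rw [hyb]
      rw [inner_smul_right, hin, if_pos rfl, mul_one]
    · rw [Finset.prod_congr rfl (g := fun _ => ρ)]
      · rw [Finset.prod_const, Finset.card_erase_of_mem (Finset.mem_univ _)]; simp
      · intro j hj
        rw [if_neg (Finset.ne_of_mem_erase hj), inner_smul_right, hin, if_pos rfl, mul_one]
  rw [hprod] at key
  have k2 : ‖y‖ * ρ ^ (n - 1) * (n : ℝ)⁻¹ ^ n ≤ (volume K).toReal := by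
    rwa [← ENNReal.ofReal_le_iff_le_toReal hfin] 
  have hnn : 0 < (n : ℝ) := by exact_mod_cast hn
  rw [le_div_iff₀ (by positivity)]
  calc ‖y‖ * ρ ^ (n - 1) = ‖y‖ * ρ ^ (n - 1) * (n : ℝ)⁻¹ ^ n * (n : ℝ) ^ n := by
        rw [mul_assoc _ ((n : ℝ)⁻¹ ^ n), ← mul_pow, inv_mul_cancel₀ hnn.ne', one_pow, mul_one]
    _ ≤ _ := by gcongr

/-- greedy choice of directions -/
lemma greedy {n : ℕ} (K : Set (E n)) (ρ : ℝ) (hρ : 0 < ρ)
    (hb : Metric.closedBall (0 : E n) ρ ⊆ K) (D : ℝ) (hD : ∀ y ∈ K, ‖y‖ ≤ D) :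
    ∀ k ≤ n, ∃ b x : ℕ → E n, (∀ i < k, ∀ j < k, inner ℝ (b i) (b j) = if i = j then (1 : ℝ) else 0) ∧
      (∀ i < k, x i ∈ K) ∧ (∀ i < k, 0 < inner ℝ (b i) (x i)) ∧
      (∀ y ∈ K, ∀ i < k, |inner ℝ (b i) y| ≤ 2 * inner ℝ (b i) (x i)) ∧
      (∀ i < k, ∀ j < i, inner ℝ (b i) (x j) = 0) ∧
      (∀ j < k, x j ∈ Submodule.span ℝ (b '' Set.Iio k)) := by
  intro k
  induction k with
  | zero => intro _; exact ⟨0, 0, by simp, by simp, by simp, by simp, by simp, by simp⟩
  | succ k ih =>
    intro hk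
    obtain ⟨b, x, h1, h2, h3, h4, h5, h6⟩ := ih (by omega)
    set V : Submodule ℝ (E n) := Submodule.span ℝ (b '' Set.Iio k) with hV
    have hfr : Module.finrank ℝ V < n := by
      have : Module.finrank ℝ V ≤ (Finset.image b (Finset.range k)).card := by
        have e1 : b '' Set.Iio k = ((Finset.image b (Finset.range k) : Finset (E n)) : Set (E n)) := by
          ext z; simp
        rw [hV, e1]
        exact finrank_span_finset_le_card _
      have h' := Finset.card_image_le (s := Finset.range k) (f := b)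
      rw [Finset.card_range] at h'
      omega
    obtain ⟨u, huV, hu1⟩ : ∃ u ∈ Vᗮ, ‖u‖ = 1 := by
      have hne : Vᗮ ≠ ⊥ := by
        intro h
        have := Submodule.finrank_add_finrank_orthogonal V
        rw [h, finrank_bot, finrank_euclideanSpace_fin] at this
        omega
      obtain ⟨w, hw, hw0⟩ := Submodule.exists_mem_ne_zero_of_ne_bot hne
      refine ⟨‖w‖⁻¹ • w, Submodule.smul_mem _ _ hw, ?_⟩
      rw [norm_smul, norm_inv, norm_norm, inv_mul_cancel₀ (norm_ne_zero_iff.2 hw0)]
    set p : E n → E n := fun y => y - V.starProjection y with hp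
    have hpn : ∀ y, ‖p y‖ ≤ ‖y‖ := fun y => by
      have := V.norm_sq_eq_add_norm_sq_starProjection y
      have h2' : ‖p y‖ ^ 2 ≤ ‖y‖ ^ 2 := by
        have e : p y = Vᗮ.starProjection y := by
          rw [hp, Submodule.starProjection_orthogonal']
          rfl
        rw [e]; nlinarith [sq_nonneg ‖V.starProjection y‖]
      exact (sq_le_sq₀ (norm_nonneg _) (norm_nonneg _)).1 h2'
    have hpV : ∀ y, p y ∈ Vᗮ := fun y => V.sub_starProjection_mem_orthogonal y
    have hpr : ∀ y, V.starProjection y ∈ V := fun y => V.starProjection_apply_mem y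
    have hperp : ∀ v ∈ V, ∀ w ∈ Vᗮ, inner ℝ w v = 0 := fun v hv w hw => by
      rw [real_inner_comm]; exact Submodule.inner_right_of_mem_orthogonal hv hw
    have hpu : p (ρ • u) = ρ • u := by
      have : ρ • u ∈ Vᗮ := Submodule.smul_mem _ _ huV
      rw [hp]
      simp only
      rw [(V.starProjection_apply_eq_zero_iff).2 this, sub_zero]
    have huK : ρ • u ∈ K := hb (by
      rw [mem_closedBall_zero_iff, norm_smul, hu1, mul_one, Real.norm_of_nonneg hρ.le])
    set S : Set ℝ := (fun y => ‖p y‖) '' K with hS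
    have hSb : BddAbove S := ⟨D, by rintro _ ⟨y, hy, rfl⟩; exact (hpn y).trans (hD y hy)⟩
    have hS0 : ρ ≤ sSup S := le_csSup hSb ⟨ρ • u, huK, by
      simp only
      rw [hpu, norm_smul, hu1, mul_one, Real.norm_of_nonneg hρ.le]⟩
    obtain ⟨_, ⟨x0, hx0, rfl⟩, hx0s⟩ := exists_lt_of_lt_csSup (s := S)
      ⟨_, ⟨ρ • u, huK, rfl⟩⟩ (show sSup S / 2 < sSup S by linarith)
    simp only at hx0s
    set q : E n := p x0 with hq
    have hq0 : 0 < ‖q‖ := by linarith
    have hqV : q ∈ Vᗮ := hpV x0
    have hsplit : ∀ y, y = p y + V.starProjection y := fun y => by rw [hp]; simp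
    have hinq : ∀ y, inner ℝ q y = inner ℝ q (p y) := fun y => by
      conv_lhs => rw [hsplit y]
      rw [inner_add_right, hperp _ (hpr y) _ hqV, add_zero]
    have hbV : ∀ i < k, b i ∈ V := fun i hi => Submodule.subset_span ⟨i, hi, rfl⟩
    have hbk : ∀ i < k, Function.update b k (‖q‖⁻¹ • q) i = b i := fun i hi =>
      Function.update_of_ne hi.ne _ _
    have hxk : ∀ i < k, Function.update x k x0 i = x i := fun i hi =>
      Function.update_of_ne hi.ne _ _
    have hVle : V ≤ Submodule.span ℝ (Function.update b k (‖q‖⁻¹ • q) '' Set.Iio (k + 1)) := by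
      rw [hV]
      apply Submodule.span_mono
      rintro _ ⟨i, hi, rfl⟩
      exact ⟨i, Nat.lt_succ_of_lt hi, hbk i hi⟩
    refine ⟨Function.update b k (‖q‖⁻¹ • q), Function.update x k x0, ?_, ?_, ?_, ?_, ?_, ?_⟩
    · intro i hi j hj
      rcases Nat.lt_succ_iff_lt_or_eq.1 hi with hi | rfl <;>
        rcases Nat.lt_succ_iff_lt_or_eq.1 hj with hj | rfl
      · rw [hbk i hi, hbk j hj]; exact h1 i hi j hj
      · rw [hbk i hi, Function.update_self, inner_smul_right, if_neg hi.ne, real_inner_comm,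
          hperp _ (hbV i hi) _ hqV, mul_zero]
      · rw [hbk j hj, Function.update_self, inner_smul_left, if_neg hj.ne',
          hperp _ (hbV j hj) _ hqV, mul_zero]
      · rw [Function.update_self, if_pos rfl, inner_smul_left, inner_smul_right,
          real_inner_self_eq_norm_sq]
        simp only [conj_trivial]
        field_simp
    · intro i hi
      rcases Nat.lt_succ_iff_lt_or_eq.1 hi with hi | rfl
      · rw [hxk i hi]; exact h2 i hi
      · rw [Function.update_self]; exact hx0
    · intro i hi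
      rcases Nat.lt_succ_iff_lt_or_eq.1 hi with hi | rfl
      · rw [hxk i hi, hbk i hi]; exact h3 i hi
      · rw [Function.update_self, Function.update_self, inner_smul_left, hinq, ← hq,
          real_inner_self_eq_norm_sq]
        simp only [conj_trivial]
        positivity
    · intro y hy i hi
      rcases Nat.lt_succ_iff_lt_or_eq.1 hi with hi | rfl
      · rw [hxk i hi, hbk i hi]; exact h4 y hy i hi
      · rw [Function.update_self, Function.update_self, inner_smul_left, inner_smul_left, hinq,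
          hinq x0, ← hq, real_inner_self_eq_norm_sq]
        simp only [conj_trivial]
        have e1 : |‖q‖⁻¹ * inner ℝ q (p y)| ≤ ‖p y‖ := by
          rw [abs_mul, abs_of_pos (inv_pos.2 hq0)]
          calc ‖q‖⁻¹ * |inner ℝ q (p y)| ≤ ‖q‖⁻¹ * (‖q‖ * ‖p y‖) := by
                gcongr; exact abs_real_inner_le_norm _ _
            _ = ‖p y‖ := by field_simp
        have e2 : ‖p y‖ ≤ sSup S := le_csSup hSb ⟨y, hy, rfl⟩
        have e3 : ‖q‖⁻¹ * ‖q‖ ^ 2 = ‖q‖ := by field_simp
        rw [e3]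
        linarith
    · intro i hi j hj
      rcases Nat.lt_succ_iff_lt_or_eq.1 hi with hi | rfl
      · rw [hbk i hi, hxk j (hj.trans hi)]; exact h5 i hi j hj
      · rw [Function.update_self, hxk j hj, inner_smul_left, hperp _ (h6 j hj) _ hqV, mul_zero]
    · intro j hj
      rcases Nat.lt_succ_iff_lt_or_eq.1 hj with hj | rfl
      · rw [hxk j hj]; exact hVle (h6 j hj)
      · rw [Function.update_self, hsplit x0]
        refine Submodule.add_mem _ ?_ (hVle (hpr x0))
        have : p x0 = ‖q‖ • (Function.update b j (‖q‖⁻¹ • q) j) := by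
          rw [Function.update_self, smul_smul, mul_inv_cancel₀ hq0.ne', one_smul]
        rw [this]
        exact Submodule.smul_mem _ _ (Submodule.subset_span ⟨j, Nat.lt_succ_self _, rfl⟩)

end J16

theorem pBox : tBox := by
  intro n
  refine ⟨2 ^ n * (n : ℝ) ^ n, fun K hKc hKm hK0 hKf => ?_⟩
  -- an interior point
  obtain ⟨v, hv⟩ : (interior K).Nonempty := by
    rw [Set.nonempty_iff_ne_empty]
    intro h
    have h1 : K ⊆ frontier K := by
      intro y hy
      rw [frontier, h, sdiff_empty]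
      exact subset_closure hy
    have h2 := measure_mono_null h1 (hKc.addHaar_frontier volume)
    exact hK0.ne' h2
  obtain ⟨ρ, hρ, hball⟩ := Metric.isOpen_iff.1 isOpen_interior v hv
  set K0 : Set (E n) := (fun y => y + v) ⁻¹' K with hK0d
  have hK0c : Convex ℝ K0 := hKc.translate_preimage_left v
  have hK0v : volume K0 = volume K := measure_preimage_add_right volume v K
  have hK0b : Metric.closedBall (0 : E n) (ρ / 2) ⊆ K0 := by
    intro y hy
    rw [hK0d, mem_preimage]
    refine interior_subset (hball ?_)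
    rw [mem_closedBall_zero_iff] at hy
    rw [Metric.mem_ball, dist_eq_norm, add_sub_cancel_right]
    linarith
  have hρ2 : 0 < ρ / 2 := by linarith
  have h00 : (0 : E n) ∈ K0 := hK0b (by simpa using hρ2.le)
  obtain ⟨D, hD⟩ := J16.bounded K0 hK0c (ρ / 2) hρ2 hK0b (by rw [hK0v]; exact hKf)
  obtain ⟨b, x, h1, h2, h3, h4, h5, -⟩ := J16.greedy K0 (ρ / 2) hρ2 hK0b D hD n le_rfl
  have hort : Orthonormal ℝ (fun i : Fin n => b i) := by
    rw [orthonormal_iff_ite]
    intro i j
    rw [h1 i i.2 j j.2]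
    simp [Fin.ext_iff]
  obtain ⟨B, hB⟩ : ∃ B : OrthonormalBasis (Fin n) ℝ (E n), ∀ i, B i = b i := by
    have hh : Orthonormal ℝ ((Set.univ : Set (Fin n)).domRestrict (fun i : Fin n => b i)) :=
      hort.comp _ Subtype.val_injective
    obtain ⟨B, hB⟩ := hh.exists_orthonormalBasis_extension_of_card_eq (by simp)
    exact ⟨B, fun i => hB i (mem_univ _)⟩
  refine ⟨B.repr.symm, v, fun j => 2 * inner ℝ (b j) (x j), fun j => ?_, ?_, ?_⟩
  · have := h3 j j.2; positivity
  · intro y hy j
    have := h4 (B.repr.symm y) hy j j.2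
    rwa [← hB j, ← B.repr_apply_apply, LinearIsometryEquiv.apply_symm_apply, hB] at this
  · have hl := J16.vol_lower K0 hK0c h00 B (fun j => x j) (fun j => h2 j j.2)
      (fun j => by rw [hB]; exact (h3 j j.2).le) (fun i j hij => by rw [hB]; exact h5 i i.2 j hij)
    rw [hK0v] at hl
    simp only [hB] at hl
    have hnn : (n : ℝ) ^ n * (n : ℝ)⁻¹ ^ n = 1 := by
      rcases Nat.eq_zero_or_pos n with h | h
      · subst h; simp
      · have : (n : ℝ) ≠ 0 := by exact_mod_cast h.ne'
        rw [← mul_pow, mul_inv_cancel₀ this, one_pow]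
    calc ENNReal.ofReal (∏ j : Fin n, 2 * inner ℝ (b j) (x j))
        = ENNReal.ofReal (2 ^ n * (n : ℝ) ^ n) * ENNReal.ofReal
          ((∏ j : Fin n, inner ℝ (b j) (x j)) * (n : ℝ)⁻¹ ^ n) := by
          rw [← ENNReal.ofReal_mul (by positivity)]
          congr 1
          rw [Finset.prod_mul_distrib, Finset.prod_const, Finset.card_univ, Fintype.card_fin]
          calc _ = 2 ^ n * (∏ j : Fin n, inner ℝ (b j) (x j)) * ((n : ℝ) ^ n * (n : ℝ)⁻¹ ^ n) := by
                rw [hnn, mul_one]
            _ = _ := by ring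
      _ ≤ _ := by gcongr

end Pool.Agent.MBS
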