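import Pool.Agent.MBS.Targets

set_option autoImplicit false

/-! Maximal ball partial sums (MP_ee701d_an), J18: invariance under isometries. -/

namespace Pool.Agent.MBS

open MeasureTheory FourierTransform Set
open scoped ENNReal NNReal

namespace J18

theorem fourier_isom {n : ℕ} (A : E n ≃ₗᵢ[ℝ] E n) (v : E n) (f : E n → ℂ) (x ξ : E n) :
    𝓕 (fun y => f (A y + v)) ξ * ex x ξ = 𝓕 f (A ξ) * ex (A x + v) (A ξ) := by
  have h1 : 𝓕 (fun y => f (A y + v)) ξ = 𝓕 (fun y => f (y + v)) (A ξ) := by
    have := Real.fourier_comp_linearIsometry A (fun y => f (y + v)) ξ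
    exact this
  have h2 : 𝓕 (fun y => f (y + v)) (A ξ) = ex v (A ξ) * 𝓕 f (A ξ) := by
    simp only [Real.fourier_eq']
    rw [← integral_const_mul]
    rw [← integral_add_right_eq_self
      (fun y => ex v (A ξ) * (Complex.exp (↑(-2 * Real.pi * inner ℝ y (A ξ)) * Complex.I) • f y)) v]
    refine integral_congr_ae (Filter.Eventually.of_forall fun y => ?_)
    simp only [smul_eq_mul, ex]
    rw [← mul_assoc, ← Complex.exp_add]
    congr 2
    rw [inner_add_left]
    push_cast
    ring
  rw [h1, h2]
  have h3 : ex (A x + v) (A ξ) = ex x ξ * ex v (A ξ) := by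
    simp only [ex]
    rw [← Complex.exp_add, inner_add_left, A.inner_map_map]
    congr 1
    push_cast
    ring
  rw [h3]
  ring

theorem S_isom {n : ℕ} (A : E n ≃ₗᵢ[ℝ] E n) (v : E n) (f : E n → ℂ) (R : ℝ) (x : E n) :
    S (fun y => f (A y + v)) R x = S f R (A x + v) := by
  unfold S
  simp only [fourier_isom]
  have hA : MeasurePreserving A volume volume := A.measurePreserving
  have := hA.setIntegral_preimage_emb A.toHomeomorph.measurableEmbedding
    (fun η => 𝓕 f η * ex (A x + v) η) (Metric.closedBall (0 : E n) R)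
  rw [← this]
  congr 2
  ext ξ
  simp

theorem T_isom {n : ℕ} (i : ℕ) (A : E n ≃ₗᵢ[ℝ] E n) (v : E n) (f : E n → ℂ) (R : ℝ) (x : E n) :
    T (mul i R) (𝓕 (fun y => f (A y + v))) x = T (mul i R) (𝓕 f) (A x + v) := by
  unfold T
  simp only [fourier_isom]
  have hA : MeasurePreserving A volume volume := A.measurePreserving
  have := hA.integral_comp A.toHomeomorph.measurableEmbedding
    (fun η => ((mul i R η : ℝ) : ℂ) * (𝓕 f η * ex (A x + v) η))
  rw [← this]
  refine integral_congr_ae (Filter.Eventually.of_forall fun ξ => ?_)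
  simp [mul]

end J18

theorem pIsom : tIsom := by
  intro n A v f x
  refine ⟨?_, fun i => ?_⟩
  · unfold Sstar
    simp only [J18.S_isom]
  · unfold Tstar
    simp only [J18.T_isom]

end Pool.Agent.MBS
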