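import Pool.Agent.MBS.Targets

set_option autoImplicit false

/-! J19: quasi-concave functions. -/

namespace Pool.Agent.MBS

open MeasureTheory FourierTransform Set
open scoped ENNReal NNReal

theorem lev_nonneg {n : ℕ} (f : E n → ℝ) (k : ℤ) (x : E n) : 0 ≤ lev f k x :=
  le_min (le_max_right _ _) zero_le_one

theorem lev_le_one {n : ℕ} (f : E n → ℝ) (k : ℤ) (x : E n) : lev f k x ≤ 1 := min_le_right _ _

theorem lt_lev_iff {n : ℕ} (f : E n → ℝ) (k : ℤ) (x : E n) {l : ℝ} (h0 : 0 ≤ l) (h1 : l < 1) :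
    l < lev f k x ↔ (2 : ℝ) ^ k * (1 + l) < f x := by
  have hk : (0 : ℝ) < 2 ^ k := by positivity
  unfold lev
  rw [lt_min_iff, lt_max_iff]
  constructor
  · rintro ⟨h | h, -⟩
    · have : 1 + l < f x / 2 ^ k := by linarith
      rw [lt_div_iff₀ hk] at this
      linarith
    · exact absurd h (not_lt.mpr h0)
  · intro h
    refine ⟨Or.inl ?_, h1⟩
    have : 1 + l < f x / 2 ^ k := by
      rw [lt_div_iff₀ hk]; linarith
    linarith

theorem lev_ne_zero {n : ℕ} (f : E n → ℝ) (k : ℤ) (x : E n) (h : lev f k x ≠ 0) :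
    (2 : ℝ) ^ k < f x := by
  have h1 : 0 < lev f k x := lt_of_le_of_ne (lev_nonneg f k x) (Ne.symm h)
  have := (lt_lev_iff f k x le_rfl zero_lt_one).mp h1
  simpa using this

theorem lev_measurable {n : ℕ} (f : E n → ℝ) (hf : Measurable f) (k : ℤ) :
    Measurable (lev f k) := by
  unfold lev
  exact (((hf.div_const _).sub_const _).max measurable_const).min measurable_const

theorem lev_convex {n : ℕ} (f : E n → ℝ) (k : ℤ)
    (hc : ∀ l : ℝ, 0 < l → Convex ℝ {x | l < f x}) (l : ℝ) : Convex ℝ {x | l < lev f k x} := by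
  rcases lt_or_ge l 0 with h | h
  · have : {x | l < lev f k x} = univ := by
      ext x; simpa using lt_of_lt_of_le h (lev_nonneg f k x)
    rw [this]; exact convex_univ
  · rcases lt_or_ge l 1 with h1 | h1
    · have : {x | l < lev f k x} = {x | (2 : ℝ) ^ k * (1 + l) < f x} := by
        ext x; exact lt_lev_iff f k x h h1
      rw [this]; exact hc _ (by positivity)
    · have : {x | l < lev f k x} = ∅ := by
        ext x; simpa using (lev_le_one f k x).trans h1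
      rw [this]; exact convex_empty

/-- `1/P` against powers of `2` -/
theorem inv_PP (i : ℕ) : ((PP i : ℕ) : ℝ)⁻¹ ≤ 2 * (2 : ℝ) ^ (-((1 / 4 : ℝ) * i)) := by
  have h1 : (2 : ℝ) ^ ((1 / 4 : ℝ) * i) ≤ 2 * (PP i : ℝ) := by
    have h2 : (2 : ℝ) * (PP i : ℝ) = 2 ^ (((i / 4 : ℕ) : ℝ) + 1) := by
      rw [Real.rpow_add (by norm_num), Real.rpow_one, Real.rpow_natCast]
      unfold PP; push_cast; ring
    rw [h2]
    apply Real.rpow_le_rpow_of_exponent_le (by norm_num)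
    have : i < 4 * (i / 4 + 1) := by omega
    have : (i : ℝ) < 4 * (((i / 4 : ℕ) : ℝ) + 1) := by exact_mod_cast this
    linarith
  have hP : (0 : ℝ) < (PP i : ℝ) := by unfold PP; positivity
  rw [Real.rpow_neg (by norm_num), inv_le_iff_one_le_mul₀ hP]
  have h3 : (0 : ℝ) < 2 ^ ((1 / 4 : ℝ) * i) := by positivity
  calc (1 : ℝ) = (2 ^ ((1 / 4 : ℝ) * i)) * (2 ^ ((1 / 4 : ℝ) * i))⁻¹ := by
        rw [mul_inv_cancel₀ h3.ne']
    _ ≤ (2 * (PP i : ℝ)) * (2 ^ ((1 / 4 : ℝ) * i))⁻¹ := by gcongr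
    _ = _ := by ring

theorem decay (i : ℕ) (a : ℝ) (ha : 0 ≤ a) :
    ((i : ℝ) + a) * ((PP i : ℕ) : ℝ)⁻¹ ≤ (16 + 2 * a) * (2 : ℝ) ^ (-((1 / 8 : ℝ) * i)) := by
  have h1 := inv_PP i
  have h2 : (i : ℝ) ≤ 8 * (2 : ℝ) ^ ((1 / 8 : ℝ) * i) := by
    have h3 : (1 / 8 : ℝ) * i + 1 ≤ Real.exp ((1 / 8 : ℝ) * i) := Real.add_one_le_exp _
    have hl : (1 / 2 : ℝ) ≤ Real.log 2 := by linarith [Real.log_two_gt_d9]
    have h4 : Real.log 2 * ((1 / 8 : ℝ) * i) + 1 ≤ (2 : ℝ) ^ ((1 / 8 : ℝ) * i) := by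
      rw [Real.rpow_def_of_pos (by norm_num)]
      exact Real.add_one_le_exp _
    have h5 : Real.log 2 * ((1 / 8 : ℝ) * i) / 2 + 1 ≤ (2 : ℝ) ^ ((1 / 16 : ℝ) * i) := by
      rw [Real.rpow_def_of_pos (by norm_num)]
      refine le_trans ?_ (Real.add_one_le_exp _)
      apply le_of_eq; ring
    have h6 : (2 : ℝ) ^ ((1 / 8 : ℝ) * i) = (2 : ℝ) ^ ((1 / 16 : ℝ) * i) * (2 : ℝ) ^ ((1 / 16 : ℝ) * i) := by
      rw [← Real.rpow_add (by norm_num)]; congr 1; ring
    have h7 : (0 : ℝ) ≤ i := Nat.cast_nonneg i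
    have h8 : (i : ℝ) / 32 + 1 ≤ (2 : ℝ) ^ ((1 / 16 : ℝ) * i) := by
      refine le_trans ?_ h5
      nlinarith
    rw [h6]
    have h9 : ((i : ℝ) / 32 + 1) * ((i : ℝ) / 32 + 1) ≤
        (2 : ℝ) ^ ((1 / 16 : ℝ) * i) * (2 : ℝ) ^ ((1 / 16 : ℝ) * i) := by gcongr
    nlinarith [sq_nonneg ((i : ℝ) - 32)]
  have h0 : (0 : ℝ) ≤ i := Nat.cast_nonneg i
  have hp : (2 : ℝ) ^ (-((1 / 4 : ℝ) * i)) = (2 : ℝ) ^ (-((1 / 8 : ℝ) * i)) * (2 : ℝ) ^ (-((1 / 8 : ℝ) * i)) := by
    rw [← Real.rpow_add (by norm_num)]; congr 1; ring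
  have hq : (2 : ℝ) ^ ((1 / 8 : ℝ) * i) * (2 : ℝ) ^ (-((1 / 8 : ℝ) * i)) = 1 := by
    rw [← Real.rpow_add (by norm_num)]; simp
  have hle : (2 : ℝ) ^ (-((1 / 8 : ℝ) * i)) ≤ 1 := by
    apply Real.rpow_le_one_of_one_le_of_nonpos (by norm_num)
    have : 0 ≤ (1 / 8 : ℝ) * i := by positivity
    linarith
  have hpos : (0 : ℝ) < (2 : ℝ) ^ (-((1 / 8 : ℝ) * i)) := by positivity
  calc ((i : ℝ) + a) * ((PP i : ℕ) : ℝ)⁻¹
      ≤ ((i : ℝ) + a) * (2 * (2 : ℝ) ^ (-((1 / 4 : ℝ) * i))) := by gcongr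
    _ = (i : ℝ) * (2 * (2 : ℝ) ^ (-((1 / 4 : ℝ) * i))) + a * (2 * (2 : ℝ) ^ (-((1 / 4 : ℝ) * i))) := by
        ring
    _ ≤ (8 * (2 : ℝ) ^ ((1 / 8 : ℝ) * i)) * (2 * (2 : ℝ) ^ (-((1 / 4 : ℝ) * i))) +
          a * (2 * (2 : ℝ) ^ (-((1 / 4 : ℝ) * i))) := by gcongr
    _ = 16 * ((2 : ℝ) ^ ((1 / 8 : ℝ) * i) * (2 : ℝ) ^ (-((1 / 8 : ℝ) * i))) * (2 : ℝ) ^ (-((1 / 8 : ℝ) * i)) +
          (2 * a) * (2 : ℝ) ^ (-((1 / 8 : ℝ) * i)) * (2 : ℝ) ^ (-((1 / 8 : ℝ) * i)) := by
        rw [hp]; ring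
    _ = 16 * (2 : ℝ) ^ (-((1 / 8 : ℝ) * i)) +
          (2 * a) * (2 : ℝ) ^ (-((1 / 8 : ℝ) * i)) * (2 : ℝ) ^ (-((1 / 8 : ℝ) * i)) := by
        rw [hq]; ring
    _ ≤ 16 * (2 : ℝ) ^ (-((1 / 8 : ℝ) * i)) +
          (2 * a) * (2 : ℝ) ^ (-((1 / 8 : ℝ) * i)) * 1 := by gcongr
    _ = _ := by ring

theorem volume_level_ne_top {n : ℕ} (f : E n → ℝ) (hi : Integrable f)
    (h0 : ∀ x, 0 ≤ f x) (k : ℤ) : volume {x | (2 : ℝ) ^ k < f x} ≠ ⊤ := by
  have hk : (0 : ℝ) < 2 ^ k := by positivity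
  have h1 : volume {x | (2 : ℝ) ^ k < f x} ≤ volume {x | (2 : ℝ) ^ k ≤ ‖f x‖} := by
    apply measure_mono
    intro x hx
    simp only [mem_ofPred_eq] at hx ⊢
    rw [Real.norm_of_nonneg (h0 x)]
    exact hx.le
  exact ne_top_of_le_ne_top (hi.measure_norm_ge_lt_top hk).ne h1

theorem key (hMain : tMain) (hTriv : tTriv) (hTW : tTstarW) (hBox : tBox) (hOm : tOmConv)
    (hIs : tIsom) (n : ℕ) : ∃ A0 : ℝ, 0 < A0 ∧ ∀ f : E n → ℝ, Measurable f → Integrable f →
      (∀ x, 0 ≤ f x) → (∀ l : ℝ, 0 < l → Convex ℝ {x | l < f x}) →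
      ∀ (k : ℤ) (i : ℕ), ∫⁻ x, Tstar i (fun y => (lev f k y : ℂ)) x ^ 2 ≤
        ENNReal.ofReal (A0 * 2 ^ (-((1 / 8 : ℝ) * i))) * volume {x | (2 : ℝ) ^ k < f x} := by
  obtain ⟨C1, hC1⟩ := hMain n
  obtain ⟨C0, hC0⟩ := hTriv
  obtain ⟨C2, hC2⟩ := hBox n
  obtain ⟨C3, hC3⟩ := hOm n
  refine ⟨2 * C0 + C1 * (16 + 2 * (2 * n * |C3| * |C2|)) + 1, by positivity, ?_⟩
  intro f hf hi h0 hc k i
  set K : Set (E n) := {x | (2 : ℝ) ^ k < f x} with hK
  have hk : (0 : ℝ) < 2 ^ k := by positivity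
  have hKm : MeasurableSet K := measurableSet_lt measurable_const hf
  have hKtop : volume K ≠ ⊤ := volume_level_ne_top f hi h0 k
  by_cases hK0 : volume K = 0
  · -- the piece vanishes almost everywhere
    have hz : (fun y => (lev f k y : ℂ)) =ᵐ[volume] 0 := by
      have : ∀ᵐ x ∂(volume : Measure (E n)), x ∉ K := measure_eq_zero_iff_ae_notMem.mp hK0
      filter_upwards [this] with x hx
      by_contra hne
      apply hx
      apply lev_ne_zero f k x
      intro h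
      apply hne
      simp [h]
    have hF : 𝓕 (fun y => (lev f k y : ℂ)) = 0 := by
      ext ξ
      rw [Real.fourier_eq]
      have : (fun v : E n => Real.fourierChar (-inner ℝ v ξ) • ((lev f k v : ℝ) : ℂ)) =ᵐ[volume] 0 := by
        filter_upwards [hz] with x hx
        simp only [Pi.zero_apply] at hx
        simp [hx]
      rw [integral_congr_ae this]
      simp
    have hT : ∀ x, Tstar i (fun y => (lev f k y : ℂ)) x = 0 := by
      intro x
      unfold Tstar T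
      rw [hF]
      simp
    simp [hT]
  obtain ⟨A, v, r, hr, hAK, hprod⟩ := hC2 K (hc _ hk) hKm (pos_iff_ne_zero.mpr hK0) hKtop
  -- the transported piece
  set g : E n → ℝ := fun x => lev f k (A x + v) with hg
  have hAm : Measurable (fun x : E n => A x + v) := (A.continuous.add continuous_const).measurable
  have hemb : MeasurableEmbedding (fun x : E n => A x + v) :=
    (A.toHomeomorph.trans (Homeomorph.addRight v)).measurableEmbedding
  have hmp : MeasurePreserving (fun x : E n => A x + v) volume volume :=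
    (measurePreserving_add_right volume v).comp A.measurePreserving
  have hgm : Measurable g := (lev_measurable f hf k).comp hAm
  have hg0 : ∀ x, 0 ≤ g x := fun x => lev_nonneg f k _
  have hg1 : ∀ x, g x ≤ 1 := fun x => lev_le_one f k _
  have hgK : ∀ x, g x ≠ 0 → A x + v ∈ K := fun x hx => lev_ne_zero f k _ hx
  set gC : E n → ℂ := fun x => (g x : ℂ) with hgC
  have hgCm : Measurable gC := Complex.measurable_ofReal.comp hgm
  set K' : Set (E n) := (fun x : E n => A x + v) ⁻¹' K with hK'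
  have hK'v : volume K' = volume K := hmp.measure_preimage hKm.nullMeasurableSet
  have hK'm : MeasurableSet K' := hAm hKm
  have hbd : ∀ x, ‖gC x‖ₑ ≤ K'.indicator 1 x := by
    intro x
    by_cases hx : x ∈ K'
    · rw [indicator_of_mem hx, hgC]
      simp only [Pi.one_apply]
      rw [← ofReal_norm, Complex.norm_real, Real.norm_of_nonneg (hg0 x)]
      exact ENNReal.ofReal_le_one.mpr (hg1 x)
    · have : g x = 0 := by
        by_contra h
        exact hx (hgK x h)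
      rw [hgC]
      simp [this]
  have hInt2 : ∫⁻ x, ‖gC x‖ₑ ^ 2 ≤ volume K := by
    calc ∫⁻ x, ‖gC x‖ₑ ^ 2 ≤ ∫⁻ x, K'.indicator 1 x := by
          apply lintegral_mono
          intro x
          by_cases hx : x ∈ K'
          · have := hbd x
            rw [indicator_of_mem hx] at this ⊢
            simp only [Pi.one_apply] at this ⊢
            exact pow_le_one₀ (by positivity) this
          · have := hbd x
            rw [indicator_of_notMem hx] at this ⊢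
            have : ‖gC x‖ₑ = 0 := le_antisymm this (by positivity)
            simp [this]
      _ = volume K' := by rw [lintegral_indicator_one hK'm]
      _ = volume K := hK'v
  have hInt1 : ∫⁻ x, ‖gC x‖ₑ ≤ volume K := by
    calc ∫⁻ x, ‖gC x‖ₑ ≤ ∫⁻ x, K'.indicator 1 x := lintegral_mono hbd
      _ = volume K' := by rw [lintegral_indicator_one hK'm]
      _ = volume K := hK'v
  have hgi : Integrable gC := ⟨hgCm.aestronglyMeasurable,
    lt_of_le_of_lt hInt1 (lt_top_iff_ne_top.mpr hKtop)⟩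
  have hgL : MemLp gC 2 := by
    refine ⟨hgCm.aestronglyMeasurable, ?_⟩
    rw [eLpNorm_lt_top_iff_lintegral_rpow_enorm_lt_top (by norm_num) (by norm_num)]
    have : ∫⁻ x, ‖gC x‖ₑ ^ (ENNReal.toReal 2) = ∫⁻ x, ‖gC x‖ₑ ^ 2 := by
      congr 1; ext x
      simp
    rw [this]
    exact lt_of_le_of_lt hInt2 (lt_top_iff_ne_top.mpr hKtop)
  -- change of variables
  have hchg : ∫⁻ x, Tstar i (fun y => (lev f k y : ℂ)) x ^ 2 = ∫⁻ x, Tstar i gC x ^ 2 := by
    rw [← hmp.lintegral_comp_emb hemb]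
    apply lintegral_congr
    intro x
    rw [← (hIs n A v (fun y => (lev f k y : ℂ)) x).2 i]
  have hW := hTW n i gC hgi
  rw [hchg]
  refine le_trans hW ?_
  have h2pos : (0 : ℝ) < 2 ^ (-((1 / 8 : ℝ) * i)) := by positivity
  rcases lt_or_ge i 8 with hi8 | hi8
  · refine le_trans (hC0 n i gC hgi hgL) ?_
    have hhalf : (1 / 2 : ℝ) ≤ 2 ^ (-((1 / 8 : ℝ) * i)) := by
      have : (1 / 2 : ℝ) = 2 ^ (-1 : ℝ) := by
        rw [Real.rpow_neg (by norm_num), Real.rpow_one]; norm_num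
      rw [this]
      apply Real.rpow_le_rpow_of_exponent_le (by norm_num)
      have : (i : ℝ) ≤ 8 := by exact_mod_cast hi8.le
      linarith
    calc (C0 : ℝ≥0∞) * ∫⁻ x, ‖gC x‖ₑ ^ 2 ≤ C0 * volume K := by gcongr
      _ = ENNReal.ofReal (C0 : ℝ) * volume K := by rw [ENNReal.ofReal_coe_nnreal]
      _ ≤ _ := by
        gcongr
        have hC0' : (0 : ℝ) ≤ C0 := C0.2
        have hrest : (0 : ℝ) ≤ C1 * (16 + 2 * (2 * n * |C3| * |C2|)) := by positivity
        nlinarith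
  · refine le_trans (hC1 i gC hi8 hgCm hgi hgL) ?_
    have hPpos : (0 : ℝ) < (PP i : ℝ) := by unfold PP; positivity
    have hP4 : (4 : ℝ) ≤ (PP i : ℝ) := by
      have : 4 ≤ PP i := by
        unfold PP
        calc 4 = 2 ^ 2 := by norm_num
          _ ≤ 2 ^ (i / 4) := Nat.pow_le_pow_right (by norm_num) (by omega)
      exact_mod_cast this
    have hrho0 : (0 : ℝ) < 2 / (PP i : ℝ) := by positivity
    have hrho : 2 / (PP i : ℝ) ≤ 1 / 2 := by
      rw [div_le_iff₀ hPpos]; linarith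
    have hgconv : ∀ l : ℝ, Convex ℝ {x | l < g x} := by
      intro l
      have h1 := lev_convex f k hc l
      have h2 : {x | l < g x} = (fun x : E n => A x + v) ⁻¹' {x | l < lev f k x} := rfl
      rw [h2]
      have h3 : (fun x : E n => A x + v) ⁻¹' {x | l < lev f k x} =
          (A.toLinearEquiv.toLinearMap) ⁻¹' ((fun z : E n => z + v) ⁻¹' {x | l < lev f k x}) := rfl
      rw [h3]
      apply Convex.linear_preimage
      exact h1.translate_preimage_left v
    have hom : ∀ j, om j (2 / (PP i : ℝ)) gC ≤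
        ENNReal.ofReal (|C3| * |C2| * (2 / (PP i : ℝ))) * volume K := by
      intro j
      refine le_trans (hC3 g r j (2 / (PP i : ℝ)) hgm hg0 hg1 hgconv ?_ hrho0 hrho) ?_
      · intro x hx j
        exact hAK x (hgK x hx) j
      · have hpp : 0 ≤ ∏ j, r j := Finset.prod_nonneg (fun j _ => (hr j).le)
        calc ENNReal.ofReal (C3 * (2 / (PP i : ℝ)) * ∏ j, r j)
            ≤ ENNReal.ofReal (|C3| * (2 / (PP i : ℝ)) * ∏ j, r j) := by
              apply ENNReal.ofReal_le_ofReal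
              gcongr
              exact le_abs_self _
          _ = ENNReal.ofReal (|C3| * (2 / (PP i : ℝ))) * ENNReal.ofReal (∏ j, r j) := by
              rw [ENNReal.ofReal_mul (by positivity)]
          _ ≤ ENNReal.ofReal (|C3| * (2 / (PP i : ℝ))) * (ENNReal.ofReal C2 * volume K) := by
              gcongr
          _ ≤ ENNReal.ofReal (|C3| * (2 / (PP i : ℝ))) * (ENNReal.ofReal |C2| * volume K) := by
              gcongr
              exact le_abs_self _
          _ = _ := by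
              rw [← mul_assoc, ← ENNReal.ofReal_mul (by positivity)]
              congr 2
              ring
    have hsum : ∑ j, om j (2 / (PP i : ℝ)) gC ≤
        ENNReal.ofReal (n * (|C3| * |C2| * (2 / (PP i : ℝ)))) * volume K := by
      calc ∑ j, om j (2 / (PP i : ℝ)) gC
          ≤ ∑ _j : Fin n, ENNReal.ofReal (|C3| * |C2| * (2 / (PP i : ℝ))) * volume K :=
            Finset.sum_le_sum (fun j _ => hom j)
        _ = _ := by
            rw [Finset.sum_const, Finset.card_univ, Fintype.card_fin, nsmul_eq_mul,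
              ENNReal.ofReal_mul (p := (n : ℝ)) (by positivity), ENNReal.ofReal_natCast]
            ring
    have hfirst : (i : ℝ≥0∞) * (PP i : ℝ≥0∞)⁻¹ = ENNReal.ofReal ((i : ℝ) * ((PP i : ℕ) : ℝ)⁻¹) := by
      rw [ENNReal.ofReal_mul (by positivity), ENNReal.ofReal_natCast,
        ENNReal.ofReal_inv_of_pos hPpos, ENNReal.ofReal_natCast]
    calc (C1 : ℝ≥0∞) * ((i : ℝ≥0∞) * (PP i : ℝ≥0∞)⁻¹ * (∫⁻ x, ‖gC x‖ₑ ^ 2) +
          ∑ j, om j (2 / (PP i : ℝ)) gC)
        ≤ C1 * (ENNReal.ofReal ((i : ℝ) * ((PP i : ℕ) : ℝ)⁻¹) * volume K +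
          ENNReal.ofReal (n * (|C3| * |C2| * (2 / (PP i : ℝ)))) * volume K) := by
          rw [hfirst]
          gcongr
      _ = ENNReal.ofReal (C1 * ((i : ℝ) * ((PP i : ℕ) : ℝ)⁻¹ +
            n * (|C3| * |C2| * (2 / (PP i : ℝ))))) * volume K := by
          rw [ENNReal.ofReal_mul (p := (C1 : ℝ)) (by positivity),
            ENNReal.ofReal_add (by positivity) (by positivity), ENNReal.ofReal_coe_nnreal]
          ring
      _ ≤ _ := by
          refine mul_le_mul_left ?_ _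
          apply ENNReal.ofReal_le_ofReal
          have hd := decay i (2 * n * |C3| * |C2|) (by positivity)
          have he : (i : ℝ) * ((PP i : ℕ) : ℝ)⁻¹ + n * (|C3| * |C2| * (2 / (PP i : ℝ))) =
              ((i : ℝ) + (2 * n * |C3| * |C2|)) * ((PP i : ℕ) : ℝ)⁻¹ := by
            rw [div_eq_mul_inv]; ring
          rw [he]
          have hC1' : (0 : ℝ) ≤ C1 := C1.2
          have hC0' : (0 : ℝ) ≤ C0 := C0.2
          calc (C1 : ℝ) * (((i : ℝ) + (2 * n * |C3| * |C2|)) * ((PP i : ℕ) : ℝ)⁻¹)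
              ≤ C1 * ((16 + 2 * (2 * n * |C3| * |C2|)) * (2 : ℝ) ^ (-((1 / 8 : ℝ) * i))) := by
                gcongr
            _ ≤ _ := by nlinarith

theorem pV (hSuper : tSuper) (hMain : tMain) (hTriv : tTriv) (hTW : tTstarW) (hBox : tBox)
    (hOm : tOmConv) (hIs : tIsom) : tV := by
  intro n
  obtain ⟨A0, hA0, hkey⟩ := key hMain hTriv hTW hBox hOm hIs n
  obtain ⟨C, hC⟩ := hSuper n (1 / 8) A0 (by norm_num) hA0
  refine ⟨C, ?_⟩
  intro f hf hi h0 hc
  exact hC f hf hi h0 (hkey f hf hi h0 hc)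

end Pool.Agent.MBS
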