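import Pool.Agent.MBS.Targets

set_option autoImplicit false

/-! J2: Sobolev in `R` for families of multiplier operators. -/

namespace Pool.Agent.MBS

open MeasureTheory Set
open scoped ENNReal NNReal

/-- one-dimensional Sobolev inequality on `[1,2]` -/
lemma sob1 (F F1 : ℝ → ℂ) (l : ℝ) (hl : 0 < l) (hc : ContinuousOn F1 (Icc 1 2))
    (hF : ∀ t ∈ Icc (1 : ℝ) 2, HasDerivAt F (F1 t) t) (R : ℝ) (hR : R ∈ Icc (1 : ℝ) 2) :
    ‖F R‖ ^ 2 ≤ (1 + l) * (∫ r in (1 : ℝ)..2, ‖F r‖ ^ 2) + l⁻¹ * ∫ r in (1 : ℝ)..2, ‖F1 r‖ ^ 2 := by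
  have hFc : ContinuousOn F (Icc 1 2) := fun t ht => (hF t ht).continuousAt.continuousWithinAt
  have hu12 : uIcc (1 : ℝ) 2 = Icc 1 2 := uIcc_of_le (by norm_num)
  have cF2 : ContinuousOn (fun t => ‖F t‖ ^ 2) (Icc 1 2) := hFc.norm.pow 2
  have cF12 : ContinuousOn (fun t => ‖F1 t‖ ^ 2) (Icc 1 2) := hc.norm.pow 2
  have iF2 : IntervalIntegrable (fun t => ‖F t‖ ^ 2) volume 1 2 :=
    (by rw [hu12]; exact cF2 : ContinuousOn _ (uIcc (1 : ℝ) 2)).intervalIntegrable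
  have iF12 : IntervalIntegrable (fun t => ‖F1 t‖ ^ 2) volume 1 2 :=
    (by rw [hu12]; exact cF12 : ContinuousOn _ (uIcc (1 : ℝ) 2)).intervalIntegrable
  obtain ⟨J, hJ⟩ : ∃ J, J = ∫ r in (1 : ℝ)..2, (l * ‖F r‖ ^ 2 + l⁻¹ * ‖F1 r‖ ^ 2) := ⟨_, rfl⟩
  have hJ2 : J = l * (∫ r in (1 : ℝ)..2, ‖F r‖ ^ 2) + l⁻¹ * ∫ r in (1 : ℝ)..2, ‖F1 r‖ ^ 2 := by
    rw [hJ, intervalIntegral.integral_add (iF2.const_mul _) (iF12.const_mul _),
      intervalIntegral.integral_const_mul, intervalIntegral.integral_const_mul]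
  have step : ∀ s ∈ Icc (1 : ℝ) 2, ‖F R‖ ^ 2 ≤ ‖F s‖ ^ 2 + J := by
    intro s hs
    have hsub : uIcc s R ⊆ Icc 1 2 := by
      intro t ht
      exact (convex_Icc (1 : ℝ) 2).ordConnected.uIcc_subset hs hR ht
    have hder : ∀ t ∈ uIcc s R, HasDerivAt (fun t => ‖F t‖ ^ 2) (2 * inner ℝ (F t) (F1 t)) t :=
      fun t ht => (hF t (hsub ht)).norm_sq
    have cI : ContinuousOn (fun t => 2 * inner ℝ (F t) (F1 t)) (Icc 1 2) :=
      continuousOn_const.mul (hFc.inner hc)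
    have e := intervalIntegral.integral_eq_sub_of_hasDerivAt hder
      (cI.mono hsub).intervalIntegrable
    have cM : ContinuousOn (fun t => l * ‖F t‖ ^ 2 + l⁻¹ * ‖F1 t‖ ^ 2) (Icc 1 2) :=
      (continuousOn_const.mul cF2).add (continuousOn_const.mul cF12)
    have hb : |∫ t in s..R, 2 * inner ℝ (F t) (F1 t)| ≤ J := by
      rw [hJ]
      have h1 : |∫ t in s..R, 2 * inner ℝ (F t) (F1 t)| ≤
          |∫ t in s..R, (l * ‖F t‖ ^ 2 + l⁻¹ * ‖F1 t‖ ^ 2)| := by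
        have := intervalIntegral.norm_integral_le_abs_of_norm_le (μ := volume) (a := s) (b := R)
          (f := fun t => 2 * inner ℝ (F t) (F1 t))
          (g := fun t => l * ‖F t‖ ^ 2 + l⁻¹ * ‖F1 t‖ ^ 2) ?_
          (cM.mono hsub).intervalIntegrable
        · exact this
        · refine (ae_restrict_iff' measurableSet_uIoc).mpr
            (Filter.Eventually.of_forall fun t _ => ?_)
          have hi : |inner ℝ (F t) (F1 t)| ≤ ‖F t‖ * ‖F1 t‖ := abs_real_inner_le_norm _ _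
          rw [Real.norm_eq_abs, abs_mul, abs_of_pos (by norm_num : (0 : ℝ) < 2)]
          have hsq : 0 ≤ l⁻¹ * (l * ‖F t‖ - ‖F1 t‖) ^ 2 := by positivity
          have e2 : l⁻¹ * (l * ‖F t‖ - ‖F1 t‖) ^ 2 =
              l * ‖F t‖ ^ 2 + l⁻¹ * ‖F1 t‖ ^ 2 - 2 * (‖F t‖ * ‖F1 t‖) := by
            field_simp
            ring
          linarith
      refine h1.trans ?_
      have hnn : ∀ t, 0 ≤ l * ‖F t‖ ^ 2 + l⁻¹ * ‖F1 t‖ ^ 2 := fun t => by positivity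
      rw [← abs_of_nonneg (intervalIntegral.integral_nonneg (by norm_num : (1 : ℝ) ≤ 2)
        fun t _ => hnn t)]
      refine intervalIntegral.abs_integral_mono_interval ?_
        (Filter.Eventually.of_forall fun t => hnn t)
        (by rw [hu12]; exact cM : ContinuousOn _ (uIcc (1 : ℝ) 2)).intervalIntegrable
      rw [uIoc_of_le (by norm_num : (1 : ℝ) ≤ 2)]
      intro t ht
      rw [mem_uIoc] at ht
      constructor
      · rcases ht with h | h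
        · linarith [hs.1, h.1]
        · linarith [hR.1, h.1]
      · rcases ht with h | h
        · linarith [hR.2, h.2]
        · linarith [hs.2, h.2]
    rw [e] at hb
    have := (abs_le.mp hb).2
    linarith
  have h3 : (∫ _s in (1 : ℝ)..2, ‖F R‖ ^ 2) ≤ ∫ s in (1 : ℝ)..2, (‖F s‖ ^ 2 + J) :=
    intervalIntegral.integral_mono_on (by norm_num) intervalIntegrable_const
      (iF2.add intervalIntegrable_const) step
  rw [intervalIntegral.integral_const, intervalIntegral.integral_add iF2 intervalIntegrable_const,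
    intervalIntegral.integral_const, hJ2] at h3
  norm_num at h3
  linarith

lemma ofReal_intervalIntegral_sq' {F : ℝ → ℂ} (hF : ContinuousOn F (Icc 1 2)) :
    ENNReal.ofReal (∫ r in (1 : ℝ)..2, ‖F r‖ ^ 2) = ∫⁻ r in Icc (1 : ℝ) 2, ‖F r‖ₑ ^ 2 := by
  have h12 : (1 : ℝ) ≤ 2 := by norm_num
  rw [intervalIntegral.integral_of_le h12, ← integral_Icc_eq_integral_Ioc,
    ofReal_integral_eq_lintegral_ofReal]
  · refine lintegral_congr fun r => ?_
    rw [ENNReal.ofReal_pow (norm_nonneg _), ofReal_norm]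
  · exact (hF.norm.pow 2).integrableOn_compact isCompact_Icc
  · exact Filter.Eventually.of_forall fun r => by positivity

theorem pSob (hP : tPlanch) (hTc : tTcont) (hTd : tTderiv) : tSob := by
  intro n a a' h ha ha' hh hd l hl
  have hl0 : (0 : ℝ) < l := by exact_mod_cast hl
  have hpos : ∀ R ∈ Icc (1 : ℝ) 2, 0 < R := fun R hR => by linarith [hR.1]
  have hTa := hTc n a h ha hh
  have hTa' := hTc n a' h ha' hh
  have hcx : ∀ (b : ℝ → E n → ℝ),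
      ContinuousOn (fun p : ℝ × E n => T (b p.1) h p.2) (Ioi 0 ×ˢ univ) → ∀ x,
      ContinuousOn (fun R => T (b R) h x) (Icc 1 2) := by
    intro b hb x
    exact hb.comp (f := fun R : ℝ => (R, x)) (by fun_prop)
      (fun R hR => ⟨hpos R hR, mem_univ _⟩)
  -- pointwise estimate
  have hpt : ∀ x, (⨆ R ∈ Icc (1 : ℝ) 2, ‖T (a R) h x‖ₑ) ^ 2 ≤
      (1 + (l : ℝ≥0∞)) * (∫⁻ R in Icc (1 : ℝ) 2, ‖T (a R) h x‖ₑ ^ 2) +
        (l : ℝ≥0∞)⁻¹ * ∫⁻ R in Icc (1 : ℝ) 2, ‖T (a' R) h x‖ₑ ^ 2 := by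
    intro x
    have c0 := hcx a hTa x
    have c2 := hcx a' hTa' x
    have key := sob1 (fun R => T (a R) h x) (fun R => T (a' R) h x) l hl0 c2
      (fun R hR => hTd n a a' h ha ha' hh hd R (hpos R hR) x)
    rw [← ofReal_intervalIntegral_sq' c0, ← ofReal_intervalIntegral_sq' c2]
    have n1 : 0 ≤ ∫ r in (1 : ℝ)..2, ‖T (a r) h x‖ ^ 2 :=
      intervalIntegral.integral_nonneg (by norm_num) fun t _ => by positivity
    have n2 : 0 ≤ ∫ r in (1 : ℝ)..2, ‖T (a' r) h x‖ ^ 2 :=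
      intervalIntegral.integral_nonneg (by norm_num) fun t _ => by positivity
    have e1 : (1 + (l : ℝ≥0∞)) * ENNReal.ofReal (∫ r in (1 : ℝ)..2, ‖T (a r) h x‖ ^ 2) +
        (l : ℝ≥0∞)⁻¹ * ENNReal.ofReal (∫ r in (1 : ℝ)..2, ‖T (a' r) h x‖ ^ 2) =
        ENNReal.ofReal ((1 + l) * (∫ r in (1 : ℝ)..2, ‖T (a r) h x‖ ^ 2) +
          (l : ℝ)⁻¹ * ∫ r in (1 : ℝ)..2, ‖T (a' r) h x‖ ^ 2) := by
      rw [ENNReal.ofReal_add (by positivity) (by positivity),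
        ENNReal.ofReal_mul (by positivity), ENNReal.ofReal_mul (by positivity),
        ENNReal.ofReal_inv_of_pos hl0, ENNReal.ofReal_add (by norm_num) hl0.le,
        ENNReal.ofReal_one, ENNReal.ofReal_coe_nnreal]
    rw [e1]
    have hs : (⨆ R ∈ Icc (1 : ℝ) 2, ‖T (a R) h x‖ₑ) ≤
        (ENNReal.ofReal ((1 + l) * (∫ r in (1 : ℝ)..2, ‖T (a r) h x‖ ^ 2) +
          (l : ℝ)⁻¹ * ∫ r in (1 : ℝ)..2, ‖T (a' r) h x‖ ^ 2)) ^ (1 / 2 : ℝ) := by
      refine iSup₂_le fun R hR => ?_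
      have h1 : ‖T (a R) h x‖ₑ ^ 2 ≤
          ENNReal.ofReal ((1 + l) * (∫ r in (1 : ℝ)..2, ‖T (a r) h x‖ ^ 2) +
          (l : ℝ)⁻¹ * ∫ r in (1 : ℝ)..2, ‖T (a' r) h x‖ ^ 2) := by
        rw [← ofReal_norm, ← ENNReal.ofReal_pow (norm_nonneg _)]
        exact ENNReal.ofReal_le_ofReal (key R hR)
      calc ‖T (a R) h x‖ₑ = (‖T (a R) h x‖ₑ ^ 2) ^ (1 / 2 : ℝ) := by
            rw [← ENNReal.rpow_natCast, ← ENNReal.rpow_mul]
            norm_num
        _ ≤ _ := ENNReal.rpow_le_rpow h1 (by norm_num)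
    calc (⨆ R ∈ Icc (1 : ℝ) 2, ‖T (a R) h x‖ₑ) ^ 2 ≤ _ ^ 2 := pow_le_pow_left' hs 2
      _ = _ := by
        rw [← ENNReal.rpow_natCast, ← ENNReal.rpow_mul]
        norm_num
  -- measurability on `E n × [1,2]`
  have hmeas : ∀ (u : ℝ × E n → ℂ), ContinuousOn u (Ioi 0 ×ˢ univ) →
      AEMeasurable (fun p : E n × ℝ => ‖u (p.2, p.1)‖ₑ ^ 2)
        ((volume : Measure (E n)).prod (volume.restrict (Icc (1 : ℝ) 2))) := by
    intro u hu
    have h1 : ContinuousOn (fun p : E n × ℝ => ‖u (p.2, p.1)‖ₑ ^ 2) (univ ×ˢ Icc (1 : ℝ) 2) := by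
      have h2 : ContinuousOn (fun p : E n × ℝ => u (p.2, p.1)) (univ ×ˢ Icc (1 : ℝ) 2) :=
        hu.comp (f := fun p : E n × ℝ => (p.2, p.1)) (by fun_prop)
          (fun p hp => ⟨hpos p.2 hp.2, mem_univ _⟩)
      exact (ENNReal.continuous_pow 2).comp_continuousOn h2.enorm
    have h3 := h1.aemeasurable (μ := (volume : Measure (E n)).prod (volume : Measure ℝ))
      (MeasurableSet.univ.prod measurableSet_Icc)
    rwa [← Measure.prod_restrict, Measure.restrict_univ] at h3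
  have m0 := hmeas _ hTa
  have m2 := hmeas _ hTa'
  -- Plancherel and Tonelli
  have hpl : ∀ b : ℝ → E n → ℝ, Fam b →
      ContinuousOn (fun p : ℝ × E n => T (b p.1) h p.2) (Ioi 0 ×ˢ univ) →
      ∫⁻ x, ∫⁻ R in Icc (1 : ℝ) 2, ‖T (b R) h x‖ₑ ^ 2 =
        ∫⁻ ξ, (∫⁻ R in Icc (1 : ℝ) 2, ‖b R ξ‖ₑ ^ 2) * ‖h ξ‖ₑ ^ 2 := by
    intro b hb hTb
    have m := hmeas _ hTb
    rw [lintegral_lintegral_swap (μ := (volume : Measure (E n)))
      (ν := volume.restrict (Icc (1 : ℝ) 2)) (f := fun x R => ‖T (b R) h x‖ₑ ^ 2) m]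
    have e1 : ∫⁻ R in Icc (1 : ℝ) 2, ∫⁻ x, ‖T (b R) h x‖ₑ ^ 2 =
        ∫⁻ R in Icc (1 : ℝ) 2, ∫⁻ ξ, ‖b R ξ‖ₑ ^ 2 * ‖h ξ‖ₑ ^ 2 := by
      refine setLIntegral_congr_fun measurableSet_Icc fun R hR => ?_
      have hbc : Continuous (b R) := by
        have : ContinuousOn (fun ξ : E n => b R ξ) univ :=
          hb.cont.comp (f := fun ξ : E n => (R, ξ)) (by fun_prop)
            (fun ξ _ => ⟨hpos R hR, mem_univ _⟩)
        exact continuousOn_univ.mp this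
      have hbs : HasCompactSupport (b R) := by
        refine HasCompactSupport.intro (isCompact_closedBall (0 : E n) R) fun ξ hξ => ?_
        refine hb.supp R (hpos R hR) ξ ?_
        rw [Metric.mem_closedBall, dist_zero_right, not_le] at hξ
        exact hξ
      exact hP n (b R) h hbc hbs hh
    rw [e1]
    have m' : AEMeasurable (fun p : ℝ × E n => ‖b p.1 p.2‖ₑ ^ 2 * ‖h p.2‖ₑ ^ 2)
        ((volume.restrict (Icc (1 : ℝ) 2)).prod (volume : Measure (E n))) := by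
      have h1 : ContinuousOn (fun p : ℝ × E n => ‖b p.1 p.2‖ₑ ^ 2) (Icc (1 : ℝ) 2 ×ˢ univ) := by
        have h2 : ContinuousOn (fun p : ℝ × E n => b p.1 p.2) (Icc (1 : ℝ) 2 ×ˢ univ) :=
          hb.cont.mono (prod_mono (fun R hR => hpos R hR) le_rfl)
        exact (ENNReal.continuous_pow 2).comp_continuousOn h2.enorm
      have h3 := h1.aemeasurable (μ := (volume : Measure ℝ).prod (volume : Measure (E n)))
        (measurableSet_Icc.prod MeasurableSet.univ)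
      rw [← Measure.prod_restrict, Measure.restrict_univ] at h3
      refine h3.mul ?_
      exact (((hh.comp continuous_snd).enorm.measurable).pow_const 2).aemeasurable
    rw [lintegral_lintegral_swap (μ := volume.restrict (Icc (1 : ℝ) 2))
      (ν := (volume : Measure (E n))) (f := fun R ξ => ‖b R ξ‖ₑ ^ 2 * ‖h ξ‖ₑ ^ 2) m']
    refine lintegral_congr fun ξ => ?_
    rw [lintegral_mul_const' _ _ (ENNReal.pow_ne_top enorm_ne_top)]
  have q0 := hpl a ha hTa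
  have q2 := hpl a' ha' hTa'
  have hli : (l : ℝ≥0∞)⁻¹ ≠ ∞ := ENNReal.inv_ne_top.mpr (by exact_mod_cast hl.ne')
  have h1l : 1 + (l : ℝ≥0∞) ≠ ∞ := by simp
  -- measurability of `ξ ↦ ∫⁻ R, ‖a R ξ‖²`
  have m3 : AEMeasurable (fun ξ : E n => (∫⁻ R in Icc (1 : ℝ) 2, ‖a R ξ‖ₑ ^ 2) * ‖h ξ‖ₑ ^ 2)
      volume := by
    have h1 : ContinuousOn (fun p : E n × ℝ => ‖a p.2 p.1‖ₑ ^ 2) (univ ×ˢ Icc (1 : ℝ) 2) := by
      have h2 : ContinuousOn (fun p : E n × ℝ => a p.2 p.1) (univ ×ˢ Icc (1 : ℝ) 2) :=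
        ha.cont.comp (f := fun p : E n × ℝ => (p.2, p.1)) (by fun_prop)
          (fun p hp => ⟨hpos p.2 hp.2, mem_univ _⟩)
      exact (ENNReal.continuous_pow 2).comp_continuousOn h2.enorm
    have h3 := h1.aemeasurable (μ := (volume : Measure (E n)).prod (volume : Measure ℝ))
      (MeasurableSet.univ.prod measurableSet_Icc)
    rw [← Measure.prod_restrict, Measure.restrict_univ] at h3
    exact h3.lintegral_prod_right'.mul ((hh.enorm.measurable.pow_const 2).aemeasurable)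
  calc ∫⁻ x, (⨆ R ∈ Icc (1 : ℝ) 2, ‖T (a R) h x‖ₑ) ^ 2
      ≤ ∫⁻ x, ((1 + (l : ℝ≥0∞)) * (∫⁻ R in Icc (1 : ℝ) 2, ‖T (a R) h x‖ₑ ^ 2) +
        (l : ℝ≥0∞)⁻¹ * ∫⁻ R in Icc (1 : ℝ) 2, ‖T (a' R) h x‖ₑ ^ 2) := lintegral_mono hpt
    _ = (1 + (l : ℝ≥0∞)) * (∫⁻ x, ∫⁻ R in Icc (1 : ℝ) 2, ‖T (a R) h x‖ₑ ^ 2) +
        (l : ℝ≥0∞)⁻¹ * ∫⁻ x, ∫⁻ R in Icc (1 : ℝ) 2, ‖T (a' R) h x‖ₑ ^ 2 := by
        rw [lintegral_add_left', lintegral_const_mul' _ _ h1l, lintegral_const_mul' _ _ hli]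
        exact (m0.lintegral_prod_right').const_mul _
    _ = (1 + (l : ℝ≥0∞)) * (∫⁻ ξ, (∫⁻ R in Icc (1 : ℝ) 2, ‖a R ξ‖ₑ ^ 2) * ‖h ξ‖ₑ ^ 2) +
        (l : ℝ≥0∞)⁻¹ * ∫⁻ ξ, (∫⁻ R in Icc (1 : ℝ) 2, ‖a' R ξ‖ₑ ^ 2) * ‖h ξ‖ₑ ^ 2 := by
        rw [q0, q2]
    _ = _ := by
        rw [← lintegral_const_mul' _ _ h1l, ← lintegral_const_mul' _ _ hli, ← lintegral_add_left']
        · refine lintegral_congr fun ξ => ?_
          ring
        · exact m3.const_mul _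

end Pool.Agent.MBS
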