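import Pool.Agent.MBS.Targets

set_option autoImplicit false

/-! Maximal ball partial sums (MP_ee701d_an): job J20, Theorem I. -/

namespace Pool.Agent.MBS

open MeasureTheory FourierTransform Set
open scoped ENNReal NNReal

namespace J20

lemma lev_lt {n : ℕ} (f : E n → ℝ) (k : ℤ) (s : ℝ) (hs0 : 0 ≤ s) (hs1 : s < 1) (x : E n) :
    s < lev f k x ↔ (2:ℝ)^k * (1 + s) < f x := by
  have h2 : (0:ℝ) < 2 ^ k := by positivity
  unfold lev
  rw [lt_min_iff, lt_max_iff]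
  constructor
  · rintro ⟨h | h, -⟩
    · have : 1 + s < f x / 2^k := by linarith
      rw [lt_div_iff₀ h2] at this
      linarith
    · linarith
  · intro h
    refine ⟨Or.inl ?_, hs1⟩
    have : 1 + s < f x / 2^k := by rw [lt_div_iff₀ h2]; linarith
    linarith

lemma lev_mem {n : ℕ} (f : E n → ℝ) (k : ℤ) (x : E n) : lev f k x ∈ Icc (0:ℝ) 1 := by
  unfold lev
  exact ⟨le_min (le_max_right _ _) zero_le_one, min_le_right _ _⟩

lemma lev_meas {n : ℕ} (f : E n → ℝ) (k : ℤ) (hf : Measurable f) : Measurable (lev f k) := by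
  unfold lev
  fun_prop

lemma lev_zero {n : ℕ} (f : E n → ℝ) (k : ℤ) (x : E n) (hx : f x ≤ 2 ^ k) : lev f k x = 0 := by
  have h2 : (0:ℝ) < 2 ^ k := by positivity
  unfold lev
  have : f x / 2 ^ k - 1 ≤ 0 := by
    rw [sub_nonpos, div_le_one h2]; exact hx
  rw [max_eq_right this]
  simp

lemma abs_sub_le_layer (a b : ℝ) (ha : a ∈ Icc (0:ℝ) 1) (hb : b ∈ Icc (0:ℝ) 1) :
    ENNReal.ofReal |a - b| ≤ ∫⁻ s in Ico (0:ℝ) 1,
      ({s : ℝ | (s < a ∧ ¬ s < b) ∨ (s < b ∧ ¬ s < a)}.indicator 1 s : ℝ≥0∞) := by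
  have hM : MeasurableSet {s : ℝ | (s < a ∧ ¬ s < b) ∨ (s < b ∧ ¬ s < a)} := by measurability
  rw [lintegral_indicator_one hM, Measure.restrict_apply hM]
  have : ENNReal.ofReal |a - b| = volume (Ico (min a b) (max a b)) := by
    rw [Real.volume_Ico]
    congr 1
    rw [max_sub_min_eq_abs']
  rw [this]
  apply measure_mono
  intro s hs
  have h1 := ha.1
  have h2 := ha.2
  have h3 := hb.1
  have h4 := hb.2
  rcases le_total a b with hab | hab
  · rw [min_eq_left hab, max_eq_right hab] at hs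
    exact ⟨Or.inr ⟨hs.2, not_lt.2 hs.1⟩, by linarith [hs.1], by linarith [hs.2]⟩
  · rw [min_eq_right hab, max_eq_left hab] at hs
    exact ⟨Or.inl ⟨hs.2, not_lt.2 hs.1⟩, by linarith [hs.1], by linarith [hs.2]⟩

lemma int_diff {n : ℕ} (f : E n → ℝ) (k : ℤ) (h : E n) (B : ℝ≥0∞) (hf : Measurable f)
    (hB : ∀ s ∈ Ico (0:ℝ) 1, volume (symmDiff {x | (2:ℝ)^k*(1+s) < f x}
      {x | (2:ℝ)^k*(1+s) < f (x+h)}) ≤ B) :
    ∫⁻ x, ‖((lev f k (x + h) : ℝ) : ℂ) - ((lev f k x : ℝ) : ℂ)‖ₑ ^ 2 ≤ B := by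
  have hL := lev_meas f k hf
  have hLh : Measurable (fun x => lev f k (x + h)) := hL.comp (measurable_id.add_const h)
  set D : E n → Set ℝ := fun x => {s : ℝ | (s < lev f k (x+h) ∧ ¬ s < lev f k x) ∨
    (s < lev f k x ∧ ¬ s < lev f k (x+h))} with hD
  have hmeas : MeasurableSet {p : E n × ℝ | p.2 ∈ D p.1} := by
    have a1 : MeasurableSet {p : E n × ℝ | p.2 < lev f k (p.1 + h)} :=
      measurableSet_lt measurable_snd (hLh.comp measurable_fst)
    have a2 : MeasurableSet {p : E n × ℝ | p.2 < lev f k p.1} :=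
      measurableSet_lt measurable_snd (hL.comp measurable_fst)
    exact (a1.inter a2.compl).union (a2.inter a1.compl)
  calc ∫⁻ x, ‖((lev f k (x + h) : ℝ) : ℂ) - ((lev f k x : ℝ) : ℂ)‖ₑ ^ 2
      ≤ ∫⁻ x, ∫⁻ s in Ico (0:ℝ) 1, ((D x).indicator 1 s : ℝ≥0∞) := by
        apply lintegral_mono
        intro x
        refine le_trans ?_ (abs_sub_le_layer _ _ (lev_mem f k (x+h)) (lev_mem f k x))
        have e1 : ‖((lev f k (x + h) : ℝ) : ℂ) - ((lev f k x : ℝ) : ℂ)‖ₑ =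
            ENNReal.ofReal |lev f k (x+h) - lev f k x| := by
          rw [← Complex.ofReal_sub, ← Real.norm_eq_abs, ← ofReal_norm, Complex.norm_real]
        show ‖((lev f k (x + h) : ℝ) : ℂ) - ((lev f k x : ℝ) : ℂ)‖ₑ ^ 2 ≤ _
        rw [e1]
        have h1 := lev_mem f k (x+h)
        have h2 := lev_mem f k x
        have h3 : |lev f k (x+h) - lev f k x| ≤ 1 := by
          rw [abs_le]; constructor <;> linarith [h1.1, h1.2, h2.1, h2.2]
        rw [← ENNReal.ofReal_pow (abs_nonneg _)]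
        apply ENNReal.ofReal_le_ofReal
        nlinarith [abs_nonneg (lev f k (x+h) - lev f k x)]
    _ = ∫⁻ s in Ico (0:ℝ) 1, ∫⁻ x, ((D x).indicator 1 s : ℝ≥0∞) := by
        rw [lintegral_lintegral_swap]
        have : Function.uncurry (fun x s => ((D x).indicator 1 s : ℝ≥0∞)) =
            {p : E n × ℝ | p.2 ∈ D p.1}.indicator 1 := by
          funext p
          rcases p with ⟨x, s⟩
          by_cases hx : s ∈ D x
          · rw [indicator_of_mem (show (x, s) ∈ {p : E n × ℝ | p.2 ∈ D p.1} from hx)]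
            show (D x).indicator 1 s = _
            rw [indicator_of_mem hx]; rfl
          · rw [indicator_of_notMem (show (x, s) ∉ {p : E n × ℝ | p.2 ∈ D p.1} from hx)]
            show (D x).indicator 1 s = _
            rw [indicator_of_notMem hx]
        rw [this]
        exact (measurable_one.indicator hmeas).aemeasurable
    _ ≤ ∫⁻ s in Ico (0:ℝ) 1, B := by
        apply setLIntegral_mono measurable_const
        intro s hs
        refine le_trans ?_ (hB s hs)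
        have : (fun x => ((D x).indicator 1 s : ℝ≥0∞)) =
            (symmDiff {x | (2:ℝ)^k*(1+s) < f x} {x | (2:ℝ)^k*(1+s) < f (x+h)}).indicator 1 := by
          funext x
          have e : s ∈ D x ↔ x ∈ (symmDiff {x | (2:ℝ)^k*(1+s) < f x}
              {x | (2:ℝ)^k*(1+s) < f (x+h)}) := by
            have e1 := lev_lt f k s hs.1 hs.2 x
            have e2 := lev_lt f k s hs.1 hs.2 (x + h)
            show ((s < lev f k (x+h) ∧ ¬ s < lev f k x) ∨ (s < lev f k x ∧ ¬ s < lev f k (x+h))) ↔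
              (((2:ℝ)^k*(1+s) < f x ∧ ¬ (2:ℝ)^k*(1+s) < f (x+h)) ∨
                ((2:ℝ)^k*(1+s) < f (x+h) ∧ ¬ (2:ℝ)^k*(1+s) < f x))
            rw [e1, e2]
            tauto
          by_cases hx : s ∈ D x
          · rw [indicator_of_mem hx, indicator_of_mem (e.1 hx)]; rfl
          · rw [indicator_of_notMem hx, indicator_of_notMem (fun h => hx (e.2 h))]
        rw [this]
        apply le_of_eq
        apply lintegral_indicator_one
        apply MeasurableSet.symmDiff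
        · exact measurableSet_lt measurable_const hf
        · exact measurableSet_lt measurable_const (hf.comp (measurable_id.add_const h))
    _ = B := by
        simp

lemma high {n : ℕ} (hHigh : tHigh) (g : E n → ℂ) (j : Fin n) (t0 δ B : ℝ) (ht0 : 0 < t0)
    (hδ : 0 < δ) (hB : 0 ≤ B) (hg : Measurable g) (hgi : Integrable g) (hg2 : MemLp g 2)
    (hD : ∀ h : E n, ∫⁻ x, ‖g (x + h) - g x‖ₑ ^ 2 ≤ ENNReal.ofReal (B * ‖h‖ ^ δ)) :
    ∫⁻ ξ in {ξ : E n | t0⁻¹ ≤ |ξ j|}, ‖𝓕 g ξ‖ₑ ^ 2 ≤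
      2 * ENNReal.ofReal (B * (2 * t0) ^ δ) := by
  refine (hHigh n j g t0 ht0 hg hgi hg2).trans ?_
  gcongr
  calc ∫⁻ t in Icc t0 (2 * t0),
        (∫⁻ x, ‖g (x + t • e j) - g x‖ₑ ^ 2) * ENNReal.ofReal t⁻¹
      ≤ ∫⁻ t in Icc t0 (2 * t0), ENNReal.ofReal (B * (2 * t0) ^ δ) * ENNReal.ofReal t0⁻¹ := by
        apply setLIntegral_mono measurable_const
        intro t ht
        have ht' : 0 < t := lt_of_lt_of_le ht0 ht.1
        have hn : ‖t • (e j : E n)‖ = t := by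
          rw [norm_smul, PiLp.norm_single, norm_one, mul_one, Real.norm_eq_abs,
            abs_of_pos ht']
        gcongr
        · refine (hD _).trans ?_
          rw [hn]
          gcongr
          exact ht.2
        · exact ht.1
    _ = ENNReal.ofReal (B * (2 * t0) ^ δ) := by
        rw [setLIntegral_const, Real.volume_Icc, mul_assoc, ← ENNReal.ofReal_mul (by positivity)]
        have : t0⁻¹ * (2 * t0 - t0) = 1 := by field_simp; ring
        rw [this, ENNReal.ofReal_one, mul_one]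

lemma W_high {n : ℕ} (hHigh : tHigh) {CF : ℝ≥0}
    (hCF : ∀ (n i : ℕ) (c : ℝ) (f : E n → ℂ), 0 < c → Integrable f →
      W i c f ≤ CF * ∫⁻ ξ in {ξ : E n | c / 2 ≤ ‖ξ‖ ∧ ‖ξ‖ ≤ 2 * c}, ‖𝓕 f ξ‖ₑ ^ 2)
    (hn : 1 ≤ n) (g : E n → ℂ) (i : ℕ) (c δ B : ℝ) (hc : 0 < c)
    (hδ : 0 < δ) (hB : 0 ≤ B) (hg : Measurable g) (hgi : Integrable g) (hg2 : MemLp g 2)
    (hD : ∀ h : E n, ∫⁻ x, ‖g (x + h) - g x‖ₑ ^ 2 ≤ ENNReal.ofReal (B * ‖h‖ ^ δ)) :
    W i c g ≤ CF * (n * (2 * ENNReal.ofReal (B * (4 * √n / c) ^ δ))) := by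
  refine (hCF n i c g hc hgi).trans ?_
  gcongr
  have hn0 : (0:ℝ) < √n := by
    apply Real.sqrt_pos.2
    exact_mod_cast hn
  set t0 : ℝ := 2 * √n / c with ht0
  have ht0p : 0 < t0 := by positivity
  have hsub : {ξ : E n | c / 2 ≤ ‖ξ‖ ∧ ‖ξ‖ ≤ 2 * c} ⊆ ⋃ j : Fin n, {ξ : E n | t0⁻¹ ≤ |ξ j|} := by
    intro ξ hξ
    by_contra hcon
    rw [mem_iUnion, not_exists] at hcon
    have h1 : ∀ j : Fin n, ξ j ^ 2 < (t0⁻¹) ^ 2 := by
      intro j
      have : |ξ j| < t0⁻¹ := not_le.1 (hcon j)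
      rw [← sq_abs]
      have h0 := abs_nonneg (ξ j)
      nlinarith
    have h2 : ‖ξ‖ ^ 2 < (c/2) ^ 2 := by
      rw [EuclideanSpace.norm_sq_eq]
      have : Nonempty (Fin n) := ⟨⟨0, hn⟩⟩
      calc ∑ j, ‖ξ j‖ ^ 2 < ∑ _j : Fin n, (t0⁻¹) ^ 2 := by
            apply Finset.sum_lt_sum_of_nonempty Finset.univ_nonempty
            intro j _
            rw [Real.norm_eq_abs, sq_abs]
            exact h1 j
        _ = (c/2)^2 := by
            rw [Finset.sum_const, Finset.card_univ, Fintype.card_fin, nsmul_eq_mul, ht0]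
            have : (√(n:ℝ)) ^ 2 = n := Real.sq_sqrt (by positivity)
            rw [inv_div, div_pow, mul_pow, this]
            have : (n:ℝ) ≠ 0 := by
              have : (1:ℝ) ≤ n := by exact_mod_cast hn
              positivity
            field_simp
    have h3 : (c/2)^2 ≤ ‖ξ‖ ^ 2 := by
      have := hξ.1
      gcongr
    linarith
  calc ∫⁻ ξ in {ξ : E n | c / 2 ≤ ‖ξ‖ ∧ ‖ξ‖ ≤ 2 * c}, ‖𝓕 g ξ‖ₑ ^ 2
      ≤ ∫⁻ ξ in ⋃ j : Fin n, {ξ : E n | t0⁻¹ ≤ |ξ j|}, ‖𝓕 g ξ‖ₑ ^ 2 := lintegral_mono_set hsub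
    _ ≤ ∑' j : Fin n, ∫⁻ ξ in {ξ : E n | t0⁻¹ ≤ |ξ j|}, ‖𝓕 g ξ‖ₑ ^ 2 := lintegral_iUnion_le _ _
    _ ≤ ∑' _j : Fin n, 2 * ENNReal.ofReal (B * (4 * √n / c) ^ δ) := by
        apply ENNReal.tsum_le_tsum
        intro j
        refine (high hHigh g j t0 δ B ht0p hδ hB hg hgi hg2 hD).trans ?_
        rw [ht0]
        have : 2 * (2 * √(n:ℝ) / c) = 4 * √n / c := by ring
        rw [this]
    _ = n * (2 * ENNReal.ofReal (B * (4 * √n / c) ^ δ)) := by
        rw [tsum_fintype, Finset.sum_const, Finset.card_univ, Fintype.card_fin, nsmul_eq_mul]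

lemma two_sided (g : ℤ → ℝ≥0∞) (m0 : ℤ) (a b r q : ℝ≥0∞) (h1 : ∀ k : ℕ, g (m0 - k) ≤ a * r ^ k)
    (h2 : ∀ k : ℕ, g (m0 + 1 + k) ≤ b * q ^ k) :
    ∑' m, g m ≤ a * (1 - r)⁻¹ + b * (1 - q)⁻¹ := by
  have e1 : ∑' m, g m = ∑' m : ℤ, g (m + (m0 + 1)) :=
    ((Equiv.addRight (m0 + 1)).tsum_eq g).symm
  rw [e1, tsum_of_nat_of_neg_add_one ENNReal.summable ENNReal.summable, add_comm]
  gcongr
  · rw [← ENNReal.tsum_geometric, ← ENNReal.tsum_mul_left]
    apply ENNReal.tsum_le_tsum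
    intro k
    have := h1 k
    have e : -((k:ℤ) + 1) + (m0 + 1) = m0 - k := by ring
    rw [e]
    exact this
  · rw [← ENNReal.tsum_geometric, ← ENNReal.tsum_mul_left]
    apply ENNReal.tsum_le_tsum
    intro k
    have := h2 k
    have e : (k:ℤ) + (m0 + 1) = m0 + 1 + k := by ring
    rw [e]
    exact this

/-- the main summation, abstract real form -/
lemma sumW {n : ℕ} (hn : 1 ≤ n) (g : E n → ℂ) (i : ℕ) (δ B V G F : ℝ) (hδ : 0 < δ) (hδ1 : δ ≤ 1)
    (hB : 0 ≤ B) (hV : 0 < V) (hG : 0 ≤ G) (hF : 0 ≤ F)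
    (h1 : ∀ c : ℝ, 0 < c → W i c g ≤ ENNReal.ofReal (G * ((PP i : ℝ)⁻¹ * (c ^ n * V ^ 2))))
    (h2 : ∀ c : ℝ, 0 < c → W i c g ≤
      ENNReal.ofReal (F * (B * V ^ (1 - δ / n) * (4 * √n / c) ^ δ))) :
    ∑' m : ℤ, W i (2 ^ m) g ≤
      ENNReal.ofReal ((2 * G + F * B * (4 * √n) ^ δ * (1 - (2:ℝ) ^ (-δ))⁻¹) *
        ((PP i : ℝ) ^ (-(δ / (2 * n))) * V)) := by
  have hnR : (1:ℝ) ≤ n := by exact_mod_cast hn
  have hn0 : (0:ℝ) < n := by linarith
  have hPi : (1:ℝ) ≤ (PP i : ℝ) := by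
    unfold PP
    push_cast
    exact one_le_pow₀ (by norm_num)
  set P : ℝ := (PP i : ℝ) with hP
  have hP0 : 0 < P := by linarith
  set l : ℝ := (P ^ (1/2 : ℝ) / V) ^ (1 / (n:ℝ)) with hl
  have hl0 : 0 < l := by positivity
  obtain ⟨m0, hm0, hm1⟩ := exists_mem_Ico_zpow hl0 (one_lt_two : (1:ℝ) < 2)
  have hln : l ^ n = P ^ (1/2 : ℝ) / V := by
    rw [hl, ← Real.rpow_natCast, ← Real.rpow_mul (by positivity)]
    rw [one_div_mul_cancel hn0.ne', Real.rpow_one]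
  have hlδ : l ^ (-δ) * V ^ (1 - δ / n) = P ^ (-(δ / (2 * n))) * V := by
    rw [hl, ← Real.rpow_mul (by positivity), Real.div_rpow (by positivity) hV.le,
      ← Real.rpow_mul hP0.le, div_eq_mul_inv, ← Real.rpow_neg hV.le, mul_assoc,
      ← Real.rpow_add hV]
    have e1 : (1/2 : ℝ) * (1 / (n:ℝ) * -δ) = -(δ / (2 * n)) := by field_simp
    have e2 : -(1 / (n:ℝ) * -δ) + (1 - δ / n) = 1 := by field_simp; ring
    rw [e1, e2, Real.rpow_one]
  have hq : (2:ℝ) ^ (-δ) < 1 := Real.rpow_lt_one_of_one_lt_of_neg (by norm_num) (by linarith)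
  have hq0 : (0:ℝ) < (2:ℝ) ^ (-δ) := by positivity
  have key := two_sided (fun m : ℤ => W i (2 ^ m) g) m0
    (ENNReal.ofReal (G * (P ^ (-(1/2 : ℝ)) * V)))
    (ENNReal.ofReal (F * B * (4 * √n) ^ δ * (P ^ (-(δ / (2 * n))) * V)))
    (ENNReal.ofReal (1/2)) (ENNReal.ofReal ((2:ℝ) ^ (-δ))) ?_ ?_
  · refine key.trans ?_
    rw [← ENNReal.ofReal_one, ← ENNReal.ofReal_sub _ (by norm_num),
      ← ENNReal.ofReal_sub _ hq0.le, ← ENNReal.ofReal_inv_of_pos (by norm_num),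
      ← ENNReal.ofReal_inv_of_pos (by linarith), ← ENNReal.ofReal_mul (by positivity),
      ← ENNReal.ofReal_mul (by positivity), ← ENNReal.ofReal_add (by positivity) ?_]
    · apply ENNReal.ofReal_le_ofReal
      have hPP : P ^ (-(1/2 : ℝ)) ≤ P ^ (-(δ / (2 * n))) := by
        apply Real.rpow_le_rpow_of_exponent_le hPi
        rw [neg_le_neg_iff, div_le_div_iff₀ (by positivity) (by norm_num)]
        nlinarith
      have h3 : G * (P ^ (-(1/2 : ℝ)) * V) ≤ G * (P ^ (-(δ / (2 * n))) * V) := by gcongr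
      have h4 : (1 - 1/2 : ℝ)⁻¹ = 2 := by norm_num
      rw [h4]
      nlinarith
    · have : 0 < (1 - (2:ℝ) ^ (-δ))⁻¹ := by
        apply inv_pos.2; linarith
      positivity
  · intro k
    have hc : (0:ℝ) < 2 ^ (m0 - (k:ℤ)) := by positivity
    refine (h1 _ hc).trans ?_
    rw [← ENNReal.ofReal_pow (by norm_num), ← ENNReal.ofReal_mul (by positivity)]
    apply ENNReal.ofReal_le_ofReal
    have e1 : ((2:ℝ) ^ (m0 - (k:ℤ))) ^ n ≤ l ^ n * (1/2) ^ k := by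
      rw [zpow_sub₀ (by norm_num), div_eq_mul_inv, mul_pow]
      have a1 : ((2:ℝ) ^ m0) ^ n ≤ l ^ n := by gcongr
      have a2 : (((2:ℝ) ^ (k:ℤ))⁻¹) ^ n ≤ (1/2) ^ k := by
        rw [zpow_natCast, ← inv_pow, one_div]
        calc (((2:ℝ)⁻¹ ^ k)) ^ n ≤ ((2:ℝ)⁻¹ ^ k) ^ 1 := by
              apply pow_le_pow_of_le_one (by positivity) _ hn
              exact pow_le_one₀ (by norm_num) (by norm_num)
          _ = _ := by rw [pow_one]
      gcongr
    have e2 : P ^ (-(1/2 : ℝ)) * V = P⁻¹ * (l ^ n * V ^ 2) := by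
      rw [hln]
      have : P ^ (-(1/2 : ℝ)) = P⁻¹ * P ^ (1/2 : ℝ) := by
        rw [← Real.rpow_neg_one, ← Real.rpow_add hP0]; norm_num
      rw [this]
      field_simp
    rw [e2]
    calc G * (P⁻¹ * (((2:ℝ) ^ (m0 - (k:ℤ))) ^ n * V ^ 2))
        ≤ G * (P⁻¹ * ((l ^ n * (1/2) ^ k) * V ^ 2)) := by gcongr
      _ = _ := by ring
  · intro k
    have hc : (0:ℝ) < 2 ^ (m0 + 1 + (k:ℤ)) := by positivity
    refine (h2 _ hc).trans ?_
    rw [← ENNReal.ofReal_pow (by positivity), ← ENNReal.ofReal_mul (by positivity)]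
    apply ENNReal.ofReal_le_ofReal
    have e1 : l * 2 ^ k ≤ (2:ℝ) ^ (m0 + 1 + (k:ℤ)) := by
      rw [zpow_add₀ (by norm_num), zpow_natCast]
      gcongr
    have e2 : (4 * √(n:ℝ) / (2:ℝ) ^ (m0 + 1 + (k:ℤ))) ^ δ ≤
        (4 * √n) ^ δ * (l ^ (-δ) * ((2:ℝ) ^ (-δ)) ^ k) := by
      calc (4 * √(n:ℝ) / (2:ℝ) ^ (m0 + 1 + (k:ℤ))) ^ δ ≤ (4 * √(n:ℝ) / (l * 2 ^ k)) ^ δ := by
            gcongr
        _ = _ := by
            rw [Real.div_rpow (by positivity) (by positivity), div_eq_mul_inv,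
              Real.mul_rpow hl0.le (by positivity), mul_inv, ← Real.rpow_neg hl0.le]
            congr 2
            rw [← Real.rpow_natCast 2 k, ← Real.rpow_mul (by norm_num), ← Real.rpow_neg (by norm_num),
              ← Real.rpow_natCast, ← Real.rpow_mul (by norm_num)]
            congr 1
            ring
    calc F * (B * V ^ (1 - δ / n) * (4 * √(n:ℝ) / (2:ℝ) ^ (m0 + 1 + (k:ℤ))) ^ δ)
        ≤ F * (B * V ^ (1 - δ / n) * ((4 * √n) ^ δ * (l ^ (-δ) * ((2:ℝ) ^ (-δ)) ^ k))) := by gcongr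
      _ = F * B * (4 * √n) ^ δ * ((l ^ (-δ) * V ^ (1 - δ / n))) * ((2:ℝ) ^ (-δ)) ^ k := by ring
      _ = _ := by rw [hlδ]

lemma PP_pow (i n : ℕ) (δ : ℝ) (hn : 1 ≤ n) (hδ : 0 < δ) (hδ1 : δ ≤ 1) :
    (PP i : ℝ) ^ (-(δ / (2 * n))) ≤ 2 * 2 ^ (-(δ / (8 * n) * i)) := by
  have hnR : (1:ℝ) ≤ n := by exact_mod_cast hn
  unfold PP
  push_cast
  rw [← Real.rpow_natCast, ← Real.rpow_mul (by norm_num)]
  have e : (2:ℝ) * 2 ^ (-(δ / (8 * n) * i)) = 2 ^ (1 + -(δ / (8 * n) * i)) := by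
    rw [Real.rpow_add (by norm_num), Real.rpow_one]
  rw [e]
  apply Real.rpow_le_rpow_of_exponent_le (by norm_num)
  have h4 : (i:ℝ) ≤ 4 * ((i / 4 : ℕ) : ℝ) + 3 := by
    have : i ≤ 4 * (i / 4) + 3 := by omega
    exact_mod_cast this
  have h5 : δ / (8 * n) ≤ 1 / 8 := by
    rw [div_le_div_iff₀ (by positivity) (by norm_num)]
    nlinarith
  have h6 : 0 < δ / (8 * n) := by positivity
  have h7 : δ / (2 * n) = 4 * (δ / (8 * n)) := by
    field_simp; ring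
  rw [h7]
  nlinarith

end J20

open J20 in
theorem pI (hSuper : tSuper) (hHigh : tHigh) (hF2c : tF2c) (hGainL1 : tGainL1)
    (hTstarW : tTstarW) : tI := by
  intro n δ A hn hδ hδ1 hA
  obtain ⟨CF, hCF⟩ := hF2c
  obtain ⟨CG, hCG⟩ := hGainL1 n
  have hnR : (1:ℝ) ≤ n := by exact_mod_cast hn
  have hn0 : (0:ℝ) < n := by linarith
  have hq : (2:ℝ) ^ (-δ) < 1 := Real.rpow_lt_one_of_one_lt_of_neg (by norm_num) (by linarith)
  have hq1 : 0 < (1 - (2:ℝ) ^ (-δ))⁻¹ := by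
    apply inv_pos.2; linarith
  set D : ℝ := 2 * CG + (CF * n * 2) * A * (4 * √n) ^ δ * (1 - (2:ℝ) ^ (-δ))⁻¹ with hD
  have hD0 : 0 ≤ D := by positivity
  obtain ⟨C, hC⟩ := hSuper n (δ / (8 * n)) (2 * D + 1) (by positivity) (by positivity)
  refine ⟨C, fun f hf hfi hf0 hiso => hC f hf hfi hf0 ?_⟩
  intro k i
  have h2k : (0:ℝ) < 2 ^ k := by positivity
  set g : E n → ℂ := fun y => ((lev f k y : ℝ) : ℂ) with hg
  have hLm := lev_meas f k hf
  have hgm : Measurable g := Complex.measurable_ofReal.comp hLm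
  have hgnorm : ∀ x, ‖g x‖ = lev f k x := by
    intro x
    rw [hg]
    show ‖((lev f k x : ℝ) : ℂ)‖ = _
    rw [Complex.norm_real, Real.norm_eq_abs, abs_of_nonneg (lev_mem f k x).1]
  have hgle : ∀ x, ‖g x‖ ≤ ‖f x / 2 ^ k‖ := by
    intro x
    rw [hgnorm, Real.norm_eq_abs, abs_of_nonneg (div_nonneg (hf0 x) h2k.le)]
    unfold lev
    refine (min_le_left _ _).trans ?_
    apply max_le
    · linarith
    · exact div_nonneg (hf0 x) h2k.le
  have hgi : Integrable g := (hfi.div_const _).mono hgm.aestronglyMeasurable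
    (Filter.Eventually.of_forall hgle)
  have hg2 : MemLp g 2 := by
    rw [memLp_two_iff_integrable_sq_norm hgm.aestronglyMeasurable]
    refine hgi.norm.mono (by fun_prop) (Filter.Eventually.of_forall ?_)
    intro x
    rw [norm_pow, norm_norm, hgnorm]
    have := lev_mem f k x
    nlinarith [this.1, this.2]
  have hVfin : volume {x | (2:ℝ) ^ k < f x} < ⊤ := hfi.measure_gt_lt_top h2k
  set V : ℝ := (volume {x | (2:ℝ) ^ k < f x}).toReal with hV
  have hV0 : 0 ≤ V := ENNReal.toReal_nonneg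
  have hVE : volume {x | (2:ℝ) ^ k < f x} = ENNReal.ofReal V := (ENNReal.ofReal_toReal hVfin.ne).symm
  have hfm : MeasurableSet {x | (2:ℝ) ^ k < f x} := measurableSet_lt measurable_const hf
  have hg1 : ∫⁻ x, ‖g x‖ₑ ≤ ENNReal.ofReal V := by
    rw [← hVE, ← lintegral_indicator_one hfm]
    apply lintegral_mono
    intro x
    show ‖g x‖ₑ ≤ _
    by_cases hx : (2:ℝ) ^ k < f x
    · rw [indicator_of_mem (show x ∈ {x | (2:ℝ) ^ k < f x} from hx), ← ofReal_norm, hgnorm]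
      have := (lev_mem f k x).2
      rw [Pi.one_apply, ← ENNReal.ofReal_one]
      exact ENNReal.ofReal_le_ofReal this
    · have : g x = 0 := by
        rw [hg]
        show ((lev f k x : ℝ) : ℂ) = 0
        rw [lev_zero f k x (not_lt.1 hx)]
        simp
      rw [this]
      simp
  have hexp : 0 ≤ 1 - δ / n := by
    rw [sub_nonneg, div_le_one hn0]; linarith
  have hdiff : ∀ h : E n, ∫⁻ x, ‖g (x + h) - g x‖ₑ ^ 2 ≤
      ENNReal.ofReal (A * V ^ (1 - δ / n) * ‖h‖ ^ δ) := by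
    intro h
    apply int_diff f k h _ hf
    intro s hs
    have hl : (2:ℝ) ^ k ≤ (2:ℝ) ^ k * (1 + s) := by nlinarith [hs.1]
    refine (hiso ((2:ℝ) ^ k * (1 + s)) h (by linarith)).trans ?_
    apply ENNReal.ofReal_le_ofReal
    have hmono : (volume {x | (2:ℝ) ^ k * (1 + s) < f x}).toReal ≤ V := by
      apply ENNReal.toReal_mono hVfin.ne
      apply measure_mono
      intro x hx
      exact lt_of_le_of_lt hl hx
    calc A * ‖h‖ ^ δ * (volume {x | (2:ℝ) ^ k * (1 + s) < f x}).toReal ^ (1 - δ / n)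
        ≤ A * ‖h‖ ^ δ * V ^ (1 - δ / n) := by gcongr
      _ = _ := by ring
  have hW1 : ∀ c : ℝ, 0 < c → W i c g ≤ ENNReal.ofReal (CG * ((PP i : ℝ)⁻¹ * (c ^ n * V ^ 2))) := by
    intro c hc
    refine (hCG i c g hc hgm hgi).trans ?_
    have hP1 : (0:ℝ) < (PP i : ℝ) := by
      unfold PP; positivity
    have e1 : (PP i : ℝ≥0∞)⁻¹ = ENNReal.ofReal ((PP i : ℝ)⁻¹) := by
      rw [ENNReal.ofReal_inv_of_pos hP1, ENNReal.ofReal_natCast]
    have e2 : (CG : ℝ≥0∞) = ENNReal.ofReal CG := by simp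
    rw [e1, e2]
    calc ENNReal.ofReal CG * ENNReal.ofReal ((PP i : ℝ)⁻¹) * ENNReal.ofReal (c ^ n) *
          (∫⁻ x, ‖g x‖ₑ) ^ 2
        ≤ ENNReal.ofReal CG * ENNReal.ofReal ((PP i : ℝ)⁻¹) * ENNReal.ofReal (c ^ n) *
          (ENNReal.ofReal V) ^ 2 := by gcongr
      _ = _ := by
        rw [← ENNReal.ofReal_pow hV0, ← ENNReal.ofReal_mul (by positivity),
          ← ENNReal.ofReal_mul (by positivity), ← ENNReal.ofReal_mul (by positivity)]
        congr 1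
        ring
  have hW2 : ∀ c : ℝ, 0 < c → W i c g ≤
      ENNReal.ofReal ((CF * n * 2) * (A * V ^ (1 - δ / n) * (4 * √n / c) ^ δ)) := by
    intro c hc
    refine (W_high hHigh hCF hn g i c δ (A * V ^ (1 - δ / n)) hc hδ (by positivity) hgm hgi hg2
      hdiff).trans (le_of_eq ?_)
    have e2 : (CF : ℝ≥0∞) = ENNReal.ofReal CF := by simp
    have e3 : (n : ℝ≥0∞) = ENNReal.ofReal n := by simp
    have e4 : (2 : ℝ≥0∞) = ENNReal.ofReal 2 := by simp
    rw [e2, e3, e4, ← ENNReal.ofReal_mul (by positivity), ← ENNReal.ofReal_mul (by positivity),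
      ← ENNReal.ofReal_mul (by positivity)]
    congr 1
    ring
  refine (hTstarW n i g hgi).trans ?_
  rw [hVE]
  rcases hV0.eq_or_lt with hV00 | hVpos
  · rw [← hV00]
    have : ∑' m : ℤ, W i (2 ^ m) g = 0 := by
      rw [ENNReal.tsum_eq_zero]
      intro m
      have := hW1 (2 ^ m) (by positivity)
      rw [← hV00] at this
      simpa using this
    rw [this]
    exact zero_le
  · refine (sumW hn g i δ A V CG (CF * n * 2) hδ hδ1 hA.le hVpos CG.2 (by positivity) hW1 hW2).trans ?_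
    rw [← hD, ← ENNReal.ofReal_mul (by positivity)]
    apply ENNReal.ofReal_le_ofReal
    have hPP := PP_pow i n δ hn hδ hδ1
    have h0 : (0:ℝ) < 2 ^ (-(δ / (8 * n) * i)) := by positivity
    calc D * ((PP i : ℝ) ^ (-(δ / (2 * n))) * V)
        ≤ D * ((2 * 2 ^ (-(δ / (8 * n) * i))) * V) := by gcongr
      _ ≤ (2 * D + 1) * 2 ^ (-(δ / (8 * n) * i)) * V := by nlinarith [mul_pos h0 hVpos]

end Pool.Agent.MBS
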