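import Pool.Agent.MBS.Targets

set_option autoImplicit false

/-! J4: the oscillator lemma for families of multiplier operators. -/

namespace Pool.Agent.MBS

open MeasureTheory Set
open scoped ENNReal NNReal

lemma ofReal_intervalIntegral_sq {F : ℝ → ℂ} (hF : ContinuousOn F (Icc 1 2)) :
    ENNReal.ofReal (∫ r in (1 : ℝ)..2, ‖F r‖ ^ 2) = ∫⁻ r in Icc (1 : ℝ) 2, ‖F r‖ₑ ^ 2 := by
  have h12 : (1 : ℝ) ≤ 2 := by norm_num
  rw [intervalIntegral.integral_of_le h12, ← integral_Icc_eq_integral_Ioc,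
    ofReal_integral_eq_lintegral_ofReal]
  · refine lintegral_congr fun r => ?_
    rw [ENNReal.ofReal_pow (norm_nonneg _), ofReal_norm]
  · exact (hF.norm.pow 2).integrableOn_compact isCompact_Icc
  · exact Filter.Eventually.of_forall fun r => by positivity

theorem pOdeT (hTc : tTcont) (hTd : tTderiv) (hO : tOde) : tOdeT := by
  obtain ⟨C, hC0, hC⟩ := hO
  refine ⟨C.toNNReal, ?_⟩
  intro n a a1 a2 h q K hK ha ha1 ha2 hh hd hd1 hqc hq
  have hK0 : (0 : ℝ) < K := by exact_mod_cast hK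
  have hpos : ∀ R ∈ Icc (1 : ℝ) 2, 0 < R := fun R hR => by linarith [hR.1]
  have hTa := hTc n a h ha hh
  have hTa2 := hTc n a2 h ha2 hh
  -- continuity in `R` for fixed `x`
  have hcx : ∀ (b : ℝ → E n → ℝ),
      ContinuousOn (fun p : ℝ × E n => T (b p.1) h p.2) (Ioi 0 ×ˢ univ) → ∀ x,
      ContinuousOn (fun R => T (b R) h x) (Icc 1 2) := by
    intro b hb x
    exact hb.comp (f := fun R : ℝ => (R, x)) (by fun_prop)
      (fun R hR => ⟨hpos R hR, mem_univ _⟩)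
  -- pointwise estimate
  have hpt : ∀ x, (⨆ R ∈ Icc (1 : ℝ) 2, ‖T (a R) h x‖ₑ) ^ 2 ≤
      (C.toNNReal : ℝ≥0∞) * ((K : ℝ≥0∞) * (∫⁻ R in Icc (1 : ℝ) 2, ‖T (a R) h x‖ₑ ^ 2) +
        (K : ℝ≥0∞)⁻¹ ^ 3 *
          ∫⁻ R in Icc (1 : ℝ) 2, ‖T (a2 R) h x + (q x : ℂ) * T (a R) h x‖ₑ ^ 2) := by
    intro x
    have c0 := hcx a hTa x
    have c2 := hcx a2 hTa2 x
    have c3 : ContinuousOn (fun R => T (a2 R) h x + (q x : ℂ) * T (a R) h x) (Icc 1 2) :=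
      c2.add (continuousOn_const.mul c0)
    have key := hC (fun R => T (a R) h x) (fun R => T (a1 R) h x) (fun R => T (a2 R) h x)
      (q x) K hK (hq x) c2
      (fun R hR => hTd n a a1 h ha ha1 hh hd R (hpos R hR) x)
      (fun R hR => hTd n a1 a2 h ha1 ha2 hh hd1 R (hpos R hR) x)
    rw [← ofReal_intervalIntegral_sq c0, ← ofReal_intervalIntegral_sq c3]
    have n1 : 0 ≤ ∫ r in (1 : ℝ)..2, ‖T (a r) h x‖ ^ 2 :=
      intervalIntegral.integral_nonneg (by norm_num) fun t _ => by positivity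
    have n2 : 0 ≤ ∫ r in (1 : ℝ)..2, ‖T (a2 r) h x + (q x : ℂ) * T (a r) h x‖ ^ 2 :=
      intervalIntegral.integral_nonneg (by norm_num) fun t _ => by positivity
    have e1 : (C.toNNReal : ℝ≥0∞) *
        ((K : ℝ≥0∞) * ENNReal.ofReal (∫ r in (1 : ℝ)..2, ‖T (a r) h x‖ ^ 2) +
        (K : ℝ≥0∞)⁻¹ ^ 3 *
          ENNReal.ofReal (∫ r in (1 : ℝ)..2, ‖T (a2 r) h x + (q x : ℂ) * T (a r) h x‖ ^ 2)) =
        ENNReal.ofReal (C * (K * (∫ r in (1 : ℝ)..2, ‖T (a r) h x‖ ^ 2) +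
        (K : ℝ)⁻¹ ^ 3 * ∫ r in (1 : ℝ)..2, ‖T (a2 r) h x + (q x : ℂ) * T (a r) h x‖ ^ 2)) := by
      rw [ENNReal.ofReal_mul hC0.le, ENNReal.ofReal_add (by positivity) (by positivity),
        ENNReal.ofReal_mul hK0.le, ENNReal.ofReal_mul (by positivity),
        ENNReal.ofReal_pow (by positivity), ENNReal.ofReal_inv_of_pos hK0,
        ENNReal.ofReal_natCast]
      rfl
    rw [e1]
    have hs : (⨆ R ∈ Icc (1 : ℝ) 2, ‖T (a R) h x‖ₑ) ≤
        (ENNReal.ofReal (C * (K * (∫ r in (1 : ℝ)..2, ‖T (a r) h x‖ ^ 2) +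
        (K : ℝ)⁻¹ ^ 3 * ∫ r in (1 : ℝ)..2,
          ‖T (a2 r) h x + (q x : ℂ) * T (a r) h x‖ ^ 2))) ^ (1 / 2 : ℝ) := by
      refine iSup₂_le fun R hR => ?_
      have h1 : ‖T (a R) h x‖ₑ ^ 2 ≤
          ENNReal.ofReal (C * (K * (∫ r in (1 : ℝ)..2, ‖T (a r) h x‖ ^ 2) +
        (K : ℝ)⁻¹ ^ 3 * ∫ r in (1 : ℝ)..2,
          ‖T (a2 r) h x + (q x : ℂ) * T (a r) h x‖ ^ 2)) := by
        rw [← ofReal_norm, ← ENNReal.ofReal_pow (norm_nonneg _)]
        exact ENNReal.ofReal_le_ofReal (key R hR)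
      calc ‖T (a R) h x‖ₑ = (‖T (a R) h x‖ₑ ^ 2) ^ (1 / 2 : ℝ) := by
            rw [← ENNReal.rpow_natCast, ← ENNReal.rpow_mul]
            norm_num
        _ ≤ _ := ENNReal.rpow_le_rpow h1 (by norm_num)
    calc (⨆ R ∈ Icc (1 : ℝ) 2, ‖T (a R) h x‖ₑ) ^ 2 ≤ _ ^ 2 := pow_le_pow_left' hs 2
      _ = _ := by
        rw [← ENNReal.rpow_natCast, ← ENNReal.rpow_mul]
        norm_num
  -- measurability on `E n × [1,2]`
  have hmeas : ∀ (u : ℝ × E n → ℂ), ContinuousOn u (Ioi 0 ×ˢ univ) →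
      AEMeasurable (fun p : E n × ℝ => ‖u (p.2, p.1)‖ₑ ^ 2)
        ((volume : Measure (E n)).prod (volume.restrict (Icc (1 : ℝ) 2))) := by
    intro u hu
    have h1 : ContinuousOn (fun p : E n × ℝ => ‖u (p.2, p.1)‖ₑ ^ 2) (univ ×ˢ Icc (1 : ℝ) 2) := by
      have h2 : ContinuousOn (fun p : E n × ℝ => u (p.2, p.1)) (univ ×ˢ Icc (1 : ℝ) 2) :=
        hu.comp (f := fun p : E n × ℝ => (p.2, p.1)) (by fun_prop)
          (fun p hp => ⟨hpos p.2 hp.2, mem_univ _⟩)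
      exact (ENNReal.continuous_pow 2).comp_continuousOn h2.enorm
    have h3 := h1.aemeasurable (μ := (volume : Measure (E n)).prod (volume : Measure ℝ))
      (MeasurableSet.univ.prod measurableSet_Icc)
    rwa [← Measure.prod_restrict, Measure.restrict_univ] at h3
  have m0 := hmeas _ hTa
  have m2 := hmeas (fun p : ℝ × E n => T (a2 p.1) h p.2 + (q p.2 : ℂ) * T (a p.1) h p.2)
    (hTa2.add (((Complex.continuous_ofReal.comp (hqc.comp continuous_snd)).continuousOn).mul hTa))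
  have s0 := lintegral_lintegral_swap (μ := (volume : Measure (E n)))
    (ν := volume.restrict (Icc (1 : ℝ) 2)) (f := fun x R => ‖T (a R) h x‖ₑ ^ 2) m0
  have s2 := lintegral_lintegral_swap (μ := (volume : Measure (E n)))
    (ν := volume.restrict (Icc (1 : ℝ) 2))
    (f := fun x R => ‖T (a2 R) h x + (q x : ℂ) * T (a R) h x‖ₑ ^ 2) m2
  rw [← s0, ← s2]
  have hKi : (K : ℝ≥0∞)⁻¹ ^ 3 ≠ ∞ := by
    refine ENNReal.pow_ne_top (ENNReal.inv_ne_top.mpr ?_)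
    exact_mod_cast (by omega : K ≠ 0)
  calc ∫⁻ x, (⨆ R ∈ Icc (1 : ℝ) 2, ‖T (a R) h x‖ₑ) ^ 2
      ≤ ∫⁻ x, (C.toNNReal : ℝ≥0∞) * ((K : ℝ≥0∞) * (∫⁻ R in Icc (1 : ℝ) 2, ‖T (a R) h x‖ₑ ^ 2) +
        (K : ℝ≥0∞)⁻¹ ^ 3 *
          ∫⁻ R in Icc (1 : ℝ) 2, ‖T (a2 R) h x + (q x : ℂ) * T (a R) h x‖ₑ ^ 2) :=
        lintegral_mono hpt
    _ = _ := by
        rw [lintegral_const_mul' _ _ ENNReal.coe_ne_top, lintegral_add_left',
          lintegral_const_mul' _ _ (ENNReal.natCast_ne_top K), lintegral_const_mul' _ _ hKi]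
        exact (m0.lintegral_prod_right').const_mul _

end Pool.Agent.MBS
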