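import Pool.Agent.MBS.Targets

set_option autoImplicit false

/-! J6: integration by parts, `x_j²` times multiplier operators (MP_ee701d_an). -/

namespace Pool.Agent.MBS.J6

open MeasureTheory FourierTransform Set
open scoped ENNReal NNReal

theorem continuous_ex {n : ℕ} (x : E n) : Continuous (ex x) := by
  unfold ex
  fun_prop

theorem inner_e {n : ℕ} (x : E n) (j : Fin n) : inner ℝ x (e j) = x j := by
  simp [e, EuclideanSpace.inner_single_right]

theorem inner_add_smul_e {n : ℕ} (x ξ : E n) (j : Fin n) (t : ℝ) :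
    inner ℝ x (ξ + t • e j) = inner ℝ x ξ + t * x j := by
  rw [inner_add_right, inner_smul_right, inner_e]

theorem hasDerivAt_ex {n : ℕ} (x ξ : E n) (j : Fin n) :
    HasDerivAt (fun t : ℝ => ex x (ξ + t • e j))
      ((2 * Real.pi * Complex.I * (x j : ℂ)) * ex x ξ) 0 := by
  unfold ex
  simp_rw [inner_add_smul_e]
  have h1 : HasDerivAt (fun t : ℝ => ((inner ℝ x ξ + t * x j : ℝ) : ℂ)) (x j : ℂ) 0 := by
    have h := ((hasDerivAt_id (0 : ℝ)).mul_const (x j)).const_add (inner ℝ x ξ)
    have h2 := h.ofReal_comp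
    simpa using h2
  have h2 := (h1.const_mul (2 * Real.pi * Complex.I)).cexp
  have e0 : (((inner ℝ x ξ + (0 : ℝ) * x j : ℝ)) : ℂ) = ((inner ℝ x ξ : ℝ) : ℂ) := by simp
  rw [e0] at h2
  rw [mul_comm (2 * (Real.pi : ℂ) * Complex.I * (x j : ℂ))]
  exact h2

/-- general lemma -/
theorem step {n : ℕ} (j : Fin n) (a a1 : E n → ℝ) (h h1 : E n → ℂ)
    (ha : Continuous a) (ha1 : Continuous a1) (hca : HasCompactSupport a)
    (hca1 : HasCompactSupport a1) (hh : Continuous h) (hh1 : Continuous h1)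
    (hda : ∀ ξ, HasDerivAt (fun t : ℝ => a (ξ + t • e j)) (a1 ξ) 0)
    (hdh : ∀ ξ, HasDerivAt (fun t : ℝ => h (ξ + t • e j)) (h1 ξ) 0) (x : E n) :
    (2 * Real.pi * Complex.I * (x j : ℂ)) * T a h x = - T a1 h x - T a h1 x := by
  have hcA : HasCompactSupport (fun ξ => (a ξ : ℂ)) := hca.comp_left Complex.ofReal_zero
  have hcA1 : HasCompactSupport (fun ξ => (a1 ξ : ℂ)) := hca1.comp_left Complex.ofReal_zero
  have hA : Continuous (fun ξ => (a ξ : ℂ)) := Complex.continuous_ofReal.comp ha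
  have hA1 : Continuous (fun ξ => (a1 ξ : ℂ)) := Complex.continuous_ofReal.comp ha1
  have hex := continuous_ex x
  have key : ∀ (b : E n → ℝ) (k : E n → ℂ), Continuous b → HasCompactSupport b → Continuous k →
      Integrable (fun ξ => (b ξ : ℂ) * (k ξ * ex x ξ)) := by
    intro b k hb hcb hk
    have hcB : HasCompactSupport (fun ξ => (b ξ : ℂ)) := hcb.comp_left Complex.ofReal_zero
    exact ((Complex.continuous_ofReal.comp hb).mul (hk.mul hex)).integrable_of_hasCompactSupport
      hcB.mul_right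
  have i1 := key a h ha hca hh
  have i2 := key a1 h ha1 hca1 hh
  have i3 := key a h1 ha hca hh1
  have main := integral_bilinear_hasLineDerivAt_right_eq_neg_left_of_integrable
    (μ := (volume : Measure (E n))) (B := ContinuousLinearMap.mul ℝ ℂ) (v := (e j : E n))
    (f := fun ξ => (a ξ : ℂ) * h ξ) (f' := fun ξ => (a1 ξ : ℂ) * h ξ + (a ξ : ℂ) * h1 ξ)
    (g := fun ξ => ex x ξ) (g' := fun ξ => (2 * Real.pi * Complex.I * (x j : ℂ)) * ex x ξ)
    (by
      have h0 := i2.add i3
      refine h0.congr (Filter.Eventually.of_forall fun ξ => ?_)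
      simp only [ContinuousLinearMap.mul_apply', Pi.add_apply]
      ring)
    (by
      have h0 := i1.const_mul (2 * Real.pi * Complex.I * (x j : ℂ))
      refine h0.congr (Filter.Eventually.of_forall fun ξ => ?_)
      simp only [ContinuousLinearMap.mul_apply']
      ring)
    (by
      refine i1.congr (Filter.Eventually.of_forall fun ξ => ?_)
      simp only [ContinuousLinearMap.mul_apply']
      ring)
    (by
      intro ξ _
      have h1' := (hda ξ).ofReal_comp
      have h2' := h1'.mul (hdh ξ)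
      simp only [zero_smul, add_zero] at h2'
      exact h2')
    (by
      intro ξ _
      exact hasDerivAt_ex x ξ j)
  simp only [ContinuousLinearMap.mul_apply'] at main
  have e1 : ∫ ξ, (a ξ : ℂ) * h ξ * ((2 * Real.pi * Complex.I * (x j : ℂ)) * ex x ξ)
      = (2 * Real.pi * Complex.I * (x j : ℂ)) * T a h x := by
    unfold T
    rw [← integral_const_mul]
    refine integral_congr_ae (Filter.Eventually.of_forall fun ξ => ?_)
    simp only
    ring
  have e2 : ∫ ξ, ((a1 ξ : ℂ) * h ξ + (a ξ : ℂ) * h1 ξ) * ex x ξ = T a1 h x + T a h1 x := by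
    unfold T
    rw [← integral_add i2 i3]
    refine integral_congr_ae (Filter.Eventually.of_forall fun ξ => ?_)
    simp only
    ring
  rw [e1, e2] at main
  rw [main]
  ring

theorem continuous_fourier' {n : ℕ} {g : E n → ℂ} (hg : Integrable g) : Continuous (𝓕 g) := by
  have := VectorFourier.fourierIntegral_continuous (V := E n) (W := E n)
    Real.continuous_fourierChar (L := innerₗ (E n)) continuous_inner hg
  exact this

/-- derivative of a Fourier transform along a coordinate line -/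
theorem hasDerivAt_fourier_line {n : ℕ} (j : Fin n) {g : E n → ℂ} (hg : Integrable g)
    (hg1 : Integrable (fun y => (y j : ℂ) * g y)) (ξ : E n) :
    HasDerivAt (fun t : ℝ => 𝓕 g (ξ + t • e j))
      (-(2 * Real.pi * Complex.I) * 𝓕 (fun y => (y j : ℂ) * g y) ξ) 0 := by
  have hfun : (fun t : ℝ => 𝓕 g (ξ + t • e j)) = fun t : ℝ => ∫ v : E n,
      Complex.exp (((-2 * Real.pi * (inner ℝ v ξ + t * v j) : ℝ) : ℂ) * Complex.I) * g v := by
    funext t
    rw [Real.fourier_eq']
    simp_rw [inner_add_smul_e, smul_eq_mul]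
  have hval : -(2 * Real.pi * Complex.I) * 𝓕 (fun y => (y j : ℂ) * g y) ξ = ∫ v : E n,
      (-(2 * Real.pi * Complex.I) * (v j : ℂ)) *
        (Complex.exp (((-2 * Real.pi * (inner ℝ v ξ + (0 : ℝ) * v j) : ℝ) : ℂ) * Complex.I)
          * g v) := by
    rw [Real.fourier_eq', ← integral_const_mul]
    refine integral_congr_ae (Filter.Eventually.of_forall fun v => ?_)
    simp only [smul_eq_mul, zero_mul, add_zero]
    ring
  rw [hfun, hval]
  have hnorm : ∀ (t : ℝ) (v : E n),
      ‖Complex.exp (((-2 * Real.pi * (inner ℝ v ξ + t * v j) : ℝ) : ℂ) * Complex.I)‖ = 1 :=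
    fun t v => Complex.norm_exp_ofReal_mul_I _
  have hcont : ∀ t : ℝ, Continuous (fun v : E n =>
      Complex.exp (((-2 * Real.pi * (inner ℝ v ξ + t * v j) : ℝ) : ℂ) * Complex.I)) := by
    intro t
    have : Continuous (fun v : E n => v j) := by fun_prop
    fun_prop
  have hmeas : ∀ t : ℝ, AEStronglyMeasurable (fun v : E n =>
      Complex.exp (((-2 * Real.pi * (inner ℝ v ξ + t * v j) : ℝ) : ℂ) * Complex.I) * g v) :=
    fun t => (hcont t).aestronglyMeasurable.mul hg.aestronglyMeasurable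
  have hvj : Continuous (fun v : E n => (v j : ℂ)) := by
    have : Continuous (fun v : E n => v j) := by fun_prop
    fun_prop
  refine (hasDerivAt_integral_of_dominated_loc_of_deriv_le (s := univ)
    (bound := fun v => 2 * Real.pi * ‖(v j : ℂ) * g v‖)
    (F := fun (t : ℝ) (v : E n) =>
      Complex.exp (((-2 * Real.pi * (inner ℝ v ξ + t * v j) : ℝ) : ℂ) * Complex.I) * g v)
    (F' := fun (t : ℝ) (v : E n) => (-(2 * Real.pi * Complex.I) * (v j : ℂ)) *
        (Complex.exp (((-2 * Real.pi * (inner ℝ v ξ + t * v j) : ℝ) : ℂ) * Complex.I)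
          * g v)) Filter.univ_mem (Filter.Eventually.of_forall hmeas) ?_ ?_ ?_ ?_ ?_).2
  · refine hg.mono (hmeas 0) (Filter.Eventually.of_forall fun v => ?_)
    rw [norm_mul, hnorm, one_mul]
  · exact ((continuous_const.mul hvj).aestronglyMeasurable).mul (hmeas 0)
  · refine Filter.Eventually.of_forall fun v t _ => ?_
    rw [norm_mul, norm_mul, norm_mul, hnorm, one_mul, norm_mul]
    simp [abs_of_pos Real.pi_pos, mul_assoc]
  · exact hg1.norm.const_mul _
  · refine Filter.Eventually.of_forall fun v t _ => ?_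
    have h1 : HasDerivAt (fun s : ℝ => ((-2 * Real.pi * (inner ℝ v ξ + s * v j) : ℝ) : ℂ))
        ((-2 * Real.pi * v j : ℝ) : ℂ) t := by
      have h := (((hasDerivAt_id t).mul_const (v j)).const_add (inner ℝ v ξ)).const_mul
        (-2 * Real.pi)
      have h2 := h.ofReal_comp
      simpa using h2
    have h2 := ((h1.mul_const Complex.I).cexp).mul_const (g v)
    have h3 : (-(2 * Real.pi * Complex.I) * (v j : ℂ)) *
        (Complex.exp (((-2 * Real.pi * (inner ℝ v ξ + t * v j) : ℝ) : ℂ) * Complex.I) * g v) =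
        Complex.exp (((-2 * Real.pi * (inner ℝ v ξ + t * v j) : ℝ) : ℂ) * Complex.I) *
          (((-2 * Real.pi * v j : ℝ) : ℂ) * Complex.I) * g v := by
      generalize Complex.exp _ = z
      push_cast
      ring
    rw [h3]
    exact h2

theorem T_smul {n : ℕ} (a : E n → ℝ) (c : ℂ) (h : E n → ℂ) (x : E n) :
    T a (fun ξ => c * h ξ) x = c * T a h x := by
  unfold T
  rw [← integral_const_mul]
  refine integral_congr_ae (Filter.Eventually.of_forall fun ξ => ?_)
  simp only
  ring

end Pool.Agent.MBS.J6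

namespace Pool.Agent.MBS

open J6 MeasureTheory FourierTransform Set in
theorem pXj : tXj := by
  intro n j a a1 a2 g ha ha1 ha2 hca hca1 hca2 hd1 hd2 hg hg1 hg2 x
  have hcg : Continuous (𝓕 g) := continuous_fourier' hg
  have hcg1 : Continuous (𝓕 (fun y : E n => (y j : ℂ) * g y)) := continuous_fourier' hg1
  have hg2' : Integrable (fun y : E n => (y j : ℂ) * ((y j : ℂ) * g y)) := by
    refine hg2.congr (Filter.Eventually.of_forall fun y => ?_)
    simp only
    ring
  have hfe : (fun y : E n => (y j : ℂ) * ((y j : ℂ) * g y)) = fun y : E n => (y j : ℂ) ^ 2 * g y := by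
    funext y
    ring
  have hcg2 : Continuous (𝓕 (fun y : E n => (y j : ℂ) ^ 2 * g y)) := continuous_fourier' hg2
  have hdg := hasDerivAt_fourier_line j hg hg1
  have hdg1 := hasDerivAt_fourier_line j hg1 hg2'
  rw [hfe] at hdg1
  set c : ℂ := -(2 * Real.pi * Complex.I) with hc
  -- first application
  have s1 := step j a a1 (𝓕 g) (fun ξ => c * 𝓕 (fun y : E n => (y j : ℂ) * g y) ξ) ha ha1 hca hca1
    hcg (continuous_const.mul hcg1) hd1 hdg x
  have s2 := step j a1 a2 (𝓕 g) (fun ξ => c * 𝓕 (fun y : E n => (y j : ℂ) * g y) ξ) ha1 ha2 hca1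
    hca2 hcg (continuous_const.mul hcg1) hd2 hdg x
  have s3 := step j a a1 (𝓕 (fun y : E n => (y j : ℂ) * g y))
    (fun ξ => c * 𝓕 (fun y : E n => (y j : ℂ) ^ 2 * g y) ξ) ha ha1 hca hca1
    hcg1 (continuous_const.mul hcg2) hd1 hdg1 x
  rw [T_smul] at s1 s2 s3
  set A := T a (𝓕 g) x
  set A1 := T a1 (𝓕 g) x
  set A2 := T a2 (𝓕 g) x
  set B := T a (𝓕 (fun y : E n => (y j : ℂ) * g y)) x
  set B1 := T a1 (𝓕 (fun y : E n => (y j : ℂ) * g y)) x
  set D := T a (𝓕 (fun y : E n => (y j : ℂ) ^ 2 * g y)) x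
  have hI : Complex.I ^ 2 = -1 := Complex.I_sq
  have e1 : ((2 * Real.pi * x j : ℝ) : ℂ) ^ 2 * A =
      - ((2 * Real.pi * Complex.I * (x j : ℂ)) * ((2 * Real.pi * Complex.I * (x j : ℂ)) * A)) := by
    push_cast
    linear_combination (4 * (Real.pi : ℂ) ^ 2 * (x j : ℂ) ^ 2 * A) * hI
  rw [e1, s1, mul_sub, mul_neg, s2]
  have e2 : (2 * Real.pi * Complex.I * (x j : ℂ)) * (c * B) =
      c * ((2 * Real.pi * Complex.I * (x j : ℂ)) * B) := by ring
  rw [e2, s3, hc]
  linear_combination (- 4 * (Real.pi : ℂ) ^ 2 * D) * hI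

open J6 MeasureTheory FourierTransform Set in
theorem pXjK : tXjK := by
  intro n j a a1 a2 ha ha1 ha2 hca hca1 hca2 hd1 hd2 x
  have hz : ∀ b : E n → ℝ, T b (fun _ => (0 : ℂ)) x = 0 := by
    intro b
    simp [T]
  have hd : ∀ ξ : E n, HasDerivAt (fun t : ℝ => (fun _ : E n => (1 : ℂ)) (ξ + t • e j))
      ((fun _ : E n => (0 : ℂ)) ξ) 0 := fun ξ => hasDerivAt_const _ _
  have s1 := step j a a1 (fun _ => 1) (fun _ => 0) ha ha1 hca hca1
    continuous_const continuous_const hd1 hd x
  have s2 := step j a1 a2 (fun _ => 1) (fun _ => 0) ha1 ha2 hca1 hca2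
    continuous_const continuous_const hd2 hd x
  rw [hz, sub_zero] at s1 s2
  have hI : Complex.I ^ 2 = -1 := Complex.I_sq
  have e1 : ((2 * Real.pi * x j : ℝ) : ℂ) ^ 2 * T a (fun _ => 1) x =
      - ((2 * Real.pi * Complex.I * (x j : ℂ)) *
        ((2 * Real.pi * Complex.I * (x j : ℂ)) * T a (fun _ => 1) x)) := by
    push_cast
    linear_combination (4 * (Real.pi : ℂ) ^ 2 * (x j : ℂ) ^ 2 * T a (fun _ => 1) x) * hI
  rw [e1, s1, mul_neg, s2]
  ring

end Pool.Agent.MBS
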