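import Pool.Agent.MBS.Targets
import Pool.Agent.H25.Plancherel

/-! MBS-J9: frequency localisation of energy (`tHigh`, `tLow`). -/

set_option autoImplicit false

namespace Pool.Agent.MBS

open MeasureTheory FourierTransform Set
open scoped ENNReal NNReal

namespace J9

theorem planch_lint {n : ℕ} {f : E n → ℂ} (h1 : Integrable f) (h2 : MemLp f 2) :
    ∫⁻ ξ, ‖𝓕 f ξ‖ₑ ^ 2 = ∫⁻ x, ‖f x‖ₑ ^ 2 := by
  have h := Pool.Agent.H25.Plancherel.eLpNorm_fourier_eq h1 h2
  rw [eLpNorm_eq_lintegral_rpow_enorm_toReal (by norm_num) (by norm_num),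
    eLpNorm_eq_lintegral_rpow_enorm_toReal (by norm_num) (by norm_num)] at h
  have h' := congrArg (fun y : ℝ≥0∞ => y ^ (2 : ℝ)) h
  simp only [ENNReal.toReal_ofNat, one_div] at h'
  rw [← ENNReal.rpow_mul, ← ENNReal.rpow_mul] at h'
  norm_num at h'
  exact h'

theorem fourier_trans {n : ℕ} (g : E n → ℂ) (j : Fin n) (t : ℝ) (ξ : E n) :
    𝓕 (fun x => g (x + t • e j)) ξ =
      Complex.exp ((2 * Real.pi * ξ j * t : ℝ) * Complex.I) * 𝓕 g ξ := by
  have h := congrFun (VectorFourier.fourierIntegral_comp_add_right (𝕜 := ℝ) (V := E n) (W := E n)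
    Real.fourierChar (volume : Measure (E n)) (innerₗ (E n)) g (t • e j)) ξ
  have h2 : 𝓕 (fun x => g (x + t • e j)) ξ = Real.fourierChar (innerₗ (E n) (t • e j) ξ) •
      𝓕 g ξ := h
  rw [h2, Circle.smul_def, Real.fourierChar_apply, smul_eq_mul]
  congr 3
  norm_cast
  simp only [innerₗ_apply_apply, inner_smul_left, EuclideanSpace.inner_single_left]
  simp
  ring

theorem fourier_cont {n : ℕ} {g : E n → ℂ} (h1 : Integrable g) : Continuous (𝓕 g) :=
  VectorFourier.fourierIntegral_continuous (V := E n) (W := E n)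
      Real.continuous_fourierChar (L := innerₗ (E n)) continuous_inner h1

theorem trans_mp {n : ℕ} (v : E n) : MeasurePreserving (fun x : E n => x + v) volume volume :=
  measurePreserving_add_right volume v

theorem fourier_sub' {n : ℕ} {f g : E n → ℂ} (hf : Integrable f) (hg : Integrable g) (ξ : E n) :
    𝓕 (fun x => f x - g x) ξ = 𝓕 f ξ - 𝓕 g ξ := by
  rw [Real.fourier_eq, Real.fourier_eq, Real.fourier_eq, ← integral_sub]
  · congr 1 with x
    rw [smul_sub]
  · exact (Real.fourierIntegral_convergent_iff ξ).2 hf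
  · exact (Real.fourierIntegral_convergent_iff ξ).2 hg

theorem norm_exp_sub_one_sq (a : ℝ) :
    ‖Complex.exp ((a : ℝ) * Complex.I) - 1‖ₑ ^ 2 = ENNReal.ofReal (2 - 2 * Real.cos a) := by
  have h : ‖Complex.exp ((a : ℝ) * Complex.I) - 1‖ ^ 2 = 2 - 2 * Real.cos a := by
    rw [← Complex.normSq_eq_norm_sq, Complex.normSq_apply]
    have h1 : (Complex.exp ((a : ℝ) * Complex.I) - 1).re = Real.cos a - 1 := by
      simp [Complex.exp_re]
    have h2 : (Complex.exp ((a : ℝ) * Complex.I) - 1).im = Real.sin a := by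
      simp [Complex.exp_im]
    rw [h1, h2]
    nlinarith [Real.sin_sq_add_cos_sq a]
  rw [← h, ← ofReal_norm, ENNReal.ofReal_pow (norm_nonneg _)]

theorem ker_lower (a t0 : ℝ) (ht0 : 0 < t0) (ha : 2 * Real.pi ≤ |a| * t0) :
    1 / 2 ≤ ∫ t in t0..(2 * t0), (2 - 2 * Real.cos (a * t)) / t := by
  have hpi := Real.pi_gt_three
  have ha0 : 0 < |a| := by
    by_contra hc
    have : |a| = 0 := le_antisymm (not_lt.1 hc) (abs_nonneg a)
    rw [this, zero_mul] at ha
    linarith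
  have hane : a ≠ 0 := abs_pos.1 ha0
  have hle : t0 ≤ 2 * t0 := by linarith
  set G : ℝ → ℝ := fun t => 2 * Real.log t - 2 * (Real.sin (a * t) / (a * t)) + 2 / (|a| * t) with hG
  set G' : ℝ → ℝ := fun t => 2 * t⁻¹ - 2 * ((Real.cos (a * t) * a * (a * t) - Real.sin (a * t) * a)
      / (a * t) ^ 2) + 2 * (-(|a|) / (|a| * t) ^ 2) with hG'
  have hder : ∀ t ∈ uIcc t0 (2 * t0), HasDerivAt G (G' t) t := by
    intro t ht
    rw [uIcc_of_le hle] at ht
    have ht' : 0 < t := lt_of_lt_of_le ht0 ht.1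
    have h1 := (Real.hasDerivAt_log ht'.ne').const_mul 2
    have h2 : HasDerivAt (fun t => a * t) a t := by simpa using (hasDerivAt_id t).const_mul a
    have h3 := (Real.hasDerivAt_sin (a * t)).comp t h2
    have h4 := (h3.div h2 (mul_ne_zero hane ht'.ne')).const_mul 2
    have h5 : HasDerivAt (fun t => |a| * t) |a| t := by simpa using (hasDerivAt_id t).const_mul |a|
    have h6 := (h5.inv (mul_ne_zero ha0.ne' ht'.ne')).const_mul 2
    have h7 := (h1.sub h4).add h6
    refine HasDerivAt.congr_of_eventuallyEq (f := _) (h7.congr_deriv ?_)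
      (Filter.Eventually.of_forall ?_)
    · simp only [hG', Function.comp_def]
    · intro s
      simp only [hG, Pi.add_apply, Pi.sub_apply, Pi.div_apply, Pi.inv_apply, Function.comp_def,
        div_eq_mul_inv]
  have hpos : ∀ t ∈ Icc t0 (2 * t0), 0 < t := fun t ht => lt_of_lt_of_le ht0 ht.1
  have hcont : ContinuousOn G' (uIcc t0 (2 * t0)) := by
    rw [uIcc_of_le hle]
    have h1 : ∀ t ∈ Icc t0 (2 * t0), t ≠ 0 := fun t ht => (hpos t ht).ne'
    have h2 : ∀ t ∈ Icc t0 (2 * t0), (a * t) ^ 2 ≠ 0 := fun t ht =>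
      pow_ne_zero _ (mul_ne_zero hane (h1 t ht))
    have h3 : ∀ t ∈ Icc t0 (2 * t0), (|a| * t) ^ 2 ≠ 0 := fun t ht =>
      pow_ne_zero _ (mul_ne_zero ha0.ne' (h1 t ht))
    refine ContinuousOn.add (ContinuousOn.sub ?_ ?_) ?_
    · exact continuousOn_const.mul (continuousOn_id.inv₀ h1)
    · refine continuousOn_const.mul (ContinuousOn.div (by fun_prop) (by fun_prop) h2)
    · refine continuousOn_const.mul (ContinuousOn.div (by fun_prop) (by fun_prop) h3)
  have hint : ∫ t in t0..(2 * t0), G' t = G (2 * t0) - G t0 :=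
    intervalIntegral.integral_eq_sub_of_hasDerivAt hder hcont.intervalIntegrable
  have hcont2 : ContinuousOn (fun t => (2 - 2 * Real.cos (a * t)) / t) (uIcc t0 (2 * t0)) := by
    rw [uIcc_of_le hle]
    exact ContinuousOn.div (by fun_prop) (by fun_prop) (fun t ht => (hpos t ht).ne')
  have hmono : ∫ t in t0..(2 * t0), G' t ≤ ∫ t in t0..(2 * t0), (2 - 2 * Real.cos (a * t)) / t := by
    refine intervalIntegral.integral_mono_on hle hcont.intervalIntegrable
      hcont2.intervalIntegrable ?_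
    intro t ht
    have ht' := hpos t ht
    have hs : Real.sin (a * t) * a ≤ |a| := by
      calc Real.sin (a * t) * a ≤ |Real.sin (a * t) * a| := le_abs_self _
        _ = |Real.sin (a * t)| * |a| := abs_mul _ _
        _ ≤ 1 * |a| := by
            exact mul_le_mul_of_nonneg_right (Real.abs_sin_le_one _) (abs_nonneg _)
        _ = |a| := one_mul _
    have haa : |a| ^ 2 = a ^ 2 := sq_abs a
    have e1 : G' t = (2 - 2 * Real.cos (a * t)) / t
        + 2 * (Real.sin (a * t) * a - |a|) / (a * t) ^ 2 := by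
      simp only [hG']
      have : (|a| * t) ^ 2 = (a * t) ^ 2 := by rw [mul_pow, mul_pow, haa]
      rw [this]
      field_simp
      ring
    rw [e1]
    have : 2 * (Real.sin (a * t) * a - |a|) / (a * t) ^ 2 ≤ 0 := by
      apply div_nonpos_of_nonpos_of_nonneg
      · linarith
      · positivity
    linarith
  have hval : 1 / 2 ≤ G (2 * t0) - G t0 := by
    have hlog : Real.log (2 * t0) = Real.log 2 + Real.log t0 :=
      Real.log_mul (by norm_num) ht0.ne'
    have hl2 := Real.log_two_gt_d9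
    have hb : ∀ s : ℝ, 0 < s → |Real.sin (a * s) / (a * s)| ≤ 1 / (|a| * s) := by
      intro s hs
      rw [abs_div, abs_mul a s, abs_of_pos hs]
      exact div_le_div_of_nonneg_right (Real.abs_sin_le_one _) (by positivity)
    have hb1 := hb (2 * t0) (by linarith)
    have hb2 := hb t0 ht0
    have hq : 1 / (|a| * t0) ≤ 1 / (2 * Real.pi) :=
      one_div_le_one_div_of_le (by positivity) ha
    have hq' : 1 / (2 * Real.pi) ≤ 1 / 6 := one_div_le_one_div_of_le (by norm_num) (by linarith)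
    have hq2 : 1 / (|a| * (2 * t0)) = (1 / (|a| * t0)) / 2 := by
      field_simp
    have hq3 : 2 / (|a| * (2 * t0)) = (1 / (|a| * t0)) := by
      field_simp
    have hq4 : 2 / (|a| * t0) = 2 * (1 / (|a| * t0)) := by
      field_simp
    simp only [hG]
    rw [hlog, hq3, hq4]
    rw [hq2] at hb1
    have h1 := (abs_le.1 hb1).2
    have h2 := (abs_le.1 hb2).1
    nlinarith
  linarith [hint, hmono, hval]

theorem ker_lint (a t0 : ℝ) (ht0 : 0 < t0) (ha : 2 * Real.pi ≤ |a| * t0) :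
    1 ≤ 2 * ∫⁻ t in Icc t0 (2 * t0), ‖Complex.exp ((a * t : ℝ) * Complex.I) - 1‖ₑ ^ 2 *
      ENNReal.ofReal t⁻¹ := by
  have hle : t0 ≤ 2 * t0 := by linarith
  have h1 : ∫⁻ t in Icc t0 (2 * t0), ‖Complex.exp ((a * t : ℝ) * Complex.I) - 1‖ₑ ^ 2 *
      ENNReal.ofReal t⁻¹ = ∫⁻ t in Icc t0 (2 * t0),
        ENNReal.ofReal ((2 - 2 * Real.cos (a * t)) / t) := by
    refine setLIntegral_congr_fun measurableSet_Icc ?_
    intro t ht
    have ht' : 0 < t := lt_of_lt_of_le ht0 ht.1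
    simp only
    rw [norm_exp_sub_one_sq, ← ENNReal.ofReal_mul, div_eq_mul_inv]
    have := Real.cos_le_one (a * t)
    linarith
  have hcont2 : ContinuousOn (fun t => (2 - 2 * Real.cos (a * t)) / t) (Icc t0 (2 * t0)) :=
    ContinuousOn.div (by fun_prop) (by fun_prop) (fun t ht => (lt_of_lt_of_le ht0 ht.1).ne')
  rw [h1, ← ofReal_integral_eq_lintegral_ofReal (hcont2.integrableOn_Icc)]
  · rw [integral_Icc_eq_integral_Ioc, ← intervalIntegral.integral_of_le hle]
    have := ker_lower a t0 ht0 ha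
    calc (1 : ℝ≥0∞) = 2 * ENNReal.ofReal (1 / 2) := by
          rw [show (2 : ℝ≥0∞) = ENNReal.ofReal 2 by simp, ← ENNReal.ofReal_mul (by norm_num)]
          norm_num
      _ ≤ _ := by gcongr
  · rw [Filter.EventuallyLE, ae_restrict_iff' measurableSet_Icc]
    refine Filter.Eventually.of_forall ?_
    intro t ht
    have ht' : 0 < t := lt_of_lt_of_le ht0 ht.1
    simp only [Pi.zero_apply]
    have := Real.cos_le_one (a * t)
    apply div_nonneg _ ht'.le
    linarith

theorem diff_planch {n : ℕ} (j : Fin n) {g : E n → ℂ} (h1 : Integrable g) (h2 : MemLp g 2)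
    (t : ℝ) : ∫⁻ x, ‖g (x + t • e j) - g x‖ₑ ^ 2 =
      ∫⁻ ξ : E n, ‖Complex.exp ((2 * Real.pi * ξ j * t : ℝ) * Complex.I) - 1‖ₑ ^ 2 *
        ‖𝓕 g ξ‖ₑ ^ 2 := by
  have i1 : Integrable (fun x => g (x + t • e j)) := (trans_mp (t • e j)).integrable_comp_of_integrable h1
  have i2 : MemLp (fun x => g (x + t • e j)) 2 := h2.comp_measurePreserving (trans_mp (t • e j))
  have := planch_lint (i1.sub h1) (i2.sub h2)
  have e1 : ∫⁻ x, ‖g (x + t • e j) - g x‖ₑ ^ 2 = ∫⁻ x, ‖((fun x => g (x + t • e j)) - g) x‖ₑ ^ 2 := rfl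
  rw [e1, ← this]
  refine lintegral_congr ?_
  intro ξ
  have e2 : 𝓕 ((fun x => g (x + t • e j)) - g) ξ = 𝓕 (fun x => g (x + t • e j)) ξ - 𝓕 g ξ :=
    fourier_sub' i1 h1 ξ
  rw [e2, fourier_trans]
  rw [show Complex.exp ((2 * Real.pi * ξ j * t : ℝ) * Complex.I) * 𝓕 g ξ - 𝓕 g ξ =
    (Complex.exp ((2 * Real.pi * ξ j * t : ℝ) * Complex.I) - 1) * 𝓕 g ξ by ring]
  rw [enorm_mul, mul_pow]

theorem pHigh : tHigh := by
  intro n j g t0 ht0 hm h1 h2
  have hF : Continuous (𝓕 g) := fourier_cont h1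
  have hS : MeasurableSet {ξ : E n | t0⁻¹ ≤ |ξ j|} :=
    measurableSet_le measurable_const ((by fun_prop : Continuous fun ξ : E n => |ξ j|).measurable)
  have e1 : ∫⁻ t in Icc t0 (2 * t0), (∫⁻ x, ‖g (x + t • e j) - g x‖ₑ ^ 2) * ENNReal.ofReal t⁻¹ =
      ∫⁻ ξ : E n, (∫⁻ t in Icc t0 (2 * t0),
        ‖Complex.exp ((2 * Real.pi * ξ j * t : ℝ) * Complex.I) - 1‖ₑ ^ 2 * ENNReal.ofReal t⁻¹) *
          ‖𝓕 g ξ‖ₑ ^ 2 := by
    have hmeas : Measurable (fun p : E n × ℝ =>
        ‖Complex.exp ((2 * Real.pi * p.1 j * p.2 : ℝ) * Complex.I) - 1‖ₑ ^ 2 *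
          ENNReal.ofReal p.2⁻¹ * ‖𝓕 g p.1‖ₑ ^ 2) := by
      have c1 : Measurable (fun p : E n × ℝ =>
        Complex.exp ((2 * Real.pi * p.1 j * p.2 : ℝ) * Complex.I) - 1) := by
          apply Continuous.measurable
          fun_prop
      have c2 : Measurable (fun p : E n × ℝ => 𝓕 g p.1) := hF.measurable.comp measurable_fst
      exact ((c1.enorm.pow_const 2).mul (ENNReal.measurable_ofReal.comp measurable_snd.inv)).mul
        (c2.enorm.pow_const 2)
    have hsw := lintegral_lintegral_swap (μ := (volume : Measure (E n)))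
      (ν := (volume : Measure ℝ).restrict (Icc t0 (2 * t0)))
      (f := fun ξ t => ‖Complex.exp ((2 * Real.pi * ξ j * t : ℝ) * Complex.I) - 1‖ₑ ^ 2 *
          ENNReal.ofReal t⁻¹ * ‖𝓕 g ξ‖ₑ ^ 2) hmeas.aemeasurable
    calc ∫⁻ t in Icc t0 (2 * t0), (∫⁻ x, ‖g (x + t • e j) - g x‖ₑ ^ 2) * ENNReal.ofReal t⁻¹
        = ∫⁻ t in Icc t0 (2 * t0), ∫⁻ ξ : E n,
          ‖Complex.exp ((2 * Real.pi * ξ j * t : ℝ) * Complex.I) - 1‖ₑ ^ 2 *
          ENNReal.ofReal t⁻¹ * ‖𝓕 g ξ‖ₑ ^ 2 := by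
          refine lintegral_congr ?_
          intro t
          rw [diff_planch j h1 h2 t, ← lintegral_mul_const']
          · refine lintegral_congr ?_
            intro ξ
            ring
          · exact ENNReal.ofReal_ne_top
      _ = _ := hsw.symm
      _ = _ := by
          refine lintegral_congr ?_
          intro ξ
          rw [lintegral_mul_const']
          exact ENNReal.pow_ne_top enorm_ne_top
  rw [e1, ← lintegral_const_mul' _ _ (by norm_num)]
  calc ∫⁻ ξ in {ξ : E n | t0⁻¹ ≤ |ξ j|}, ‖𝓕 g ξ‖ₑ ^ 2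
      ≤ ∫⁻ ξ in {ξ : E n | t0⁻¹ ≤ |ξ j|}, 2 * ((∫⁻ t in Icc t0 (2 * t0),
        ‖Complex.exp ((2 * Real.pi * ξ j * t : ℝ) * Complex.I) - 1‖ₑ ^ 2 * ENNReal.ofReal t⁻¹) *
          ‖𝓕 g ξ‖ₑ ^ 2) := by
        refine setLIntegral_mono' hS ?_
        intro ξ hξ
        have hξ' : t0⁻¹ ≤ |ξ j| := hξ
        have hk := ker_lint (2 * Real.pi * ξ j) t0 ht0 (by
          rw [abs_mul, abs_of_pos (by positivity : (0 : ℝ) < 2 * Real.pi)]
          have : 1 ≤ |ξ j| * t0 := by
            have := mul_le_mul_of_nonneg_right hξ' ht0.le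
            rwa [inv_mul_cancel₀ ht0.ne'] at this
          nlinarith [Real.pi_pos])
        rw [← mul_assoc]
        calc ‖𝓕 g ξ‖ₑ ^ 2 = 1 * ‖𝓕 g ξ‖ₑ ^ 2 := (one_mul _).symm
          _ ≤ _ := by gcongr
    _ ≤ _ := setLIntegral_le_lintegral _ _


/-! ### low frequencies -/

theorem cs {α : Type*} [MeasurableSpace α] (μ : Measure α) {f h : α → ℝ≥0∞}
    (hf : AEMeasurable f μ) (hh : AEMeasurable h μ) :
    (∫⁻ a, f a * h a ∂μ) ^ 2 ≤ (∫⁻ a, f a ^ 2 ∂μ) * ∫⁻ a, h a ^ 2 ∂μ := by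
  have := ENNReal.lintegral_mul_le_Lp_mul_Lq μ Real.HolderConjugate.two_two hf hh
  simp only [Pi.mul_apply] at this
  calc (∫⁻ a, f a * h a ∂μ) ^ 2
      ≤ ((∫⁻ a, f a ^ (2 : ℝ) ∂μ) ^ (1 / (2 : ℝ)) * (∫⁻ a, h a ^ (2 : ℝ) ∂μ) ^ (1 / (2 : ℝ))) ^ 2 := by
        gcongr
    _ = _ := by
        rw [mul_pow, ← ENNReal.rpow_natCast, ← ENNReal.rpow_natCast, ← ENNReal.rpow_mul,
          ← ENNReal.rpow_mul]
        norm_num

/-- the average over a segment -/
noncomputable def Av {n : ℕ} (j : Fin n) (t : ℝ) (g : E n → ℂ) (x : E n) : ℂ :=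
  ∫ u in Icc 0 t, g (x + u • e j)

theorem joint_meas {n : ℕ} (j : Fin n) {F : Type*} [MeasurableSpace F] {g : E n → F}
    (hm : Measurable g) : Measurable (fun p : E n × ℝ => g (p.1 + p.2 • e j)) :=
  hm.comp (by
    apply Continuous.measurable
    fun_prop)

theorem joint_int {n : ℕ} (j : Fin n) (t : ℝ) {g : E n → ℂ} (hm : Measurable g)
    (h1 : Integrable g) : Integrable (fun p : E n × ℝ => g (p.1 + p.2 • e j))
      ((volume : Measure (E n)).prod ((volume : Measure ℝ).restrict (Icc 0 t))) := by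
  rw [integrable_prod_iff' (joint_meas j hm).aestronglyMeasurable]
  refine ⟨Filter.Eventually.of_forall fun u =>
    (trans_mp (u • e j)).integrable_comp_of_integrable h1, ?_⟩
  have : ∀ u : ℝ, ∫ x : E n, ‖g (x + u • e j)‖ = ∫ x, ‖g x‖ := fun u =>
    integral_add_right_eq_self (fun x => ‖g x‖) (u • e j)
  simp only [this]
  exact integrable_const _

theorem av_int {n : ℕ} (j : Fin n) (t : ℝ) {g : E n → ℂ} (hm : Measurable g)
    (h1 : Integrable g) : Integrable (Av j t g) :=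
  (joint_int j t hm h1).integral_prod_left

theorem lint_trans {n : ℕ} (v : E n) (f : E n → ℝ≥0∞) :
    ∫⁻ x, f (x + v) = ∫⁻ x, f x := lintegral_add_right_eq_self f v

theorem av_enorm {n : ℕ} (j : Fin n) (t : ℝ) (g : E n → ℂ) (x : E n) :
    ‖Av j t g x‖ₑ ≤ ∫⁻ u in Icc 0 t, ‖g (x + u • e j)‖ₑ := enorm_integral_le_lintegral_enorm _

theorem av_sq {n : ℕ} (j : Fin n) (t : ℝ) {g : E n → ℂ} (hm : Measurable g) (x : E n) :
    ‖Av j t g x‖ₑ ^ 2 ≤ ENNReal.ofReal t * ∫⁻ u in Icc 0 t, ‖g (x + u • e j)‖ₑ ^ 2 := by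
  have hmu : Measurable (fun u : ℝ => g (x + u • e j)) := (joint_meas j hm).comp measurable_prodMk_left
  calc ‖Av j t g x‖ₑ ^ 2 ≤ (∫⁻ u in Icc 0 t, 1 * ‖g (x + u • e j)‖ₑ) ^ 2 := by
        simp only [one_mul]
        gcongr
        exact av_enorm j t g x
    _ ≤ (∫⁻ _u in Icc 0 t, 1 ^ 2) * ∫⁻ u in Icc 0 t, ‖g (x + u • e j)‖ₑ ^ 2 :=
        cs _ aemeasurable_const hmu.enorm.aemeasurable
    _ = _ := by simp

theorem tonelli_shift {n : ℕ} (j : Fin n) (t : ℝ) {f : E n → ℝ≥0∞} (hf : Measurable f) :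
    ∫⁻ x : E n, ∫⁻ u in Icc 0 t, f (x + u • e j) = ENNReal.ofReal t * ∫⁻ x, f x := by
  rw [lintegral_lintegral_swap (joint_meas j hf).aemeasurable]
  simp only [lint_trans]
  rw [lintegral_const]
  simp [mul_comm]

theorem av_memLp {n : ℕ} (j : Fin n) (t : ℝ) {g : E n → ℂ} (hm : Measurable g)
    (h1 : Integrable g) (h2 : MemLp g 2) : MemLp (Av j t g) 2 := by
  refine ⟨(av_int j t hm h1).aestronglyMeasurable, ?_⟩
  have hg : ∫⁻ x, ‖g x‖ₑ ^ 2 < ⊤ := by
    have := h2.2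
    rw [eLpNorm_eq_lintegral_rpow_enorm_toReal (by norm_num) (by norm_num)] at this
    simp only [ENNReal.toReal_ofNat, one_div] at this
    have h3 := (ENNReal.rpow_lt_top_iff_of_pos (by norm_num)).1 this
    norm_num at h3
    exact h3
  rw [eLpNorm_eq_lintegral_rpow_enorm_toReal (by norm_num) (by norm_num)]
  simp only [ENNReal.toReal_ofNat, one_div]
  refine (ENNReal.rpow_lt_top_iff_of_pos (by norm_num)).2 ?_
  norm_num
  calc ∫⁻ x, ‖Av j t g x‖ₑ ^ 2 ≤ ∫⁻ x : E n, ENNReal.ofReal t * ∫⁻ u in Icc 0 t, ‖g (x + u • e j)‖ₑ ^ 2 :=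
        lintegral_mono fun x => av_sq j t hm x
    _ = ENNReal.ofReal t * (ENNReal.ofReal t * ∫⁻ x, ‖g x‖ₑ ^ 2) := by
        rw [lintegral_const_mul' _ _ ENNReal.ofReal_ne_top,
          tonelli_shift j t (hm.enorm.pow_const 2)]
    _ < ⊤ := by
        refine ENNReal.mul_lt_top ENNReal.ofReal_lt_top (ENNReal.mul_lt_top ENNReal.ofReal_lt_top hg)

theorem fourier_av {n : ℕ} (j : Fin n) (t : ℝ) {g : E n → ℂ} (hm : Measurable g)
    (h1 : Integrable g) (ξ : E n) : 𝓕 (Av j t g) ξ =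
      (∫ u in Icc 0 t, Complex.exp ((2 * Real.pi * ξ j * u : ℝ) * Complex.I)) * 𝓕 g ξ := by
  rw [Real.fourier_eq]
  have e1 : ∀ v : E n, (Real.fourierChar (-(inner ℝ v ξ)) : Circle) • Av j t g v =
      ∫ u in Icc 0 t, (Real.fourierChar (-(inner ℝ v ξ)) : Circle) • g (v + u • e j) := by
    intro v
    rw [Av]
    simp only [Circle.smul_def]
    rw [integral_smul]
  simp only [e1]
  have hint : Integrable (Function.uncurry fun (v : E n) (u : ℝ) =>
      (Real.fourierChar (-(inner ℝ v ξ)) : Circle) • g (v + u • e j))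
      ((volume : Measure (E n)).prod ((volume : Measure ℝ).restrict (Icc 0 t))) := by
    refine (joint_int j t hm h1).mono ?_ ?_
    · apply Measurable.aestronglyMeasurable
      have c1 : Measurable (fun p : E n × ℝ => ((Real.fourierChar (-(inner ℝ p.1 ξ)) : Circle) : ℂ)) := by
        apply Continuous.measurable
        have := Real.continuous_fourierChar
        fun_prop
      exact c1.mul (joint_meas j hm)
    · refine Filter.Eventually.of_forall fun p => ?_
      simp [Function.uncurry, Circle.norm_smul]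
  rw [integral_integral_swap hint]
  rw [← integral_mul_const]
  refine integral_congr_ae (Filter.Eventually.of_forall fun u => ?_)
  have := fourier_trans g j u ξ
  rw [Real.fourier_eq] at this
  exact this

theorem mult_lower (a t : ℝ) (ht : 0 < t) (ha : |a| * t ≤ Real.pi / 2) :
    t ^ 2 ≤ 2 * ‖∫ u in Icc 0 t, Complex.exp ((a * u : ℝ) * Complex.I)‖ ^ 2 := by
  set I0 := ∫ u in Icc 0 t, Complex.exp ((a * u : ℝ) * Complex.I) with hI0
  have h1 : Complex.exp ((-(a * t / 2) : ℝ) * Complex.I) * I0 =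
      ∫ u in Icc 0 t, Complex.exp ((a * (u - t / 2) : ℝ) * Complex.I) := by
    rw [hI0, ← integral_const_mul]
    refine integral_congr_ae (Filter.Eventually.of_forall fun u => ?_)
    simp only
    rw [← Complex.exp_add]
    congr 1
    push_cast
    ring
  have hcont : Continuous (fun u : ℝ => Complex.exp ((a * (u - t / 2) : ℝ) * Complex.I)) := by
    fun_prop
  have hint : IntegrableOn (fun u : ℝ => Complex.exp ((a * (u - t / 2) : ℝ) * Complex.I)) (Icc 0 t) :=
    hcont.continuousOn.integrableOn_Icc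
  have h2 : (∫ u in Icc 0 t, Complex.exp ((a * (u - t / 2) : ℝ) * Complex.I)).re =
      ∫ u in Icc 0 t, Real.cos (a * (u - t / 2)) := by
    have := integral_re hint
    simp only [RCLike.re_eq_complex_re] at this
    rw [← this]
    refine integral_congr_ae (Filter.Eventually.of_forall fun u => ?_)
    simp only
    rw [Complex.exp_ofReal_mul_I_re]
  have h3 : t * (√2 / 2) ≤ ∫ u in Icc 0 t, Real.cos (a * (u - t / 2)) := by
    have h4 : ∫ _u in Icc 0 t, (√2 / 2 : ℝ) = t * (√2 / 2) := by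
      simp [ht.le]
    rw [← h4]
    refine setIntegral_mono_on (by simp) ?_ measurableSet_Icc ?_
    · exact (by fun_prop : Continuous (fun u : ℝ => Real.cos (a * (u - t / 2)))).continuousOn.integrableOn_Icc
    · intro u hu
      have hab : |a * (u - t / 2)| ≤ Real.pi / 4 := by
        rw [abs_mul]
        have : |u - t / 2| ≤ t / 2 := by
          rw [abs_le]
          constructor <;> linarith [hu.1, hu.2]
        calc |a| * |u - t / 2| ≤ |a| * (t / 2) := by gcongr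
          _ = (|a| * t) / 2 := by ring
          _ ≤ Real.pi / 4 := by linarith
      rw [← Real.cos_abs, ← Real.cos_pi_div_four]
      refine Real.cos_le_cos_of_nonneg_of_le_pi (abs_nonneg _) ?_ hab
      linarith [Real.pi_pos]
  have h5 : ‖Complex.exp ((-(a * t / 2) : ℝ) * Complex.I) * I0‖ = ‖I0‖ := by
    rw [norm_mul, Complex.norm_exp_ofReal_mul_I, one_mul]
  have h6 : t * (√2 / 2) ≤ ‖I0‖ := by
    rw [← h5, h1]
    calc t * (√2 / 2) ≤ _ := h3
      _ = (∫ u in Icc 0 t, Complex.exp ((a * (u - t / 2) : ℝ) * Complex.I)).re := h2.symm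
      _ ≤ _ := Complex.re_le_norm _
  have h7 : (t * (√2 / 2)) ^ 2 ≤ ‖I0‖ ^ 2 := by gcongr
  have h8 : (t * (√2 / 2)) ^ 2 = t ^ 2 / 2 := by
    rw [mul_pow, div_pow, Real.sq_sqrt (by norm_num)]
    ring
  linarith

theorem sqrt_ker (b : ℝ) (hb : 0 < b) :
    ∫⁻ v in Icc (-b) b, ENNReal.ofReal (|v| ^ (-(1 / 2) : ℝ)) ≤ ENNReal.ofReal (4 * √b) := by
  have h1 : ∫⁻ v in Ioc 0 b, ENNReal.ofReal (|v| ^ (-(1 / 2) : ℝ)) = ENNReal.ofReal (2 * √b) := by
    have hint : IntervalIntegrable (fun v : ℝ => v ^ (-(1 / 2) : ℝ)) volume 0 b :=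
      intervalIntegral.intervalIntegrable_rpow' (by norm_num)
    have e1 : ∫⁻ v in Ioc 0 b, ENNReal.ofReal (|v| ^ (-(1 / 2) : ℝ)) =
        ∫⁻ v in Ioc 0 b, ENNReal.ofReal (v ^ (-(1 / 2) : ℝ)) := by
      refine setLIntegral_congr_fun measurableSet_Ioc ?_
      intro v hv
      simp only
      rw [abs_of_pos hv.1]
    rw [e1, ← ofReal_integral_eq_lintegral_ofReal]
    · rw [← intervalIntegral.integral_of_le hb.le, integral_rpow (by norm_num)]
      congr 1
      rw [Real.zero_rpow (by norm_num), Real.sqrt_eq_rpow]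
      norm_num
      ring
    · exact (intervalIntegrable_iff_integrableOn_Ioc_of_le hb.le).1 hint
    · rw [Filter.EventuallyLE, ae_restrict_iff' measurableSet_Ioc]
      exact Filter.Eventually.of_forall fun v hv => Real.rpow_nonneg hv.1.le _
  have h2 : ∫⁻ v in Ico (-b) 0, ENNReal.ofReal (|v| ^ (-(1 / 2) : ℝ)) = ENNReal.ofReal (2 * √b) := by
    rw [← h1]
    have hmp : MeasurePreserving (fun x : ℝ => -x) volume volume := Measure.measurePreserving_neg volume
    have hpre : (fun x : ℝ => -x) ⁻¹' (Ioc 0 b) = Ico (-b) 0 := by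
      ext x
      simp only [mem_preimage, mem_Ioc, mem_Ico]
      constructor
      · rintro ⟨h1, h2⟩; constructor <;> linarith
      · rintro ⟨h1, h2⟩; constructor <;> linarith
    have := hmp.setLIntegral_comp_preimage_emb (Homeomorph.neg ℝ).measurableEmbedding
      (fun v => ENNReal.ofReal (|v| ^ (-(1 / 2) : ℝ))) (Ioc 0 b)
    rw [hpre] at this
    simpa using this
  have hsub : Icc (-b) b ⊆ Ico (-b) 0 ∪ {0} ∪ Ioc 0 b := by
    intro v hv
    rcases lt_trichotomy v 0 with h | h | h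
    · exact Or.inl (Or.inl ⟨hv.1, h⟩)
    · exact Or.inl (Or.inr h)
    · exact Or.inr ⟨h, hv.2⟩
  calc ∫⁻ v in Icc (-b) b, ENNReal.ofReal (|v| ^ (-(1 / 2) : ℝ))
      ≤ ∫⁻ v in Ico (-b) 0 ∪ {0} ∪ Ioc 0 b, ENNReal.ofReal (|v| ^ (-(1 / 2) : ℝ)) :=
        lintegral_mono_set hsub
    _ ≤ (∫⁻ v in Ico (-b) 0 ∪ {0}, ENNReal.ofReal (|v| ^ (-(1 / 2) : ℝ))) +
        ∫⁻ v in Ioc 0 b, ENNReal.ofReal (|v| ^ (-(1 / 2) : ℝ)) := lintegral_union_le _ _ _
    _ ≤ ((∫⁻ v in Ico (-b) 0, ENNReal.ofReal (|v| ^ (-(1 / 2) : ℝ))) +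
        ∫⁻ v in {(0 : ℝ)}, ENNReal.ofReal (|v| ^ (-(1 / 2) : ℝ))) +
        ∫⁻ v in Ioc 0 b, ENNReal.ofReal (|v| ^ (-(1 / 2) : ℝ)) := by
        gcongr
        exact lintegral_union_le _ _ _
    _ = ENNReal.ofReal (4 * √b) := by
        rw [h1, h2]
        have : ∫⁻ v in {(0 : ℝ)}, ENNReal.ofReal (|v| ^ (-(1 / 2) : ℝ)) = 0 := by
          simp
        rw [this, add_zero, ← ENNReal.ofReal_add (by positivity) (by positivity)]
        congr 1
        ring

theorem av_weight {n : ℕ} (j : Fin n) (t b : ℝ) (hb : 0 < b) {g : E n → ℂ} (hm : Measurable g)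
    (hs : ∀ x, g x ≠ 0 → |x j| ≤ b) (x : E n) :
    ‖Av j t g x‖ₑ ^ 2 ≤ ENNReal.ofReal (4 * √b) *
      ∫⁻ u in Icc 0 t, (‖g (x + u • e j)‖ₑ ^ 2 * ENNReal.ofReal √|(x + u • e j) j|) := by
  have hmu : Measurable (fun u : ℝ => g (x + u • e j)) := (joint_meas j hm).comp measurable_prodMk_left
  have hcj : ∀ u : ℝ, (x + u • e j) j = x j + u := by
    intro u
    simp
  set p : ℝ → ℝ≥0∞ := fun v => (Icc (-b) b).indicator (fun v => ENNReal.ofReal (|v| ^ (-(1 / 4) : ℝ))) v
    with hp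
  have hpm : Measurable p := by
    refine Measurable.indicator ?_ measurableSet_Icc
    fun_prop
  set q : ℝ → ℝ≥0∞ := fun u => ‖g (x + u • e j)‖ₑ * ENNReal.ofReal (|x j + u| ^ ((1 / 4) : ℝ)) with hq
  have hqm : Measurable q := by
    refine hmu.enorm.mul ?_
    fun_prop
  have hle : ∫⁻ u in Icc 0 t, ‖g (x + u • e j)‖ₑ ≤ ∫⁻ u in Icc 0 t, p (x j + u) * q u := by
    refine lintegral_mono_ae ?_
    have hae : ∀ᵐ u ∂((volume : Measure ℝ).restrict (Icc 0 t)), u ≠ - x j := by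
      refine ae_restrict_of_ae ?_
      rw [ae_iff]
      simp
    filter_upwards [hae] with u hu
    by_cases hg : g (x + u • e j) = 0
    · rw [hg]
      simp
    · have h1 := hs _ hg
      rw [hcj] at h1
      have h2 : x j + u ∈ Icc (-b) b := abs_le.1 h1
      have h3 : 0 < |x j + u| := by
        rw [abs_pos]
        intro h
        exact hu (by linarith)
      simp only [hp, hq, indicator_of_mem h2]
      rw [mul_left_comm, ← ENNReal.ofReal_mul (by positivity), ← Real.rpow_add h3]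
      norm_num
  calc ‖Av j t g x‖ₑ ^ 2 ≤ (∫⁻ u in Icc 0 t, p (x j + u) * q u) ^ 2 := by
        gcongr
        exact (av_enorm j t g x).trans hle
    _ ≤ (∫⁻ u in Icc 0 t, p (x j + u) ^ 2) * ∫⁻ u in Icc 0 t, q u ^ 2 :=
        cs _ (hpm.comp (measurable_const_add _)).aemeasurable hqm.aemeasurable
    _ ≤ _ := by
        gcongr
        · calc ∫⁻ u in Icc 0 t, p (x j + u) ^ 2 ≤ ∫⁻ u, p (x j + u) ^ 2 := setLIntegral_le_lintegral _ _
            _ = ∫⁻ u, p u ^ 2 := lintegral_add_left_eq_self (fun u => p u ^ 2) (x j)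
            _ = ∫⁻ v in Icc (-b) b, ENNReal.ofReal (|v| ^ (-(1 / 2) : ℝ)) := by
                rw [← lintegral_indicator measurableSet_Icc]
                refine lintegral_congr fun v => ?_
                by_cases hv : v ∈ Icc (-b) b
                · simp only [hp, indicator_of_mem hv]
                  rw [← ENNReal.ofReal_pow (by positivity), ← Real.rpow_natCast, ← Real.rpow_mul (abs_nonneg _)]
                  norm_num
                · simp only [hp, indicator_of_notMem hv]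
                  simp
            _ ≤ _ := sqrt_ker b hb
        · refine (le_of_eq ?_)
          simp only [hq]
          rw [mul_pow, hcj, ← ENNReal.ofReal_pow (by positivity), ← Real.rpow_natCast,
            ← Real.rpow_mul (abs_nonneg _), Real.sqrt_eq_rpow]
          norm_num

theorem pLow : tLow := by
  intro n j g b c hb hc hm h1 h2 hs
  set t : ℝ := 1 / (8 * c) with ht
  have ht0 : 0 < t := by positivity
  have hF : Continuous (𝓕 g) := fourier_cont h1
  have hS : MeasurableSet {ξ : E n | |ξ j| ≤ 2 * c} :=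
    measurableSet_le ((by fun_prop : Continuous fun ξ : E n => |ξ j|).measurable) measurable_const
  have hml : ∀ ξ : E n, |ξ j| ≤ 2 * c → ENNReal.ofReal (t ^ 2) * ‖𝓕 g ξ‖ₑ ^ 2 ≤
      2 * ‖𝓕 (Av j t g) ξ‖ₑ ^ 2 := by
    intro ξ hξ
    rw [fourier_av j t hm h1 ξ, enorm_mul, mul_pow, ← mul_assoc]
    gcongr
    have := mult_lower (2 * Real.pi * ξ j) t ht0 (by
      rw [abs_mul, abs_of_pos (by positivity : (0 : ℝ) < 2 * Real.pi), ht]
      calc 2 * Real.pi * |ξ j| * (1 / (8 * c)) ≤ 2 * Real.pi * (2 * c) * (1 / (8 * c)) := by gcongr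
        _ = Real.pi / 2 := by field_simp; ring)
    rw [← ofReal_norm, ← ENNReal.ofReal_pow (norm_nonneg _)]
    refine (ENNReal.ofReal_le_ofReal this).trans (le_of_eq ?_)
    rw [ENNReal.ofReal_mul (by norm_num), ENNReal.ofReal_ofNat]
  have hA : ∫⁻ x, ‖Av j t g x‖ₑ ^ 2 ≤ ENNReal.ofReal (4 * √b) * (ENNReal.ofReal t *
      ∫⁻ x, ‖g x‖ₑ ^ 2 * ENNReal.ofReal √|x j|) := by
    calc ∫⁻ x, ‖Av j t g x‖ₑ ^ 2 ≤ ∫⁻ x : E n, ENNReal.ofReal (4 * √b) *
        ∫⁻ u in Icc 0 t, (‖g (x + u • e j)‖ₑ ^ 2 * ENNReal.ofReal √|(x + u • e j) j|) :=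
          lintegral_mono fun x => av_weight j t b hb hm hs x
      _ = _ := by
          rw [lintegral_const_mul' _ _ ENNReal.ofReal_ne_top]
          congr 1
          refine tonelli_shift j t (f := fun x => ‖g x‖ₑ ^ 2 * ENNReal.ofReal √|x j|) ?_
          refine (hm.enorm.pow_const 2).mul ?_
          exact (by fun_prop : Continuous fun x : E n => √|x j|).measurable.ennreal_ofReal
  have hP := planch_lint (av_int j t hm h1) (av_memLp j t hm h1 h2)
  have key : ENNReal.ofReal (t ^ 2) * ∫⁻ ξ in {ξ : E n | |ξ j| ≤ 2 * c}, ‖𝓕 g ξ‖ₑ ^ 2 ≤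
      ENNReal.ofReal (t ^ 2) * (ENNReal.ofReal (64 * c * √b) *
        ∫⁻ x, ‖g x‖ₑ ^ 2 * ENNReal.ofReal √|x j|) := by
    calc ENNReal.ofReal (t ^ 2) * ∫⁻ ξ in {ξ : E n | |ξ j| ≤ 2 * c}, ‖𝓕 g ξ‖ₑ ^ 2
        = ∫⁻ ξ in {ξ : E n | |ξ j| ≤ 2 * c}, ENNReal.ofReal (t ^ 2) * ‖𝓕 g ξ‖ₑ ^ 2 := by
          rw [lintegral_const_mul' _ _ ENNReal.ofReal_ne_top]
      _ ≤ ∫⁻ ξ in {ξ : E n | |ξ j| ≤ 2 * c}, 2 * ‖𝓕 (Av j t g) ξ‖ₑ ^ 2 :=
          setLIntegral_mono' hS fun ξ hξ => hml ξ hξ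
      _ ≤ ∫⁻ ξ, 2 * ‖𝓕 (Av j t g) ξ‖ₑ ^ 2 := setLIntegral_le_lintegral _ _
      _ = 2 * ∫⁻ x, ‖Av j t g x‖ₑ ^ 2 := by
          rw [lintegral_const_mul' _ _ (by norm_num), hP]
      _ ≤ 2 * (ENNReal.ofReal (4 * √b) * (ENNReal.ofReal t *
            ∫⁻ x, ‖g x‖ₑ ^ 2 * ENNReal.ofReal √|x j|)) := by gcongr
      _ = _ := by
          rw [← mul_assoc, ← mul_assoc, ← mul_assoc]
          congr 1
          rw [show (2 : ℝ≥0∞) = ENNReal.ofReal 2 by simp, ← ENNReal.ofReal_mul (by norm_num),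
            ← ENNReal.ofReal_mul (by positivity), ← ENNReal.ofReal_mul (by positivity)]
          congr 1
          rw [ht]
          field_simp
          ring
  exact (ENNReal.mul_le_mul_iff_right (by simpa using ht0.ne') ENNReal.ofReal_ne_top).1 key

end J9

theorem pHigh : tHigh := J9.pHigh

theorem pLow : tLow := J9.pLow

end Pool.Agent.MBS
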