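import Pool.Agent.MBS.Super2

set_option autoImplicit false

/-! Superposition of levels (job J15). -/

namespace Pool.Agent.MBS

namespace SuperJob

open MeasureTheory FourierTransform Set Filter Topology
open scoped ENNReal NNReal

variable {n : ℕ}

lemma ofReal_two_zpow (k : ℤ) : ENNReal.ofReal ((2 : ℝ) ^ k) = (2 : ℝ≥0∞) ^ (k : ℝ) := by
  rw [← Real.rpow_intCast, ← ENNReal.ofReal_rpow_of_pos (by norm_num)]
  norm_num

lemma ofReal_four_zpow (k : ℤ) : ENNReal.ofReal ((4 : ℝ) ^ k) = (2 : ℝ≥0∞) ^ (2 * (k : ℝ)) := by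
  have e : (4 : ℝ) ^ k = (2 : ℝ) ^ (2 * (k : ℝ)) := by
    rw [Real.rpow_mul (by norm_num), Real.rpow_intCast]
    norm_num
  rw [e, ← ENNReal.ofReal_rpow_of_pos (by norm_num)]
  norm_num

/-- Young's inequality with a weight -/
lemma young_w {a b : ℝ≥0∞} {q₁ q₂ : ℝ} (h : q₂.HolderConjugate q₁) {w : ℝ} :
    a * b ≤ (2 : ℝ≥0∞) ^ (w * q₂) * a ^ q₂ + (2 : ℝ≥0∞) ^ (-(w * q₁)) * b ^ q₁ := by
  have h1 := ENNReal.young_inequality ((2 : ℝ≥0∞) ^ w * a) ((2 : ℝ≥0∞) ^ (-w) * b) h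
  have e1 : (2 : ℝ≥0∞) ^ w * a * ((2 : ℝ≥0∞) ^ (-w) * b) = a * b := by
    calc (2 : ℝ≥0∞) ^ w * a * ((2 : ℝ≥0∞) ^ (-w) * b)
        = ((2 : ℝ≥0∞) ^ w * (2 : ℝ≥0∞) ^ (-w)) * (a * b) := by ring
      _ = a * b := by
        rw [← ENNReal.rpow_add _ _ (by norm_num) (by norm_num)]
        simp
  have hdiv : ∀ (z : ℝ≥0∞) {q : ℝ}, 1 < q → z / ENNReal.ofReal q ≤ z := by
    intro z q hq
    refine ENNReal.div_le_of_le_mul ?_
    calc z = z * 1 := (mul_one z).symm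
      _ ≤ z * ENNReal.ofReal q := by
        refine mul_le_mul' le_rfl ?_
        rw [← ENNReal.ofReal_one]
        exact ENNReal.ofReal_le_ofReal hq.le
  rw [e1] at h1
  refine h1.trans (add_le_add ((hdiv _ h.lt).trans (le_of_eq ?_))
    ((hdiv _ h.symm.lt).trans (le_of_eq ?_)))
  · rw [ENNReal.mul_rpow_of_nonneg _ _ h.pos.le, ← ENNReal.rpow_mul]
  · rw [ENNReal.mul_rpow_of_nonneg _ _ h.symm.pos.le, ← ENNReal.rpow_mul]
    congr 2
    ring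

lemma geoZ {d : ℝ} (hd : 0 < d) : ∑' m : ℤ, (2 : ℝ≥0∞) ^ (-(d * |(m : ℝ)|)) ≠ ⊤ := by
  have hx : (2 : ℝ) ^ (-d) < 1 := Real.rpow_lt_one_of_one_lt_of_neg (by norm_num) (by linarith)
  have hg : Summable (fun i : ℕ => ((2 : ℝ) ^ (-d)) ^ i) :=
    summable_geometric_of_lt_one (by positivity) hx
  have hs : Summable (fun m : ℤ => (2 : ℝ) ^ (-(d * |(m : ℝ)|))) := by
    refine Summable.of_nat_of_neg (hg.congr fun i => ?_) (hg.congr fun i => ?_)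
    · rw [← Real.rpow_natCast, ← Real.rpow_mul (by norm_num)]
      simp
    · rw [← Real.rpow_natCast, ← Real.rpow_mul (by norm_num)]
      simp
  have h := hs.tsum_ofReal_ne_top
  refine ne_of_eq_of_ne (tsum_congr fun m => ?_) h
  rw [← ENNReal.ofReal_rpow_of_pos (by norm_num)]
  norm_num

/-- the double sum -/
lemma double_sum {d : ℝ} (e : ℤ → ℝ≥0∞) (B : ℝ≥0∞) :
    ∑' k : ℤ, ∑' l : ℤ, (2 : ℝ≥0∞) ^ (-(d * |(l : ℝ) - k|)) * (B * (e k + e l)) =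
      2 * B * (∑' m : ℤ, (2 : ℝ≥0∞) ^ (-(d * |(m : ℝ)|))) * ∑' k : ℤ, e k := by
  set Z := ∑' m : ℤ, (2 : ℝ≥0∞) ^ (-(d * |(m : ℝ)|)) with hZ
  have hshift : ∀ k : ℤ, ∑' l : ℤ, (2 : ℝ≥0∞) ^ (-(d * |(l : ℝ) - k|)) = Z := by
    intro k
    rw [hZ, ← (Equiv.subRight k).tsum_eq (fun m : ℤ => (2 : ℝ≥0∞) ^ (-(d * |(m : ℝ)|)))]
    refine tsum_congr fun l => ?_
    simp
  have hshift' : ∀ l : ℤ, ∑' k : ℤ, (2 : ℝ≥0∞) ^ (-(d * |(l : ℝ) - k|)) = Z := by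
    intro l
    rw [← hshift l]
    refine tsum_congr fun k => ?_
    rw [abs_sub_comm]
  have h1 : ∑' k : ℤ, ∑' l : ℤ, (2 : ℝ≥0∞) ^ (-(d * |(l : ℝ) - k|)) * (B * e k) =
      Z * B * ∑' k : ℤ, e k := by
    simp only [ENNReal.tsum_mul_right, hshift]
    rw [← ENNReal.tsum_mul_left]
    refine tsum_congr fun k => ?_
    ring
  have h2 : ∑' k : ℤ, ∑' l : ℤ, (2 : ℝ≥0∞) ^ (-(d * |(l : ℝ) - k|)) * (B * e l) =
      Z * B * ∑' k : ℤ, e k := by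
    rw [ENNReal.tsum_comm]
    simp only [ENNReal.tsum_mul_right, hshift']
    rw [← ENNReal.tsum_mul_left]
    refine tsum_congr fun k => ?_
    ring
  have h3 : ∀ k l : ℤ, (2 : ℝ≥0∞) ^ (-(d * |(l : ℝ) - k|)) * (B * (e k + e l)) =
      (2 : ℝ≥0∞) ^ (-(d * |(l : ℝ) - k|)) * (B * e k) +
        (2 : ℝ≥0∞) ^ (-(d * |(l : ℝ) - k|)) * (B * e l) := by
    intro k l; ring
  simp only [h3, ENNReal.tsum_add]
  rw [h1, h2]
  ring

/-- interaction of two levels -/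
lemma pair_bound {H₁ H₂ : E n → ℝ≥0∞} (hm₁ : Measurable H₁) {q₁ q₂ ε : ℝ} {B V₁ V₂ : ℝ≥0∞}
    (hε : 0 < ε) (hε1 : ε < 1) (hq₁ : q₁ = 2 - ε) (h : q₂.HolderConjugate q₁)
    (hm₂ : Measurable H₂) (hb₁ : ∫⁻ x, H₁ x ^ q₂ ≤ B * V₁) (hb₂ : ∫⁻ x, H₂ x ^ q₁ ≤ B * V₂)
    {k l : ℤ} (hkl : k ≤ l) :
    ∫⁻ x, (ENNReal.ofReal (2 ^ k) * H₁ x) * (ENNReal.ofReal (2 ^ l) * H₂ x) ≤
      (2 : ℝ≥0∞) ^ (-(ε / 2 * |(l : ℝ) - k|)) *
        (B * (ENNReal.ofReal (4 ^ k) * V₁ + ENNReal.ofReal (4 ^ l) * V₂)) := by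
  have hkl' : (0 : ℝ) ≤ (l : ℝ) - k := by
    have : (k : ℝ) ≤ l := by exact_mod_cast hkl
    linarith
  set t : ℝ := (l : ℝ) - k with ht
  set d : ℝ := ε / 2 with hd
  have hq₂0 : 0 < q₂ := h.pos
  set w : ℝ := -((1 + d) * t / q₂) with hw
  have hwq₂ : w * q₂ = -((1 + d) * t) := by rw [hw]; field_simp
  have hq12 : q₁ / q₂ = 1 - ε := by
    have h1 := h.inv_add_inv_eq_one
    have hq₁0 : q₁ ≠ 0 := by rw [hq₁]; linarith
    field_simp at h1 ⊢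
    rw [hq₁] at h1 ⊢
    nlinarith
  have hwq₁ : -(w * q₁) = (1 + d) * (1 - ε) * t := by
    rw [hw, ← hq12]
    field_simp
  have hexp : (1 + d) * (1 - ε) * t ≤ (1 - d) * t := by
    refine mul_le_mul_of_nonneg_right ?_ hkl'
    rw [hd]
    nlinarith
  have hpt : ∀ x, (ENNReal.ofReal (2 ^ k) * H₁ x) * (ENNReal.ofReal (2 ^ l) * H₂ x) ≤
      (2 : ℝ≥0∞) ^ (-(d * t)) * (ENNReal.ofReal (4 ^ k) * H₁ x ^ q₂) +
        (2 : ℝ≥0∞) ^ (-(d * t)) * (ENNReal.ofReal (4 ^ l) * H₂ x ^ q₁) := by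
    intro x
    rw [ofReal_two_zpow, ofReal_two_zpow, ofReal_four_zpow, ofReal_four_zpow]
    calc ((2 : ℝ≥0∞) ^ (k : ℝ) * H₁ x) * ((2 : ℝ≥0∞) ^ (l : ℝ) * H₂ x)
        = (2 : ℝ≥0∞) ^ ((k : ℝ) + l) * (H₁ x * H₂ x) := by
          rw [ENNReal.rpow_add _ _ (by norm_num) (by norm_num)]; ring
      _ ≤ (2 : ℝ≥0∞) ^ ((k : ℝ) + l) * ((2 : ℝ≥0∞) ^ (w * q₂) * H₁ x ^ q₂ +
            (2 : ℝ≥0∞) ^ (-(w * q₁)) * H₂ x ^ q₁) := mul_le_mul' le_rfl (young_w h)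
      _ = (2 : ℝ≥0∞) ^ ((k : ℝ) + l + w * q₂) * H₁ x ^ q₂ +
            (2 : ℝ≥0∞) ^ ((k : ℝ) + l + -(w * q₁)) * H₂ x ^ q₁ := by
          rw [ENNReal.rpow_add ((k : ℝ) + l) (w * q₂) (by norm_num) (by norm_num),
            ENNReal.rpow_add ((k : ℝ) + l) (-(w * q₁)) (by norm_num) (by norm_num)]
          ring
      _ ≤ (2 : ℝ≥0∞) ^ (-(d * t) + 2 * (k : ℝ)) * H₁ x ^ q₂ +
            (2 : ℝ≥0∞) ^ (-(d * t) + 2 * (l : ℝ)) * H₂ x ^ q₁ := by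
          refine add_le_add (mul_le_mul' (ENNReal.rpow_le_rpow_of_exponent_le (by norm_num) ?_)
            le_rfl) (mul_le_mul' (ENNReal.rpow_le_rpow_of_exponent_le (by norm_num) ?_) le_rfl)
          · rw [hwq₂, ht]; linarith
          · rw [hwq₁]
            have : (l : ℝ) = k + t := by rw [ht]; ring
            rw [this]
            linarith
      _ = _ := by
          rw [ENNReal.rpow_add _ _ (by norm_num) (by norm_num),
            ENNReal.rpow_add _ _ (by norm_num) (by norm_num)]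
          ring
  rw [abs_of_nonneg hkl']
  calc ∫⁻ x, (ENNReal.ofReal (2 ^ k) * H₁ x) * (ENNReal.ofReal (2 ^ l) * H₂ x)
      ≤ ∫⁻ x, ((2 : ℝ≥0∞) ^ (-(d * t)) * (ENNReal.ofReal (4 ^ k) * H₁ x ^ q₂) +
        (2 : ℝ≥0∞) ^ (-(d * t)) * (ENNReal.ofReal (4 ^ l) * H₂ x ^ q₁)) := lintegral_mono hpt
    _ = (2 : ℝ≥0∞) ^ (-(d * t)) * (ENNReal.ofReal (4 ^ k) * ∫⁻ x, H₁ x ^ q₂) +
        (2 : ℝ≥0∞) ^ (-(d * t)) * (ENNReal.ofReal (4 ^ l) * ∫⁻ x, H₂ x ^ q₁) := by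
        rw [lintegral_add_left (((hm₁.pow_const _).const_mul _).const_mul _),
          lintegral_const_mul _ ((hm₁.pow_const _).const_mul _),
          lintegral_const_mul _ (hm₁.pow_const _),
          lintegral_const_mul _ ((hm₂.pow_const _).const_mul _),
          lintegral_const_mul _ (hm₂.pow_const _)]
    _ ≤ (2 : ℝ≥0∞) ^ (-(d * t)) * (ENNReal.ofReal (4 ^ k) * (B * V₁)) +
        (2 : ℝ≥0∞) ^ (-(d * t)) * (ENNReal.ofReal (4 ^ l) * (B * V₂)) := by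
        gcongr
    _ = _ := by ring

end SuperJob

open MeasureTheory FourierTransform Set Filter Topology
open scoped ENNReal NNReal
open SuperJob

/-- job J15 -/
theorem pSuper (hSplit : tSplit) (hMeas : tMeas) (hPdom : tPdom) (hTdom : tTdom)
    (hMFind : tMFind) : tSuper := by
  intro n c A hc hA
  obtain ⟨C₀, k₀, hT⟩ := hTdom n
  set r : ℝ := 4 * (3 * k₀ + 1) with hr
  have hk0 : (0 : ℝ) ≤ k₀ := Nat.cast_nonneg k₀
  have hr0 : 0 < r := by positivity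
  set ε : ℝ := min (1 / 4) (c / (4 * r)) with hε
  have hε0 : 0 < ε := lt_min (by norm_num) (by positivity)
  have hε4 : ε ≤ 1 / 4 := min_le_left _ _
  have hεr : r * ε ≤ c / 4 := by
    have : ε ≤ c / (4 * r) := min_le_right _ _
    rw [le_div_iff₀ (by positivity)] at this
    linarith
  set q₁ : ℝ := 2 - ε with hq₁
  set q₂ : ℝ := (2 - ε) / (1 - ε) with hq₂
  have h1ε : 0 < 1 - ε := by linarith
  have hq₂2 : q₂ - 2 = ε / (1 - ε) := by rw [hq₂]; field_simp; ring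
  have hq₂b : q₂ - 2 ≤ 2 * ε := by
    rw [hq₂2, div_le_iff₀ h1ε]
    nlinarith
  have hq₂0 : 0 ≤ q₂ - 2 := by rw [hq₂2]; positivity
  have hconj : q₂.HolderConjugate q₁ := by
    rw [Real.holderConjugate_iff]
    refine ⟨by linarith, ?_⟩
    rw [hq₂, hq₁]
    have : (2 : ℝ) - ε ≠ 0 := by linarith
    field_simp
    ring
  obtain ⟨B₁, hB₁⟩ := level_bound (n := n) hSplit hMeas hPdom hMFind hT (c := c) (A := A)
    (q := q₁) (p := 3 / 2) (r := r) hc hA (by norm_num) (by rw [hq₁]; linarith) hr0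
    (Or.inr ⟨by rw [hq₁]; linarith, by rw [hq₁]; linarith⟩)
    (by rw [hq₁, abs_of_nonpos (by linarith)]; linarith)
    (by rw [hq₁, abs_of_nonneg (by linarith)]; nlinarith)
  obtain ⟨B₂, hB₂⟩ := level_bound (n := n) hSplit hMeas hPdom hMFind hT (c := c) (A := A)
    (q := q₂) (p := 3) (r := r) hc hA (by norm_num) (by linarith) hr0
    (Or.inl ⟨by linarith, by linarith⟩)
    (by rw [abs_of_nonneg hq₂0]; nlinarith)
    (by rw [abs_of_nonpos (by linarith)]; nlinarith)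
  set Z : ℝ≥0∞ := ∑' m : ℤ, (2 : ℝ≥0∞) ^ (-(ε / 2 * |(m : ℝ)|)) with hZ
  have hZt : Z ≠ ⊤ := geoZ (by positivity)
  set B : ℝ≥0∞ := (B₁ : ℝ≥0∞) + B₂ with hB
  have hBt : B ≠ ⊤ := ENNReal.add_ne_top.2 ⟨ENNReal.coe_ne_top, ENNReal.coe_ne_top⟩
  have hCt : 2 * B * Z * 2 ≠ ⊤ :=
    ENNReal.mul_ne_top (ENNReal.mul_ne_top (ENNReal.mul_ne_top (by norm_num) hBt) hZt)
      (by norm_num)
  refine ⟨(2 * B * Z * 2).toNNReal, fun f hf hi h0 hL2 => ?_⟩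
  rw [ENNReal.coe_toNNReal hCt]
  set H : ℤ → E n → ℝ≥0∞ := fun k => Sstar (fun y => (lev f k y : ℂ)) with hH
  set V : ℤ → ℝ≥0∞ := fun k => volume {x | (2 : ℝ) ^ k < f x} with hV
  have hHm : ∀ k, Measurable (H k) := fun k => (hMeas n _ (lev_intC hf hi h0 k)).1
  have hb₁ : ∀ k, ∫⁻ x, H k x ^ q₁ ≤ B * V k := fun k =>
    (hB₁ f hf hi h0 k (hL2 k)).trans (mul_le_mul' le_self_add le_rfl)
  have hb₂ : ∀ k, ∫⁻ x, H k x ^ q₂ ≤ B * V k := fun k =>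
    (hB₂ f hf hi h0 k (hL2 k)).trans (mul_le_mul' le_add_self le_rfl)
  have hpair : ∀ k l : ℤ,
      ∫⁻ x, (ENNReal.ofReal (2 ^ k) * H k x) * (ENNReal.ofReal (2 ^ l) * H l x) ≤
      (2 : ℝ≥0∞) ^ (-(ε / 2 * |(l : ℝ) - k|)) *
        (B * (ENNReal.ofReal (4 ^ k) * V k + ENNReal.ofReal (4 ^ l) * V l)) := by
    intro k l
    rcases le_total k l with hkl | hkl
    · exact pair_bound (hHm k) hε0 (by linarith) hq₁ hconj (hHm l) (hb₂ k) (hb₁ l) hkl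
    · have := pair_bound (hHm l) hε0 (by linarith) hq₁ hconj (hHm k) (hb₂ l) (hb₁ k) hkl
      rw [abs_sub_comm, add_comm] at this
      refine le_trans (le_of_eq (lintegral_congr fun x => mul_comm _ _)) this
  calc ∫⁻ x, Sstar (fun y => (f y : ℂ)) x ^ 2
      ≤ ∫⁻ x, (∑' k : ℤ, ENNReal.ofReal (2 ^ k) * H k x) ^ 2 := by
        refine lintegral_mono fun x => ?_
        exact pow_le_pow_left' (Sstar_le hf hi h0 x) 2
    _ = ∫⁻ x, ∑' k : ℤ, ∑' l : ℤ,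
          (ENNReal.ofReal (2 ^ k) * H k x) * (ENNReal.ofReal (2 ^ l) * H l x) := by
        refine lintegral_congr fun x => ?_
        rw [sq, ← ENNReal.tsum_mul_right]
        refine tsum_congr fun k => ?_
        rw [ENNReal.tsum_mul_left]
    _ = ∑' k : ℤ, ∑' l : ℤ,
          ∫⁻ x, (ENNReal.ofReal (2 ^ k) * H k x) * (ENNReal.ofReal (2 ^ l) * H l x) := by
        have hm : ∀ k l : ℤ, Measurable fun x =>
            (ENNReal.ofReal (2 ^ k) * H k x) * (ENNReal.ofReal (2 ^ l) * H l x) := fun k l =>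
          ((hHm k).const_mul _).mul ((hHm l).const_mul _)
        rw [lintegral_tsum fun k => (Measurable.tsum fun l => hm k l).aemeasurable]
        refine tsum_congr fun k => ?_
        rw [lintegral_tsum fun l => (hm k l).aemeasurable]
    _ ≤ ∑' k : ℤ, ∑' l : ℤ, (2 : ℝ≥0∞) ^ (-(ε / 2 * |(l : ℝ) - k|)) *
        (B * (ENNReal.ofReal (4 ^ k) * V k + ENNReal.ofReal (4 ^ l) * V l)) :=
        ENNReal.tsum_le_tsum fun k => ENNReal.tsum_le_tsum fun l => hpair k l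
    _ = 2 * B * Z * ∑' k : ℤ, ENNReal.ofReal (4 ^ k) * V k :=
        double_sum (fun k => ENNReal.ofReal (4 ^ k) * V k) B
    _ ≤ 2 * B * Z * (2 * ∫⁻ x, ENNReal.ofReal (f x) ^ 2) :=
        mul_le_mul' le_rfl (tsum_energy hf h0)
    _ = _ := by ring

end Pool.Agent.MBS
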