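import Pool.Agent.MBS.Targets
import Pool.Agent.MBS.J1
import Pool.Agent.MBS.J2
import Pool.Agent.MBS.J3
import Pool.Agent.MBS.J4
import Pool.Agent.MBS.J5
import Pool.Agent.MBS.J6
import Pool.Agent.MBS.J7
import Pool.Agent.MBS.J8
import Pool.Agent.MBS.J9
import Pool.Agent.MBS.J10a
import Pool.Agent.MBS.J10b
import Pool.Agent.MBS.J10
import Pool.Agent.MBS.J11
import Pool.Agent.MBS.J12
import Pool.Agent.MBS.J13
import Pool.Agent.MBS.J14
import Pool.Agent.MBS.Super
import Pool.Agent.MBS.J16
import Pool.Agent.MBS.J17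
import Pool.Agent.MBS.J18
import Pool.Agent.MBS.J19
import Pool.Agent.MBS.J20

set_option autoImplicit false

/-! Maximal ball partial sums (MP_ee701d_an): assembly. -/

namespace Pool.Agent.MBS

theorem fSob : tSob := pSob pPlanch pTcont pTderiv

theorem fOdeT : tOdeT := pOdeT pTcont pTderiv pOde

theorem fF2 : tF2 := pF2 fSob

theorem fGain : tGain := pGain pPlanch fOdeT fF2 pXj pPs pMulFam pMulj pMeasR

theorem fGainK : tGainK := pGainK pPlanch fOdeT pXjK pPs pMulFam pMulj pMeasR

theorem fF2c : tF2c := pF2c fF2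

theorem fGainc : tGainc := pGainc fGain

theorem fTriv : tTriv := pTriv fF2c

theorem fGainL1 : tGainL1 := pGainL1 fGainK

theorem fShort : tShort := pShort fF2c pLow

theorem fLong : tLong := pLong pHigh

theorem fMain : tMain := pMain fShort fLong fGainc fF2c fTriv

theorem fMeas : tMeas := pMeas pTcont pMulFam

theorem fSuper : tSuper := pSuper pSplit fMeas pPdom pTdom pMFind

theorem fU : tU := pU pSplit fMeas fMain fTriv pTstarW pPdom pMF2

theorem fE : tE := pE pSplit fMeas pTstarW fF2c fGainL1 fTriv pPdom pMF2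

theorem fI : tI := pI fSuper pHigh fF2c fGainL1 pTstarW

theorem fVof (h : tOmConv) : tV := pV fSuper fMain fTriv pTstarW pBox h pIsom

theorem fV : tV := fVof pOmConv


end Pool.Agent.MBS
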