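import Mathlib

set_option autoImplicit false

/-! Maximal ball partial sums on `L²(ℝⁿ)` (MP_ee701d_an): definitions. -/

namespace Pool.Agent.MBS

open MeasureTheory FourierTransform Set
open scoped ENNReal NNReal

/-- `ℝⁿ` -/
abbrev E (n : ℕ) := EuclideanSpace ℝ (Fin n)

/-- the character `e^{2 π i x·ξ}` -/
noncomputable def ex {n : ℕ} (x ξ : E n) : ℂ :=
  Complex.exp (2 * Real.pi * Complex.I * ((inner ℝ x ξ : ℝ) : ℂ))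

/-- the ball partial sum `S_R f (x) = ∫_{|ξ| ≤ R} f^(ξ) e^{2 π i x·ξ} dξ`;
`𝓕 f ξ = ∫ f(x) e^{-2 π i x·ξ} dx` -/
noncomputable def S {n : ℕ} (f : E n → ℂ) (R : ℝ) (x : E n) : ℂ :=
  ∫ ξ in Metric.closedBall (0 : E n) R, 𝓕 f ξ * ex x ξ

/-- the maximal ball partial sum operator `S^* f (x) = sup_{R > 0} |S_R f (x)|` -/
noncomputable def Sstar {n : ℕ} (f : E n → ℂ) (x : E n) : ℝ≥0∞ :=
  ⨆ (R : ℝ) (_ : 0 < R), ‖S f R x‖ₑ

/-- multiplier operator, acting on the Fourier side function `h` -/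
noncomputable def T {n : ℕ} (a : E n → ℝ) (h : E n → ℂ) (x : E n) : ℂ :=
  ∫ ξ, (a ξ : ℂ) * (h ξ * ex x ξ)

/-- smooth, `0` for `u ≤ 1/4`, `1` for `u ≥ 1/2` -/
noncomputable def et (u : ℝ) : ℝ := Real.smoothTransition (4 * u - 1)

/-- smooth, supported in `[1/8, 1/2]` -/
noncomputable def ps (u : ℝ) : ℝ := et (2 * u) - et u

/-- annulus multipliers: `supp (mul i R)` is contained in `|ξ| ≤ R` at distance about `2^{-i} R`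
of the sphere -/
noncomputable def mul {n : ℕ} (i : ℕ) (R : ℝ) (ξ : E n) : ℝ :=
  ps (2 ^ i * (1 - ‖ξ‖ ^ 2 / R ^ 2))

/-- the smooth ball multiplier -/
noncomputable def pm {n : ℕ} (R : ℝ) (ξ : E n) : ℝ := et (1 - ‖ξ‖ ^ 2 / R ^ 2)

/-- squared `L²` norm of the maximal function over `R ∈ [c, 2c]` -/
noncomputable def W {n : ℕ} (i : ℕ) (c : ℝ) (f : E n → ℂ) : ℝ≥0∞ :=
  ∫⁻ x, (⨆ R ∈ Icc c (2 * c), ‖T (mul i R) (𝓕 f) x‖ₑ) ^ 2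

noncomputable def Tstar {n : ℕ} (i : ℕ) (f : E n → ℂ) (x : E n) : ℝ≥0∞ :=
  ⨆ (R : ℝ) (_ : 0 < R), ‖T (mul i R) (𝓕 f) x‖ₑ

noncomputable def Pstar {n : ℕ} (f : E n → ℂ) (x : E n) : ℝ≥0∞ :=
  ⨆ (R : ℝ) (_ : 0 < R), ‖T (pm R) (𝓕 f) x‖ₑ

/-- families of multipliers `a R ξ`, `R > 0`, jointly continuous, supported in `|ξ| ≤ R` -/
structure Fam {n : ℕ} (a : ℝ → E n → ℝ) : Prop where
  cont : ContinuousOn (fun p : ℝ × E n => a p.1 p.2) (Ioi 0 ×ˢ univ)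
  supp : ∀ R, 0 < R → ∀ ξ, R < ‖ξ‖ → a R ξ = 0

/-- `a'` is the `R`-derivative of the family `a` -/
def DerR {n : ℕ} (a a' : ℝ → E n → ℝ) : Prop :=
  ∀ R, 0 < R → ∀ ξ, HasDerivAt (fun r => a r ξ) (a' R ξ) R

/-- the argument of `ps` in `mul` -/
noncomputable def vv {n : ℕ} (i : ℕ) (R : ℝ) (ξ : E n) : ℝ := 2 ^ i * (1 - ‖ξ‖ ^ 2 / R ^ 2)

/-- first and second derivative of `ps` -/
noncomputable def ps1 (u : ℝ) : ℝ := deriv ps u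
noncomputable def ps2 (u : ℝ) : ℝ := deriv (deriv ps) u

/-- `R`-derivative of `mul i` -/
noncomputable def mR {n : ℕ} (i : ℕ) (R : ℝ) (ξ : E n) : ℝ :=
  ps1 (vv i R ξ) * (2 * 2 ^ i * ‖ξ‖ ^ 2 / R ^ 3)

/-- second `R`-derivative of `mul i` -/
noncomputable def mRR {n : ℕ} (i : ℕ) (R : ℝ) (ξ : E n) : ℝ :=
  ps2 (vv i R ξ) * (2 * 2 ^ i * ‖ξ‖ ^ 2 / R ^ 3) ^ 2 -
    ps1 (vv i R ξ) * (6 * 2 ^ i * ‖ξ‖ ^ 2 / R ^ 4)

/-- `ξ_j`-derivative of `mul i R` -/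
noncomputable def mj {n : ℕ} (i : ℕ) (j : Fin n) (R : ℝ) (ξ : E n) : ℝ :=
  ps1 (vv i R ξ) * (-(2 * 2 ^ i * ξ j / R ^ 2))

/-- second `ξ_j`-derivative of `mul i R` -/
noncomputable def mjj {n : ℕ} (i : ℕ) (j : Fin n) (R : ℝ) (ξ : E n) : ℝ :=
  ps2 (vv i R ξ) * (2 * 2 ^ i * ξ j / R ^ 2) ^ 2 - ps1 (vv i R ξ) * (2 * 2 ^ i / R ^ 2)

/-- `P = 2^⌊i/4⌋`; the gain of the `i`-th operator is `1/P` -/
def PP (i : ℕ) : ℕ := 2 ^ (i / 4)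

/-- Lipschitz cutoff: `0` for `|u| ≤ 1`, `1` for `|u| ≥ 2` -/
noncomputable def chi (u : ℝ) : ℝ := min 1 (max 0 (|u| - 1))

/-- dilation of a function -/
noncomputable def dil {n : ℕ} (c : ℝ) (f : E n → ℂ) : E n → ℂ := fun x => f (c⁻¹ • x)

/-- the unit vector `e_j` -/
noncomputable abbrev e {n : ℕ} (j : Fin n) : E n := EuclideanSpace.single j (1 : ℝ)

/-- squared modulus of smoothness in direction `j` at relative scales `t ≤ r |x_j|` -/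
noncomputable def om {n : ℕ} (j : Fin n) (r : ℝ) (f : E n → ℂ) : ℝ≥0∞ :=
  ∫⁻ x, ∫⁻ t in Ioc 0 (r * |x j|), ‖f (x + t • e j) - f x‖ₑ ^ 2 * ENNReal.ofReal t⁻¹

/-- the logarithmic smoothness functional in direction `j` -/
noncomputable def logReg {n : ℕ} (j : Fin n) (f : E n → ℂ) : ℝ≥0∞ :=
  ∫⁻ x, ∫⁻ t in Ioc 0 (|x j| / 2),
    ‖f (x + t • e j) - f x‖ₑ ^ 2 * ENNReal.ofReal (Real.log (|x j| / t) ^ 3 / t)

/-- the (centred) Hardy-Littlewood maximal function -/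
noncomputable def MF {n : ℕ} (f : E n → ℝ≥0∞) (x : E n) : ℝ≥0∞ :=
  ⨆ (r : ℝ) (_ : 0 < r), (volume (Metric.closedBall x r))⁻¹ * ∫⁻ y in Metric.closedBall x r, f y

/-- the level piece `min((f/2^k - 1)_+, 1)` of a nonnegative function -/
noncomputable def lev {n : ℕ} (f : E n → ℝ) (k : ℤ) (x : E n) : ℝ :=
  min (max (f x / 2 ^ k - 1) 0) 1

end Pool.Agent.MBS
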