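import Pool.Agent.MBS.Targets

set_option autoImplicit false

/-! J17: modulus of quasi-concave functions supported in a box. -/

namespace Pool.Agent.MBS

open MeasureTheory Set
open scoped ENNReal NNReal

namespace J17

/-- One dimensional lemma: translates of an interval. -/
theorem interval_symm (I : Set ℝ) (hI : Convex ℝ I) (t : ℝ) (ht : 0 < t) :
    volume {s : ℝ | ¬ (s + t ∈ I ↔ s ∈ I)} ≤ ENNReal.ofReal (2 * t) := by
  have hord : I.OrdConnected := hI.ordConnected
  have hsub : {s : ℝ | ¬ (s + t ∈ I ↔ s ∈ I)} ⊆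
      {s | s ∈ I ∧ s + t ∉ I} ∪ {s | s + t ∈ I ∧ s ∉ I} := by
    intro s hs
    simp only [Set.mem_ofPred_eq, mem_union] at hs ⊢
    tauto
  have h1 : volume {s | s ∈ I ∧ s + t ∉ I} ≤ ENNReal.ofReal t := by
    refine (Real.volume_le_diam _).trans ?_
    apply Metric.ediam_le
    intro x hx y hy
    rw [edist_dist]
    apply ENNReal.ofReal_le_ofReal
    rw [Real.dist_eq, abs_le]
    constructor
    · by_contra hc
      push Not at hc
      exact hx.2 (hord.out hx.1 hy.1 ⟨by linarith, by linarith⟩)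
    · by_contra hc
      push Not at hc
      exact hy.2 (hord.out hy.1 hx.1 ⟨by linarith, by linarith⟩)
  have h2 : volume {s | s + t ∈ I ∧ s ∉ I} ≤ ENNReal.ofReal t := by
    refine (Real.volume_le_diam _).trans ?_
    apply Metric.ediam_le
    intro x hx y hy
    rw [edist_dist]
    apply ENNReal.ofReal_le_ofReal
    rw [Real.dist_eq, abs_le]
    constructor
    · by_contra hc
      push Not at hc
      exact hy.2 (hord.out hx.1 hy.1 ⟨by linarith, by linarith⟩)
    · by_contra hc
      push Not at hc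
      exact hx.2 (hord.out hy.1 hx.1 ⟨by linarith, by linarith⟩)
  calc volume {s : ℝ | ¬ (s + t ∈ I ↔ s ∈ I)} ≤ _ := measure_mono hsub
    _ ≤ _ := measure_union_le _ _
    _ ≤ ENNReal.ofReal t + ENNReal.ofReal t := add_le_add h1 h2
    _ = ENNReal.ofReal (2 * t) := by
      rw [← ENNReal.ofReal_add ht.le ht.le]
      congr 1
      ring

/-- The splitting of `E (m+1)` along the coordinate `j`. -/
noncomputable def split (m : ℕ) (j : Fin (m + 1)) : E (m + 1) ≃ᵐ ℝ × (Fin m → ℝ) :=
  (MeasurableEquiv.toLp 2 (Fin (m + 1) → ℝ)).symm.trans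
    (MeasurableEquiv.piFinSuccAbove (fun _ => ℝ) j)

theorem split_mp (m : ℕ) (j : Fin (m + 1)) :
    MeasurePreserving (split m j) volume volume :=
  (EuclideanSpace.volume_preserving_symm_measurableEquiv_toLp (Fin (m + 1))).trans
    (volume_preserving_piFinSuccAbove (fun _ => ℝ) j)

theorem split_symm_apply (m : ℕ) (j : Fin (m + 1)) (s : ℝ) (y : Fin m → ℝ) :
    (split m j).symm (s, y) j = s ∧ ∀ i, (split m j).symm (s, y) (j.succAbove i) = y i := by
  constructor
  · simp [split, MeasurableEquiv.piFinSuccAbove]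
  · intro i
    simp [split, MeasurableEquiv.piFinSuccAbove]

theorem split_symm_add (m : ℕ) (j : Fin (m + 1)) (s t : ℝ) (y : Fin m → ℝ) :
    (split m j).symm (s, y) + t • e j = (split m j).symm (s + t, y) := by
  ext i
  have h1 := split_symm_apply m j s y
  have h2 := split_symm_apply m j (s + t) y
  rcases Fin.eq_self_or_eq_succAbove j i with rfl | ⟨k, rfl⟩
  · rw [h2.1]
    simp [h1.1]
  · rw [h2.2 k]
    simp [h1.2 k]

theorem fiber_convex {m : ℕ} (j : Fin (m + 1)) {K : Set (E (m + 1))} (hK : Convex ℝ K)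
    (y : Fin m → ℝ) : Convex ℝ {s : ℝ | (split m j).symm (s, y) ∈ K} := by
  intro s hs s' hs' a b ha hb hab
  have h := hK hs hs' ha hb hab
  have e1 : a • (split m j).symm (s, y) + b • (split m j).symm (s', y) =
      (split m j).symm (a • s + b • s', y) := by
    ext i
    have h1 := split_symm_apply m j s y
    have h2 := split_symm_apply m j s' y
    have h3 := split_symm_apply m j (a • s + b • s') y
    rcases Fin.eq_self_or_eq_succAbove j i with rfl | ⟨k, rfl⟩
    · rw [h3.1]
      simp [h1.1, h2.1]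
    · rw [h3.2 k]
      simp only [PiLp.add_apply, PiLp.smul_apply, h1.2, h2.2, smul_eq_mul]
      rw [← add_mul, hab, one_mul]
  rw [e1] at h
  exact h

theorem convex_symm {m : ℕ} (j : Fin (m + 1)) {K : Set (E (m + 1))} (hK : Convex ℝ K)
    (hKm : MeasurableSet K) (r : Fin (m + 1) → ℝ) (hr : ∀ x ∈ K, ∀ i, |x i| ≤ r i) (t : ℝ)
    (ht : 0 < t) :
    volume {x : E (m + 1) | ¬ (x + t • e j ∈ K ↔ x ∈ K)} ≤
      ENNReal.ofReal (2 * t) * ∏ i, ENNReal.ofReal (2 * r (j.succAbove i)) := by
  set D : Set (E (m + 1)) := {x | ¬ (x + t • e j ∈ K ↔ x ∈ K)} with hD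
  have hDm : MeasurableSet D := by
    have h1 : MeasurableSet {x : E (m + 1) | x + t • e j ∈ K} :=
      (measurable_id.add_const _) hKm
    have h2 : D = ({x : E (m + 1) | x + t • e j ∈ K} \ K) ∪
        (K \ {x : E (m + 1) | x + t • e j ∈ K}) := by
      ext x
      simp only [hD, Set.mem_ofPred_eq, mem_union, mem_sdiff]
      tauto
    rw [h2]
    exact (h1.diff hKm).union (hKm.diff h1)
  have hmp : MeasurePreserving (split m j).symm volume volume := (split_mp m j).symm
  have h1 : volume D = volume ((split m j).symm ⁻¹' D) :=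
    (hmp.measure_preimage hDm.nullMeasurableSet).symm
  rw [h1, Measure.volume_eq_prod, Measure.prod_apply_symm ((split m j).symm.measurable hDm)]
  have hbox : MeasurableSet (Icc (fun i => -r (j.succAbove i)) (fun i => r (j.succAbove i))) :=
    measurableSet_Icc
  calc ∫⁻ y : Fin m → ℝ, volume ((fun s : ℝ => (s, y)) ⁻¹' ((split m j).symm ⁻¹' D))
      ≤ ∫⁻ y : Fin m → ℝ, (Icc (fun i => -r (j.succAbove i))
          (fun i => r (j.succAbove i))).indicator (fun _ => ENNReal.ofReal (2 * t)) y := by
        apply lintegral_mono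
        intro y
        have e1 : ((fun s : ℝ => (s, y)) ⁻¹' ((split m j).symm ⁻¹' D)) =
            {s : ℝ | ¬ (s + t ∈ {s : ℝ | (split m j).symm (s, y) ∈ K} ↔
              s ∈ {s : ℝ | (split m j).symm (s, y) ∈ K})} := by
          ext s
          simp only [mem_preimage, hD, Set.mem_ofPred_eq, split_symm_add]
        beta_reduce
        rw [e1]
        by_cases hy : y ∈ Icc (fun i => -r (j.succAbove i)) (fun i => r (j.succAbove i))
        · rw [indicator_of_mem hy]
          exact interval_symm _ (fiber_convex j hK y) t ht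
        · have hemp : {s : ℝ | (split m j).symm (s, y) ∈ K} = ∅ := by
            rw [eq_empty_iff_forall_notMem]
            intro s hs
            apply hy
            have hs' : (split m j).symm (s, y) ∈ K := hs
            refine ⟨fun i => ?_, fun i => ?_⟩
            · have := (abs_le.mp (hr _ hs' (j.succAbove i))).1
              rwa [(split_symm_apply m j s y).2 i] at this
            · have := (abs_le.mp (hr _ hs' (j.succAbove i))).2
              rwa [(split_symm_apply m j s y).2 i] at this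
          rw [hemp, indicator_of_notMem hy]
          simp
    _ = ENNReal.ofReal (2 * t) * ∏ i, ENNReal.ofReal (2 * r (j.succAbove i)) := by
        rw [lintegral_indicator hbox, setLIntegral_const, Real.volume_Icc_pi]
        congr 1
        apply Finset.prod_congr rfl
        intro i _
        congr 1
        ring

theorem pointwise {a b : ℝ} (ha0 : 0 ≤ a) (ha1 : a ≤ 1) (hb0 : 0 ≤ b) (hb1 : b ≤ 1) :
    ‖(a : ℂ) - (b : ℂ)‖ₑ ^ 2 ≤
      ∫⁻ l in Ico (0 : ℝ) 1, {l : ℝ | ¬ (l < a ↔ l < b)}.indicator (fun _ => 1) l := by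
  have hm : MeasurableSet {l : ℝ | ¬ (l < a ↔ l < b)} := by
    have h2 : {l : ℝ | ¬ (l < a ↔ l < b)} = (Iio a \ Iio b) ∪ (Iio b \ Iio a) := by
      ext x
      simp only [Set.mem_ofPred_eq, mem_union, mem_sdiff, mem_Iio]
      tauto
    rw [h2]
    exact (measurableSet_Iio.diff measurableSet_Iio).union
      (measurableSet_Iio.diff measurableSet_Iio)
  rw [lintegral_indicator hm, setLIntegral_const, one_mul, Measure.restrict_apply hm]
  have e1 : ‖(a : ℂ) - (b : ℂ)‖ₑ = ENNReal.ofReal |a - b| := by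
    rw [← Complex.ofReal_sub, ← ofReal_norm, Complex.norm_real, Real.norm_eq_abs]
  have h1 : |a - b| ≤ 1 := by
    rw [abs_le]
    constructor <;> linarith
  rw [e1]
  have h2 : ENNReal.ofReal |a - b| ≤ 1 := by
    rw [← ENNReal.ofReal_one]
    exact ENNReal.ofReal_le_ofReal h1
  calc ENNReal.ofReal |a - b| ^ 2 = ENNReal.ofReal |a - b| * ENNReal.ofReal |a - b| := sq _
    _ ≤ 1 * ENNReal.ofReal |a - b| := by gcongr
    _ = ENNReal.ofReal |a - b| := one_mul _
    _ = volume (Ico (min a b) (max a b)) := by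
        rw [Real.volume_Ico, max_sub_min_eq_abs, abs_sub_comm]
    _ ≤ volume ({l : ℝ | ¬ (l < a ↔ l < b)} ∩ Ico 0 1) := by
        apply measure_mono
        intro l hl
        obtain ⟨hl1, hl2⟩ := hl
        refine ⟨?_, ?_, ?_⟩
        · rw [Set.mem_ofPred_eq]
          rcases le_total a b with h | h
          · rw [min_eq_left h] at hl1
            rw [max_eq_right h] at hl2
            intro hc
            exact absurd (hc.mpr hl2) (not_lt.mpr hl1)
          · rw [min_eq_right h] at hl1
            rw [max_eq_left h] at hl2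
            intro hc
            exact absurd (hc.mp hl2) (not_lt.mpr hl1)
        · exact (le_min ha0 hb0).trans hl1
        · exact hl2.trans_le (max_le ha1 hb1)

theorem slice_bound {m : ℕ} (j : Fin (m + 1)) {φ : E (m + 1) → ℝ} (hφ : Measurable φ)
    (h0 : ∀ x, 0 ≤ φ x) (h1 : ∀ x, φ x ≤ 1) (hc : ∀ l : ℝ, Convex ℝ {x | l < φ x})
    (r : Fin (m + 1) → ℝ) (hr : ∀ x, φ x ≠ 0 → ∀ i, |x i| ≤ r i) (t : ℝ) (ht : 0 < t) :
    ∫⁻ x, ‖(φ (x + t • e j) : ℂ) - (φ x : ℂ)‖ₑ ^ 2 ≤
      ENNReal.ofReal (2 * t) * ∏ i, ENNReal.ofReal (2 * r (j.succAbove i)) := by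
  set M := ENNReal.ofReal (2 * t) * ∏ i, ENNReal.ofReal (2 * r (j.succAbove i)) with hM
  have hmeas : MeasurableSet {p : E (m + 1) × ℝ | ¬ (p.2 < φ (p.1 + t • e j) ↔ p.2 < φ p.1)} := by
    have a1 : MeasurableSet {p : E (m + 1) × ℝ | p.2 < φ (p.1 + t • e j)} :=
      measurableSet_lt measurable_snd (hφ.comp (measurable_fst.add_const _))
    have a2 : MeasurableSet {p : E (m + 1) × ℝ | p.2 < φ p.1} :=
      measurableSet_lt measurable_snd (hφ.comp measurable_fst)
    have h2 : {p : E (m + 1) × ℝ | ¬ (p.2 < φ (p.1 + t • e j) ↔ p.2 < φ p.1)} =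
        ({p : E (m + 1) × ℝ | p.2 < φ (p.1 + t • e j)} \ {p : E (m + 1) × ℝ | p.2 < φ p.1}) ∪
        ({p : E (m + 1) × ℝ | p.2 < φ p.1} \ {p : E (m + 1) × ℝ | p.2 < φ (p.1 + t • e j)}) := by
      ext x
      simp only [Set.mem_ofPred_eq, mem_union, mem_sdiff]
      tauto
    rw [h2]
    exact (a1.diff a2).union (a2.diff a1)
  have hmf : Measurable (fun p : E (m + 1) × ℝ =>
      {p : E (m + 1) × ℝ | ¬ (p.2 < φ (p.1 + t • e j) ↔ p.2 < φ p.1)}.indicator
        (fun _ => (1 : ℝ≥0∞)) p) := measurable_const.indicator hmeas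
  calc ∫⁻ x, ‖(φ (x + t • e j) : ℂ) - (φ x : ℂ)‖ₑ ^ 2
      ≤ ∫⁻ x, ∫⁻ l in Ico (0 : ℝ) 1,
        {p : E (m + 1) × ℝ | ¬ (p.2 < φ (p.1 + t • e j) ↔ p.2 < φ p.1)}.indicator
        (fun _ => (1 : ℝ≥0∞)) (x, l) := by
        apply lintegral_mono
        intro x
        exact pointwise (h0 _) (h1 _) (h0 _) (h1 _)
    _ = ∫⁻ l in Ico (0 : ℝ) 1, ∫⁻ x,
        {p : E (m + 1) × ℝ | ¬ (p.2 < φ (p.1 + t • e j) ↔ p.2 < φ p.1)}.indicator
        (fun _ => (1 : ℝ≥0∞)) (x, l) := by
        rw [lintegral_lintegral_swap]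
        exact hmf.aemeasurable
    _ ≤ ∫⁻ _ in Ico (0 : ℝ) 1, M := by
        apply setLIntegral_mono measurable_const
        intro l hl
        have hK : MeasurableSet {x : E (m + 1) | l < φ x} :=
          measurableSet_lt measurable_const hφ
        have hb := convex_symm j (hc l) hK r (fun x hx => hr x (by
          have : l < φ x := hx
          have := hl.1
          linarith)) t ht
        have hD : MeasurableSet {x : E (m + 1) | ¬ (l < φ (x + t • e j) ↔ l < φ x)} := by
          have : Measurable (fun x : E (m + 1) => (x, l)) := measurable_id.prodMk measurable_const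
          exact this hmeas
        calc ∫⁻ x, {p : E (m + 1) × ℝ | ¬ (p.2 < φ (p.1 + t • e j) ↔ p.2 < φ p.1)}.indicator
              (fun _ => (1 : ℝ≥0∞)) (x, l)
            = ∫⁻ x, {x : E (m + 1) | ¬ (l < φ (x + t • e j) ↔ l < φ x)}.indicator
              (fun _ => (1 : ℝ≥0∞)) x := rfl
          _ = volume {x : E (m + 1) | ¬ (l < φ (x + t • e j) ↔ l < φ x)} := by
              rw [lintegral_indicator hD, setLIntegral_one]
          _ ≤ M := hb
    _ = M := by
        rw [setLIntegral_const, Real.volume_Ico]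
        simp

end J17

/-- J17 -/
theorem pOmConv : tOmConv := by
  intro n
  refine ⟨2 ^ (n + 1), ?_⟩
  intro φ r j ρ hφ h0 h1 hc hr hρ hρ2
  obtain ⟨m, rfl⟩ : ∃ m, n = m + 1 := ⟨n - 1, by have := j.pos; omega⟩
  by_cases hz : ∀ x, φ x = 0
  · have : om j ρ (fun x => (φ x : ℂ)) = 0 := by
      unfold om
      simp [hz]
    rw [this]
    exact bot_le
  push Not at hz
  obtain ⟨x0, hx0⟩ := hz
  have hr0 : ∀ i, 0 ≤ r i := fun i => (abs_nonneg _).trans (hr x0 hx0 i)
  set F : E (m + 1) → ℝ → ℝ≥0∞ := fun x t =>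
    ‖(φ (x + t • e j) : ℂ) - (φ x : ℂ)‖ₑ ^ 2 * ENNReal.ofReal t⁻¹ with hF
  have hFm : Measurable (Function.uncurry F) := by
    have a1 : Measurable (fun p : E (m + 1) × ℝ => φ (p.1 + p.2 • e j)) := by
      apply hφ.comp
      exact measurable_fst.add (measurable_snd.smul_const _)
    have a2 : Measurable (fun p : E (m + 1) × ℝ => φ p.1) := hφ.comp measurable_fst
    have a3 : Measurable (fun p : E (m + 1) × ℝ => ENNReal.ofReal p.2⁻¹) :=
      (measurable_snd.inv).ennreal_ofReal
    exact (((Complex.measurable_ofReal.comp a1).sub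
      (Complex.measurable_ofReal.comp a2)).enorm.pow_const 2).mul a3
  -- restrict the range of t
  have hstep : ∀ x : E (m + 1), ∫⁻ t in Ioc 0 (ρ * |x j|), F x t ≤
      ∫⁻ t in Ioc 0 (2 * ρ * r j), F x t := by
    intro x
    by_cases hx : |x j| ≤ 2 * r j
    · apply lintegral_mono_set
      apply Ioc_subset_Ioc_right
      nlinarith
    · push Not at hx
      have : ∫⁻ t in Ioc 0 (ρ * |x j|), F x t = ∫⁻ t in Ioc 0 (ρ * |x j|), 0 := by
        apply setLIntegral_congr_fun measurableSet_Ioc
        intro t ht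
        have hx1 : φ x = 0 := by
          by_contra hne
          have := hr x hne j
          have := hr0 j
          linarith
        have hx2 : φ (x + t • e j) = 0 := by
          by_contra hne
          have h3 := hr _ hne j
          have h4 : (x + t • e j) j = x j + t := by simp
          rw [h4] at h3
          have h5 := abs_sub_abs_le_abs_sub (x j) (-t)
          rw [sub_neg_eq_add, abs_neg, abs_of_pos ht.1] at h5
          have h6 := ht.2
          nlinarith [hr0 j, abs_nonneg (x j)]
        simp [hF, hx1, hx2]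
      rw [this, lintegral_zero]
      exact bot_le
  set P : ℝ≥0∞ := ∏ i, ENNReal.ofReal (2 * r (j.succAbove i)) with hP
  have hom : om j ρ (fun x => (φ x : ℂ)) ≤ ∫⁻ x, ∫⁻ t in Ioc 0 (2 * ρ * r j), F x t := by
    unfold om
    exact lintegral_mono hstep
  refine hom.trans ?_
  rw [lintegral_lintegral_swap (hFm.aemeasurable)]
  calc ∫⁻ t in Ioc 0 (2 * ρ * r j), ∫⁻ x, F x t
      ≤ ∫⁻ _ in Ioc 0 (2 * ρ * r j), 2 * P := by
        apply setLIntegral_mono measurable_const
        intro t ht
        have hb := J17.slice_bound j hφ h0 h1 hc r hr t ht.1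
        have hmx : Measurable (fun x : E (m + 1) => ‖(φ (x + t • e j) : ℂ) - (φ x : ℂ)‖ₑ ^ 2) :=
          (((Complex.measurable_ofReal.comp (hφ.comp (measurable_id.add_const _))).sub
            (Complex.measurable_ofReal.comp hφ)).enorm.pow_const 2)
        calc ∫⁻ x, F x t = (∫⁻ x, ‖(φ (x + t • e j) : ℂ) - (φ x : ℂ)‖ₑ ^ 2) *
              ENNReal.ofReal t⁻¹ := lintegral_mul_const _ hmx
          _ ≤ (ENNReal.ofReal (2 * t) * P) * ENNReal.ofReal t⁻¹ := by gcongr
          _ = (ENNReal.ofReal (2 * t) * ENNReal.ofReal t⁻¹) * P := by ring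
          _ = 2 * P := by
              rw [← ENNReal.ofReal_mul (by linarith [ht.1])]
              have : 2 * t * t⁻¹ = 2 := by
                have := ht.1.ne'
                field_simp
              rw [this]
              simp
    _ = 2 * P * ENNReal.ofReal (2 * ρ * r j) := by
        rw [setLIntegral_const, Real.volume_Ioc, sub_zero]
    _ ≤ ENNReal.ofReal (2 ^ (m + 1 + 1) * ρ * ∏ i, r i) := by
        apply le_of_eq
        have e1 : P = ENNReal.ofReal (∏ i, (2 * r (j.succAbove i))) := by
          rw [hP, ENNReal.ofReal_prod_of_nonneg]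
          intro i _
          have := hr0 (j.succAbove i)
          positivity
        have e2 : (2 : ℝ≥0∞) = ENNReal.ofReal 2 := by simp
        have hp0 : 0 ≤ ∏ i, (2 * r (j.succAbove i)) := Finset.prod_nonneg fun i _ => by
          have := hr0 (j.succAbove i)
          positivity
        rw [e1, e2, ← ENNReal.ofReal_mul (by norm_num), ← ENNReal.ofReal_mul (by positivity)]
        congr 1
        rw [Fin.prod_univ_succAbove r j, Finset.prod_mul_distrib]
        simp
        ring

end Pool.Agent.MBS
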