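import Pool.Agent.MBS.Targets

set_option autoImplicit false

/-! Job J7, part a: cutoffs, families, bounds. -/

namespace Pool.Agent.MBS

open MeasureTheory FourierTransform Set
open scoped ENNReal NNReal

namespace G7

variable {n : ℕ}

/-! ### families -/

theorem fam_cont {a : ℝ → E n → ℝ} (ha : Fam a) {R : ℝ} (hR : 0 < R) : Continuous (a R) := by
  have h : ContinuousOn (fun ξ : E n => (R, ξ)) univ := by fun_prop
  have := ha.cont.comp h (fun ξ _ => ⟨hR, mem_univ _⟩)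
  rwa [continuousOn_univ] at this

theorem fam_cs {a : ℝ → E n → ℝ} (ha : Fam a) {R : ℝ} (hR : 0 < R) : HasCompactSupport (a R) := by
  refine HasCompactSupport.intro (isCompact_closedBall (0 : E n) R) ?_
  intro ξ hξ
  refine ha.supp R hR ξ ?_
  simpa using hξ

theorem fam_mulX {a : ℝ → E n → ℝ} (ha : Fam a) {X : E n → ℝ} (hX : Continuous X) :
    Fam (fun R ξ => a R ξ * X ξ) := by
  refine ⟨?_, ?_⟩
  · refine ha.cont.mul ?_
    exact (hX.comp continuous_snd).continuousOn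
  · intro R hR ξ hξ
    simp [ha.supp R hR ξ hξ]

theorem fam_sub {a b : ℝ → E n → ℝ} (ha : Fam a) (hb : Fam b) :
    Fam (fun R ξ => a R ξ - b R ξ) := by
  refine ⟨ha.cont.sub hb.cont, ?_⟩
  intro R hR ξ hξ
  simp [ha.supp R hR ξ hξ, hb.supp R hR ξ hξ]

theorem fam_sum {ι : Type*} (s : Finset ι) {a : ι → ℝ → E n → ℝ} (ha : ∀ j ∈ s, Fam (a j)) :
    Fam (fun R ξ => ∑ j ∈ s, a j R ξ) := by
  refine ⟨?_, ?_⟩
  · refine continuousOn_finsetSum _ fun j hj => (ha j hj).cont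
  · intro R hR ξ hξ
    refine Finset.sum_eq_zero fun j hj => (ha j hj).supp R hR ξ hξ

/-! ### cutoffs -/

noncomputable def x0 (u : ℝ) : ℝ := max 0 (min 1 (2 - |u|))

theorem x0_cont : Continuous x0 := by unfold x0; fun_prop

theorem x0_nonneg (u : ℝ) : 0 ≤ x0 u := le_max_left _ _

theorem x0_le (u : ℝ) : x0 u ≤ 1 := by
  unfold x0
  exact max_le (by norm_num) (min_le_left _ _)

theorem x0_ne {u : ℝ} (h : x0 u ≠ 0) : |u| ≤ 2 := by
  by_contra hc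
  push Not at hc
  apply h
  unfold x0
  rw [max_eq_left]
  exact (min_le_right _ _).trans (by linarith)

theorem x0_ne1 {u : ℝ} (h : x0 u ≠ 1) : 1 ≤ |u| := by
  by_contra hc
  push Not at hc
  apply h
  unfold x0
  rw [min_eq_left (by linarith), max_eq_right (by norm_num)]

noncomputable def XX (P : ℝ) (s : Finset (Fin n)) (ξ : E n) : ℝ := ∏ j ∈ sᶜ, x0 (P * ξ j)

theorem XX_cont (P : ℝ) (s : Finset (Fin n)) : Continuous (XX (n := n) P s) := by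
  unfold XX
  refine continuous_finsetProd _ fun j _ => x0_cont.comp ?_
  fun_prop

theorem XX_nonneg (P : ℝ) (s : Finset (Fin n)) (ξ : E n) : 0 ≤ XX P s ξ :=
  Finset.prod_nonneg fun _ _ => x0_nonneg _

theorem XX_le (P : ℝ) (s : Finset (Fin n)) (ξ : E n) : XX P s ξ ≤ 1 :=
  Finset.prod_le_one (fun _ _ => x0_nonneg _) fun _ _ => x0_le _

theorem XX_ne {P : ℝ} (hP : 0 < P) {s : Finset (Fin n)} {ξ : E n} (h : XX P s ξ ≠ 0) :
    ∀ j ∈ sᶜ, |ξ j| ≤ 2 / P := by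
  intro j hj
  have h1 : x0 (P * ξ j) ≠ 0 := fun hc => h (Finset.prod_eq_zero hj hc)
  have h2 := x0_ne h1
  rw [abs_mul, abs_of_pos hP] at h2
  rw [le_div_iff₀ hP]
  linarith

theorem XX_ne1 {P : ℝ} (hP : 0 < P) {s : Finset (Fin n)} {ξ : E n} (h : XX P s ξ ≠ 1) :
    ∃ j ∈ sᶜ, P⁻¹ ≤ |ξ j| := by
  by_contra hc
  push Not at hc
  apply h
  refine Finset.prod_eq_one fun j hj => ?_
  by_contra h1
  have h2 := x0_ne1 h1
  rw [abs_mul, abs_of_pos hP] at h2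
  have h3 := hc j hj
  rw [← one_div, lt_div_iff₀ hP] at h3
  linarith

theorem XX_line (P : ℝ) {s : Finset (Fin n)} {j : Fin n} (hj : j ∈ s) (ξ : E n) (t : ℝ) :
    XX P s (ξ + t • e j) = XX P s ξ := by
  unfold XX
  refine Finset.prod_congr rfl fun k hk => ?_
  have hne : k ≠ j := by
    rintro rfl
    simp at hk
    exact hk hj
  simp [e, hne]

/-! ### bounds of the multipliers -/

theorem nsq_le_four {R : ℝ} {ξ : E n} (hR : R ∈ Icc (1 : ℝ) 2) {i : ℕ}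
    (hv : 0 < vv i R ξ) : ‖ξ‖ ^ 2 ≤ 4 := by
  unfold vv at hv
  have h2 : (0 : ℝ) < 2 ^ i := by positivity
  have h3 : 0 < 1 - ‖ξ‖ ^ 2 / R ^ 2 := by
    by_contra hc
    push Not at hc
    have := mul_nonpos_of_nonneg_of_nonpos h2.le hc
    linarith
  have hR0 : 0 < R := by linarith [hR.1]
  have h4 : ‖ξ‖ ^ 2 / R ^ 2 < 1 := by linarith
  rw [div_lt_one (by positivity)] at h4
  nlinarith [hR.1, hR.2]

theorem abs_coord_le (ξ : E n) (j : Fin n) : |ξ j| ≤ ‖ξ‖ := by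
  have := EuclideanSpace.norm_eq ξ
  rw [this]
  refine Real.le_sqrt_of_sq_le ?_
  rw [sq_abs]
  have h1 : (ξ j) ^ 2 = ‖ξ j‖ ^ 2 := by simp
  rw [h1]
  exact Finset.single_le_sum (f := fun k => ‖ξ k‖ ^ 2) (fun k _ => by positivity) (Finset.mem_univ j)

/-- bound for the difference `∂_R² m - Σ_s ∂_j² m` times the cutoff -/
theorem diff_bound (i : ℕ) (s : Finset (Fin n)) {B : ℝ} (hB : 1 ≤ B)
    (h0 : ∀ u, (u < 1 / 8 ∨ 1 / 2 < u) → ps u = 0 ∧ ps1 u = 0 ∧ ps2 u = 0)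
    (hb : ∀ u, |ps u| ≤ B ∧ |ps1 u| ≤ B ∧ |ps2 u| ≤ B) {R : ℝ} (hR : R ∈ Icc (1 : ℝ) 2)
    (ξ : E n) :
    |(mRR i R ξ - ∑ j ∈ s, mjj i j R ξ) * XX (PP i : ℝ) s ξ| ≤
      B * (40 + 20 * n) * (2 ^ i) ^ 2 / (PP i : ℝ) ^ 2 := by
  have hP : (0 : ℝ) < (PP i : ℝ) := by unfold PP; positivity
  have hN : (0 : ℝ) < 2 ^ i := by positivity
  have hB0 : 0 < B := by linarith
  have hR1 := hR.1
  have hR2 := hR.2
  have hrhs : 0 ≤ B * (40 + 20 * n) * (2 ^ i) ^ 2 / (PP i : ℝ) ^ 2 := by positivity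
  have hPN : (PP i : ℝ) ^ 4 ≤ 2 ^ i := by
    unfold PP
    push_cast
    rw [← pow_mul]
    refine pow_le_pow_right₀ (by norm_num) ?_
    omega
  have hP1 : (1 : ℝ) ≤ PP i := by
    unfold PP
    push_cast
    exact one_le_pow₀ (by norm_num)
  by_cases hX : XX (PP i : ℝ) s ξ = 0
  · rw [hX, mul_zero, abs_zero]; exact hrhs
  by_cases hv : vv i R ξ < 1 / 8 ∨ 1 / 2 < vv i R ξ
  · obtain ⟨-, h1, h2⟩ := h0 _ hv
    have e1 : mRR i R ξ = 0 := by simp [mRR, h1, h2]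
    have e2 : ∑ j ∈ s, mjj i j R ξ = 0 := by
      refine Finset.sum_eq_zero fun j _ => by simp [mjj, h1, h2]
    rw [e1, e2, sub_zero, zero_mul, abs_zero]; exact hrhs
  push Not at hv
  obtain ⟨hv1, hv2⟩ := hv
  have hX1 : |XX (PP i : ℝ) s ξ| ≤ 1 := by
    rw [abs_of_nonneg (XX_nonneg _ _ _)]; exact XX_le _ _ _
  have h4 := nsq_le_four hR (lt_of_lt_of_le (by norm_num) hv1)
  have hl := XX_ne hP hX
  -- sums
  set sq : ℝ := ‖ξ‖ ^ 2 with hsq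
  have hsq0 : 0 ≤ sq := by positivity
  have hsum : sq = ∑ j ∈ s, (ξ j) ^ 2 + ∑ j ∈ sᶜ, (ξ j) ^ 2 := by
    rw [Finset.sum_add_sum_compl, hsq, EuclideanSpace.norm_sq_eq]
    simp
  have hlong : ∑ j ∈ sᶜ, (ξ j) ^ 2 ≤ n * (4 / (PP i : ℝ) ^ 2) := by
    calc ∑ j ∈ sᶜ, (ξ j) ^ 2 ≤ ∑ j ∈ sᶜ, (4 / (PP i : ℝ) ^ 2) := by
          refine Finset.sum_le_sum fun j hj => ?_
          have := hl j hj
          rw [← sq_abs]
          calc |ξ j| ^ 2 ≤ (2 / (PP i : ℝ)) ^ 2 := by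
                exact pow_le_pow_left₀ (abs_nonneg _) this 2
            _ = 4 / (PP i : ℝ) ^ 2 := by ring
      _ = (sᶜ.card : ℝ) * (4 / (PP i : ℝ) ^ 2) := by simp
      _ ≤ n * (4 / (PP i : ℝ) ^ 2) := by
          refine mul_le_mul_of_nonneg_right ?_ (by positivity)
          have : sᶜ.card ≤ n := by
            simpa using Finset.card_le_univ sᶜ
          exact_mod_cast this
  have hlong0 : 0 ≤ ∑ j ∈ sᶜ, (ξ j) ^ 2 := Finset.sum_nonneg fun j _ => by positivity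
  have hR0 : 0 < R := by linarith
  have hvR : sq / R ^ 2 - 1 = - (vv i R ξ) / 2 ^ i := by
    unfold vv
    field_simp
    ring
  -- the explicit difference
  have hdiff : mRR i R ξ - ∑ j ∈ s, mjj i j R ξ =
      ps2 (vv i R ξ) * (4 * (2 ^ i) ^ 2 / R ^ 4 *
        (sq * (sq / R ^ 2 - 1) + ∑ j ∈ sᶜ, (ξ j) ^ 2)) -
      ps1 (vv i R ξ) * (6 * 2 ^ i * sq / R ^ 4 - s.card * (2 * 2 ^ i / R ^ 2)) := by
    have e1 : ∑ j ∈ s, mjj i j R ξ = ps2 (vv i R ξ) * (4 * (2 ^ i) ^ 2 / R ^ 4 *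
        ∑ j ∈ s, (ξ j) ^ 2) - ps1 (vv i R ξ) * (s.card * (2 * 2 ^ i / R ^ 2)) := by
      simp only [mjj, Finset.sum_sub_distrib, Finset.sum_const, nsmul_eq_mul]
      rw [Finset.mul_sum, Finset.mul_sum]
      congr 1
      · refine Finset.sum_congr rfl fun j _ => ?_
        field_simp
        ring
      · ring
    have e2 : ∑ j ∈ s, (ξ j) ^ 2 = sq - ∑ j ∈ sᶜ, (ξ j) ^ 2 := by linarith
    rw [e1, e2, mRR, ← hsq]
    field_simp
    ring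
  have b1 : |sq * (sq / R ^ 2 - 1) + ∑ j ∈ sᶜ, (ξ j) ^ 2| ≤ (2 + 4 * n) / (PP i : ℝ) ^ 2 := by
    have c1 : |sq * (sq / R ^ 2 - 1)| ≤ 2 / (PP i : ℝ) ^ 2 := by
      rw [hvR, abs_mul, abs_of_nonneg hsq0, abs_div, abs_neg, abs_of_pos hN,
        abs_of_nonneg (by linarith)]
      have : vv i R ξ / 2 ^ i ≤ (1 / 2) / (PP i : ℝ) ^ 2 := by
        have hPP : (PP i : ℝ) ^ 2 ≤ 2 ^ i :=
          le_trans (pow_le_pow_right₀ hP1 (by norm_num)) hPN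
        gcongr
      calc sq * (vv i R ξ / 2 ^ i) ≤ 4 * ((1 / 2) / (PP i : ℝ) ^ 2) := by
            refine mul_le_mul h4 this (by positivity) (by norm_num)
        _ = 2 / (PP i : ℝ) ^ 2 := by ring
    calc |sq * (sq / R ^ 2 - 1) + ∑ j ∈ sᶜ, (ξ j) ^ 2|
        ≤ |sq * (sq / R ^ 2 - 1)| + |∑ j ∈ sᶜ, (ξ j) ^ 2| := abs_add_le _ _
      _ ≤ 2 / (PP i : ℝ) ^ 2 + n * (4 / (PP i : ℝ) ^ 2) := by
          rw [abs_of_nonneg hlong0]
          exact add_le_add c1 hlong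
      _ = (2 + 4 * n) / (PP i : ℝ) ^ 2 := by ring
  have b2 : |4 * (2 ^ i) ^ 2 / R ^ 4| ≤ 4 * (2 ^ i) ^ 2 := by
    rw [abs_of_pos (by positivity)]
    refine div_le_self (by positivity) ?_
    exact one_le_pow₀ hR1
  have b3 : |6 * 2 ^ i * sq / R ^ 4 - (s.card : ℝ) * (2 * 2 ^ i / R ^ 2)| ≤ (24 + 2 * (n : ℝ)) * 2 ^ i := by
    have c1 : |6 * 2 ^ i * sq / R ^ 4| ≤ 24 * 2 ^ i := by
      rw [abs_of_nonneg (by positivity)]
      calc 6 * 2 ^ i * sq / R ^ 4 ≤ 6 * 2 ^ i * sq := by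
            refine div_le_self (by positivity) (one_le_pow₀ hR1)
        _ ≤ 6 * 2 ^ i * 4 := by gcongr
        _ = 24 * 2 ^ i := by ring
    have c2 : |(s.card : ℝ) * (2 * 2 ^ i / R ^ 2)| ≤ 2 * (n : ℝ) * 2 ^ i := by
      rw [abs_of_nonneg (by positivity)]
      have d1 : (2 * 2 ^ i / R ^ 2 : ℝ) ≤ 2 * 2 ^ i :=
        div_le_self (by positivity) (one_le_pow₀ hR1)
      have d2 : (s.card : ℝ) ≤ n := by
        have : s.card ≤ n := by simpa using Finset.card_le_univ s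
        exact_mod_cast this
      calc (s.card : ℝ) * (2 * 2 ^ i / R ^ 2) ≤ (n : ℝ) * (2 * 2 ^ i) := by gcongr
        _ = 2 * n * 2 ^ i := by ring
    calc _ ≤ |6 * 2 ^ i * sq / R ^ 4| + |(s.card : ℝ) * (2 * 2 ^ i / R ^ 2)| := abs_sub _ _
      _ ≤ 24 * 2 ^ i + 2 * (n : ℝ) * 2 ^ i := add_le_add c1 c2
      _ = (24 + 2 * n) * 2 ^ i := by ring
  have hN2 : (2 : ℝ) ^ i ≤ (2 ^ i) ^ 2 / (PP i : ℝ) ^ 2 := by
    rw [le_div_iff₀ (by positivity), pow_two ((2 : ℝ) ^ i)]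
    refine mul_le_mul_of_nonneg_left ?_ hN.le
    exact le_trans (pow_le_pow_right₀ hP1 (by norm_num)) hPN
  calc |(mRR i R ξ - ∑ j ∈ s, mjj i j R ξ) * XX (PP i : ℝ) s ξ|
      = |mRR i R ξ - ∑ j ∈ s, mjj i j R ξ| * |XX (PP i : ℝ) s ξ| := abs_mul _ _
    _ ≤ |mRR i R ξ - ∑ j ∈ s, mjj i j R ξ| * 1 := by gcongr
    _ ≤ |ps2 (vv i R ξ)| * (|4 * (2 ^ i) ^ 2 / R ^ 4| *
          |sq * (sq / R ^ 2 - 1) + ∑ j ∈ sᶜ, (ξ j) ^ 2|) +
        |ps1 (vv i R ξ)| * |6 * 2 ^ i * sq / R ^ 4 - (s.card : ℝ) * (2 * 2 ^ i / R ^ 2)| := by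
        rw [mul_one, hdiff, ← abs_mul, ← abs_mul, ← abs_mul]
        exact abs_sub _ _
    _ ≤ B * ((4 * (2 ^ i) ^ 2) * ((2 + 4 * n) / (PP i : ℝ) ^ 2)) + B * ((24 + 2 * n) * 2 ^ i) := by
        refine add_le_add ?_ ?_
        · refine mul_le_mul (hb _).2.2 ?_ (by positivity) hB0.le
          exact mul_le_mul b2 b1 (abs_nonneg _) (by positivity)
        · exact mul_le_mul (hb _).2.1 b3 (abs_nonneg _) hB0.le
    _ ≤ B * ((4 * (2 ^ i) ^ 2) * ((2 + 4 * n) / (PP i : ℝ) ^ 2)) +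
        B * ((24 + 2 * n) * ((2 ^ i) ^ 2 / (PP i : ℝ) ^ 2)) := by gcongr
    _ = B * (32 + 18 * n) * (2 ^ i) ^ 2 / (PP i : ℝ) ^ 2 := by ring
    _ ≤ B * (40 + 20 * n) * (2 ^ i) ^ 2 / (PP i : ℝ) ^ 2 := by
        gcongr <;> norm_num

end G7

end Pool.Agent.MBS
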