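import Pool.Agent.MBS.J7a
import Pool.Agent.H25.Plancherel

set_option autoImplicit false

/-! Job J7, part b: operators, Plancherel for slabs, the gain. -/

namespace Pool.Agent.MBS

open MeasureTheory FourierTransform Set
open scoped ENNReal NNReal

namespace G7

variable {n : ℕ}

theorem ex_cont (x : E n) : Continuous (fun ξ : E n => ex x ξ) := by
  unfold ex
  fun_prop

theorem T_int {a : E n → ℝ} (ha : Continuous a) (hc : HasCompactSupport a) {h : E n → ℂ}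
    (hh : Continuous h) (x : E n) : Integrable (fun ξ => (a ξ : ℂ) * (h ξ * ex x ξ)) := by
  refine Continuous.integrable_of_hasCompactSupport ?_ ?_
  · exact (Complex.continuous_ofReal.comp ha).mul (hh.mul (ex_cont x))
  · refine HasCompactSupport.mul_right ?_
    exact hc.comp_left Complex.ofReal_zero

theorem T_split {a : E n → ℝ} (ha : Continuous a) (hc : HasCompactSupport a) {h : E n → ℂ}
    (hh : Continuous h) {X : E n → ℝ} (hX : Continuous X) (x : E n) :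
    T a h x = T (fun ξ => a ξ * X ξ) h x + T a (fun ξ => ((1 - X ξ : ℝ) : ℂ) * h ξ) x := by
  unfold T
  rw [← integral_add]
  · refine integral_congr_ae (Filter.Eventually.of_forall fun ξ => ?_)
    push_cast
    ring
  · exact T_int (ha.mul hX) hc.mul_right hh x
  · refine T_int ha hc ?_ x
    exact (Complex.continuous_ofReal.comp (continuous_const.sub hX)).mul hh

theorem T_sub {a b : E n → ℝ} (ha : Continuous a) (hac : HasCompactSupport a) (hb : Continuous b)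
    (hbc : HasCompactSupport b) {h : E n → ℂ} (hh : Continuous h) (x : E n) :
    T (fun ξ => a ξ - b ξ) h x = T a h x - T b h x := by
  unfold T
  rw [← integral_sub (T_int ha hac hh x) (T_int hb hbc hh x)]
  refine integral_congr_ae (Filter.Eventually.of_forall fun ξ => ?_)
  push_cast
  ring

theorem T_sum {ι : Type*} (s : Finset ι) {a : ι → E n → ℝ} (ha : ∀ j ∈ s, Continuous (a j))
    (hac : ∀ j ∈ s, HasCompactSupport (a j)) {h : E n → ℂ} (hh : Continuous h) (x : E n) :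
    T (fun ξ => ∑ j ∈ s, a j ξ) h x = ∑ j ∈ s, T (a j) h x := by
  unfold T
  rw [← integral_finsetSum]
  · refine integral_congr_ae (Filter.Eventually.of_forall fun ξ => ?_)
    push_cast
    rw [Finset.sum_mul]
  · intro j hj
    exact T_int (ha j hj) (hac j hj) hh x

theorem vv_meas (i : ℕ) : Measurable (fun p : ℝ × E n => vv i p.1 p.2) := by
  unfold vv
  fun_prop

theorem vv_meas1 (i : ℕ) (ξ : E n) : Measurable (fun R : ℝ => vv i R ξ) := by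
  unfold vv
  fun_prop

/-- Plancherel for families living in the thin slab `1/8 ≤ vv ≤ 1/2` -/
theorem slab (hpl : tPlanch) (hms : tMeasR) {b : ℝ → E n → ℝ} (hb : Fam b) {M : ℝ}
    (i : ℕ) (hM : ∀ R ∈ Icc (1 : ℝ) 2, ∀ ξ, |b R ξ| ≤ M)
    (hsupp : ∀ R ∈ Icc (1 : ℝ) 2, ∀ ξ, b R ξ ≠ 0 → 1 / 8 ≤ vv i R ξ ∧ vv i R ξ ≤ 1 / 2)
    {h : E n → ℂ} (hh : Continuous h) :
    ∫⁻ R in Icc (1 : ℝ) 2, ∫⁻ x, ‖T (b R) h x‖ₑ ^ 2 ≤
      ENNReal.ofReal (M ^ 2 * (4 / 2 ^ i)) * ∫⁻ ξ, ‖h ξ‖ₑ ^ 2 := by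
  set A : Set (ℝ × E n) := {p | 1 / 8 ≤ vv i p.1 p.2 ∧ vv i p.1 p.2 ≤ 1 / 2} with hA
  have hAm : MeasurableSet A :=
    (measurableSet_le measurable_const (vv_meas i)).inter
      (measurableSet_le (vv_meas i) measurable_const)
  have h1 : ∀ R ∈ Icc (1 : ℝ) 2, ∫⁻ x, ‖T (b R) h x‖ₑ ^ 2 ≤
      ∫⁻ ξ, A.indicator (fun _ => (1 : ℝ≥0∞)) (R, ξ) * (ENNReal.ofReal (M ^ 2) * ‖h ξ‖ₑ ^ 2) := by
    intro R hR
    have hR0 : 0 < R := by linarith [hR.1]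
    rw [hpl n (b R) h (fam_cont hb hR0) (fam_cs hb hR0) hh]
    refine lintegral_mono fun ξ => ?_
    by_cases h0 : b R ξ = 0
    · simp [h0]
    · have hmem : (R, ξ) ∈ A := hsupp R hR ξ h0
      rw [indicator_of_mem hmem, one_mul]
      refine mul_le_mul_left ?_ _
      rw [← ofReal_norm, ← ENNReal.ofReal_pow (norm_nonneg _)]
      refine ENNReal.ofReal_le_ofReal ?_
      rw [Real.norm_eq_abs]
      exact pow_le_pow_left₀ (abs_nonneg _) (hM R hR ξ) 2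
  have hmeas : Measurable (fun p : ℝ × E n => A.indicator (fun _ => (1 : ℝ≥0∞)) p *
      (ENNReal.ofReal (M ^ 2) * ‖h p.2‖ₑ ^ 2)) := by
    have m1 : Measurable (fun p : ℝ × E n => A.indicator (fun _ => (1 : ℝ≥0∞)) p) :=
      measurable_const.indicator hAm
    have m2 : Measurable (fun p : ℝ × E n => ‖h p.2‖ₑ ^ 2) :=
      ((hh.measurable.comp measurable_snd).enorm).pow_const 2
    have m3 : Measurable (fun p : ℝ × E n => ENNReal.ofReal (M ^ 2) * ‖h p.2‖ₑ ^ 2) :=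
      Measurable.const_mul m2 _
    exact Measurable.mul m1 m3
  calc ∫⁻ R in Icc (1 : ℝ) 2, ∫⁻ x, ‖T (b R) h x‖ₑ ^ 2
      ≤ ∫⁻ R in Icc (1 : ℝ) 2, ∫⁻ ξ, A.indicator (fun _ => (1 : ℝ≥0∞)) (R, ξ) *
          (ENNReal.ofReal (M ^ 2) * ‖h ξ‖ₑ ^ 2) :=
        setLIntegral_mono' measurableSet_Icc h1
    _ = ∫⁻ ξ, ∫⁻ R in Icc (1 : ℝ) 2, A.indicator (fun _ => (1 : ℝ≥0∞)) (R, ξ) *
          (ENNReal.ofReal (M ^ 2) * ‖h ξ‖ₑ ^ 2) := by
        rw [lintegral_lintegral_swap]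
        exact hmeas.aemeasurable
    _ ≤ ∫⁻ ξ, ENNReal.ofReal (M ^ 2 * (4 / 2 ^ i)) * ‖h ξ‖ₑ ^ 2 := by
        refine lintegral_mono fun ξ => ?_
        rw [lintegral_mul_const']
        · have e1 : ∫⁻ R in Icc (1 : ℝ) 2, A.indicator (fun _ => (1 : ℝ≥0∞)) (R, ξ) ≤
              ENNReal.ofReal (4 / 2 ^ i) := by
            have e2 : (fun R => A.indicator (fun _ => (1 : ℝ≥0∞)) (R, ξ)) =
                ({R : ℝ | 1 / 8 ≤ vv i R ξ ∧ vv i R ξ ≤ 1 / 2}).indicator (fun _ => (1 : ℝ≥0∞)) := by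
              funext R
              simp only [indicator, hA, mem_ofPred_eq]
            have hm2 : MeasurableSet {R : ℝ | 1 / 8 ≤ vv i R ξ ∧ vv i R ξ ≤ 1 / 2} :=
              (measurableSet_le measurable_const (vv_meas1 i ξ)).inter
                (measurableSet_le (vv_meas1 i ξ) measurable_const)
            rw [e2, lintegral_indicator hm2, setLIntegral_const, one_mul,
              Measure.restrict_apply hm2]
            refine le_trans (measure_mono ?_) (hms n i ξ)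
            intro R hR
            exact ⟨hR.2, hR.1⟩
          calc _ ≤ ENNReal.ofReal (4 / 2 ^ i) * (ENNReal.ofReal (M ^ 2) * ‖h ξ‖ₑ ^ 2) := by
                gcongr
            _ = ENNReal.ofReal (M ^ 2 * (4 / 2 ^ i)) * ‖h ξ‖ₑ ^ 2 := by
                rw [ENNReal.ofReal_mul (by positivity)]
                ring
        · exact ENNReal.mul_ne_top ENNReal.ofReal_ne_top (by simp)
    _ = ENNReal.ofReal (M ^ 2 * (4 / 2 ^ i)) * ∫⁻ ξ, ‖h ξ‖ₑ ^ 2 := by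
        rw [lintegral_const_mul' _ _ ENNReal.ofReal_ne_top]

theorem sq_sum_le' (s : Finset (Fin n)) (B : Fin n → ℂ) :
    ‖∑ j ∈ s, B j‖ ^ 2 ≤ n * ∑ j ∈ s, ‖B j‖ ^ 2 := by
  calc ‖∑ j ∈ s, B j‖ ^ 2 ≤ (∑ j ∈ s, ‖B j‖) ^ 2 :=
        pow_le_pow_left₀ (norm_nonneg _) (norm_sum_le _ _) 2
    _ ≤ s.card * ∑ j ∈ s, ‖B j‖ ^ 2 := sq_sum_le_card_mul_sum_sq
    _ ≤ n * ∑ j ∈ s, ‖B j‖ ^ 2 := by
        refine mul_le_mul_of_nonneg_right ?_ (Finset.sum_nonneg fun _ _ => by positivity)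
        have : s.card ≤ n := by simpa using Finset.card_le_univ s
        exact_mod_cast this

theorem enorm_sq_eq (z : ℂ) : ‖z‖ₑ ^ 2 = ENNReal.ofReal (‖z‖ ^ 2) := by
  rw [← ofReal_norm, ENNReal.ofReal_pow (norm_nonneg _)]

theorem three (s : Finset (Fin n)) (A : ℂ) (B C : Fin n → ℂ) :
    ‖A + ∑ j ∈ s, B j + ∑ j ∈ s, C j‖ₑ ^ 2 ≤
      3 * ‖A‖ₑ ^ 2 + 3 * n * (∑ j ∈ s, ‖B j‖ₑ ^ 2) + 3 * n * ∑ j ∈ s, ‖C j‖ₑ ^ 2 := by
  have h1 : ‖A + ∑ j ∈ s, B j + ∑ j ∈ s, C j‖ ^ 2 ≤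
      3 * ‖A‖ ^ 2 + 3 * n * (∑ j ∈ s, ‖B j‖ ^ 2) + 3 * n * ∑ j ∈ s, ‖C j‖ ^ 2 := by
    have h2 : ‖A + ∑ j ∈ s, B j + ∑ j ∈ s, C j‖ ≤ ‖A‖ + ‖∑ j ∈ s, B j‖ + ‖∑ j ∈ s, C j‖ :=
      (norm_add_le _ _).trans (add_le_add (norm_add_le _ _) le_rfl)
    have h3 := sq_sum_le' s B
    have h4 := sq_sum_le' s C
    calc ‖A + ∑ j ∈ s, B j + ∑ j ∈ s, C j‖ ^ 2
        ≤ (‖A‖ + ‖∑ j ∈ s, B j‖ + ‖∑ j ∈ s, C j‖) ^ 2 :=
          pow_le_pow_left₀ (norm_nonneg _) h2 2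
      _ ≤ 3 * ‖A‖ ^ 2 + 3 * ‖∑ j ∈ s, B j‖ ^ 2 + 3 * ‖∑ j ∈ s, C j‖ ^ 2 := by
          nlinarith [sq_nonneg (‖A‖ - ‖∑ j ∈ s, B j‖), sq_nonneg (‖A‖ - ‖∑ j ∈ s, C j‖),
            sq_nonneg (‖∑ j ∈ s, B j‖ - ‖∑ j ∈ s, C j‖)]
      _ ≤ _ := by nlinarith
  have e : ∀ D : Fin n → ℂ, ∑ j ∈ s, ‖D j‖ₑ ^ 2 = ENNReal.ofReal (∑ j ∈ s, ‖D j‖ ^ 2) := by
    intro D
    rw [ENNReal.ofReal_sum_of_nonneg (fun _ _ => by positivity)]
    exact Finset.sum_congr rfl fun j _ => enorm_sq_eq _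
  rw [e, e, enorm_sq_eq, enorm_sq_eq]
  refine (ENNReal.ofReal_le_ofReal h1).trans ?_
  have s1 : 0 ≤ ∑ j ∈ s, ‖B j‖ ^ 2 := Finset.sum_nonneg fun _ _ => by positivity
  have s2 : 0 ≤ ∑ j ∈ s, ‖C j‖ ^ 2 := Finset.sum_nonneg fun _ _ => by positivity
  rw [ENNReal.ofReal_add (by positivity) (by positivity),
    ENNReal.ofReal_add (by positivity) (by positivity),
    ENNReal.ofReal_mul (by positivity), ENNReal.ofReal_mul (by positivity),
    ENNReal.ofReal_mul (by positivity), ENNReal.ofReal_mul (by positivity)]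
  simp

theorem F_cont {g : E n → ℂ} (hg : Integrable g) : Continuous (𝓕 g) :=
  VectorFourier.fourierIntegral_continuous (V := E n) (W := E n)
      Real.continuous_fourierChar (L := innerₗ (E n)) continuous_inner hg

theorem F_planch {g : E n → ℂ} (h1 : Integrable g) (h2 : MemLp g 2) :
    ∫⁻ ξ, ‖𝓕 g ξ‖ₑ ^ 2 = ∫⁻ x, ‖g x‖ₑ ^ 2 := by
  have h := Pool.Agent.H25.Plancherel.eLpNorm_fourier_eq h1 h2
  rw [eLpNorm_eq_lintegral_rpow_enorm_toReal (by norm_num) (by norm_num),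
    eLpNorm_eq_lintegral_rpow_enorm_toReal (by norm_num) (by norm_num)] at h
  have h3 : ∀ u : E n → ℂ, ∫⁻ x, ‖u x‖ₑ ^ (2 : ℝ≥0∞).toReal = ∫⁻ x, ‖u x‖ₑ ^ 2 := by
    intro u
    refine lintegral_congr fun x => ?_
    simp
  rw [h3, h3] at h
  have h4 := congrArg (fun t : ℝ≥0∞ => t ^ (2 : ℝ)) h
  simp only [← ENNReal.rpow_mul] at h4
  simpa using h4

end G7

end Pool.Agent.MBS
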