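import Pool.Agent.MBS.J7b

set_option autoImplicit false

/-! Job J7, part c: the gain. -/

namespace Pool.Agent.MBS

open MeasureTheory FourierTransform Set
open scoped ENNReal NNReal

namespace G7

variable {n : ℕ}

theorem T_cont {b : E n → ℝ} (hb : Continuous b) (hc : HasCompactSupport b) {h : E n → ℂ}
    (hh : Continuous h) : Continuous (T b h) := by
  unfold T
  have hint : Integrable (fun ξ : E n => ‖(b ξ : ℂ) * h ξ‖) := by
    refine (Continuous.integrable_of_hasCompactSupport ?_ ?_).norm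
    · exact (Complex.continuous_ofReal.comp hb).mul hh
    · exact (hc.comp_left (g := fun t : ℝ => (t : ℂ)) Complex.ofReal_zero).mul_right
  refine continuous_of_dominated (bound := fun ξ => ‖(b ξ : ℂ) * h ξ‖) ?_ ?_ hint ?_
  · intro x
    refine Continuous.aestronglyMeasurable ?_
    exact (Complex.continuous_ofReal.comp hb).mul (hh.mul (ex_cont x))
  · intro x
    refine Filter.Eventually.of_forall fun ξ => ?_
    rw [← mul_assoc, norm_mul]
    have : ‖ex x ξ‖ = 1 := by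
      unfold ex
      have : (2 * Real.pi * Complex.I * ((inner ℝ x ξ : ℝ) : ℂ)) =
          ((2 * Real.pi * (inner ℝ x ξ : ℝ) : ℝ) : ℂ) * Complex.I := by push_cast; ring
      rw [this, Complex.norm_exp_ofReal_mul_I]
    rw [this, mul_one]
  · refine Filter.Eventually.of_forall fun ξ => ?_
    unfold ex
    fun_prop

/-- the thin slab in `(R, ξ)` space -/
def slabSet (n i : ℕ) : Set (ℝ × E n) := {p | 1 / 8 ≤ vv i p.1 p.2 ∧ vv i p.1 p.2 ≤ 1 / 2}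

theorem slabSet_meas (i : ℕ) : MeasurableSet (slabSet n i) :=
  (measurableSet_le measurable_const (vv_meas i)).inter
      (measurableSet_le (vv_meas i) measurable_const)

theorem slabR (hms : tMeasR) (i : ℕ) {w : E n → ℝ≥0∞} (hw : Measurable w) {Φ : ℝ → ℝ≥0∞}
    (h : ∀ R ∈ Icc (1 : ℝ) 2, Φ R ≤
      ∫⁻ ξ, (slabSet n i).indicator (fun _ => (1 : ℝ≥0∞)) (R, ξ) * w ξ) :
    ∫⁻ R in Icc (1 : ℝ) 2, Φ R ≤ ENNReal.ofReal (4 / 2 ^ i) * ∫⁻ ξ, w ξ := by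
  have m1 : Measurable (fun p : ℝ × E n => (slabSet n i).indicator (fun _ => (1 : ℝ≥0∞)) p) :=
    measurable_const.indicator (slabSet_meas i)
  have hmeas : Measurable (fun p : ℝ × E n =>
      (slabSet n i).indicator (fun _ => (1 : ℝ≥0∞)) p * w p.2) :=
    Measurable.mul m1 (hw.comp measurable_snd)
  calc ∫⁻ R in Icc (1 : ℝ) 2, Φ R
      ≤ ∫⁻ R in Icc (1 : ℝ) 2, ∫⁻ ξ, (slabSet n i).indicator (fun _ => (1 : ℝ≥0∞)) (R, ξ) *
          w ξ := setLIntegral_mono' measurableSet_Icc h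
    _ = ∫⁻ ξ, ∫⁻ R in Icc (1 : ℝ) 2, (slabSet n i).indicator (fun _ => (1 : ℝ≥0∞)) (R, ξ) *
          w ξ := by
        rw [lintegral_lintegral_swap]
        exact hmeas.aemeasurable
    _ ≤ ∫⁻ ξ, ENNReal.ofReal (4 / 2 ^ i) * w ξ := by
        refine lintegral_mono fun ξ => ?_
        have mR' : Measurable (fun R : ℝ =>
            (slabSet n i).indicator (fun _ => (1 : ℝ≥0∞)) (R, ξ)) :=
          m1.comp (measurable_id.prodMk measurable_const)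
        rw [lintegral_mul_const _ mR']
        have e1 : ∫⁻ R in Icc (1 : ℝ) 2, (slabSet n i).indicator (fun _ => (1 : ℝ≥0∞)) (R, ξ) ≤
            ENNReal.ofReal (4 / 2 ^ i) := by
          have e2 : (fun R => (slabSet n i).indicator (fun _ => (1 : ℝ≥0∞)) (R, ξ)) =
              ({R : ℝ | 1 / 8 ≤ vv i R ξ ∧ vv i R ξ ≤ 1 / 2}).indicator
                (fun _ => (1 : ℝ≥0∞)) := by
            funext R
            by_cases hh : 1 / 8 ≤ vv i R ξ ∧ vv i R ξ ≤ 1 / 2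
            · rw [indicator_of_mem (show (R, ξ) ∈ slabSet n i from hh),
                indicator_of_mem (show R ∈ {R : ℝ | 1 / 8 ≤ vv i R ξ ∧ vv i R ξ ≤ 1 / 2} from hh)]
            · rw [indicator_of_notMem (show (R, ξ) ∉ slabSet n i from hh),
                indicator_of_notMem
                  (show R ∉ {R : ℝ | 1 / 8 ≤ vv i R ξ ∧ vv i R ξ ≤ 1 / 2} from hh)]
          have hm2 : MeasurableSet {R : ℝ | 1 / 8 ≤ vv i R ξ ∧ vv i R ξ ≤ 1 / 2} :=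
            (measurableSet_le measurable_const (vv_meas1 i ξ)).inter
              (measurableSet_le (vv_meas1 i ξ) measurable_const)
          rw [e2, lintegral_indicator hm2, setLIntegral_const, one_mul,
            Measure.restrict_apply hm2]
          refine le_trans (measure_mono ?_) (hms n i ξ)
          intro R hR
          exact ⟨hR.2, hR.1⟩
        gcongr
    _ = ENNReal.ofReal (4 / 2 ^ i) * ∫⁻ ξ, w ξ := by
        rw [lintegral_const_mul' _ _ ENNReal.ofReal_ne_top]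

theorem planchA (hpl : tPlanch) {b : ℝ → E n → ℝ} (hb : Fam b) {M : ℝ} (i : ℕ) {R : ℝ}
    (hR : R ∈ Icc (1 : ℝ) 2) (hM : ∀ ξ, |b R ξ| ≤ M)
    (hsupp : ∀ ξ, b R ξ ≠ 0 → 1 / 8 ≤ vv i R ξ ∧ vv i R ξ ≤ 1 / 2)
    {h : E n → ℂ} (hh : Continuous h) :
    ∫⁻ x, ‖T (b R) h x‖ₑ ^ 2 ≤
      ∫⁻ ξ, (slabSet n i).indicator (fun _ => (1 : ℝ≥0∞)) (R, ξ) *
        (ENNReal.ofReal (M ^ 2) *
          (Metric.closedBall (0 : E n) 2).indicator (fun ξ => ‖h ξ‖ₑ ^ 2) ξ) := by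
  have hR0 : 0 < R := by linarith [hR.1]
  rw [hpl n (b R) h (fam_cont hb hR0) (fam_cs hb hR0) hh]
  refine lintegral_mono fun ξ => ?_
  by_cases h0 : b R ξ = 0
  · simp [h0]
  · have hmem : (R, ξ) ∈ slabSet n i := hsupp ξ h0
    have hball : ξ ∈ Metric.closedBall (0 : E n) 2 := by
      have h4 := nsq_le_four hR (lt_of_lt_of_le (by norm_num) (hsupp ξ h0).1)
      rw [mem_closedBall_zero_iff]
      nlinarith [norm_nonneg ξ]
    rw [indicator_of_mem hmem, one_mul, indicator_of_mem hball]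
    refine mul_le_mul_left ?_ _
    rw [← ofReal_norm, ← ENNReal.ofReal_pow (norm_nonneg _)]
    refine ENNReal.ofReal_le_ofReal ?_
    rw [Real.norm_eq_abs]
    exact pow_le_pow_left₀ (abs_nonneg _) (hM ξ) 2

/-- the numerical inequality -/
theorem numer {P N K c0 c1 c2 c3 : ℝ} (hP : 1 ≤ P) (hN : P ^ 4 ≤ N) (hK : K * P = N)
    (h0 : 0 ≤ c0) (h1 : 0 ≤ c1) (h2 : 0 ≤ c2) (h3 : 0 ≤ c3) :
    K * (c0 / N) + K⁻¹ ^ 3 * (4 / N * (c1 * (N ^ 4 / P ^ 4) + c2 * (N ^ 2 * P ^ 4) + c3 * P ^ 8)) ≤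
      (c0 + 4 * (c1 + c2 + c3)) * P⁻¹ := by
  have hP0 : 0 < P := by linarith
  have hN0 : 0 < N := lt_of_lt_of_le (by positivity) hN
  have hK' : K = N / P := by field_simp; linarith
  rw [hK']
  have e1 : N / P * (c0 / N) = c0 * P⁻¹ := by field_simp
  have e2 : (N / P)⁻¹ ^ 3 * (4 / N * (c1 * (N ^ 4 / P ^ 4) + c2 * (N ^ 2 * P ^ 4) + c3 * P ^ 8)) =
      4 * (c1 * P⁻¹ + c2 * (P ^ 7 / N ^ 2) + c3 * (P ^ 11 / N ^ 4)) := by
    field_simp
  rw [e1, e2]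
  have b2 : P ^ 7 / N ^ 2 ≤ P⁻¹ := by
    rw [div_le_iff₀ (by positivity)]
    have : P ^ 8 ≤ N ^ 2 := by
      calc P ^ 8 = (P ^ 4) ^ 2 := by ring
        _ ≤ N ^ 2 := pow_le_pow_left₀ (by positivity) hN 2
    calc P ^ 7 = P⁻¹ * P ^ 8 := by field_simp
      _ ≤ P⁻¹ * N ^ 2 := by gcongr
  have b3 : P ^ 11 / N ^ 4 ≤ P⁻¹ := by
    rw [div_le_iff₀ (by positivity)]
    have : P ^ 12 ≤ N ^ 4 := by
      calc P ^ 12 ≤ P ^ 16 := pow_le_pow_right₀ hP (by norm_num)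
        _ = (P ^ 4) ^ 4 := by ring
        _ ≤ N ^ 4 := pow_le_pow_left₀ (by positivity) hN 4
    calc P ^ 11 = P⁻¹ * P ^ 12 := by field_simp
      _ ≤ P⁻¹ * N ^ 4 := by gcongr
  calc c0 * P⁻¹ + 4 * (c1 * P⁻¹ + c2 * (P ^ 7 / N ^ 2) + c3 * (P ^ 11 / N ^ 4))
      ≤ c0 * P⁻¹ + 4 * (c1 * P⁻¹ + c2 * P⁻¹ + c3 * P⁻¹) := by gcongr
    _ = _ := by ring

theorem PP_real (i : ℕ) : (1 : ℝ) ≤ PP i ∧ (PP i : ℝ) ^ 4 ≤ 2 ^ i ∧
    ((2 ^ (i - i / 4) : ℕ) : ℝ) * (PP i : ℝ) = 2 ^ i := by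
  refine ⟨?_, ?_, ?_⟩
  · unfold PP
    push_cast
    exact one_le_pow₀ (by norm_num)
  · unfold PP
    push_cast
    rw [← pow_mul]
    refine pow_le_pow_right₀ (by norm_num) ?_
    omega
  · unfold PP
    push_cast
    rw [← pow_add]
    congr 1
    omega

theorem mj_bound (i : ℕ) (j : Fin n) {B : ℝ} (hB : 1 ≤ B)
    (h0 : ∀ u, (u < 1 / 8 ∨ 1 / 2 < u) → ps u = 0 ∧ ps1 u = 0 ∧ ps2 u = 0)
    (hb : ∀ u, |ps u| ≤ B ∧ |ps1 u| ≤ B ∧ |ps2 u| ≤ B) {R : ℝ} (hR : R ∈ Icc (1 : ℝ) 2)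
    (ξ : E n) : |mj i j R ξ| ≤ 4 * B * 2 ^ i := by
  have hN : (0 : ℝ) < 2 ^ i := by positivity
  have hB0 : 0 < B := by linarith
  by_cases hv : vv i R ξ < 1 / 8 ∨ 1 / 2 < vv i R ξ
  · obtain ⟨-, h1, h2⟩ := h0 _ hv
    simp only [mj, h1, zero_mul, abs_zero]
    positivity
  push Not at hv
  have h4 := nsq_le_four hR (lt_of_lt_of_le (by norm_num) hv.1)
  have h5 : ‖ξ‖ ≤ 2 := by nlinarith [norm_nonneg ξ]
  have h6 := (abs_coord_le ξ j).trans h5
  have hR1 := hR.1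
  unfold mj
  rw [abs_mul, abs_neg, abs_div, abs_mul, abs_mul, abs_of_pos hN,
    abs_of_pos (show (0 : ℝ) < 2 by norm_num), abs_of_pos (show (0 : ℝ) < R ^ 2 by positivity)]
  calc |ps1 (vv i R ξ)| * (2 * 2 ^ i * |ξ j| / R ^ 2) ≤ B * (2 * 2 ^ i * |ξ j|) := by
        refine mul_le_mul (hb _).2.1 ?_ (by positivity) hB0.le
        exact div_le_self (by positivity) (one_le_pow₀ hR1)
    _ ≤ B * (2 * 2 ^ i * 2) := by gcongr
    _ = 4 * B * 2 ^ i := by ring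

end G7

end Pool.Agent.MBS
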