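import Pool.Agent.MBS.Targets

set_option autoImplicit false

/-! Superposition of levels, part 1: elementary facts (job J15). -/

namespace Pool.Agent.MBS.SuperJob

open MeasureTheory FourierTransform Set Filter Topology
open scoped ENNReal NNReal

variable {n : ℕ}

/-! ### Telescoping sums over the integers -/

lemma hasSum_tele {a : ℤ → ℝ} {L : ℝ} (hm : Monotone a)
    (h1 : Tendsto (fun n : ℕ => a n) atTop (𝓝 L))
    (h2 : Tendsto (fun n : ℕ => a (-(n : ℤ))) atTop (𝓝 0)) :
    HasSum (fun k : ℤ => a (k + 1) - a k) L := by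
  have e : L = (L - a 0) + (a 0 - 0) := by ring
  rw [e]
  refine HasSum.of_nat_of_neg_add_one ?_ ?_
  · rw [hasSum_iff_tendsto_nat_of_nonneg]
    · have : (fun N : ℕ => ∑ i ∈ Finset.range N, (a ((i : ℤ) + 1) - a i)) =
          fun N : ℕ => a N - a 0 := by
        funext N
        have := Finset.sum_range_sub (fun i : ℕ => a (i : ℤ)) N
        simp only [Nat.cast_add, Nat.cast_one, Nat.cast_zero] at this
        exact this
      rw [this]
      exact h1.sub_const _
    · intro i
      exact sub_nonneg.2 (hm (by omega))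
  · rw [hasSum_iff_tendsto_nat_of_nonneg]
    · have : (fun N : ℕ => ∑ i ∈ Finset.range N,
          (a (-((i : ℤ) + 1) + 1) - a (-((i : ℤ) + 1)))) = fun N : ℕ => a 0 - a (-(N : ℤ)) := by
        funext N
        have := Finset.sum_range_sub' (fun i : ℕ => a (-(i : ℤ))) N
        simp only [Nat.cast_add, Nat.cast_one, Nat.cast_zero, neg_zero] at this
        rw [← this]
        refine Finset.sum_congr rfl fun i _ => ?_
        congr 2
        ring
      rw [this]
      exact (tendsto_const_nhds.sub h2)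
    · intro i
      exact sub_nonneg.2 (hm (by omega))

lemma tendsto_pow_nat : Tendsto (fun n : ℕ => (2 : ℝ) ^ ((n : ℤ))) atTop atTop := by
  simp only [zpow_natCast]
  exact tendsto_pow_atTop_atTop_of_one_lt (by norm_num)

lemma tendsto_pow_neg : Tendsto (fun n : ℕ => (2 : ℝ) ^ (-(n : ℤ))) atTop (𝓝 0) := by
  simp only [zpow_neg, zpow_natCast]
  exact tendsto_inv_atTop_zero.comp (tendsto_pow_atTop_atTop_of_one_lt (by norm_num))

/-- `t = ∑ (min t 2^(k+1) - min t 2^k)` -/
lemma hasSum_min {t : ℝ} (ht : 0 ≤ t) :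
    HasSum (fun k : ℤ => min t (2 ^ (k + 1)) - min t ((2 : ℝ) ^ k)) t := by
  refine hasSum_tele (a := fun k : ℤ => min t ((2 : ℝ) ^ k)) ?_ ?_ ?_
  · intro k l h
    exact min_le_min_left _ (zpow_le_zpow_right₀ (by norm_num) h)
  · refine tendsto_const_nhds.congr' ?_
    filter_upwards [tendsto_pow_nat.eventually_ge_atTop t] with N hN
    exact (min_eq_left hN).symm
  · refine squeeze_zero (fun N => ?_) (fun N => min_le_right _ _) tendsto_pow_neg
    exact le_min ht (by positivity)

lemma lev_eq (f : E n → ℝ) (k : ℤ) (x : E n) :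
    2 ^ k * lev f k x = min (f x) (2 ^ (k + 1)) - min (f x) ((2 : ℝ) ^ k) := by
  have hp : (0 : ℝ) < 2 ^ k := by positivity
  have e : (2 : ℝ) ^ (k + 1) = 2 * 2 ^ k := by rw [zpow_add_one₀ (by norm_num)]; ring
  unfold lev
  rw [e]
  rcases le_total (f x) (2 ^ k) with h | h
  · have h1 : f x / 2 ^ k - 1 ≤ 0 := by
      rw [sub_nonpos, div_le_one hp]; exact h
    rw [max_eq_right h1, min_eq_left (by norm_num), min_eq_left h, min_eq_left (by linarith)]
    ring
  · have h1 : 0 ≤ f x / 2 ^ k - 1 := by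
      rw [sub_nonneg, one_le_div hp]; exact h
    rw [max_eq_left h1, min_eq_right h]
    rcases le_total (f x) (2 * 2 ^ k) with h2 | h2
    · have h3 : f x / 2 ^ k - 1 ≤ 1 := by
        rw [sub_le_iff_le_add, div_le_iff₀ hp]; linarith
      rw [min_eq_left h3, min_eq_left h2]
      field_simp
    · have h3 : 1 ≤ f x / 2 ^ k - 1 := by
        rw [le_sub_iff_add_le, le_div_iff₀ hp]; linarith
      rw [min_eq_right h3, min_eq_right h2]
      ring

lemma lev_nonneg (f : E n → ℝ) (k : ℤ) (x : E n) : 0 ≤ lev f k x :=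
  le_min (le_max_right _ _) (by norm_num)

lemma lev_le_one (f : E n → ℝ) (k : ℤ) (x : E n) : lev f k x ≤ 1 := min_le_right _ _

lemma lev_zero {f : E n → ℝ} {k : ℤ} {x : E n} (h : f x ≤ 2 ^ k) : lev f k x = 0 := by
  have hp : (0 : ℝ) < 2 ^ k := by positivity
  have h1 : f x / 2 ^ k - 1 ≤ 0 := by rw [sub_nonpos, div_le_one hp]; exact h
  rw [lev, max_eq_right h1, min_eq_left (by norm_num)]

lemma lev_le {f : E n → ℝ} (hf : ∀ x, 0 ≤ f x) (k : ℤ) (x : E n) : lev f k x ≤ f x / 2 ^ k := by
  have hp : (0 : ℝ) < 2 ^ k := by positivity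
  refine (min_le_left _ _).trans (max_le (by linarith) (div_nonneg (hf x) hp.le))

lemma lev_meas {f : E n → ℝ} (hf : Measurable f) (k : ℤ) : Measurable (lev f k) :=
  (((hf.div_const _).sub_const _).max measurable_const).min measurable_const

lemma lev_int {f : E n → ℝ} (hf : Measurable f) (hi : Integrable f) (h0 : ∀ x, 0 ≤ f x) (k : ℤ) :
    Integrable (lev f k) := by
  refine Integrable.mono' (hi.div_const (2 ^ k)) (lev_meas hf k).aestronglyMeasurable
    (Eventually.of_forall fun x => ?_)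
  rw [Real.norm_of_nonneg (lev_nonneg f k x)]
  exact lev_le h0 k x

lemma lev_intC {f : E n → ℝ} (hf : Measurable f) (hi : Integrable f) (h0 : ∀ x, 0 ≤ f x) (k : ℤ) :
    Integrable (fun x => (lev f k x : ℂ)) := (lev_int hf hi h0 k).ofReal

lemma hasSum_lev {f : E n → ℝ} (h0 : ∀ x, 0 ≤ f x) (x : E n) :
    HasSum (fun k : ℤ => 2 ^ k * lev f k x) (f x) := by
  simp only [lev_eq]
  exact hasSum_min (h0 x)

/-! ### Energies -/

/-- `∑ 4^k [2^k < t] ≤ 2 t^2` -/
lemma tsum_four_le {t : ℝ} (ht : 0 ≤ t) :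
    ∑' k : ℤ, ENNReal.ofReal (4 ^ k) * (if (2 : ℝ) ^ k < t then 1 else 0) ≤
      2 * ENNReal.ofReal t ^ 2 := by
  have e42 : ∀ k : ℤ, (4 : ℝ) ^ k = (2 ^ k) ^ 2 := by
    intro k
    rw [← zpow_natCast, ← zpow_mul, mul_comm, zpow_mul]
    norm_num
  have hs : HasSum (fun k : ℤ => min (t ^ 2) ((4 : ℝ) ^ (k + 1 - 1)) -
      min (t ^ 2) ((4 : ℝ) ^ (k - 1))) (t ^ 2) := by
    refine hasSum_tele (a := fun k : ℤ => min (t ^ 2) ((4 : ℝ) ^ (k - 1))) ?_ ?_ ?_
    · intro k l h
      exact min_le_min_left _ (zpow_le_zpow_right₀ (by norm_num) (by omega))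
    · refine tendsto_const_nhds.congr' ?_
      filter_upwards [tendsto_pow_nat.eventually_ge_atTop (2 * t)] with N hN
      refine (min_eq_left ?_).symm
      have h4 : (4 : ℝ) ^ ((N : ℤ) - 1) = (2 ^ (N : ℤ)) ^ 2 / 4 := by
        rw [zpow_sub_one₀ (by norm_num), e42]
        ring
      rw [h4]
      nlinarith
    · refine squeeze_zero (fun N => le_min (by positivity) (by positivity))
        (fun N => (min_le_right _ _).trans ?_) tendsto_pow_neg
      calc (4 : ℝ) ^ (-(N : ℤ) - 1) ≤ 4 ^ (-(N : ℤ)) :=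
            zpow_le_zpow_right₀ (by norm_num) (by omega)
        _ = 2 ^ (-(N : ℤ)) * 2 ^ (-(N : ℤ)) := by rw [e42, sq]
        _ ≤ 1 * 2 ^ (-(N : ℤ)) := by
            refine mul_le_mul_of_nonneg_right ?_ (by positivity)
            exact zpow_le_one_of_nonpos₀ (by norm_num) (by omega)
        _ = _ := one_mul _
  have hs2 := (hs.mul_left 2)
  have h0 : ∀ k : ℤ, 0 ≤ 2 * (min (t ^ 2) ((4 : ℝ) ^ (k + 1 - 1)) -
      min (t ^ 2) ((4 : ℝ) ^ (k - 1))) := by
    intro k
    refine mul_nonneg (by norm_num) (sub_nonneg.2 (min_le_min_left _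
      (zpow_le_zpow_right₀ (by norm_num) (by omega))))
  have h1 := ENNReal.ofReal_tsum_of_nonneg h0 hs2.summable
  rw [hs2.tsum_eq] at h1
  have h2 : 2 * ENNReal.ofReal t ^ 2 = ENNReal.ofReal (2 * t ^ 2) := by
    rw [ENNReal.ofReal_mul (by norm_num), ENNReal.ofReal_pow ht]
    norm_num
  rw [h2, h1]
  refine ENNReal.tsum_le_tsum fun k => ?_
  split_ifs with hk
  · rw [mul_one]
    refine ENNReal.ofReal_le_ofReal ?_
    have hp : (0 : ℝ) < 2 ^ k := by positivity
    have h3 : (4 : ℝ) ^ k ≤ t ^ 2 := by rw [e42]; nlinarith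
    have h4 : min (t ^ 2) ((4 : ℝ) ^ (k + 1 - 1)) = 4 ^ k := by
      rw [add_sub_cancel_right]; exact min_eq_right h3
    have h5 : min (t ^ 2) ((4 : ℝ) ^ (k - 1)) ≤ 4 ^ k / 4 := by
      refine (min_le_right _ _).trans ?_
      rw [zpow_sub_one₀ (by norm_num)]
      exact le_of_eq (by ring)
    have h6 : (0 : ℝ) < 4 ^ k := by positivity
    rw [h4]
    linarith
  · simp

/-- the energies sum up -/
lemma tsum_energy {f : E n → ℝ} (hf : Measurable f) (h0 : ∀ x, 0 ≤ f x) :
    ∑' k : ℤ, ENNReal.ofReal (4 ^ k) * volume {x | (2 : ℝ) ^ k < f x} ≤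
      2 * ∫⁻ x, ENNReal.ofReal (f x) ^ 2 := by
  have h1 : ∀ k : ℤ, ENNReal.ofReal (4 ^ k) * volume {x | (2 : ℝ) ^ k < f x} =
      ∫⁻ x, ENNReal.ofReal (4 ^ k) * (if (2 : ℝ) ^ k < f x then 1 else 0) := by
    intro k
    have hm : MeasurableSet {x | (2 : ℝ) ^ k < f x} := measurableSet_lt measurable_const hf
    rw [lintegral_const_mul _ (Measurable.ite hm measurable_const measurable_const)]
    congr 1
    rw [← lintegral_indicator_one hm]
    refine lintegral_congr fun x => ?_
    simp [Set.indicator_apply]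
  simp only [h1]
  rw [← lintegral_tsum, ← lintegral_const_mul _ ((hf.ennreal_ofReal).pow_const 2)]
  · exact lintegral_mono fun x => tsum_four_le (h0 x)
  · intro k
    have hm : MeasurableSet {x | (2 : ℝ) ^ k < f x} := measurableSet_lt measurable_const hf
    exact ((Measurable.ite hm measurable_const measurable_const).const_mul _).aemeasurable

/-! ### Linearity of the ball sums -/

lemma norm_ex (x ξ : E n) : ‖ex x ξ‖ = 1 := by
  have : 2 * Real.pi * Complex.I * ((inner ℝ x ξ : ℝ) : ℂ) =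
      ((2 * Real.pi * inner ℝ x ξ : ℝ) : ℂ) * Complex.I := by
    push_cast; ring
  rw [ex, this, Complex.norm_exp_ofReal_mul_I]

lemma continuous_ex (x : E n) : Continuous (ex x) := by
  unfold ex
  fun_prop

lemma norm_fourier_le (f : E n → ℂ) (ξ : E n) : ‖𝓕 f ξ‖ ≤ ∫ y, ‖f y‖ := by
  rw [Real.fourier_eq]
  refine (norm_integral_le_integral_norm _).trans (le_of_eq ?_)
  simp

lemma cont_fourier {f : E n → ℂ} (hf : Integrable f) : Continuous (𝓕 f) :=
  VectorFourier.fourierIntegral_continuous Real.continuous_fourierChar continuous_inner hf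

lemma sum_S {f : E n → ℝ} (hf : Measurable f) (hi : Integrable f) (h0 : ∀ x, 0 ≤ f x) (R : ℝ)
    (x : E n) :
    S (fun y => (f y : ℂ)) R x = ∑' k : ℤ, (2 : ℂ) ^ k * S (fun y => (lev f k y : ℂ)) R x := by
  have hN : ∀ k : ℤ, Integrable (fun y => ((2 : ℝ) ^ k * lev f k y : ℝ)) :=
    fun k => (lev_int hf hi h0 k).const_mul _
  -- summability of the norms
  have hsum : Summable (fun k : ℤ => ∫ y, 2 ^ k * lev f k y) := by
    have hnn : ∀ k : ℤ, 0 ≤ ∫ y, 2 ^ k * lev f k y := fun k =>
      integral_nonneg fun y => mul_nonneg (by positivity) (lev_nonneg f k y)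
    refine summable_of_sum_le hnn (c := ∫ y, f y) fun s => ?_
    rw [← integral_finsetSum _ fun k _ => hN k]
    refine integral_mono (integrable_finsetSum _ fun k _ => hN k) hi fun y => ?_
    exact sum_le_hasSum s (fun k _ => mul_nonneg (by positivity) (lev_nonneg f k y)) (hasSum_lev h0 y)
  have hF : ∀ ξ : E n, HasSum (fun k : ℤ => (2 : ℂ) ^ k * 𝓕 (fun y => (lev f k y : ℂ)) ξ)
      (𝓕 (fun y => (f y : ℂ)) ξ) := by
    intro ξ
    have h1 := hasSum_integral_of_summable_integral_norm (μ := (volume : Measure (E n)))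
      (F := fun (k : ℤ) (y : E n) => Real.fourierChar (-inner ℝ y ξ) •
        (((2 : ℝ) ^ k * lev f k y : ℝ) : ℂ)) ?_ ?_
    · have e1 : ∀ k : ℤ, (∫ y, Real.fourierChar (-inner ℝ y ξ) •
          (((2 : ℝ) ^ k * lev f k y : ℝ) : ℂ)) = (2 : ℂ) ^ k * 𝓕 (fun y => (lev f k y : ℂ)) ξ := by
        intro k
        rw [Real.fourier_eq, ← integral_const_mul]
        refine integral_congr_ae (Eventually.of_forall fun y => ?_)
        simp only [Circle.smul_def, smul_eq_mul]
        push_cast
        ring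
      have e2 : (∫ y, ∑' k : ℤ, Real.fourierChar (-inner ℝ y ξ) •
          (((2 : ℝ) ^ k * lev f k y : ℝ) : ℂ)) = 𝓕 (fun y => (f y : ℂ)) ξ := by
        rw [Real.fourier_eq]
        refine integral_congr_ae (Eventually.of_forall fun y => ?_)
        simp only [Circle.smul_def, smul_eq_mul]
        rw [tsum_mul_left]
        congr 1
        rw [← Complex.ofReal_tsum, (hasSum_lev h0 y).tsum_eq]
      simp only [e1, e2] at h1
      exact h1
    · intro k
      exact (Real.fourierIntegral_convergent_iff ξ).2 (hN k).ofReal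
    · refine hsum.congr fun k => integral_congr_ae (Eventually.of_forall fun y => ?_)
      have hnn : (0 : ℝ) ≤ 2 ^ k * lev f k y := mul_nonneg (by positivity) (lev_nonneg f k y)
      simp only [Circle.norm_smul, Complex.norm_real]
      exact (Real.norm_of_nonneg hnn).symm
  have hint : ∀ g : E n → ℂ, Integrable g →
      IntegrableOn (fun ξ => 𝓕 g ξ * ex x ξ) (Metric.closedBall (0 : E n) R) := fun g hg =>
    ((cont_fourier hg).mul (continuous_ex x)).continuousOn.integrableOn_compact
      (isCompact_closedBall _ _)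
  have h2 := hasSum_integral_of_summable_integral_norm
    (μ := (volume : Measure (E n)).restrict (Metric.closedBall (0 : E n) R))
    (F := fun (k : ℤ) (ξ : E n) => (2 : ℂ) ^ k * 𝓕 (fun y => (lev f k y : ℂ)) ξ * ex x ξ) ?_ ?_
  · have e1 : ∀ k : ℤ, (∫ ξ in Metric.closedBall (0 : E n) R,
        (2 : ℂ) ^ k * 𝓕 (fun y => (lev f k y : ℂ)) ξ * ex x ξ) =
        (2 : ℂ) ^ k * S (fun y => (lev f k y : ℂ)) R x := by
      intro k
      rw [S, ← integral_const_mul]
      refine integral_congr_ae (Eventually.of_forall fun ξ => ?_)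
      simp only
      ring
    have e2 : (∫ ξ in Metric.closedBall (0 : E n) R, ∑' k : ℤ,
        (2 : ℂ) ^ k * 𝓕 (fun y => (lev f k y : ℂ)) ξ * ex x ξ) = S (fun y => (f y : ℂ)) R x := by
      rw [S]
      refine integral_congr_ae (Eventually.of_forall fun ξ => ?_)
      simp only
      rw [tsum_mul_right, (hF ξ).tsum_eq]
    simp only [e1, e2] at h2
    exact h2.tsum_eq.symm
  · intro k
    have := (hint _ (lev_intC hf hi h0 k)).const_mul ((2 : ℂ) ^ k)
    refine this.congr (Eventually.of_forall fun ξ => ?_)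
    simp only
    ring
  · refine Summable.of_nonneg_of_le (fun k => integral_nonneg fun _ => norm_nonneg _) (fun k => ?_)
      (hsum.mul_left ((volume : Measure (E n)).real (Metric.closedBall (0 : E n) R)))
    have hb : ∀ ξ : E n, ‖(2 : ℂ) ^ k * 𝓕 (fun y => (lev f k y : ℂ)) ξ * ex x ξ‖ ≤
        ∫ y, 2 ^ k * lev f k y := by
      intro ξ
      rw [norm_mul, norm_mul, norm_ex, mul_one, norm_zpow, integral_const_mul]
      refine mul_le_mul (le_of_eq (by simp)) ((norm_fourier_le _ ξ).trans (le_of_eq ?_))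
        (norm_nonneg _) (by positivity)
      refine integral_congr_ae (Eventually.of_forall fun y => ?_)
      simp only [Complex.norm_real]
      exact Real.norm_of_nonneg (lev_nonneg f k y)
    have hfin : (volume : Measure (E n)) (Metric.closedBall (0 : E n) R) ≠ ⊤ :=
      (isCompact_closedBall _ _).measure_lt_top.ne
    calc (∫ ξ in Metric.closedBall (0 : E n) R,
          ‖(2 : ℂ) ^ k * 𝓕 (fun y => (lev f k y : ℂ)) ξ * ex x ξ‖)
        ≤ ∫ ξ in Metric.closedBall (0 : E n) R, (∫ y, 2 ^ k * lev f k y) := by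
          refine setIntegral_mono ?_ (integrableOn_const hfin) hb
          refine Integrable.norm ?_
          have := (hint _ (lev_intC hf hi h0 k)).const_mul ((2 : ℂ) ^ k)
          refine this.congr (Eventually.of_forall fun ξ => ?_)
          simp only
          ring
      _ = _ := by rw [setIntegral_const, smul_eq_mul]

/-- superposition -/
lemma Sstar_le {f : E n → ℝ} (hf : Measurable f) (hi : Integrable f) (h0 : ∀ x, 0 ≤ f x)
    (x : E n) :
    Sstar (fun y => (f y : ℂ)) x ≤
      ∑' k : ℤ, ENNReal.ofReal (2 ^ k) * Sstar (fun y => (lev f k y : ℂ)) x := by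
  refine iSup₂_le fun R hR => ?_
  rw [sum_S hf hi h0]
  refine enorm_tsum_le_tsum_enorm.trans (ENNReal.tsum_le_tsum fun k => ?_)
  rw [enorm_mul]
  refine mul_le_mul' (le_of_eq ?_) (le_iSup₂_of_le R hR le_rfl)
  rw [← ofReal_norm, norm_zpow]
  simp

end Pool.Agent.MBS.SuperJob
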