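import Pool.Agent.MBS.Super1

set_option autoImplicit false

/-! Superposition of levels, part 2: bounds for exponents near two (job J15). -/

namespace Pool.Agent.MBS.SuperJob

open MeasureTheory FourierTransform Set Filter Topology
open scoped ENNReal NNReal

variable {n : ℕ}

/-! ### Pointwise interpolation -/

lemma interp_up {F L : ℝ≥0∞} (hL : 1 ≤ L) (hL' : L ≠ ⊤) {q p : ℝ} (h1 : 2 ≤ q) (h2 : q ≤ p) :
    F ^ q ≤ L ^ (q - 2) * F ^ (2 : ℝ) + (L ^ (p - q))⁻¹ * F ^ p := by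
  rcases le_total F L with h | h
  · refine le_trans ?_ le_self_add
    have e : F ^ q = F ^ (q - 2) * F ^ (2 : ℝ) := by
      rw [← ENNReal.rpow_add_of_nonneg _ _ (by linarith) (by norm_num)]
      congr 1; ring
    rw [e]
    exact mul_le_mul' (ENNReal.rpow_le_rpow h (by linarith)) le_rfl
  · refine le_trans ?_ le_add_self
    have e : F ^ p = F ^ (p - q) * F ^ q := by
      rw [← ENNReal.rpow_add_of_nonneg _ _ (by linarith) (by linarith)]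
      congr 1; ring
    have h3 : L ^ (p - q) ≠ 0 := by
      refine (ENNReal.rpow_pos (lt_of_lt_of_le one_pos hL) hL').ne'
    have h4 : L ^ (p - q) ≠ ⊤ := ENNReal.rpow_ne_top_of_nonneg (by linarith) hL'
    rw [e, ← mul_assoc]
    calc F ^ q = ((L ^ (p - q))⁻¹ * L ^ (p - q)) * F ^ q := by
          rw [ENNReal.inv_mul_cancel h3 h4, one_mul]
      _ ≤ _ := mul_le_mul' (mul_le_mul' le_rfl (ENNReal.rpow_le_rpow h (by linarith))) le_rfl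

lemma interp_down {F L : ℝ≥0∞} (hL : 1 ≤ L) (hL' : L ≠ ⊤) {q p : ℝ} (hp : 0 ≤ p) (h1 : p ≤ q)
    (h2 : q ≤ 2) :
    F ^ q ≤ L ^ (2 - q) * F ^ (2 : ℝ) + (L ^ (q - p))⁻¹ * F ^ p := by
  have hL0 : L ≠ 0 := (lt_of_lt_of_le one_pos hL).ne'
  rcases le_total F L⁻¹ with h | h
  · refine le_trans ?_ le_add_self
    have e : F ^ q = F ^ (q - p) * F ^ p := by
      rw [← ENNReal.rpow_add_of_nonneg _ _ (by linarith) hp]
      congr 1; ring
    rw [e]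
    refine mul_le_mul' ?_ le_rfl
    rw [← ENNReal.inv_rpow]
    exact ENNReal.rpow_le_rpow h (by linarith)
  · refine le_trans ?_ le_self_add
    have e : F ^ (2 : ℝ) = F ^ (2 - q) * F ^ q := by
      rw [← ENNReal.rpow_add_of_nonneg _ _ (by linarith) (by linarith)]
      congr 1; ring
    rw [e, ← mul_assoc, ← ENNReal.mul_rpow_of_nonneg _ _ (by linarith)]
    have h3 : 1 ≤ L * F := by
      calc 1 = L * L⁻¹ := (ENNReal.mul_inv_cancel hL0 hL').symm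
        _ ≤ L * F := mul_le_mul' le_rfl h
    have h4 : 1 ≤ (L * F) ^ (2 - q) := by
      have := ENNReal.rpow_le_rpow h3 (by linarith : (0 : ℝ) ≤ 2 - q)
      simpa using this
    calc F ^ q = 1 * F ^ q := (one_mul _).symm
      _ ≤ _ := mul_le_mul' h4 le_rfl

/-- geometric sums -/
lemma geo {x : ℝ} (hx : 0 < x) : ∑' i : ℕ, (2 : ℝ≥0∞) ^ (-(x * i)) ≠ ⊤ := by
  have e : ∀ i : ℕ, (2 : ℝ≥0∞) ^ (-(x * i)) = ((2 : ℝ≥0∞) ^ (-x)) ^ i := by
    intro i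
    rw [← ENNReal.rpow_natCast, ← ENNReal.rpow_mul]
    congr 1; ring
  simp only [e]
  rw [ENNReal.tsum_geometric]
  refine ENNReal.inv_ne_top.2 ?_
  rw [Ne, tsub_eq_zero_iff_le, not_le]
  exact ENNReal.rpow_lt_one_of_one_lt_of_neg (by norm_num) (by linarith)

/-- replacing a sum by a weighted sum of powers -/
lemma tsum_rpow_le (a : ℕ → ℝ≥0∞) {δ q : ℝ} (hq : 0 < q) :
    (∑' i, a i) ^ q ≤ (∑' i : ℕ, (2 : ℝ≥0∞) ^ (-(δ * i))) ^ q *
      ∑' i : ℕ, (2 : ℝ≥0∞) ^ (δ * q * i) * a i ^ q := by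
  set M := (∑' i : ℕ, (2 : ℝ≥0∞) ^ (δ * q * i) * a i ^ q) ^ (1 / q) with hM
  have hMq : M ^ q = ∑' i : ℕ, (2 : ℝ≥0∞) ^ (δ * q * i) * a i ^ q := by
    rw [hM, ← ENNReal.rpow_mul]
    field_simp
    rw [ENNReal.rpow_one]
  have h1 : ∀ i : ℕ, a i ≤ (2 : ℝ≥0∞) ^ (-(δ * i)) * M := by
    intro i
    have h2 : ((2 : ℝ≥0∞) ^ (δ * i) * a i) ^ q ≤ M ^ q := by
      rw [hMq, ENNReal.mul_rpow_of_nonneg _ _ hq.le, ← ENNReal.rpow_mul]
      have e : δ * i * q = δ * q * i := by ring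
      rw [e]
      exact ENNReal.le_tsum i
    have h3 : (2 : ℝ≥0∞) ^ (δ * i) * a i ≤ M := (ENNReal.rpow_le_rpow_iff hq).1 h2
    calc a i = ((2 : ℝ≥0∞) ^ (-(δ * i)) * (2 : ℝ≥0∞) ^ (δ * i)) * a i := by
          rw [← ENNReal.rpow_add _ _ (by norm_num) (by norm_num)]
          simp
      _ = (2 : ℝ≥0∞) ^ (-(δ * i)) * ((2 : ℝ≥0∞) ^ (δ * i) * a i) := by ring
      _ ≤ _ := mul_le_mul' le_rfl h3
  calc (∑' i, a i) ^ q ≤ (∑' i : ℕ, (2 : ℝ≥0∞) ^ (-(δ * i)) * M) ^ q :=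
        ENNReal.rpow_le_rpow (ENNReal.tsum_le_tsum h1) hq.le
    _ = ((∑' i : ℕ, (2 : ℝ≥0∞) ^ (-(δ * i))) * M) ^ q := by rw [ENNReal.tsum_mul_right]
    _ = _ := by rw [ENNReal.mul_rpow_of_nonneg _ _ hq.le, hMq]

/-- monotonicity of the maximal function -/
lemma MF_mono {g h : E n → ℝ≥0∞} (hgh : ∀ x, g x ≤ h x) (x : E n) : MF g x ≤ MF h x :=
  iSup₂_mono fun _ _ => mul_le_mul' le_rfl (lintegral_mono hgh)

lemma enorm_lev_le (f : E n → ℝ) (k : ℤ) (y : E n) :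
    ‖(lev f k y : ℂ)‖ₑ ≤ ({x | (2 : ℝ) ^ k < f x}.indicator 1 : E n → ℝ≥0∞) y := by
  by_cases h : (2 : ℝ) ^ k < f y
  · rw [Set.indicator_of_mem (by exact h), Pi.one_apply, ← ofReal_norm, Complex.norm_real,
      Real.norm_of_nonneg (lev_nonneg f k y)]
    rw [← ENNReal.ofReal_one]
    exact ENNReal.ofReal_le_ofReal (lev_le_one f k y)
  · rw [lev_zero (not_lt.1 h)]
    simp

/-- the `i`-th piece in `L^q` -/
lemma piece (hMeas : tMeas) (hMFind : tMFind) {C₀ : ℝ≥0} {k₀ : ℕ}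
    (hT : ∀ (i : ℕ) (f : E n → ℂ), Integrable f → ∀ x,
      Tstar i f x ≤ C₀ * 2 ^ (k₀ * i) * MF (fun y => ‖f y‖ₑ) x)
    {c A q p r : ℝ} (hA : 0 < A) (hp : 1 < p) (hr : 0 < r)
    (hqp : (2 ≤ q ∧ q ≤ p) ∨ (p ≤ q ∧ q ≤ 2)) (h1 : r * |q - 2| ≤ c / 2)
    (h2 : k₀ * p + 1 ≤ r * |q - p|) :
    ∃ B : ℝ≥0, ∀ (f : E n → ℝ), Measurable f → Integrable f → (∀ x, 0 ≤ f x) → ∀ (k : ℤ) (i : ℕ),
      ∫⁻ x, Tstar i (fun y => (lev f k y : ℂ)) x ^ 2 ≤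
        ENNReal.ofReal (A * 2 ^ (-(c * i))) * volume {x | (2 : ℝ) ^ k < f x} →
      ∫⁻ x, Tstar i (fun y => (lev f k y : ℂ)) x ^ q ≤
        B * (2 : ℝ≥0∞) ^ (-(min (c / 2) 1 * i)) * volume {x | (2 : ℝ) ^ k < f x} := by
  obtain ⟨C₁, hC₁⟩ := hMFind n p hp
  have hp0 : (0 : ℝ) < p := by linarith
  refine ⟨A.toNNReal + C₀ ^ p * C₁, fun f hf hi h0 k i hL2 => ?_⟩
  set V := volume {x | (2 : ℝ) ^ k < f x} with hV
  have hms : MeasurableSet {x | (2 : ℝ) ^ k < f x} := measurableSet_lt measurable_const hf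
  set F : E n → ℝ≥0∞ := Tstar i (fun y => (lev f k y : ℂ)) with hF
  have hFm : Measurable F := (hMeas n _ (lev_intC hf hi h0 k)).2.2 i
  set L : ℝ≥0∞ := (2 : ℝ≥0∞) ^ (r * i) with hLdef
  have hL : 1 ≤ L := by
    have := ENNReal.rpow_le_rpow (by norm_num : (1 : ℝ≥0∞) ≤ 2)
      (by positivity : (0 : ℝ) ≤ r * i)
    simpa using this
  have hL' : L ≠ ⊤ := ENNReal.rpow_ne_top_of_nonneg (by positivity) (by norm_num)
  have hpt : ∀ x, F x ^ q ≤ L ^ |q - 2| * F x ^ (2 : ℝ) + (L ^ |q - p|)⁻¹ * F x ^ p := by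
    intro x
    rcases hqp with ⟨a, b⟩ | ⟨a, b⟩
    · rw [abs_of_nonneg (by linarith), abs_of_nonpos (by linarith), neg_sub]
      exact interp_up hL hL' a b
    · rw [abs_of_nonpos (by linarith : q - 2 ≤ 0), abs_of_nonneg (by linarith), neg_sub]
      exact interp_down hL hL' hp0.le a b
  have hFp : ∫⁻ x, F x ^ p ≤ (C₀ : ℝ≥0∞) ^ p * (2 : ℝ≥0∞) ^ (k₀ * p * i) * (C₁ * V) := by
    calc ∫⁻ x, F x ^ p
        ≤ ∫⁻ x, ((C₀ : ℝ≥0∞) * 2 ^ (k₀ * i) *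
            MF ({x | (2 : ℝ) ^ k < f x}.indicator 1 : E n → ℝ≥0∞) x) ^ p := by
          refine lintegral_mono fun x => ENNReal.rpow_le_rpow ?_ hp0.le
          refine (hT i _ (lev_intC hf hi h0 k) x).trans (mul_le_mul' le_rfl ?_)
          exact MF_mono (enorm_lev_le f k) x
      _ = ∫⁻ x, ((C₀ : ℝ≥0∞) * 2 ^ (k₀ * i)) ^ p *
            MF ({x | (2 : ℝ) ^ k < f x}.indicator 1 : E n → ℝ≥0∞) x ^ p := by
          refine lintegral_congr fun x => ENNReal.mul_rpow_of_nonneg _ _ hp0.le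
      _ = ((C₀ : ℝ≥0∞) * 2 ^ (k₀ * i)) ^ p *
            ∫⁻ x, MF ({x | (2 : ℝ) ^ k < f x}.indicator 1 : E n → ℝ≥0∞) x ^ p := by
          rw [lintegral_const_mul' _ _ (ENNReal.rpow_ne_top_of_nonneg hp0.le
            (ENNReal.mul_ne_top ENNReal.coe_ne_top (ENNReal.pow_ne_top (by norm_num))))]
      _ ≤ ((C₀ : ℝ≥0∞) * 2 ^ (k₀ * i)) ^ p * (C₁ * V) := mul_le_mul' le_rfl (hC₁ _ hms)
      _ = _ := by
          rw [ENNReal.mul_rpow_of_nonneg _ _ hp0.le, ← ENNReal.rpow_natCast, ← ENNReal.rpow_mul]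
          congr 3
          push_cast
          ring
  have hF2 : ∫⁻ x, F x ^ (2 : ℝ) ≤ ENNReal.ofReal A * (2 : ℝ≥0∞) ^ (-(c * i)) * V := by
    have e1 : ∫⁻ x, F x ^ (2 : ℝ) = ∫⁻ x, F x ^ 2 :=
      lintegral_congr fun x => by rw [← ENNReal.rpow_natCast]; norm_num
    rw [e1]
    refine hL2.trans (le_of_eq ?_)
    rw [ENNReal.ofReal_mul hA.le, ← ENNReal.ofReal_rpow_of_pos (by norm_num)]
    norm_num
  calc ∫⁻ x, F x ^ q
      ≤ ∫⁻ x, (L ^ |q - 2| * F x ^ (2 : ℝ) + (L ^ |q - p|)⁻¹ * F x ^ p) := lintegral_mono hpt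
    _ = L ^ |q - 2| * (∫⁻ x, F x ^ (2 : ℝ)) + (L ^ |q - p|)⁻¹ * ∫⁻ x, F x ^ p := by
        rw [lintegral_add_left ((hFm.pow_const _).const_mul _),
          lintegral_const_mul _ (hFm.pow_const _), lintegral_const_mul _ (hFm.pow_const _)]
    _ ≤ L ^ |q - 2| * (ENNReal.ofReal A * (2 : ℝ≥0∞) ^ (-(c * i)) * V) +
          (L ^ |q - p|)⁻¹ * ((C₀ : ℝ≥0∞) ^ p * (2 : ℝ≥0∞) ^ (k₀ * p * i) * (C₁ * V)) :=
        add_le_add (mul_le_mul' le_rfl hF2) (mul_le_mul' le_rfl hFp)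
    _ = (ENNReal.ofReal A * (2 : ℝ≥0∞) ^ (r * i * |q - 2| + -(c * i)) +
          (C₀ : ℝ≥0∞) ^ p * C₁ * (2 : ℝ≥0∞) ^ (-(r * i * |q - p|) + k₀ * p * i)) * V := by
        rw [hLdef, ENNReal.rpow_add _ _ (by norm_num) (by norm_num),
          ENNReal.rpow_add _ _ (by norm_num) (by norm_num), ← ENNReal.rpow_mul, ← ENNReal.rpow_mul,
          ← ENNReal.rpow_neg]
        ring
    _ ≤ (ENNReal.ofReal A * (2 : ℝ≥0∞) ^ (-(min (c / 2) 1 * i)) +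
          (C₀ : ℝ≥0∞) ^ p * C₁ * (2 : ℝ≥0∞) ^ (-(min (c / 2) 1 * i))) * V := by
        have hi0 : (0 : ℝ) ≤ i := Nat.cast_nonneg i
        have m1 := min_le_left (c / 2) 1
        have m2 := min_le_right (c / 2) 1
        gcongr
        · norm_num
        · nlinarith
        · norm_num
        · nlinarith
    _ = _ := by
        rw [← add_mul]
        congr 2
        rw [ENNReal.coe_add, ENNReal.coe_mul, ENNReal.coe_rpow_of_nonneg _ hp0.le]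
        rfl

/-- `L^q` bound for the maximal function of a level -/
lemma level_bound (hSplit : tSplit) (hMeas : tMeas) (hPdom : tPdom) (hMFind : tMFind)
    {C₀ : ℝ≥0} {k₀ : ℕ} (hT : ∀ (i : ℕ) (f : E n → ℂ), Integrable f → ∀ x,
      Tstar i f x ≤ C₀ * 2 ^ (k₀ * i) * MF (fun y => ‖f y‖ₑ) x)
    {c A q p r : ℝ} (hc : 0 < c) (hA : 0 < A) (hp : 1 < p) (hq : 1 < q) (hr : 0 < r)
    (hqp : (2 ≤ q ∧ q ≤ p) ∨ (p ≤ q ∧ q ≤ 2)) (h1 : r * |q - 2| ≤ c / 2)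
    (h2 : k₀ * p + 1 ≤ r * |q - p|) :
    ∃ B : ℝ≥0, ∀ (f : E n → ℝ), Measurable f → Integrable f → (∀ x, 0 ≤ f x) → ∀ k : ℤ,
      (∀ i : ℕ, ∫⁻ x, Tstar i (fun y => (lev f k y : ℂ)) x ^ 2 ≤
        ENNReal.ofReal (A * 2 ^ (-(c * i))) * volume {x | (2 : ℝ) ^ k < f x}) →
      ∫⁻ x, Sstar (fun y => (lev f k y : ℂ)) x ^ q ≤ B * volume {x | (2 : ℝ) ^ k < f x} := by
  obtain ⟨B₁, hB₁⟩ := piece (n := n) hMeas hMFind hT hA hp hr hqp h1 h2
  obtain ⟨CP, hCP⟩ := hPdom n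
  obtain ⟨C₂, hC₂⟩ := hMFind n q hq
  have hq0 : 0 < q := by linarith
  set c' := min (c / 2) 1 with hc'
  have hc'0 : 0 < c' := lt_min (by linarith) one_pos
  set δ := c' / (2 * q) with hδ
  have hδ0 : 0 < δ := by positivity
  have hδq : δ * q = c' / 2 := by rw [hδ]; field_simp
  set D : ℝ≥0∞ := (∑' i : ℕ, (2 : ℝ≥0∞) ^ (-(δ * i))) ^ q with hD
  have hDt : D ≠ ⊤ := ENNReal.rpow_ne_top_of_nonneg hq0.le (geo hδ0)
  set G : ℝ≥0∞ := ∑' i : ℕ, (2 : ℝ≥0∞) ^ (-(c' / 2 * i)) with hG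
  have hGt : G ≠ ⊤ := geo (by positivity)
  set Bt : ℝ≥0∞ := 2 ^ (q - 1) * ((CP : ℝ≥0∞) ^ q * C₂ + D * (B₁ * G)) with hBt
  have hBtt : Bt ≠ ⊤ := by
    refine ENNReal.mul_ne_top (ENNReal.rpow_ne_top_of_nonneg (by linarith) (by norm_num))
      (ENNReal.add_ne_top.2 ⟨ENNReal.mul_ne_top (ENNReal.rpow_ne_top_of_nonneg hq0.le
        ENNReal.coe_ne_top) ENNReal.coe_ne_top, ENNReal.mul_ne_top hDt
        (ENNReal.mul_ne_top ENNReal.coe_ne_top hGt)⟩)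
  refine ⟨Bt.toNNReal, fun f hf hi h0 k hL2 => ?_⟩
  rw [ENNReal.coe_toNNReal hBtt]
  set V := volume {x | (2 : ℝ) ^ k < f x} with hV
  have hms : MeasurableSet {x | (2 : ℝ) ^ k < f x} := measurableSet_lt measurable_const hf
  have hli := lev_intC hf hi h0 k
  have hPm : Measurable (Pstar (fun y => (lev f k y : ℂ))) := (hMeas n _ hli).2.1
  have hTm : ∀ i, Measurable (Tstar i (fun y => (lev f k y : ℂ))) := (hMeas n _ hli).2.2
  have hP : ∫⁻ x, Pstar (fun y => (lev f k y : ℂ)) x ^ q ≤ (CP : ℝ≥0∞) ^ q * C₂ * V := by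
    calc ∫⁻ x, Pstar (fun y => (lev f k y : ℂ)) x ^ q
        ≤ ∫⁻ x, (CP : ℝ≥0∞) ^ q *
            MF ({x | (2 : ℝ) ^ k < f x}.indicator 1 : E n → ℝ≥0∞) x ^ q := by
          refine lintegral_mono fun x => ?_
          rw [← ENNReal.mul_rpow_of_nonneg _ _ hq0.le]
          refine ENNReal.rpow_le_rpow ((hCP _ hli x).trans (mul_le_mul' le_rfl ?_)) hq0.le
          exact MF_mono (enorm_lev_le f k) x
      _ = (CP : ℝ≥0∞) ^ q *
            ∫⁻ x, MF ({x | (2 : ℝ) ^ k < f x}.indicator 1 : E n → ℝ≥0∞) x ^ q := by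
          rw [lintegral_const_mul' _ _ (ENNReal.rpow_ne_top_of_nonneg hq0.le ENNReal.coe_ne_top)]
      _ ≤ (CP : ℝ≥0∞) ^ q * (C₂ * V) := mul_le_mul' le_rfl (hC₂ _ hms)
      _ = _ := by ring
  have hSum : ∫⁻ x, (∑' i, Tstar i (fun y => (lev f k y : ℂ)) x) ^ q ≤ D * (B₁ * G) * V := by
    calc ∫⁻ x, (∑' i, Tstar i (fun y => (lev f k y : ℂ)) x) ^ q
        ≤ ∫⁻ x, D * ∑' i : ℕ, (2 : ℝ≥0∞) ^ (δ * q * i) *
            Tstar i (fun y => (lev f k y : ℂ)) x ^ q :=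
          lintegral_mono fun x => tsum_rpow_le _ hq0
      _ = D * ∑' i : ℕ, (2 : ℝ≥0∞) ^ (δ * q * i) *
            ∫⁻ x, Tstar i (fun y => (lev f k y : ℂ)) x ^ q := by
          rw [lintegral_const_mul' _ _ hDt, lintegral_tsum fun i =>
            (((hTm i).pow_const _).const_mul _).aemeasurable]
          congr 1
          refine tsum_congr fun i => ?_
          rw [lintegral_const_mul _ ((hTm i).pow_const _)]
      _ ≤ D * ∑' i : ℕ, (2 : ℝ≥0∞) ^ (δ * q * i) *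
            (B₁ * (2 : ℝ≥0∞) ^ (-(c' * i)) * V) := by
          refine mul_le_mul' le_rfl (ENNReal.tsum_le_tsum fun i => mul_le_mul' le_rfl ?_)
          exact hB₁ f hf hi h0 k i (hL2 i)
      _ = D * ∑' i : ℕ, (2 : ℝ≥0∞) ^ (-(c' / 2 * i)) * (B₁ * V) := by
          congr 1
          refine tsum_congr fun i => ?_
          have e : (2 : ℝ≥0∞) ^ (-(c' / 2 * i)) = (2 : ℝ≥0∞) ^ (δ * q * i) *
              (2 : ℝ≥0∞) ^ (-(c' * i)) := by
            rw [← ENNReal.rpow_add _ _ (by norm_num) (by norm_num), hδq]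
            congr 1; ring
          rw [e]; ring
      _ = _ := by rw [ENNReal.tsum_mul_right]; ring
  calc ∫⁻ x, Sstar (fun y => (lev f k y : ℂ)) x ^ q
      ≤ ∫⁻ x, 2 ^ (q - 1) * (Pstar (fun y => (lev f k y : ℂ)) x ^ q +
          (∑' i, Tstar i (fun y => (lev f k y : ℂ)) x) ^ q) := by
        refine lintegral_mono fun x => ?_
        exact (ENNReal.rpow_le_rpow (hSplit n _ hli x) hq0.le).trans
          (ENNReal.rpow_add_le_mul_rpow_add_rpow _ _ hq.le)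
    _ = 2 ^ (q - 1) * ((∫⁻ x, Pstar (fun y => (lev f k y : ℂ)) x ^ q) +
          ∫⁻ x, (∑' i, Tstar i (fun y => (lev f k y : ℂ)) x) ^ q) := by
        rw [lintegral_const_mul' _ _ (ENNReal.rpow_ne_top_of_nonneg (by linarith) (by norm_num)),
          lintegral_add_left (hPm.pow_const _)]
    _ ≤ 2 ^ (q - 1) * ((CP : ℝ≥0∞) ^ q * C₂ * V + D * (B₁ * G) * V) :=
        mul_le_mul' le_rfl (add_le_add hP hSum)
    _ = _ := by rw [hBt]; ring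

end Pool.Agent.MBS.SuperJob
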