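import Pool.Agent.MBS.Defs

set_option autoImplicit false

/-! Maximal ball partial sums (MP_ee701d_an): exact targets, see Blueprint.lean.txt. -/

namespace Pool.Agent.MBS

open MeasureTheory FourierTransform Set
open scoped ENNReal NNReal

/-! ### Multiplier calculus -/

/-- J1 Plancherel for `T` -/
def tPlanch : Prop :=
  ∀ (n : ℕ) (a : E n → ℝ) (h : E n → ℂ), Continuous a → HasCompactSupport a → Continuous h →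
    ∫⁻ x, ‖T a h x‖ₑ ^ 2 = ∫⁻ ξ, ‖a ξ‖ₑ ^ 2 * ‖h ξ‖ₑ ^ 2

/-- J1 -/
def tTcont : Prop :=
  ∀ (n : ℕ) (a : ℝ → E n → ℝ) (h : E n → ℂ), Fam a → Continuous h →
    ContinuousOn (fun p : ℝ × E n => T (a p.1) h p.2) (Ioi 0 ×ˢ univ)

/-- J1 -/
def tTderiv : Prop :=
  ∀ (n : ℕ) (a a' : ℝ → E n → ℝ) (h : E n → ℂ), Fam a → Fam a' → Continuous h → DerR a a' →
    ∀ R, 0 < R → ∀ x, HasDerivAt (fun r => T (a r) h x) (T (a' R) h x) R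

/-- J2 Sobolev in `R` -/
def tSob : Prop :=
  ∀ (n : ℕ) (a a' : ℝ → E n → ℝ) (h : E n → ℂ), Fam a → Fam a' → Continuous h → DerR a a' →
    ∀ l : ℝ≥0, 0 < l →
    ∫⁻ x, (⨆ R ∈ Icc (1 : ℝ) 2, ‖T (a R) h x‖ₑ) ^ 2 ≤
      ∫⁻ ξ, ((1 + (l : ℝ≥0∞)) * (∫⁻ R in Icc (1 : ℝ) 2, ‖a R ξ‖ₑ ^ 2) +
        (l : ℝ≥0∞)⁻¹ * ∫⁻ R in Icc (1 : ℝ) 2, ‖a' R ξ‖ₑ ^ 2) * ‖h ξ‖ₑ ^ 2

/-- J3 the oscillator lemma on `[1,2]`, subdivided into `K` intervals -/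
def tOde : Prop :=
  ∃ C : ℝ, 0 < C ∧ ∀ (F F1 F2 : ℝ → ℂ) (q : ℝ) (K : ℕ), 1 ≤ K → 0 ≤ q →
    ContinuousOn F2 (Icc 1 2) →
    (∀ R ∈ Icc (1 : ℝ) 2, HasDerivAt F (F1 R) R) → (∀ R ∈ Icc (1 : ℝ) 2, HasDerivAt F1 (F2 R) R) →
    ∀ R ∈ Icc (1 : ℝ) 2, ‖F R‖ ^ 2 ≤
      C * (K * (∫ r in (1 : ℝ)..2, ‖F r‖ ^ 2) +
        (K : ℝ)⁻¹ ^ 3 * ∫ r in (1 : ℝ)..2, ‖F2 r + (q : ℂ) * F r‖ ^ 2)

/-- J4 the oscillator lemma for families of multiplier operators -/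
def tOdeT : Prop :=
  ∃ C : ℝ≥0, ∀ (n : ℕ) (a a1 a2 : ℝ → E n → ℝ) (h : E n → ℂ) (q : E n → ℝ) (K : ℕ), 1 ≤ K →
    Fam a → Fam a1 → Fam a2 → Continuous h → DerR a a1 → DerR a1 a2 → Continuous q →
    (∀ x, 0 ≤ q x) →
    ∫⁻ x, (⨆ R ∈ Icc (1 : ℝ) 2, ‖T (a R) h x‖ₑ) ^ 2 ≤
      C * (K * (∫⁻ R in Icc (1 : ℝ) 2, ∫⁻ x, ‖T (a R) h x‖ₑ ^ 2) +
        (K : ℝ≥0∞)⁻¹ ^ 3 *
          ∫⁻ R in Icc (1 : ℝ) 2, ∫⁻ x, ‖T (a2 R) h x + (q x : ℂ) * T (a R) h x‖ₑ ^ 2)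

/-! ### The annulus multipliers -/

/-- J5 facts on the profile `ps` -/
def tPs : Prop :=
  ContDiff ℝ ((⊤ : ℕ∞) : WithTop ℕ∞) ps ∧
  (∀ u, (u < 1 / 8 ∨ 1 / 2 < u) → ps u = 0 ∧ ps1 u = 0 ∧ ps2 u = 0) ∧
  (∀ u, et u = 0 ∨ 1 / 4 < u) ∧ (∀ u, 1 / 2 ≤ u → et u = 1) ∧ (∀ u, 0 ≤ et u ∧ et u ≤ 1) ∧
  ∃ B : ℝ, 1 ≤ B ∧ ∀ u, |ps u| ≤ B ∧ |ps1 u| ≤ B ∧ |ps2 u| ≤ B

/-- J5 -/
def tMulFam : Prop :=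
  ∀ (n i : ℕ), Fam (mul (n := n) i) ∧ Fam (mR (n := n) i) ∧ Fam (mRR (n := n) i) ∧
    DerR (mul (n := n) i) (mR i) ∧ DerR (mR (n := n) i) (mRR i) ∧ Fam (pm (n := n)) ∧
    ∀ j, Fam (mj (n := n) i j) ∧ Fam (mjj (n := n) i j)

/-- J5 -/
def tMulj : Prop :=
  ∀ (n i : ℕ) (j : Fin n) (R : ℝ) (ξ : E n), 0 < R →
    HasDerivAt (fun t : ℝ => mul i R (ξ + t • e j)) (mj i j R ξ) 0 ∧
    HasDerivAt (fun t : ℝ => mj i j R (ξ + t • e j)) (mjj i j R ξ) 0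

/-- J5 for fixed `ξ` only a set of `R ∈ [1,2]` of measure `O(2^{-i})` matters -/
def tMeasR : Prop :=
  ∀ (n i : ℕ) (ξ : E n),
    volume {R : ℝ | R ∈ Icc (1 : ℝ) 2 ∧ 1 / 8 ≤ vv i R ξ ∧ vv i R ξ ≤ 1 / 2} ≤
      ENNReal.ofReal (4 / 2 ^ i)

/-- J5 no loss: `sup_{R ∈ [1,2]}` of the `i`-th annulus operator -/
def tF2 : Prop :=
  ∃ C : ℝ≥0, ∀ (n i : ℕ) (h : E n → ℂ), Continuous h →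
    ∫⁻ x, (⨆ R ∈ Icc (1 : ℝ) 2, ‖T (mul i R) h x‖ₑ) ^ 2 ≤
      C * ∫⁻ ξ in {ξ : E n | 1 / 2 ≤ ‖ξ‖ ∧ ‖ξ‖ ≤ 2}, ‖h ξ‖ₑ ^ 2

/-- J6 multiplication by `(2 π x_j)²` on the image side; `a1, a2` are the first and second
derivatives of `a` in direction `e_j` -/
def tXj : Prop :=
  ∀ (n : ℕ) (j : Fin n) (a a1 a2 : E n → ℝ) (g : E n → ℂ),
    Continuous a → Continuous a1 → Continuous a2 → HasCompactSupport a → HasCompactSupport a1 →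
    HasCompactSupport a2 →
    (∀ ξ, HasDerivAt (fun t : ℝ => a (ξ + t • e j)) (a1 ξ) 0) →
    (∀ ξ, HasDerivAt (fun t : ℝ => a1 (ξ + t • e j)) (a2 ξ) 0) →
    Integrable g → Integrable (fun y => (y j : ℂ) * g y) →
    Integrable (fun y => (y j : ℂ) ^ 2 * g y) →
    ∀ x : E n, ((2 * Real.pi * x j : ℝ) : ℂ) ^ 2 * T a (𝓕 g) x =
      - T a2 (𝓕 g) x + 4 * Real.pi * Complex.I * T a1 (𝓕 (fun y => (y j : ℂ) * g y)) x +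
        4 * Real.pi ^ 2 * T a (𝓕 (fun y => (y j : ℂ) ^ 2 * g y)) x

/-- J6 the same for the kernel (`h = 1`) -/
def tXjK : Prop :=
  ∀ (n : ℕ) (j : Fin n) (a a1 a2 : E n → ℝ),
    Continuous a → Continuous a1 → Continuous a2 → HasCompactSupport a → HasCompactSupport a1 →
    HasCompactSupport a2 →
    (∀ ξ, HasDerivAt (fun t : ℝ => a (ξ + t • e j)) (a1 ξ) 0) →
    (∀ ξ, HasDerivAt (fun t : ℝ => a1 (ξ + t • e j)) (a2 ξ) 0) →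
    ∀ x : E n, ((2 * Real.pi * x j : ℝ) : ℂ) ^ 2 * T a (fun _ => 1) x = - T a2 (fun _ => 1) x

/-- J7 the gain `1/P`, `s` = short directions -/
def tGain : Prop :=
  ∀ n : ℕ, ∃ C : ℝ≥0, ∀ (i : ℕ) (s : Finset (Fin n)) (g : E n → ℂ), Measurable g →
    Integrable g → MemLp g 2 → (∀ x, g x ≠ 0 → ∀ j ∈ s, |x j| ≤ 2 * (PP i : ℝ) ^ 2) →
    ∫⁻ x, (⨆ R ∈ Icc (1 : ℝ) 2, ‖T (mul i R) (𝓕 g) x‖ₑ) ^ 2 ≤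
      C * ((PP i : ℝ≥0∞)⁻¹ * (∫⁻ x, ‖g x‖ₑ ^ 2) +
        ∑ j ∈ sᶜ, ∫⁻ ξ in {ξ : E n | (PP i : ℝ)⁻¹ ≤ |ξ j|}, ‖𝓕 g ξ‖ₑ ^ 2)

/-- J7 the gain for the kernel -/
def tGainK : Prop :=
  ∀ n : ℕ, ∃ C : ℝ≥0, ∀ i : ℕ,
    ∫⁻ x : E n, (⨆ R ∈ Icc (1 : ℝ) 2, ‖T (mul i R) (fun _ => 1) x‖ₑ) ^ 2 ≤ C * (PP i : ℝ≥0∞)⁻¹

/-! ### Scaling -/

/-- J8 -/
def tScale : Prop :=
  ∀ (n i : ℕ) (c : ℝ) (f : E n → ℂ), 0 < c →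
    W i 1 (dil c f) = ENNReal.ofReal (c ^ n) * W i c f

/-- J8 (from J5, J8) -/
def tF2c : Prop :=
  ∃ C : ℝ≥0, ∀ (n i : ℕ) (c : ℝ) (f : E n → ℂ), 0 < c → Integrable f →
    W i c f ≤ C * ∫⁻ ξ in {ξ : E n | c / 2 ≤ ‖ξ‖ ∧ ‖ξ‖ ≤ 2 * c}, ‖𝓕 f ξ‖ₑ ^ 2

/-- J8 (from J7, J8) -/
def tGainc : Prop :=
  ∀ n : ℕ, ∃ C : ℝ≥0, ∀ (i : ℕ) (c : ℝ) (s : Finset (Fin n)) (g : E n → ℂ), 0 < c →
    Measurable g → Integrable g → MemLp g 2 →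
    (∀ x, g x ≠ 0 → ∀ j ∈ s, c * |x j| ≤ 2 * (PP i : ℝ) ^ 2) →
    W i c g ≤ C * ((PP i : ℝ≥0∞)⁻¹ * (∫⁻ x, ‖g x‖ₑ ^ 2) +
        ∑ j ∈ sᶜ, ∫⁻ ξ in {ξ : E n | c / (PP i : ℝ) ≤ |ξ j|}, ‖𝓕 g ξ‖ₑ ^ 2)

/-- J8 (from the kernel gain): functions in `L¹` -/
def tGainL1 : Prop :=
  ∀ n : ℕ, ∃ C : ℝ≥0, ∀ (i : ℕ) (c : ℝ) (f : E n → ℂ), 0 < c → Measurable f → Integrable f →
    W i c f ≤ C * (PP i : ℝ≥0∞)⁻¹ * ENNReal.ofReal (c ^ n) * (∫⁻ x, ‖f x‖ₑ) ^ 2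

/-- J8 the trivial bound summed over dyadic scales -/
def tTriv : Prop :=
  ∃ C : ℝ≥0, ∀ (n i : ℕ) (f : E n → ℂ), Integrable f → MemLp f 2 →
    ∑' m : ℤ, W i (2 ^ m) f ≤ C * ∫⁻ x, ‖f x‖ₑ ^ 2

/-- J8 -/
def tTstarW : Prop :=
  ∀ (n i : ℕ) (f : E n → ℂ), Integrable f → ∫⁻ x, Tstar i f x ^ 2 ≤ ∑' m : ℤ, W i (2 ^ m) f

/-! ### Frequency localisation of energy -/

/-- J9 high frequencies and translations -/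
def tHigh : Prop :=
  ∀ (n : ℕ) (j : Fin n) (g : E n → ℂ) (t0 : ℝ), 0 < t0 → Measurable g → Integrable g →
    MemLp g 2 →
    ∫⁻ ξ in {ξ : E n | t0⁻¹ ≤ |ξ j|}, ‖𝓕 g ξ‖ₑ ^ 2 ≤
      2 * ∫⁻ t in Icc t0 (2 * t0),
        (∫⁻ x, ‖g (x + t • e j) - g x‖ₑ ^ 2) * ENNReal.ofReal t⁻¹

/-- J9 low frequencies of functions supported in a slab -/
def tLow : Prop :=
  ∀ (n : ℕ) (j : Fin n) (g : E n → ℂ) (b c : ℝ), 0 < b → 0 < c → Measurable g → Integrable g →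
    MemLp g 2 → (∀ x, g x ≠ 0 → |x j| ≤ b) →
    ∫⁻ ξ in {ξ : E n | |ξ j| ≤ 2 * c}, ‖𝓕 g ξ‖ₑ ^ 2 ≤
      ENNReal.ofReal (64 * c * √b) * ∫⁻ x, ‖g x‖ₑ ^ 2 * ENNReal.ofReal √|x j|

/-! ### The main estimate -/

/-- J10a short coordinates -/
def tShort : Prop :=
  ∃ C : ℝ≥0, ∀ (n i : ℕ) (j : Fin n) (f : E n → ℂ) (g : ℤ → E n → ℂ), Measurable f →
    Integrable f → MemLp f 2 → (∀ m, Measurable (g m)) → (∀ m x, ‖g m x‖ ≤ ‖f x‖) →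
    (∀ m x, g m x ≠ 0 → (2 : ℝ) ^ m * |x j| < (PP i : ℝ)⁻¹) →
    ∑' m : ℤ, W i (2 ^ m) (g m) ≤ C * (PP i : ℝ≥0∞)⁻¹ * ∫⁻ x, ‖f x‖ₑ ^ 2

/-- J10b long coordinates: the high frequencies -/
def tLong : Prop :=
  ∃ C : ℝ≥0, ∀ (n i : ℕ) (j : Fin n) (f : E n → ℂ) (θ : ℤ → E n → ℝ), 8 ≤ i → Measurable f →
    Integrable f → MemLp f 2 → (∀ m, Measurable (θ m)) → (∀ m x, |θ m x| ≤ 1) →
    (∀ m x (t : ℝ), θ m (x + t • e j) = θ m x) →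
    ∑' m : ℤ, ∫⁻ ξ in {ξ : E n | (2 : ℝ) ^ m / (PP i : ℝ) ≤ |ξ j|},
        ‖𝓕 (fun x => ((θ m x * chi ((2 : ℝ) ^ m * x j / (PP i : ℝ) ^ 2) : ℝ) : ℂ) * f x) ξ‖ₑ ^ 2 ≤
      C * ((PP i : ℝ≥0∞)⁻¹ * (∫⁻ x, ‖f x‖ₑ ^ 2) + om j (2 / (PP i : ℝ)) f)

/-- J10 -/
def tMain : Prop :=
  ∀ n : ℕ, ∃ C : ℝ≥0, ∀ (i : ℕ) (f : E n → ℂ), 8 ≤ i → Measurable f → Integrable f →
    MemLp f 2 →
    ∑' m : ℤ, W i (2 ^ m) f ≤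
      C * ((i : ℝ≥0∞) * (PP i : ℝ≥0∞)⁻¹ * (∫⁻ x, ‖f x‖ₑ ^ 2) + ∑ j, om j (2 / (PP i : ℝ)) f)

/-! ### Hardy-Littlewood, kernels -/

/-- J11 -/
def tMFmeas : Prop := ∀ (n : ℕ) (f : E n → ℝ≥0∞), Measurable f → Measurable (MF f)

/-- J11 -/
def tWeak : Prop :=
  ∀ n : ℕ, ∃ C : ℝ≥0, ∀ (f : E n → ℝ≥0∞) (l : ℝ≥0), Measurable f → 0 < l →
    (l : ℝ≥0∞) * volume {x | (l : ℝ≥0∞) < MF f x} ≤ C * ∫⁻ x, f x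

/-- J11 -/
def tMF2 : Prop :=
  ∀ n : ℕ, ∃ C : ℝ≥0, ∀ f : E n → ℝ≥0∞, Measurable f → ∫⁻ x, MF f x ^ 2 ≤ C * ∫⁻ x, f x ^ 2

/-- J11 -/
def tMFind : Prop :=
  ∀ (n : ℕ) (p : ℝ), 1 < p → ∃ C : ℝ≥0, ∀ A : Set (E n), MeasurableSet A →
    ∫⁻ x, MF (A.indicator 1) x ^ p ≤ C * volume A

/-- J12 the smooth part -/
def tPdom : Prop :=
  ∀ n : ℕ, ∃ C : ℝ≥0, ∀ f : E n → ℂ, Integrable f → ∀ x,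
    Pstar f x ≤ C * MF (fun y => ‖f y‖ₑ) x

/-- J12 the crude bound for the annulus operators -/
def tTdom : Prop :=
  ∀ n : ℕ, ∃ (C : ℝ≥0) (k : ℕ), ∀ (i : ℕ) (f : E n → ℂ), Integrable f → ∀ x,
    Tstar i f x ≤ C * 2 ^ (k * i) * MF (fun y => ‖f y‖ₑ) x

/-- J13 -/
def tSplit : Prop :=
  ∀ (n : ℕ) (f : E n → ℂ), Integrable f → ∀ x, Sstar f x ≤ Pstar f x + ∑' i : ℕ, Tstar i f x

/-- J13 measurability -/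
def tMeas : Prop :=
  ∀ (n : ℕ) (f : E n → ℂ), Integrable f →
    Measurable (Sstar f) ∧ Measurable (Pstar f) ∧ ∀ i, Measurable (Tstar i f)

/-- J13, Theorem U -/
def tU : Prop :=
  ∀ n : ℕ, ∃ C : ℝ≥0, ∀ f : E n → ℂ, Measurable f → Integrable f → MemLp f 2 →
    ∫⁻ x, Sstar f x ^ 2 ≤ C * ((∫⁻ x, ‖f x‖ₑ ^ 2) + ∑ j, logReg j f)

/-- J14, Theorem E -/
def tE : Prop :=
  ∀ (n : ℕ) (s : ℝ), 1 ≤ n → 0 < s → ∃ C : ℝ, ∀ (f : E n → ℂ) (Q : ℝ), Measurable f →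
    Integrable f → MemLp f 2 → 1 ≤ Q →
    (∫⁻ x, ‖f x‖ₑ) ^ (2 * s / n) * (∫⁻ ξ, ENNReal.ofReal (‖ξ‖ ^ (2 * s)) * ‖𝓕 f ξ‖ₑ ^ 2) ^ (1 / 2 : ℝ)
      ≤ ENNReal.ofReal Q * ((∫⁻ x, ‖f x‖ₑ ^ 2) ^ (1 / 2 : ℝ)) ^ (1 + 2 * s / n) →
    (∫⁻ x, Sstar f x ^ 2) ^ (1 / 2 : ℝ) ≤
      ENNReal.ofReal (C * (1 + Real.log Q)) * (∫⁻ x, ‖f x‖ₑ ^ 2) ^ (1 / 2 : ℝ)

/-! ### Superposition of levels -/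

/-- J15 -/
def tSuper : Prop :=
  ∀ (n : ℕ) (c A : ℝ), 0 < c → 0 < A → ∃ C : ℝ≥0, ∀ f : E n → ℝ, Measurable f → Integrable f →
    (∀ x, 0 ≤ f x) →
    (∀ (k : ℤ) (i : ℕ), ∫⁻ x, Tstar i (fun y => (lev f k y : ℂ)) x ^ 2 ≤
      ENNReal.ofReal (A * 2 ^ (-(c * i))) * volume {x | (2 : ℝ) ^ k < f x}) →
    ∫⁻ x, Sstar (fun y => (f y : ℂ)) x ^ 2 ≤ C * ∫⁻ x, ENNReal.ofReal (f x) ^ 2

/-! ### Convex bodies -/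

/-- J16 -/
def tBox : Prop :=
  ∀ n : ℕ, ∃ C : ℝ, ∀ K : Set (E n), Convex ℝ K → MeasurableSet K → 0 < volume K →
    volume K ≠ ⊤ → ∃ (A : E n ≃ₗᵢ[ℝ] E n) (v : E n) (r : Fin n → ℝ), (∀ j, 0 < r j) ∧
      (∀ x, A x + v ∈ K → ∀ j, |x j| ≤ r j) ∧ ENNReal.ofReal (∏ j, r j) ≤ ENNReal.ofReal C * volume K

/-- J17 -/
def tOmConv : Prop :=
  ∀ n : ℕ, ∃ C : ℝ, ∀ (φ : E n → ℝ) (r : Fin n → ℝ) (j : Fin n) (ρ : ℝ), Measurable φ →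
    (∀ x, 0 ≤ φ x) → (∀ x, φ x ≤ 1) → (∀ l : ℝ, Convex ℝ {x | l < φ x}) →
    (∀ x, φ x ≠ 0 → ∀ j, |x j| ≤ r j) → 0 < ρ → ρ ≤ 1 / 2 →
    om j ρ (fun x => (φ x : ℂ)) ≤ ENNReal.ofReal (C * ρ * ∏ j, r j)

/-- J18 invariance under isometries -/
def tIsom : Prop :=
  ∀ (n : ℕ) (A : E n ≃ₗᵢ[ℝ] E n) (v : E n) (f : E n → ℂ) (x : E n),
    Sstar (fun y => f (A y + v)) x = Sstar f (A x + v) ∧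
    ∀ i, Tstar i (fun y => f (A y + v)) x = Tstar i f (A x + v)

/-- J19, Theorem V: quasi-concave functions -/
def tV : Prop :=
  ∀ n : ℕ, ∃ C : ℝ≥0, ∀ f : E n → ℝ, Measurable f → Integrable f → (∀ x, 0 ≤ f x) →
    (∀ l : ℝ, 0 < l → Convex ℝ {x | l < f x}) →
    ∫⁻ x, Sstar (fun y => (f y : ℂ)) x ^ 2 ≤ C * ∫⁻ x, ENNReal.ofReal (f x) ^ 2

/-- J20, Theorem I: functions whose superlevel sets have bounded isoperimetric quotient -/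
def tI : Prop :=
  ∀ (n : ℕ) (δ A : ℝ), 1 ≤ n → 0 < δ → δ ≤ 1 → 0 < A → ∃ C : ℝ≥0, ∀ f : E n → ℝ, Measurable f →
    Integrable f → (∀ x, 0 ≤ f x) →
    (∀ (l : ℝ) (h : E n), 0 < l →
      volume (symmDiff {x | l < f x} {x | l < f (x + h)}) ≤
        ENNReal.ofReal (A * ‖h‖ ^ δ * (volume {x | l < f x}).toReal ^ (1 - δ / n))) →
    ∫⁻ x, Sstar (fun y => (f y : ℂ)) x ^ 2 ≤ C * ∫⁻ x, ENNReal.ofReal (f x) ^ 2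

end Pool.Agent.MBS
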